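import Pool.Agent.H13.Ceg.En2

open MeasureTheory Set Filter Topology Metric
open scoped ContDiff ENNReal NNReal

namespace H13Ceg

lemma hasDerivAt_maxpow (n : ℕ) (hn : 1 ≤ n) (t : ℝ) :
    HasDerivAt (fun t : ℝ => (max t 0) ^ (n + 1)) ((n + 1) * (max t 0) ^ n) t := by
  rcases lt_trichotomy t 0 with h | h | h
  · rw [max_eq_right h.le, zero_pow (by omega), mul_zero]
    refine (hasDerivAt_const t (0:ℝ)).congr_of_eventuallyEq ?_
    filter_upwards [gt_mem_nhds h] with y hy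
    rw [max_eq_right hy.le, zero_pow (by omega)]
  · subst h
    rw [max_self, zero_pow (by omega), mul_zero]
    have h1 : HasDerivWithinAt (fun t : ℝ => (max t 0) ^ (n + 1)) 0 (Iic 0) 0 := by
      refine (hasDerivWithinAt_const (0:ℝ) (Iic 0) (0:ℝ)).congr (fun y hy => ?_) ?_
      · rw [max_eq_right hy, zero_pow (by omega)]
      · rw [max_self, zero_pow (by omega)]
    have h2 : HasDerivWithinAt (fun t : ℝ => (max t 0) ^ (n + 1)) 0 (Ici 0) 0 := by
      have h3 : HasDerivWithinAt (fun t : ℝ => t ^ (n + 1)) 0 (Ici 0) 0 := by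
        have := (hasDerivAt_pow (n + 1) (0:ℝ)).hasDerivWithinAt (s := Ici 0)
        simpa [zero_pow (show n ≠ 0 by omega)] using this
      refine h3.congr (fun y hy => ?_) ?_
      · rw [max_eq_left hy]
      · rw [max_self]
    have := h1.union h2
    rwa [Iic_union_Ici, hasDerivWithinAt_univ] at this
  · rw [max_eq_left h.le]
    have h1 := hasDerivAt_pow (n + 1) t
    have h2 : HasDerivAt (fun t : ℝ => t ^ (n + 1)) ((n + 1) * t ^ n) t := by
      simpa using h1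
    refine h2.congr_of_eventuallyEq ?_
    filter_upwards [lt_mem_nhds h] with y hy
    rw [max_eq_left hy.le]

noncomputable def p3 (t : ℝ) : ℝ := (max t 0) ^ 3
noncomputable def p3' (t : ℝ) : ℝ := 3 * (max t 0) ^ 2
noncomputable def p3'' (t : ℝ) : ℝ := 6 * max t 0

lemma hd_p3 (t : ℝ) : HasDerivAt p3 (p3' t) t := by
  have := hasDerivAt_maxpow 2 (by norm_num) t
  unfold p3 p3'
  norm_num at this
  exact this

lemma hd_p3' (t : ℝ) : HasDerivAt p3' (p3'' t) t := by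
  have := (hasDerivAt_maxpow 1 (by norm_num) t).const_mul 3
  unfold p3' p3''
  norm_num at this
  refine this.congr_deriv ?_
  ring

lemma p3_c2 : ContDiff ℝ 2 p3 := by
  have h1 : deriv p3 = p3' := funext fun t => (hd_p3 t).deriv
  have h2 : deriv p3' = p3'' := funext fun t => (hd_p3' t).deriv
  have e : (2 : WithTop ℕ∞) = 1 + 1 := by norm_num
  rw [e, contDiff_succ_iff_deriv]
  refine ⟨fun t => (hd_p3 t).differentiableAt, by simp, ?_⟩
  rw [h1, contDiff_one_iff_deriv, h2]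
  refine ⟨fun t => (hd_p3' t).differentiableAt, ?_⟩
  unfold p3''; fun_prop

lemma D_comp {h h' : ℝ → ℝ} {F : E → ℝ} {v : E} (hh : ∀ t, HasDerivAt h (h' t) t)
    (hF : Differentiable ℝ F) : D v (fun x => h (F x)) = fun x => h' (F x) * D v F x := by
  funext x
  have := (hh (F x)).comp_hasFDerivAt x (hF x).hasFDerivAt
  unfold D
  have e : fderiv ℝ (fun x => h (F x)) x = h' (F x) • fderiv ℝ F x := this.fderiv
  rw [e]; rfl

lemma DD_comp {h h' h'' : ℝ → ℝ} {F : E → ℝ} {a b : E} (hh : ∀ t, HasDerivAt h (h' t) t)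
    (hh' : ∀ t, HasDerivAt h' (h'' t) t) (hF : ContDiff ℝ 2 F) (x : E) :
    D a (D b (fun x => h (F x))) x
      = h'' (F x) * D a F x * D b F x + h' (F x) * D a (D b F) x := by
  have hFd := hF.differentiable (by norm_num)
  have hd' : Differentiable ℝ (fun x => h' (F x)) := fun x =>
    ((hh' (F x)).comp_hasFDerivAt x (hFd x).hasFDerivAt).differentiableAt
  rw [D_comp hh hFd, D_mul (f := fun x => h' (F x)) (g := D b F) hd'
    ((D_contDiff (m := 1) hF (by norm_num)).differentiable (by norm_num)), D_comp hh' hFd]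

lemma Lev_comp {h h' h'' : ℝ → ℝ} {F : E → ℝ} (hh : ∀ t, HasDerivAt h (h' t) t)
    (hh' : ∀ t, HasDerivAt h' (h'' t) t) (hF : ContDiff ℝ 2 F) (hc : ContDiff ℝ 2 h) {x : E}
    (h1 : ∀ t, 0 ≤ h' t) (h2 : ∀ t, 0 ≤ h'' t) {v : E} (hL : 0 ≤ Lev F x v) :
    0 ≤ Lev (fun x => h (F x)) x v := by
  have hcF : ContDiff ℝ 2 (fun x => h (F x)) := hc.comp hF
  rw [Lev_eq hcF, DD_comp hh hh' hF, DD_comp hh hh' hF]
  rw [Lev_eq hF] at hL
  have a1 := mul_nonneg (h1 (F x)) hL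
  have a2 := mul_nonneg (h2 (F x)) (sq_nonneg (D v F x))
  have a3 := mul_nonneg (h2 (F x)) (sq_nonneg (D (Complex.I • v) F x))
  nlinarith

/-- the composed test function -/
noncomputable def HH (Φ : E → ℝ) (x : E) : ℝ := p3 (1 + Φ x)

lemma HH_c2 {Φ : E → ℝ} (h : ContDiff ℝ 2 Φ) : ContDiff ℝ 2 (HH Φ) :=
  p3_c2.comp (contDiff_const.add h)

lemma HH_lev {Φ : E → ℝ} (h : ContDiff ℝ 2 Φ) {x : E} (hL : ∀ v, 0 ≤ Lev Φ x v) (v : E) :
    0 ≤ Lev (HH Φ) x v := by
  have h1 : ContDiff ℝ 2 (fun x => Φ x + 1) := h.add contDiff_const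
  have e : HH Φ = fun x => p3 ((fun x => Φ x + 1) x) := by
    funext x; unfold HH; rw [add_comm]
  rw [e]
  refine Lev_comp hd_p3 hd_p3' h1 p3_c2 (fun t => by unfold p3'; positivity)
    (fun t => by unfold p3''; positivity) ?_
  rw [Lev_eq h1, D_add_const, D_add_const, ← Lev_eq h]
  exact hL v

lemma HH_nonneg (Φ : E → ℝ) (x : E) : 0 ≤ HH Φ x := by unfold HH p3; positivity

lemma HH_le {Φ : E → ℝ} {x : E} (h : Φ x ≤ 0) : HH Φ x ≤ 1 := by
  unfold HH p3
  exact pow_le_one₀ (le_max_right _ _) (max_le (by linarith) zero_le_one)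

lemma HH_ge (Φ : E → ℝ) (x : E) : 1 + 3 * Φ x ≤ HH Φ x := by
  unfold HH p3
  by_cases h : 0 ≤ 1 + Φ x
  · rw [max_eq_left h]
    nlinarith [mul_nonneg (sq_nonneg (Φ x)) h, sq_nonneg (Φ x), mul_nonneg (sq_nonneg (1 + Φ x)) h]
  · rw [max_eq_right (not_le.mp h).le]
    nlinarith

lemma HH_zero {Φ : E → ℝ} {x : E} (h : Φ x ≤ -1) : HH Φ x = 0 := by
  unfold HH p3
  rw [max_eq_right (by linarith)]; norm_num

lemma MM_zero_of {F q : E → ℝ} {x : E} (h : F =ᶠ[𝓝 x] fun _ => 0) : MM F q x = 0 := by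
  rw [MM_congr_left h]; exact MM_const_left 0 q x

/-- comparison with the composed test function -/
theorem astar {f v Φ χ : E → ℝ} (hf : CC f) (hv : CC v) (hfv : ∀ x, f x ≤ v x) (hΦ : Adm Φ)
    (hχ : ContDiff ℝ 2 χ) {ρa ρb : ℝ}
    (hχ1 : ∀ x : E, ‖x.2‖ ≤ ρa → χ x = 1) (hχ0 : ∀ x : E, ρb ≤ ‖x.2‖ → χ x = 0)
    {ε : ℝ} (hε : 0 < ε)
    (hK : ∀ x y : E, ρa - ε < ‖x.2‖ → ‖x.2‖ < ρb + ε → ‖x‖ < 1 → ‖y - x‖ < ε → f y < v y →
      Φ x ≤ -1) {r t t' : ℝ} (ht : 0 < t) (htt' : t < t')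
    (hfg : ∀ x, r < ‖x‖ → f x = v x) (φ : ContDiffBump (0 : E)) (hφ : r + φ.rOut ≤ t)
    (hφ2 : φ.rOut ≤ 1 - t) (hφ3 : φ.rOut < ε / 2) :
    ∫ x, cut t t' ht htt' x * (χ x * HH Φ x) * dens φ f x
      ≤ ∫ x, cut t t' ht htt' x * (χ x * HH Φ x) * dens φ v x := by
  refine dens_mono (H := fun x => χ x * HH Φ x) hv hf hfv (cut_smooth ht htt')
    (cut_compact ht htt') (hχ.mul (HH_c2 hΦ.c2)) (r := r) (s := t)
    (fun x hx => cut_one ht htt' hx.le) hfg φ hφ hφ2 ?_
  intro x hx hlt q hq hql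
  have hx1 : ‖x‖ < 1 := by
    have := φ.rOut_pos; linarith
  -- there is a point nearby where f < v
  obtain ⟨y, hy, hyv⟩ : ∃ y : E, ‖y - x‖ < ε / 2 ∧ f y < v y := by
    by_contra hcon
    push Not at hcon
    obtain ⟨C, hC⟩ := hf.bm
    obtain ⟨C', hC'⟩ := hv.bm
    have := moll_mono_at φ hC' hC (x := x) (fun t ht => hcon (x - t) (by
      have : x - t - x = -t := by abel
      rw [this, norm_neg]; linarith))
    linarith
  by_cases h1 : ‖x.2‖ ≤ ρa - ε / 2
  · -- χ = 1 near x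
    have hev : (fun x => χ x * HH Φ x) =ᶠ[𝓝 x] HH Φ := by
      have : ∀ᶠ z in 𝓝 x, ‖z.2‖ < ρa :=
        (continuous_snd.norm.continuousAt).eventually (gt_mem_nhds (by linarith))
      filter_upwards [this] with z hz
      rw [hχ1 z hz.le, one_mul]
    rw [MM_congr_left hev]
    exact MM_nonneg (HH_c2 hΦ.c2) hq (HH_lev hΦ.c2 (hΦ.lev x hx1)) hql
  · by_cases h2 : ρb + ε / 2 ≤ ‖x.2‖
    · have hev : (fun x => χ x * HH Φ x) =ᶠ[𝓝 x] fun _ => 0 := by
        have : ∀ᶠ z in 𝓝 x, ρb < ‖z.2‖ :=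
          (continuous_snd.norm.continuousAt).eventually (lt_mem_nhds (by linarith))
        filter_upwards [this] with z hz
        rw [hχ0 z hz.le, zero_mul]
      rw [MM_zero_of hev]
    · have hev : (fun x => χ x * HH Φ x) =ᶠ[𝓝 x] fun _ => 0 := by
        have e1 : ∀ᶠ z in 𝓝 x, ‖z‖ < 1 :=
          continuous_norm.continuousAt.eventually (gt_mem_nhds hx1)
        have e2 : ∀ᶠ z in 𝓝 x, z ∈ ball x (ε / 2) := ball_mem_nhds x (by linarith)
        filter_upwards [e1, e2] with z hz1 hz2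
        rw [mem_ball, dist_eq_norm] at hz2
        have hz3 : |‖z.2‖ - ‖x.2‖| < ε / 2 := by
          refine (abs_norm_sub_norm_le _ _).trans_lt ?_
          have : z.2 - x.2 = (z - x).2 := rfl
          rw [this]
          exact (norm_snd_le _).trans_lt hz2
        have hz4 := abs_lt.mp hz3
        rw [HH_zero (hK z y (by linarith) (by linarith) hz1 (by
          have : y - z = (y - x) - (z - x) := by abel
          rw [this]
          have := norm_sub_le (y - x) (z - x)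
          linarith) hyv), mul_zero]
      rw [MM_zero_of hev]

end H13Ceg
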