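import Pool.Agent.H13.Ceg.Cmp

open MeasureTheory Set Filter Topology Metric
open scoped ContDiff ENNReal Convolution

namespace H13Ceg

lemma Lev_csmul {f : E → ℝ} (hf : ContDiff ℝ 2 f) (x v : E) (c : ℂ) :
    Lev f x (c • v) = ‖c‖ ^ 2 * Lev f x v := by
  have hs : ∀ a b, fderiv ℝ (fderiv ℝ f) x a b = fderiv ℝ (fderiv ℝ f) x b a := by
    have hs : IsSymmSndFDerivAt ℝ f x := (hf.contDiffAt (x := x)).isSymmSndFDerivAt (by simp)
    intro a b
    exact hs.eq a b
  have e1 : c • v = c.re • v + c.im • (Complex.I • v) := by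
    conv_lhs => rw [← Complex.re_add_im c]
    rw [add_smul, mul_smul]
    simp [Prod.smul_def]
  have e2 : Complex.I • (c • v) = c.re • (Complex.I • v) - c.im • v := by
    have h3 : Complex.I • (c • v) = ((c.re : ℂ) * Complex.I + (c.im : ℂ) * (Complex.I * Complex.I)) • v := by
      conv_lhs => rw [← Complex.re_add_im c]
      rw [smul_smul]
      congr 1; ring
    rw [h3, Complex.I_mul_I, add_smul, mul_smul, mul_smul, neg_smul, one_smul]
    simp [Prod.smul_def]
    constructor
    · ring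
    · ring
  rw [Complex.sq_norm, Complex.normSq_apply]
  unfold Lev
  rw [e2, e1]
  set B := fderiv ℝ (fderiv ℝ f) x
  simp only [map_add, map_sub, map_smul, _root_.add_apply, _root_.sub_apply, _root_.smul_apply,
    smul_eq_mul]
  rw [hs (Complex.I • v) v]
  ring

lemma abs_cv_le {h g : E → ℝ} {C : ℝ} (hh : BM h C) (hg : Continuous g) (hgc : HasCompactSupport g)
    (y : E) : |cv h g y| ≤ C * ∫ z, |g z| := by
  have hgi : Integrable g := hg.integrable_of_hasCompactSupport hgc
  rw [cv_swap]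
  calc |∫ t, h (y - t) * g t| ≤ ∫ t, |h (y - t) * g t| := abs_integral_le_integral_abs
    _ ≤ ∫ t, C * |g t| := by
        refine integral_mono_of_nonneg (Eventually.of_forall fun t => abs_nonneg _)
          (hgi.abs.const_mul C) (Eventually.of_forall fun t => ?_)
        simp only []
        rw [abs_mul]
        exact mul_le_mul_of_nonneg_right (hh.bd _) (abs_nonneg _)
    _ = C * ∫ z, |g z| := integral_const_mul _ _

lemma cv_int {h g : E → ℝ} {C : ℝ} (hh : BM h C) (hg : Continuous g) (hgc : HasCompactSupport g)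
    (y : E) : Integrable (fun t => h t * g (y - t)) := by
  have hgi : Integrable (fun t => g (y - t)) :=
    (hg.integrable_of_hasCompactSupport hgc).comp_sub_left y
  exact hgi.bdd_mul hh.meas.aestronglyMeasurable
    (Eventually.of_forall (fun t => by rw [Real.norm_eq_abs]; exact hh.bd _))

lemma cv_sub {h g g' : E → ℝ} {C : ℝ} (hh : BM h C) (hg : Continuous g)
    (hgc : HasCompactSupport g) (hg' : Continuous g') (hgc' : HasCompactSupport g') (y : E) :
    cv h (fun z => g z - g' z) y = cv h g y - cv h g' y := by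
  unfold cv
  rw [← integral_sub (cv_int hh hg hgc y) (cv_int hh hg' hgc' y)]
  congr 1; funext t; ring

lemma cv_add {h g g' : E → ℝ} {C : ℝ} (hh : BM h C) (hg : Continuous g)
    (hgc : HasCompactSupport g) (hg' : Continuous g') (hgc' : HasCompactSupport g') (y : E) :
    cv h (fun z => g z + g' z) y = cv h g y + cv h g' y := by
  unfold cv
  rw [← integral_add (cv_int hh hg hgc y) (cv_int hh hg' hgc' y)]
  congr 1; funext t; ring

lemma cv_smul {h g : E → ℝ} (c : ℝ) (y : E) : cv h (fun z => c * g z) y = c * cv h g y := by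
  unfold cv
  rw [← integral_const_mul]
  congr 1; funext t; ring

lemma Lev_cont {k : E → ℝ} (hk : ContDiff ℝ 2 k) (v : E) : Continuous (fun z => Lev k z v) := by
  have : (fun z => Lev k z v) = fun z => D v (D v k) z
      + D (Complex.I • v) (D (Complex.I • v) k) z := by
    funext z; rw [Lev_eq hk]
  rw [this]
  have h2 : ∀ u, Continuous (D u (D u k)) := fun u =>
    (D_contDiff (m := 0) (D_contDiff (m := 1) hk (by norm_num)) (by norm_num)).continuous
  exact (h2 _).add (h2 _)

lemma Lev_compact {k : E → ℝ} (hk : ContDiff ℝ 2 k) (hc : HasCompactSupport k) (v : E) :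
    HasCompactSupport (fun z => Lev k z v) := by
  have : (fun z => Lev k z v) = fun z => D v (D v k) z
      + D (Complex.I • v) (D (Complex.I • v) k) z := by
    funext z; rw [Lev_eq hk]
  rw [this]
  exact (D_compact (D_compact hc)).add (D_compact (D_compact hc))

lemma Lev_cv {h k : E → ℝ} {C : ℝ} (hh : BM h C) (hk : ContDiff ℝ ∞ k) (hkc : HasCompactSupport k)
    (y v : E) : Lev (cv h k) y v = cv h (fun z => Lev k z v) y := by
  have hk2 : ContDiff ℝ 2 k := hk.of_le le2
  have h1 : ∀ u, ContDiff ℝ 1 (D u k) := fun u => D_contDiff hk2 (by norm_num)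
  have h2 : ∀ u, D u (D u (cv h k)) = cv h (D u (D u k)) := by
    intro u
    rw [D_cv hh.locInt (hk.of_le le1) hkc, D_cv hh.locInt (h1 u) (D_compact hkc)]
  have hc2 : ∀ u, Continuous (D u (D u k)) := fun u =>
    (D_contDiff (m := 0) (h1 u) (by norm_num)).continuous
  rw [Lev_eq ((cv_contDiff hh.locInt hk hkc).of_le le2), h2, h2]
  have e : (fun z => Lev k z v) = fun z => D v (D v k) z
      + D (Complex.I • v) (D (Complex.I • v) k) z := by
    funext z; rw [Lev_eq hk2]
  rw [e, cv_add hh (hc2 _) (D_compact (D_compact hkc)) (hc2 _) (D_compact (D_compact hkc))]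

lemma norm_I_smul (v : E) : ‖Complex.I • v‖ = ‖v‖ := by rw [norm_smul]; simp

lemma Lev_diff (k : E → ℝ) (z v v' : E) :
    |Lev k z v - Lev k z v'|
      ≤ 2 * ‖fderiv ℝ (fderiv ℝ k) z‖ * ((‖v‖ + ‖v'‖) * ‖v - v'‖) := by
  set B := fderiv ℝ (fderiv ℝ k) z with hB
  have key : ∀ a b : E, |B a a - B b b| ≤ ‖B‖ * ((‖a‖ + ‖b‖) * ‖a - b‖) := by
    intro a b
    have e : B a a - B b b = B (a - b) a + B b (a - b) := by
      simp only [map_sub, _root_.sub_apply]; ring
    rw [e]
    have h1 := B.le_opNorm₂ (a - b) a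
    have h2 := B.le_opNorm₂ b (a - b)
    rw [Real.norm_eq_abs] at h1 h2
    have := abs_add_le (B (a - b) a) (B b (a - b))
    nlinarith
  have h1 := key v v'
  have h2 := key (Complex.I • v) (Complex.I • v')
  rw [norm_I_smul, norm_I_smul, ← smul_sub, norm_I_smul] at h2
  have e : Lev k z v - Lev k z v' = (B v v - B v' v')
      + (B (Complex.I • v) (Complex.I • v) - B (Complex.I • v') (Complex.I • v')) := by
    unfold Lev; ring
  rw [e]
  have := abs_add_le (B v v - B v' v')
    (B (Complex.I • v) (Complex.I • v) - B (Complex.I • v') (Complex.I • v'))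
  nlinarith

lemma Lev_cv_diff {k : E → ℝ} (hk : ContDiff ℝ ∞ k) (hkc : HasCompactSupport k) :
    ∃ C2 ≥ 0, ∀ h : E → ℝ, BM h 1 → ∀ y v v' : E,
      |Lev (cv h k) y v - Lev (cv h k) y v'| ≤ C2 * ((‖v‖ + ‖v'‖) * ‖v - v'‖) := by
  have hk2 : ContDiff ℝ 2 k := hk.of_le le2
  have hc0 : Continuous (fderiv ℝ (fderiv ℝ k)) :=
    (hk2.fderiv_right (m := 1) (by norm_num)).continuous_fderiv (by norm_num)
  have hcn := @continuous_norm (E →L[ℝ] E →L[ℝ] ℝ) _
  have hc : Continuous (fun z => ‖fderiv ℝ (fderiv ℝ k) z‖) := hcn.comp hc0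
  have hcs : HasCompactSupport (fun z => ‖fderiv ℝ (fderiv ℝ k) z‖) := by
    refine HasCompactSupport.intro hkc (fun z hz => ?_)
    have h1 : k =ᶠ[𝓝 z] fun _ => 0 := notMem_tsupport_iff_eventuallyEq.mp hz
    have h2 := h1.fderiv (𝕜 := ℝ)
    have h3 : fderiv ℝ (fderiv ℝ k) z = 0 := by
      rw [h2.fderiv_eq]
      simp
    rw [h3]
    exact ContinuousLinearMap.opNorm_zero
  have hi : Integrable (fun z => ‖fderiv ℝ (fderiv ℝ k) z‖) := hc.integrable_of_hasCompactSupport hcs
  have hnn : 0 ≤ ∫ z, ‖fderiv ℝ (fderiv ℝ k) z‖ := by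
    apply integral_nonneg
    intro z
    exact ContinuousLinearMap.opNorm_nonneg _
  refine ⟨2 * ∫ z, ‖fderiv ℝ (fderiv ℝ k) z‖, mul_nonneg (by norm_num) hnn, ?_⟩
  intro h hh y v v'
  have gc : Continuous (fun z => Lev k z v - Lev k z v') := (Lev_cont hk2 v).sub (Lev_cont hk2 v')
  have gs : HasCompactSupport (fun z => Lev k z v - Lev k z v') :=
    (Lev_compact hk2 hkc v).sub (Lev_compact hk2 hkc v')
  have h0 := cv_sub hh (Lev_cont hk2 v) (Lev_compact hk2 hkc v)
    (Lev_cont hk2 v') (Lev_compact hk2 hkc v') y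
  rw [Lev_cv hh hk hkc, Lev_cv hh hk hkc, ← h0]
  have h1 := abs_cv_le hh gc gs y
  refine h1.trans ?_
  rw [one_mul]
  have hi2 : Integrable (fun z => |Lev k z v - Lev k z v'|) :=
    (gc.integrable_of_hasCompactSupport gs).abs
  have hi3 : Integrable (fun z => ‖fderiv ℝ (fderiv ℝ k) z‖ * (2 * ((‖v‖ + ‖v'‖) * ‖v - v'‖))) :=
    hi.mul_const _
  have h2 : ∫ z, |Lev k z v - Lev k z v'|
      ≤ ∫ z, ‖fderiv ℝ (fderiv ℝ k) z‖ * (2 * ((‖v‖ + ‖v'‖) * ‖v - v'‖)) := by
    apply integral_mono hi2 hi3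
    intro z
    have := Lev_diff k z v v'
    show |Lev k z v - Lev k z v'| ≤ ‖fderiv ℝ (fderiv ℝ k) z‖ * (2 * ((‖v‖ + ‖v'‖) * ‖v - v'‖))
    linarith
  refine h2.trans (le_of_eq ?_)
  rw [integral_mul_const]; ring

/-- uniform first order Taylor estimate for the derivative of the kernel -/
lemma kernel_uc {k : E → ℝ} (hk : ContDiff ℝ ∞ k) (hkc : HasCompactSupport k) {κ : ℝ}
    (hκ : 0 < κ) : ∃ δ > 0, ∀ z h : E, ‖h‖ ≤ δ →
      ‖fderiv ℝ k (z + h) - fderiv ℝ k z - fderiv ℝ (fderiv ℝ k) z h‖ ≤ κ * ‖h‖ := by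
  have hk2 : ContDiff ℝ 2 k := hk.of_le le2
  have hc0 : Continuous (fderiv ℝ (fderiv ℝ k)) :=
    (hk2.fderiv_right (m := 1) (by norm_num)).continuous_fderiv (by norm_num)
  have hcs : HasCompactSupport (fderiv ℝ (fderiv ℝ k)) := (hkc.fderiv ℝ).fderiv ℝ
  have huc : UniformContinuous (fderiv ℝ (fderiv ℝ k)) :=
    hcs.uniformContinuous_of_continuous hc0
  obtain ⟨δ, hδ, hu⟩ := (@Metric.uniformContinuous_iff E (E →L[ℝ] E →L[ℝ] ℝ) _ _ _).mp huc κ hκ
  refine ⟨δ / 2, by linarith, fun z h hh => ?_⟩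
  set B := fderiv ℝ (fderiv ℝ k) z with hB
  let r : E → (E →L[ℝ] ℝ) := fun u => fderiv ℝ k (z + u) - fderiv ℝ k z - B u
  have hr : ∀ u ∈ closedBall (0 : E) ‖h‖,
      HasFDerivWithinAt r (fderiv ℝ (fderiv ℝ k) (z + u) - B) (closedBall (0:E) ‖h‖) u := by
    intro u _
    have h1 : HasFDerivAt (fun u => fderiv ℝ k (z + u)) (fderiv ℝ (fderiv ℝ k) (z + u)) u := by
      have h10 : HasFDerivAt (fderiv ℝ k) (fderiv ℝ (fderiv ℝ k) (z + u)) (z + u) :=
        (((hk2.fderiv_right (m := 1) (by norm_num)).differentiable (by norm_num)) _).hasFDerivAt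
      have h11 : HasFDerivAt (fun u : E => z + u) (ContinuousLinearMap.id ℝ E) u :=
        (hasFDerivAt_id u).const_add z
      exact (h10.comp u h11).congr_fderiv (ContinuousLinearMap.comp_id _)
    exact ((h1.sub_const _).sub B.hasFDerivAt).hasFDerivWithinAt
  have hbound : ∀ u ∈ closedBall (0 : E) ‖h‖, ‖fderiv ℝ (fderiv ℝ k) (z + u) - B‖ ≤ κ := by
    intro u hu'
    rw [mem_closedBall_zero_iff] at hu'
    have := hu (a := z + u) (b := z) (by
      rw [dist_eq_norm, add_sub_cancel_left]; linarith)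
    have h9 := @dist_eq_norm (E →L[ℝ] E →L[ℝ] ℝ) _ (fderiv ℝ (fderiv ℝ k) (z + u))
      (fderiv ℝ (fderiv ℝ k) z)
    exact (h9.symm.trans_lt this).le
  have hmv := (convex_closedBall (0 : E) ‖h‖).norm_image_sub_le_of_norm_hasFDerivWithin_le
    hr hbound (mem_closedBall_self (norm_nonneg h)) (mem_closedBall_zero_iff.mpr le_rfl)
  have hr0 : r 0 = 0 := by simp [r]
  rw [hr0, sub_zero, sub_zero] at hmv
  exact hmv

/-- circle averages of a convolution -/
lemma avg_cv {h k : E → ℝ} {C : ℝ} (hh : BM h C) (hk : Continuous k) (hkc : HasCompactSupport k)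
    (y v : E) : Real.circleAverage (fun ζ : ℂ => cv h k (y + ζ • v)) 0 1
      = cv h (fun z => Real.circleAverage (fun ζ : ℂ => k (z + ζ • v)) 0 1) y := by
  have hpi : (0:ℝ) < 2 * Real.pi := by positivity
  let F : ℝ → E → ℝ := fun θ t => h t * k (y + circleMap 0 1 θ • v - t)
  have hFm : Measurable (Function.uncurry F) := by
    have h1 : Measurable (fun p : ℝ × E => y + circleMap 0 1 p.1 • v - p.2) := by
      have : Continuous (fun p : ℝ × E => y + circleMap 0 1 p.1 • v - p.2) := by fun_prop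
      exact this.measurable
    exact (hh.meas.comp measurable_snd).mul (hk.measurable.comp h1)
  obtain ⟨M, hM⟩ := hk.bounded_above_of_compact_support hkc
  obtain ⟨R, hR⟩ := hkc.isCompact.isBounded.exists_norm_le
  have hM0 : 0 ≤ M := (norm_nonneg _).trans (hM 0)
  have hFint : Integrable (Function.uncurry F)
      ((volume.restrict (Ioc 0 (2 * Real.pi))).prod (volume : Measure E)) := by
    set K := closedBall (0:E) (R + ‖y‖ + ‖v‖) with hK
    have hki : Integrable (K.indicator fun _ => (1:ℝ)) (volume : Measure E) := by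
      rw [integrable_indicator_iff measurableSet_closedBall]
      exact integrableOn_const measure_closedBall_lt_top.ne
    have hk1 : Integrable (fun p : ℝ × E => (1:ℝ) * K.indicator (fun _ => (1:ℝ)) p.2)
        ((volume.restrict (Ioc 0 (2 * Real.pi))).prod (volume : Measure E)) :=
      Integrable.mul_prod (f := fun _ : ℝ => (1:ℝ)) (g := K.indicator fun _ => (1:ℝ))
        (integrable_const _) hki
    refine (hk1.const_mul (C * M)).mono' hFm.aestronglyMeasurable (Eventually.of_forall ?_)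
    rintro ⟨θ, t⟩
    simp only [Function.uncurry, F, Real.norm_eq_abs, abs_mul, one_mul]
    by_cases ht : t ∈ K
    · rw [indicator_of_mem ht, mul_one]
      have h1 := hM (y + circleMap 0 1 θ • v - t)
      rw [Real.norm_eq_abs] at h1
      exact mul_le_mul (hh.bd _) h1 (abs_nonneg _) hh.nonneg
    · rw [indicator_of_notMem ht, mul_zero]
      have hz : k (y + circleMap 0 1 θ • v - t) = 0 := by
        by_contra hne
        have h1 := hR _ (subset_tsupport k hne)
        apply ht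
        rw [hK, mem_closedBall_zero_iff]
        have h2 : t = (y + circleMap 0 1 θ • v) - (y + circleMap 0 1 θ • v - t) := by abel
        rw [h2]
        have h3 := norm_sub_le (y + circleMap 0 1 θ • v) (y + circleMap 0 1 θ • v - t)
        have h4 := norm_add_le y (circleMap 0 1 θ • v)
        rw [norm_circ_smul] at h4
        linarith
      rw [hz, abs_zero, mul_zero]
  have e1 : Real.circleAverage (fun ζ : ℂ => cv h k (y + ζ • v)) 0 1
      = (2 * Real.pi)⁻¹ * ∫ θ in Ioc 0 (2 * Real.pi), ∫ t, F θ t := by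
    rw [Real.circleAverage_def, intervalIntegral.integral_of_le hpi.le]
    rfl
  have e2 : ∫ θ in Ioc 0 (2 * Real.pi), ∫ t, F θ t
      = ∫ t, ∫ θ in Ioc 0 (2 * Real.pi), F θ t := integral_integral_swap hFint
  rw [e1, e2, ← integral_const_mul]
  unfold cv
  congr 1; funext t
  show (2 * Real.pi)⁻¹ * ∫ θ in Ioc 0 (2 * Real.pi), F θ t
    = h t * Real.circleAverage (fun ζ : ℂ => k (y - t + ζ • v)) 0 1
  rw [Real.circleAverage_def, intervalIntegral.integral_of_le hpi.le, smul_eq_mul]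
  have e3 : ∫ θ in Ioc 0 (2 * Real.pi), F θ t
      = h t * ∫ θ in Ioc 0 (2 * Real.pi), k (y - t + circleMap 0 1 θ • v) := by
    rw [← integral_const_mul]
    refine integral_congr_ae (Eventually.of_forall fun θ => ?_)
    simp only [F]
    congr 2
    abel
  rw [e3]; ring

lemma avg_cont {k : E → ℝ} (hk : Continuous k) (v : E) :
    Continuous (fun z => Real.circleAverage (fun ζ : ℂ => k (z + ζ • v)) 0 1) := by
  have e : (fun z => Real.circleAverage (fun ζ : ℂ => k (z + ζ • v)) 0 1)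
      = fun z => (2 * Real.pi)⁻¹ * ∫ θ in (0:ℝ)..(2 * Real.pi), k (z + circleMap 0 1 θ • v) := by
    funext z; rw [Real.circleAverage_def]; rfl
  rw [e]
  apply Continuous.mul continuous_const
  apply intervalIntegral.continuous_parametric_intervalIntegral_of_continuous'
  fun_prop

/-- uniform Taylor estimate for circle averages of mollifications -/
lemma cv_taylor {k : E → ℝ} (hk : ContDiff ℝ ∞ k) (hkc : HasCompactSupport k) {κ : ℝ}
    (hκ : 0 < κ) : ∃ δ > 0, ∀ h : E → ℝ, BM h 1 → ∀ y v : E, ‖v‖ ≤ δ →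
      |Real.circleAverage (fun ζ : ℂ => cv h k (y + ζ • v)) 0 1 - cv h k y
        - (1/4) * Lev (cv h k) y v| ≤ κ * ‖v‖ ^ 2 := by
  have hk2 : ContDiff ℝ 2 k := hk.of_le le2
  obtain ⟨R, hR⟩ := hkc.isCompact.isBounded.exists_norm_le
  set K := closedBall (0:E) (R + 1) with hK
  set V := (volume : Measure E).real K with hV
  have hV0 : 0 ≤ V := measureReal_nonneg
  set κ1 := κ / (V + 1) with hκ1
  have hκ10 : 0 < κ1 := by positivity
  obtain ⟨δ, hδ, hu⟩ := kernel_uc hk hkc hκ10
  refine ⟨min δ 1, lt_min hδ one_pos, fun h hh y v hv => ?_⟩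
  have hv1 : ‖v‖ ≤ δ := hv.trans (min_le_left _ _)
  have hv2 : ‖v‖ ≤ 1 := hv.trans (min_le_right _ _)
  set A : E → ℝ := fun z => Real.circleAverage (fun ζ : ℂ => k (z + ζ • v)) 0 1 with hA
  have hAc : Continuous A := avg_cont hk.continuous v
  have kz : ∀ z : E, R < ‖z‖ → k z = 0 := by
    intro z hz
    by_contra hne
    exact not_lt.mpr (hR _ (subset_tsupport k hne)) hz
  have hA0 : ∀ z ∉ K, A z = 0 := by
    intro z hz
    rw [hK, mem_closedBall_zero_iff, not_le] at hz
    have : A z = Real.circleAverage (fun _ : ℂ => (0:ℝ)) 0 1 := by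
      apply Real.circleAverage_congr_sphere
      intro ζ hζ
      have hζ1 : ‖ζ‖ = 1 := by simpa using hζ
      apply kz
      have h1 : z = (z + ζ • v) - ζ • v := by abel
      have h2 := norm_sub_le (z + ζ • v) (ζ • v)
      rw [← h1, norm_smul, hζ1, one_mul] at h2
      linarith
    rw [this, Real.circleAverage_const]
  have hAs : HasCompactSupport A := HasCompactSupport.intro (isCompact_closedBall _ _) hA0
  have e1 := avg_cv hh hk.continuous hkc y v
  have e2 := Lev_cv hh hk hkc y v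
  have cL := Lev_cont hk2 v
  have sL := Lev_compact hk2 hkc v
  have cL4 : Continuous (fun z => (1/4) * Lev k z v) := continuous_const.mul cL
  have sL4 : HasCompactSupport (fun z => (1/4) * Lev k z v) := sL.mul_left
  have cAk : Continuous (fun z => A z - k z) := hAc.sub hk.continuous
  have sAk : HasCompactSupport (fun z => A z - k z) := hAs.sub hkc
  have e3 := cv_sub hh hAc hAs hk.continuous hkc y
  have e4 := cv_sub hh cAk sAk cL4 sL4 y
  have e5 := cv_smul (h := h) (g := fun z => Lev k z v) (1/4) y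
  have e6 : Real.circleAverage (fun ζ : ℂ => cv h k (y + ζ • v)) 0 1 - cv h k y
        - (1/4) * Lev (cv h k) y v = cv h (fun z => A z - k z - (1/4) * Lev k z v) y := by
    rw [e1, e2, e4, e3, e5]
  rw [e6]
  have cE : Continuous (fun z => A z - k z - (1/4) * Lev k z v) := cAk.sub cL4
  have sE : HasCompactSupport (fun z => A z - k z - (1/4) * Lev k z v) := sAk.sub sL4
  have h1 := abs_cv_le hh cE sE y
  refine h1.trans ?_
  rw [one_mul]
  have hpt : ∀ z, |A z - k z - (1/4) * Lev k z v| ≤ K.indicator (fun _ => κ1 * ‖v‖ ^ 2) z := by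
    intro z
    by_cases hz : z ∈ K
    · rw [indicator_of_mem hz]
      exact circleAverage_taylor hk2 z hκ10.le (fun h' hh' => hu z h' hh') v hv1
    · rw [indicator_of_notMem hz, hA0 z hz]
      have hz' : R < ‖z‖ := by
        rw [hK, mem_closedBall_zero_iff, not_le] at hz; linarith
      rw [kz z hz']
      have : Lev k z v = 0 := by
        have hzs : z ∉ tsupport k := fun h => not_lt.mpr (hR _ h) hz'
        rw [Lev_eq hk2]
        have a1 : ∀ u, D u (D u k) z = 0 := by
          intro u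
          have hs : z ∉ tsupport (D u (D u k)) := by
            intro hcon
            have s1 : tsupport (D u (D u k)) ⊆ tsupport (D u k) := tsupport_fderiv_apply_subset ℝ u
            have s2 : tsupport (D u k) ⊆ tsupport k := tsupport_fderiv_apply_subset ℝ u
            exact hzs (s2 (s1 hcon))
          exact image_eq_zero_of_notMem_tsupport hs
        rw [a1, a1, add_zero]
      rw [this]; simp
  have hi1 : Integrable (fun z => |A z - k z - (1/4) * Lev k z v|) :=
    (cE.integrable_of_hasCompactSupport sE).abs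
  have hi2 : Integrable (K.indicator (fun _ : E => κ1 * ‖v‖ ^ 2)) := by
    rw [integrable_indicator_iff measurableSet_closedBall]
    exact integrableOn_const measure_closedBall_lt_top.ne
  calc ∫ z, |A z - k z - (1/4) * Lev k z v| ≤ ∫ z, K.indicator (fun _ => κ1 * ‖v‖ ^ 2) z :=
        integral_mono hi1 hi2 hpt
    _ = V * (κ1 * ‖v‖ ^ 2) := by
        rw [integral_indicator measurableSet_closedBall, setIntegral_const, smul_eq_mul]
    _ ≤ κ * ‖v‖ ^ 2 := by
        rw [hκ1]
        have : V * (κ / (V + 1) * ‖v‖ ^ 2) = (κ * ‖v‖ ^ 2) * (V / (V + 1)) := by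
          field_simp
        rw [this]
        have h3 : V / (V + 1) ≤ 1 := by rw [div_le_one (by linarith)]; linarith
        have h4 : 0 ≤ κ * ‖v‖ ^ 2 := by positivity
        nlinarith

/-- a finite net of directions -/
lemma exists_slopes {ε : ℝ} (hε : 0 < ε) : ∃ S : Finset ℂ, (0:ℂ) ∈ S ∧ ∀ v : E, ‖v‖ = 1 →
    ∃ c ∈ S, ∃ l : ℂ, ‖v - l • ((c, 1) : E)‖ ≤ ε := by
  classical
  have hc := (isCompact_sphere (0:E) 1).totallyBounded
  obtain ⟨t, ht⟩ := Metric.totallyBounded_iff.mp hc (ε / 2) (by linarith)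
  let w : E → ℂ := fun p => if p.2 = 0 then ((ε / 2 : ℝ) : ℂ) else p.2
  have hw0 : ∀ p, w p ≠ 0 := by
    intro p
    simp only [w]
    split_ifs with h
    · exact_mod_cast (by linarith : ε / 2 ≠ 0)
    · exact h
  have hw1 : ∀ p : E, ‖p - (p.1, w p)‖ ≤ ε / 2 := by
    intro p
    rw [Prod.norm_def]
    simp only [Prod.fst_sub, Prod.snd_sub, sub_self, norm_zero, w]
    split_ifs with h
    · rw [h, zero_sub, norm_neg, Complex.norm_real, Real.norm_eq_abs, abs_of_pos (by linarith)]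
      exact max_le (by linarith) le_rfl
    · simp; linarith
  obtain ⟨htf, htc⟩ := ht
  refine ⟨insert 0 (htf.toFinset.image fun p => p.1 / w p), Finset.mem_insert_self _ _,
    fun v hv => ?_⟩
  have hv' : v ∈ sphere (0:E) 1 := by simpa using hv
  obtain ⟨p, hp, hvp⟩ := mem_iUnion₂.mp (htc hv')
  refine ⟨p.1 / w p, Finset.mem_insert_of_mem (Finset.mem_image_of_mem _
    (htf.mem_toFinset.mpr hp)), w p, ?_⟩
  have e : w p • ((p.1 / w p, 1) : E) = (p.1, w p) := by
    rw [Prod.smul_mk, smul_eq_mul, smul_eq_mul, mul_one, mul_div_cancel₀ _ (hw0 p)]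
  rw [e]
  have h1 : v - (p.1, w p) = (v - p) + (p - (p.1, w p)) := by abel
  rw [h1]
  have h2 := norm_add_le (v - p) (p - (p.1, w p))
  rw [mem_ball, dist_eq_norm] at hvp
  linarith [hw1 p]

/-- discrete mean value inequalities in finitely many directions imply an almost
plurisubharmonicity of mollifications -/
theorem net {k : E → ℝ} (hk : ContDiff ℝ ∞ k) (hkc : HasCompactSupport k) {ε : ℝ} (hε : 0 < ε) :
    ∃ S : Finset ℂ, (0:ℂ) ∈ S ∧ ∃ δ0 > 0, ∀ δ : ℝ, 0 < δ → δ < δ0 → ∀ h : E → ℝ, BM h 1 →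
      ∀ y : E, (∀ c ∈ S, cv h k y
        ≤ Real.circleAverage (fun ζ : ℂ => cv h k (y + ζ • (δ • ((c, 1) : E)))) 0 1) →
      ∀ v : E, -(ε * ‖v‖ ^ 2) ≤ Lev (cv h k) y v := by
  obtain ⟨C2, hC2, hdiff⟩ := Lev_cv_diff hk hkc
  set ε1 := min 1 (ε / (6 * (C2 + 1))) with hε1
  have hε10 : 0 < ε1 := by positivity
  have hε11 : ε1 ≤ 1 := min_le_left _ _
  have hε12 : C2 * (3 * ε1) ≤ ε / 2 := by
    have h1 : ε1 ≤ ε / (6 * (C2 + 1)) := min_le_right _ _
    rw [le_div_iff₀ (by positivity)] at h1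
    nlinarith
  obtain ⟨S, hS0, hS⟩ := exists_slopes hε10
  obtain ⟨δ1, hδ1, hT⟩ := cv_taylor hk hkc (κ := ε / 32) (by linarith)
  -- bound on the slopes
  obtain ⟨L, hL0, hL⟩ : ∃ L > 0, ∀ c ∈ S, ‖((c, 1) : E)‖ ≤ L := by
    refine ⟨1 + ∑ c ∈ S, ‖((c, 1) : E)‖, by positivity, fun c hc => ?_⟩
    have := Finset.single_le_sum (f := fun c : ℂ => ‖((c, 1) : E)‖)
      (fun i _ => norm_nonneg _) hc
    linarith
  refine ⟨S, hS0, δ1 / L, by positivity, fun δ hδ hδ' h hh y hsub v => ?_⟩
  have hc2 : ContDiff ℝ 2 (cv h k) := (cv_contDiff hh.locInt hk hkc).of_le le2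
  have hdir : ∀ c ∈ S, ∀ l : ℂ, -(ε / 8 * ‖l • ((c, 1) : E)‖ ^ 2)
      ≤ Lev (cv h k) y (l • ((c, 1) : E)) := by
    intro c hc l
    have hn : ‖δ • ((c, 1) : E)‖ = δ * ‖((c, 1) : E)‖ := by
      rw [norm_smul, Real.norm_eq_abs, abs_of_pos hδ]
    have hle : ‖δ • ((c, 1) : E)‖ ≤ δ1 := by
      rw [hn]
      rw [lt_div_iff₀ hL0] at hδ'
      have := mul_le_mul_of_nonneg_left (hL c hc) hδ.le
      linarith
    have h1 := (abs_le.mp (hT h hh y _ hle)).2
    have h2 := hsub c hc
    rw [Lev_smul, hn] at h1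
    have h3 : -(ε / 8 * ‖((c, 1) : E)‖ ^ 2) ≤ Lev (cv h k) y (c, 1) := by
      have h4 : δ ^ 2 * (-(ε / 8 * ‖((c, 1) : E)‖ ^ 2)) ≤ δ ^ 2 * Lev (cv h k) y (c, 1) := by
        nlinarith
      exact le_of_mul_le_mul_left h4 (by positivity)
    rw [Lev_csmul hc2, norm_smul, mul_pow]
    have := mul_le_mul_of_nonneg_left h3 (sq_nonneg ‖l‖)
    linarith
  have hunit : ∀ v : E, ‖v‖ = 1 → -ε ≤ Lev (cv h k) y v := by
    intro v hv
    obtain ⟨c, hc, l, hl⟩ := hS v hv
    have h1 := hdir c hc l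
    have h2 := (abs_le.mp (hdiff h hh y v (l • ((c, 1) : E)))).1
    have h3 : ‖l • ((c, 1) : E)‖ ≤ 2 := by
      have h4 : l • ((c, 1) : E) = v - (v - l • ((c, 1) : E)) := by abel
      have h5 := norm_sub_le v (v - l • ((c, 1) : E))
      rw [← h4] at h5
      linarith
    have h4 : ‖l • ((c, 1) : E)‖ ^ 2 ≤ 4 := by nlinarith [norm_nonneg (l • ((c, 1) : E))]
    have h5 : (‖v‖ + ‖l • ((c, 1) : E)‖) * ‖v - l • ((c, 1) : E)‖ ≤ 3 * ε1 := by
      rw [hv]
      have := mul_le_mul (show 1 + ‖l • ((c, 1) : E)‖ ≤ 3 by linarith) hl (norm_nonneg _)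
        (by norm_num)
      exact this
    have h6 := mul_le_mul_of_nonneg_left h5 hC2
    nlinarith
  by_cases hv0 : v = 0
  · subst hv0
    have : Lev (cv h k) y 0 = 0 := by unfold Lev; simp
    rw [this]; simp
  · have hvn : 0 < ‖v‖ := norm_pos_iff.mpr hv0
    have h1 := hunit (‖v‖⁻¹ • v) (by
      rw [norm_smul, norm_inv, norm_norm, inv_mul_cancel₀ hvn.ne'])
    rw [Lev_smul] at h1
    have h2 := mul_le_mul_of_nonneg_left h1 (sq_nonneg ‖v‖)
    have h3 : ‖v‖ ^ 2 * (‖v‖⁻¹ ^ 2 * Lev (cv h k) y v) = Lev (cv h k) y v := by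
      field_simp
    rw [h3] at h2
    linarith

end H13Ceg
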