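import Pool.Agent.H13.Ceg.Pay
import Pool.Agent.H13.Ceg.Net

open MeasureTheory Set Filter Topology Metric
open scoped ContDiff ENNReal NNReal

namespace H13Ceg

lemma D_dil {F : E → ℝ} (hF : Differentiable ℝ F) (ρ : ℝ) (v : E) :
    D v (fun x => F (ρ • x)) = fun x => ρ * D v F (ρ • x) := by
  funext x
  have h1 : HasFDerivAt (fun x : E => ρ • x) (ρ • ContinuousLinearMap.id ℝ E) x :=
    (hasFDerivAt_id x).const_smul ρ
  have h2 : HasFDerivAt (fun x : E => F (ρ • x))
      ((fderiv ℝ F (ρ • x)).comp (ρ • ContinuousLinearMap.id ℝ E)) x :=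
    (hF (ρ • x)).hasFDerivAt.comp x h1
  unfold D
  rw [h2.fderiv]
  simp

lemma Lev_dil {F : E → ℝ} (hF : ContDiff ℝ 2 F) (ρ : ℝ) (x v : E) :
    Lev (fun x => F (ρ • x)) x v = ρ ^ 2 * Lev F (ρ • x) v := by
  have hc : ContDiff ℝ 2 (fun x : E => F (ρ • x)) := hF.comp (contDiff_const_smul ρ)
  have hd := hF.differentiable (n := 2) (by norm_num)
  have key : ∀ u, D u (D u (fun x => F (ρ • x))) x = ρ ^ 2 * D u (D u F) (ρ • x) := by
    intro u
    have h1 : Differentiable ℝ (D u F) :=
      (D_contDiff (m := 1) hF (by norm_num)).differentiable (by norm_num)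
    have h2 : Differentiable ℝ (fun x : E => D u F (ρ • x)) :=
      h1.comp (differentiable_id.const_smul ρ)
    rw [D_dil hd]
    rw [D_mul (f := fun _ => ρ) (g := fun x => D u F (ρ • x)) (differentiable_const ρ) h2,
      D_dil h1]
    simp only [D, fderiv_fun_const, Pi.zero_apply, _root_.zero_apply, zero_mul, zero_add]
    ring
  rw [Lev_eq hc, Lev_eq hF, key, key]
  ring

/-- the real-valued function attached to the game -/
noncomputable def hr (g : E → ℝ≥0∞) (x : E) : ℝ := -(g x).toReal

lemma hr_BM {g : E → ℝ≥0∞} (hg : Measurable g) (hg1 : ∀ x, g x ≤ 1) : BM (hr g) 1 := by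
  refine ⟨hg.ennreal_toReal.neg, fun x => ?_⟩
  unfold hr
  rw [abs_neg, abs_of_nonneg ENNReal.toReal_nonneg]
  have := ENNReal.toReal_mono ENNReal.one_ne_top (hg1 x)
  simpa using this

lemma hr_sub {g : E → ℝ≥0∞} (hg : Measurable g) (hg1 : ∀ x, g x ≤ 1) {δ : ℝ} {c : ℂ} {x : E}
    (hx : ‖x.1‖ + ‖c‖ * δ < 1) (hs : step δ g c x ≤ g x) :
    hr g x ≤ Real.circleAverage (fun ζ : ℂ => hr g (x + ζ • (δ • ((c, 1) : E)))) 0 1 := by
  set u : ℂ → ℝ := fun ζ => (g (x + ζ • (δ • ((c, 1) : E)))).toReal with hu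
  have hgt : ∀ y, g y ≠ ⊤ := fun y => ne_top_of_le_ne_top ENNReal.one_ne_top (hg1 y)
  have hum : Measurable u := (hg.comp (by fun_prop)).ennreal_toReal
  have hu0 : ∀ ζ, 0 ≤ u ζ := fun ζ => ENNReal.toReal_nonneg
  have hu1 : ∀ ζ, u ζ ≤ 1 := fun ζ => by
    have := ENNReal.toReal_mono ENNReal.one_ne_top (hg1 (x + ζ • (δ • ((c, 1) : E))))
    rwa [ENNReal.toReal_one] at this
  have h1 := circleAverage_eq_toReal hum hu0 hu1
  have h2 : ∫⁻ ζ, ENNReal.ofReal (u ζ) ∂νc = step δ g c x := by
    unfold step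
    refine lintegral_congr (fun ζ => ?_)
    simp only [hu]
    rw [ENNReal.ofReal_toReal (hgt _)]
    congr 1
    have hsl : slope δ c x.1 = c := by unfold slope; rw [if_pos hx]
    rw [hsl]
    apply Prod.ext
    · simp only [Prod.fst_add, Prod.smul_fst, smul_eq_mul, Complex.real_smul]; ring
    · simp only [Prod.snd_add, Prod.smul_snd, smul_eq_mul, Complex.real_smul]; ring
  have h3 : Real.circleAverage u 0 1 ≤ (g x).toReal := by
    rw [h1, h2]
    exact ENNReal.toReal_mono (hgt x) hs
  have h4 : Real.circleAverage (fun ζ : ℂ => hr g (x + ζ • (δ • ((c, 1) : E)))) 0 1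
      = -Real.circleAverage u 0 1 := by
    have := Real.circleAverage_fun_smul (𝕜 := ℝ) (a := (-1:ℝ)) (c := 0) (R := 1) (f := u)
    simp only [smul_eq_mul, neg_mul, one_mul] at this
    exact this
  rw [h4]
  unfold hr
  linarith

lemma lint_scale {q : ℂ → ℝ≥0∞} (hq : Measurable q) {ρ : ℝ} (hρ : 0 < ρ) (t : ℂ) :
    ∫⁻ a : ℂ, q (ρ * a - t) = ENNReal.ofReal (ρ ^ 2)⁻¹ * ∫⁻ z, q z := by
  have h1 := Measure.map_addHaar_smul (volume : Measure ℂ) (r := ρ) hρ.ne'
  rw [Complex.finrank_real_complex] at h1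
  have h2 : ∫⁻ a : ℂ, q (ρ * a - t) = ∫⁻ z, q (z - t) ∂(Measure.map (fun x : ℂ => ρ • x) volume) := by
    have hqt : Measurable (fun z => q (z - t)) := hq.comp (measurable_id.sub_const t)
    rw [lintegral_map hqt (measurable_const_smul ρ)]
    simp only [Complex.real_smul]
  rw [h2, h1, lintegral_smul_measure, lintegral_sub_right_eq_self, smul_eq_mul,
    abs_of_pos (by positivity)]

lemma kr_le {e : ℝ} (he : 0 < e) (t : E) :
    kr (sb e he) t ≤ 256 / (Real.pi ^ 2 * e ^ 4) := by
  have hpi := Real.pi_pos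
  have h1 := (sb e he).normed_le_div_measure_closedBall_rIn volume t
  have h2 : (volume : Measure E).real (closedBall (0:E) (sb e he).rIn)
      = (Real.pi * (e / 4) ^ 2) ^ 2 := by
    have h3 : closedBall (0:E) (sb e he).rIn
        = closedBall (0:ℂ) (e / 4) ×ˢ closedBall (0:ℂ) (e / 4) := by
      rw [closedBall_prod_same]; rfl
    rw [h3, Measure.real, Measure.volume_eq_prod, Measure.prod_prod, Complex.volume_closedBall,
      ENNReal.toReal_mul, ENNReal.toReal_mul, ENNReal.toReal_pow,
      ENNReal.toReal_ofReal (by positivity)]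
    simp only [ENNReal.coe_toReal, NNReal.coe_real_pi]
    ring
  unfold kr
  refine h1.trans (le_of_eq ?_)
  rw [h2]
  field_simp
  norm_num

/-- the average bound -/
theorem int_bound {g : E → ℝ≥0∞} (hg : Measurable g) (hg1 : ∀ x, g x ≤ 1) {e ρ : ℝ} (he : 0 < e)
    (hρ : 9 / 10 ≤ ρ) (hρe : ρ + e / 2 < 1) {B : ℝ} (hB0 : 0 ≤ B)
    (hB : ∫⁻ w in closedBall (0:ℂ) (e / 2), ∫⁻ a in ball (0:ℂ) 1, g (a, w)
      ≤ ENNReal.ofReal (e ^ 2 * B)) :
    ∫ a in ball (0:ℂ) 1, -moll (sb e he) (hr g) (ρ • ((a, 0) : E)) ≤ 64 * B := by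
  have hpi := Real.pi_pos
  have hρ0 : 0 < ρ := by linarith
  set φ := sb e he with hφ
  have hφr : φ.rOut = e / 2 := rfl
  have hBM := hr_BM hg hg1
  set κ := 256 / (Real.pi ^ 2 * e ^ 4) with hκ
  have hκ0 : 0 < κ := by positivity
  set CB := closedBall (0:ℂ) (e / 2) with hCB
  have hgt : ∀ y, g y ≠ ⊤ := fun y => ne_top_of_le_ne_top ENNReal.one_ne_top (hg1 y)
  have hF0 : ∀ y, 0 ≤ -moll φ (hr g) y := by
    intro y
    have := moll_le_at φ hBM (x := y) (c := 0) (fun t _ => by
      unfold hr; linarith [ENNReal.toReal_nonneg (a := g (y - t))])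
    linarith
  have hFc : Continuous (moll φ (hr g)) := (moll_contDiff φ hBM.locInt).continuous
  -- pointwise bound
  have hpt : ∀ y : E, ENNReal.ofReal (-moll φ (hr g) y)
      ≤ ENNReal.ofReal κ * ∫⁻ t in CB ×ˢ CB, g (y - t) := by
    intro y
    have e1 : -moll φ (hr g) y = ∫ t, (g (y - t)).toReal * kr φ t := by
      rw [moll_eq, ← integral_neg]
      congr 1; funext t; unfold hr; ring
    have hi : Integrable (fun t => (g (y - t)).toReal * kr φ t) := by
      have := (hBM.int_shift φ y).neg
      refine this.congr (Eventually.of_forall fun t => ?_)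
      simp only [Pi.neg_apply, hr]; ring
    rw [e1, ofReal_integral_eq_lintegral_ofReal hi (Eventually.of_forall fun t =>
      mul_nonneg ENNReal.toReal_nonneg (kr_nonneg φ t))]
    have hgy : Measurable (fun t : E => g (y - t)) := hg.comp (measurable_const.sub measurable_id)
    rw [← lintegral_const_mul _ hgy, ← lintegral_indicator (measurableSet_closedBall.prod measurableSet_closedBall)]
    refine lintegral_mono (fun t => ?_)
    rw [ENNReal.ofReal_mul ENNReal.toReal_nonneg, ENNReal.ofReal_toReal (hgt _)]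
    by_cases ht : t ∈ CB ×ˢ CB
    · rw [indicator_of_mem ht, mul_comm]
      exact mul_le_mul' (ENNReal.ofReal_le_ofReal (kr_le he t)) le_rfl
    · have : kr φ t = 0 := by
        apply kr_zero
        rw [hφr]
        rw [hCB, closedBall_prod_same] at ht
        have h3 : ¬ ‖t‖ ≤ e / 2 := fun h => ht (mem_closedBall_zero_iff.mpr h)
        linarith [not_le.mp h3]
      rw [this]; simp
  -- integrate
  have hmain : ∫⁻ a in ball (0:ℂ) 1, ENNReal.ofReal (-moll φ (hr g) (ρ • ((a, 0) : E)))
      ≤ ENNReal.ofReal (64 * B) := by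
    calc ∫⁻ a in ball (0:ℂ) 1, ENNReal.ofReal (-moll φ (hr g) (ρ • ((a, 0) : E)))
        ≤ ∫⁻ a in ball (0:ℂ) 1, ENNReal.ofReal κ
            * ∫⁻ t in CB ×ˢ CB, g (ρ • ((a, 0) : E) - t) := lintegral_mono (fun a => hpt _)
      _ = ENNReal.ofReal κ * ∫⁻ a in ball (0:ℂ) 1, ∫⁻ t in CB ×ˢ CB, g (ρ • ((a, 0) : E) - t) := by
          rw [lintegral_const_mul' _ _ ENNReal.ofReal_ne_top]
      _ = ENNReal.ofReal κ * ∫⁻ t in CB ×ˢ CB, ∫⁻ a in ball (0:ℂ) 1, g (ρ • ((a, 0) : E) - t) := by
          congr 1
          refine lintegral_lintegral_swap (f := fun (a : ℂ) (t : E) => g (ρ • ((a, 0) : E) - t)) ?_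
          refine Measurable.aemeasurable (hg.comp ?_)
          have : Continuous (fun p : ℂ × E => ρ • ((p.1, 0) : E) - p.2) := by fun_prop
          exact this.measurable
      _ ≤ ENNReal.ofReal κ * ∫⁻ t in CB ×ˢ CB,
            ENNReal.ofReal (ρ ^ 2)⁻¹ * ∫⁻ z in ball (0:ℂ) 1, g (z, -t.2) := by
          refine mul_le_mul' le_rfl ?_
          refine setLIntegral_mono' (measurableSet_closedBall.prod measurableSet_closedBall)
            (fun t ht => ?_)
          have ht1 : ‖t.1‖ ≤ e / 2 := mem_closedBall_zero_iff.mp ht.1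
          have hqm : Measurable ((ball (0:ℂ) 1).indicator fun z => g (z, -t.2)) :=
            (hg.comp (by fun_prop)).indicator measurableSet_ball
          calc ∫⁻ a in ball (0:ℂ) 1, g (ρ • ((a, 0) : E) - t)
              = ∫⁻ a in ball (0:ℂ) 1,
                  (ball (0:ℂ) 1).indicator (fun z => g (z, -t.2)) (ρ * a - t.1) := by
                refine setLIntegral_congr_fun measurableSet_ball (fun a ha => ?_)
                have ha1 : ‖a‖ < 1 := mem_ball_zero_iff.mp ha
                have h4 : (ρ * a - t.1) ∈ ball (0:ℂ) 1 := by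
                  rw [mem_ball_zero_iff]
                  have h5 := norm_sub_le ((ρ:ℂ) * a) t.1
                  rw [norm_mul, Complex.norm_real, Real.norm_eq_abs, abs_of_pos hρ0] at h5
                  have h6 : ρ * ‖a‖ ≤ ρ * 1 := by gcongr
                  linarith
                rw [indicator_of_mem h4]
                congr 1
                apply Prod.ext
                · simp
                · simp
            _ ≤ ∫⁻ a : ℂ, (ball (0:ℂ) 1).indicator (fun z => g (z, -t.2)) (ρ * a - t.1) :=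
                setLIntegral_le_lintegral _ _
            _ = ENNReal.ofReal (ρ ^ 2)⁻¹ * ∫⁻ z in ball (0:ℂ) 1, g (z, -t.2) := by
                rw [lint_scale hqm hρ0, lintegral_indicator measurableSet_ball]
      _ = ENNReal.ofReal κ * (ENNReal.ofReal (ρ ^ 2)⁻¹ * (ENNReal.ofReal (Real.pi * (e / 2) ^ 2)
            * ∫⁻ w in CB, ∫⁻ z in ball (0:ℂ) 1, g (z, w))) := by
          congr 1
          have hm2 : Measurable (fun w : ℂ => ∫⁻ z in ball (0:ℂ) 1, g (z, w)) :=
            Measurable.lintegral_prod_right (f := fun (w z : ℂ) => g (z, w))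
              (hg.comp measurable_swap)
          have hm3 : Measurable (fun w : ℂ => ∫⁻ z in ball (0:ℂ) 1, g (z, -w)) :=
            hm2.comp measurable_neg
          have hm4 : Measurable (fun t : ℂ × ℂ => ∫⁻ z in ball (0:ℂ) 1, g (z, -t.2)) :=
            hm3.comp measurable_snd
          rw [lintegral_const_mul _ hm4]
          congr 1
          rw [Measure.volume_eq_prod, ← Measure.prod_restrict,
            lintegral_prod _ hm4.aemeasurable]
          simp only []
          rw [setLIntegral_const, mul_comm]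
          congr 1
          · rw [hCB, Complex.volume_closedBall, ENNReal.ofReal_mul (by positivity),
              ← ENNReal.ofReal_pow (by positivity), mul_comm]
            congr 1
            rw [← NNReal.coe_real_pi, ENNReal.ofReal_coe_nnreal]
          · rw [← lintegral_indicator measurableSet_closedBall,
              ← lintegral_indicator measurableSet_closedBall,
              ← lintegral_neg_eq_self (CB.indicator fun w => ∫⁻ z in ball (0:ℂ) 1, g (z, w))]
            refine lintegral_congr (fun w => ?_)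
            by_cases hw : w ∈ CB
            · have hw' : -w ∈ CB := by
                rw [hCB, mem_closedBall_zero_iff] at hw ⊢; rwa [norm_neg]
              rw [indicator_of_mem hw, indicator_of_mem hw']
            · have hw' : -w ∉ CB := by
                rw [hCB, mem_closedBall_zero_iff] at hw ⊢; rwa [norm_neg]
              rw [indicator_of_notMem hw, indicator_of_notMem hw']
      _ ≤ ENNReal.ofReal κ * (ENNReal.ofReal (ρ ^ 2)⁻¹ * (ENNReal.ofReal (Real.pi * (e / 2) ^ 2)
            * ENNReal.ofReal (e ^ 2 * B))) := by gcongr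
      _ ≤ ENNReal.ofReal (64 * B) := by
          rw [← ENNReal.ofReal_mul (by positivity), ← ENNReal.ofReal_mul (by positivity),
            ← ENNReal.ofReal_mul (by positivity)]
          apply ENNReal.ofReal_le_ofReal
          have h1 : κ * ((ρ ^ 2)⁻¹ * (Real.pi * (e / 2) ^ 2 * (e ^ 2 * B)))
              = 64 * B * ((ρ ^ 2)⁻¹ / Real.pi) := by
            rw [hκ]; field_simp; ring
          rw [h1]
          have h2 : (ρ ^ 2)⁻¹ / Real.pi ≤ 1 := by
            rw [div_le_one hpi, inv_le_comm₀ (by positivity) hpi]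
            have h3 : (81:ℝ) / 100 ≤ ρ ^ 2 := by nlinarith
            have h4 : Real.pi⁻¹ ≤ 1 / 3 := by
              rw [inv_le_comm₀ hpi (by norm_num)]
              linarith [Real.pi_gt_three]
            linarith
          have h3 : 0 ≤ 64 * B := by positivity
          nlinarith
  have hfi : Integrable (fun a : ℂ => -moll φ (hr g) (ρ • ((a, 0) : E)))
      ((volume : Measure ℂ).restrict (ball 0 1)) := by
    have hc : Continuous (fun a : ℂ => -moll φ (hr g) (ρ • ((a, 0) : E))) :=
      (hFc.comp (by fun_prop)).neg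
    exact intOn_ball hc 1
  have h7 := ofReal_integral_eq_lintegral_ofReal hfi (Eventually.of_forall fun a => hF0 _)
  rw [← h7] at hmain
  exact (ENNReal.ofReal_le_ofReal_iff (by positivity)).mp hmain

end H13Ceg
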