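import Pool.Agent.H13.Ceg.Ctl

open MeasureTheory Set Filter Topology Metric
open scoped ContDiff ENNReal NNReal

namespace H13Ceg

lemma avg_re_poly (A B C : ℝ) (α : ℂ) :
    Real.circleAverage (fun ζ : ℂ => A + B * (α * ζ).re + C * ((α * ζ) ^ 2).re) 0 1 = A := by
  set h : ℂ → ℂ := fun ζ => (A : ℂ) + B * (α * ζ) + C * (α * ζ) ^ 2 with hh
  have hd : Differentiable ℂ h := by rw [hh]; fun_prop
  have h1 : Real.circleAverage h 0 1 = h 0 :=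
    DiffContOnCl.circleAverage (c := (0:ℂ)) (R := 1) hd.diffContOnCl
  have hc : CircleIntegrable h 0 1 := by
    apply ContinuousOn.circleIntegrable'
    exact hd.continuous.continuousOn
  have h2 := Complex.reCLM.circleAverage_comp_comm (f := h) (c := 0) (R := 1) hc
  have h3 : (fun ζ : ℂ => A + B * (α * ζ).re + C * ((α * ζ) ^ 2).re) = Complex.reCLM ∘ h := by
    funext ζ
    simp only [hh, Function.comp, Complex.reCLM_apply, Complex.add_re, Complex.ofReal_re,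
      Complex.re_ofReal_mul]
  rw [h3, h2, h1, hh]
  simp

/-- quantitative sub-mean value property -/
lemma log_gain {d δ : ℝ} (hδ : 0 < δ) (hδd : δ ≤ d / 20) {w b : ℂ} (hw : ‖w‖ ≤ d / 2)
    (hb : ‖b‖ = δ) :
    Real.log (‖w‖ ^ 2 + d ^ 2) + δ ^ 2 / (4 * d ^ 2)
      ≤ Real.circleAverage (fun ζ : ℂ => Real.log (‖w + ζ * b‖ ^ 2 + d ^ 2)) 0 1 := by
  have hd : 0 < d := by linarith
  set Q := ‖w‖ ^ 2 + d ^ 2 with hQ
  have hQ0 : 0 < Q := by positivity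
  have hdQ : d ^ 2 ≤ Q := by rw [hQ]; nlinarith [sq_nonneg ‖w‖]
  have hw2 : ‖w‖ ^ 2 ≤ d ^ 2 / 4 := by
    have := pow_le_pow_left₀ (norm_nonneg w) hw 2
    nlinarith
  set α : ℂ := (starRingEnd ℂ w) * b with hα
  have hαn : ‖α‖ = ‖w‖ * δ := by rw [hα, norm_mul, Complex.norm_conj, hb]
  have hδ2 : δ ^ 2 ≤ d ^ 2 / 400 := by
    have := pow_le_pow_left₀ hδ.le hδd 2
    nlinarith
  -- the expansion on the circle
  have hexp : ∀ ζ : ℂ, ‖ζ‖ = 1 → ‖w + ζ * b‖ ^ 2 + d ^ 2 = Q * (1 + (δ ^ 2 + 2 * (α * ζ).re) / Q) := by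
    intro ζ hζ
    have h1 : ‖w + ζ * b‖ ^ 2 = ‖w‖ ^ 2 + ‖ζ * b‖ ^ 2 + 2 * (α * ζ).re := by
      have e : (w * (starRingEnd ℂ) (ζ * b)).re = (α * ζ).re := by
        have : w * (starRingEnd ℂ) (ζ * b) = (starRingEnd ℂ) ((starRingEnd ℂ) w * b * ζ) := by
          simp only [map_mul, Complex.conj_conj]; ring
        rw [this, Complex.conj_re]
      rw [Complex.sq_norm, Complex.normSq_add, e, ← Complex.sq_norm, ← Complex.sq_norm]
    rw [h1, norm_mul, hζ, hb, one_mul, mul_add, mul_div_cancel₀ _ hQ0.ne', hQ]; ring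
  -- the lower bound on the circle
  have hlow : ∀ ζ : ℂ, ‖ζ‖ = 1 →
      (Real.log Q + δ ^ 2 / Q - (10/9) * ((δ ^ 2) ^ 2 + 2 * ‖α‖ ^ 2) / Q ^ 2)
        + (2 / Q - (10/9) * 4 * δ ^ 2 / Q ^ 2) * (α * ζ).re
        + (-((10/9) * 2 / Q ^ 2)) * ((α * ζ) ^ 2).re
      ≤ Real.log (‖w + ζ * b‖ ^ 2 + d ^ 2) := by
    intro ζ hζ
    set t := (δ ^ 2 + 2 * (α * ζ).re) / Q with ht
    have hre : |(α * ζ).re| ≤ ‖w‖ * δ := by
      have := Complex.abs_re_le_norm (α * ζ)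
      rwa [norm_mul, hζ, mul_one, hαn] at this
    have hwd : ‖w‖ * δ ≤ d ^ 2 / 40 := by
      calc ‖w‖ * δ ≤ (d / 2) * (d / 20) := by gcongr
        _ = d ^ 2 / 40 := by ring
    have ht1 : |t| ≤ 1 / 10 := by
      rw [ht, abs_div, abs_of_pos hQ0, div_le_iff₀ hQ0]
      have h1 : |δ ^ 2 + 2 * (α * ζ).re| ≤ δ ^ 2 + 2 * |(α * ζ).re| := by
        refine (abs_add_le _ _).trans ?_
        rw [abs_of_nonneg (sq_nonneg δ), abs_mul, abs_two]
      linarith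
    have h2 := Real.abs_log_sub_add_sum_range_le (x := -t) (by rw [abs_neg]; linarith) 1
    simp only [Finset.sum_range_one, zero_add, pow_one, Nat.cast_zero, div_one, sub_neg_eq_add,
      abs_neg] at h2
    have h3 : |t| ^ (1 + 1) / (1 - |t|) ≤ (10/9) * t ^ 2 := by
      rw [div_le_iff₀ (by linarith)]
      have : |t| ^ (1 + 1) = t ^ 2 := by norm_num
      rw [this]
      nlinarith [sq_nonneg t]
    have h4 : t - (10/9) * t ^ 2 ≤ Real.log (1 + t) := by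
      have := (abs_le.mp (h2.trans h3)).1
      linarith
    have h5 : Real.log (‖w + ζ * b‖ ^ 2 + d ^ 2) = Real.log Q + Real.log (1 + t) := by
      rw [hexp ζ hζ, Real.log_mul hQ0.ne']
      have := (abs_le.mp ht1).1
      linarith
    rw [h5]
    have h6 : t ^ 2 = ((δ ^ 2) ^ 2 + 4 * δ ^ 2 * (α * ζ).re + 2 * ‖α‖ ^ 2
        + 2 * ((α * ζ) ^ 2).re) / Q ^ 2 := by
      rw [ht, div_pow]
      congr 1
      have h7 : ((α * ζ) ^ 2).re = 2 * ((α * ζ).re) ^ 2 - ‖α * ζ‖ ^ 2 := by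
        rw [Complex.sq_norm, Complex.normSq_apply, sq (α * ζ), Complex.mul_re (α * ζ) (α * ζ)]
        ring
      rw [h7, norm_mul α ζ, hζ]
      ring
    have h8 : t = δ ^ 2 / Q + 2 / Q * (α * ζ).re := by rw [ht]; ring
    have h9 : (Real.log Q + δ ^ 2 / Q - (10/9) * ((δ ^ 2) ^ 2 + 2 * ‖α‖ ^ 2) / Q ^ 2)
        + (2 / Q - (10/9) * 4 * δ ^ 2 / Q ^ 2) * (α * ζ).re
        + (-((10/9) * 2 / Q ^ 2)) * ((α * ζ) ^ 2).re
        = Real.log Q + ((δ ^ 2 / Q + 2 / Q * (α * ζ).re)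
          - (10/9) * (((δ ^ 2) ^ 2 + 4 * δ ^ 2 * (α * ζ).re + 2 * ‖α‖ ^ 2
            + 2 * ((α * ζ) ^ 2).re) / Q ^ 2)) := by ring
    rw [h9, ← h6, ← h8]
    linarith
  -- average
  have hav := avg_re_poly (Real.log Q + δ ^ 2 / Q - (10/9) * ((δ ^ 2) ^ 2 + 2 * ‖α‖ ^ 2) / Q ^ 2)
    (2 / Q - (10/9) * 4 * δ ^ 2 / Q ^ 2) (-((10/9) * 2 / Q ^ 2)) α
  have hle := Real.circleAverage_mono (c := (0:ℂ)) (R := 1)
    (f₁ := fun ζ : ℂ =>
      (Real.log Q + δ ^ 2 / Q - (10/9) * ((δ ^ 2) ^ 2 + 2 * ‖α‖ ^ 2) / Q ^ 2)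
        + (2 / Q - (10/9) * 4 * δ ^ 2 / Q ^ 2) * (α * ζ).re
        + (-((10/9) * 2 / Q ^ 2)) * ((α * ζ) ^ 2).re)
    (f₂ := fun ζ : ℂ => Real.log (‖w + ζ * b‖ ^ 2 + d ^ 2)) ?_ ?_ ?_
  · rw [hav] at hle
    refine le_trans ?_ hle
    have e1 : (10/9) * ((δ ^ 2) ^ 2 + 2 * ‖α‖ ^ 2) / Q ^ 2
        = (δ ^ 2 / Q) * ((10/9) * ((δ ^ 2 + 2 * ‖w‖ ^ 2) / Q)) := by
      rw [hαn]; field_simp
    have e2 : (δ ^ 2 + 2 * ‖w‖ ^ 2) / Q ≤ 41/100 := by
      rw [div_le_iff₀ hQ0, hQ]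
      nlinarith
    have e3 : δ ^ 2 / (2 * d ^ 2) ≤ δ ^ 2 / Q := by
      apply div_le_div_of_nonneg_left (by positivity) hQ0
      rw [hQ]; nlinarith
    have e4 : 0 ≤ δ ^ 2 / Q := by positivity
    have e5 : (δ ^ 2 / Q) * ((10/9) * ((δ ^ 2 + 2 * ‖w‖ ^ 2) / Q))
        ≤ (δ ^ 2 / Q) * (1/2) := by
      apply mul_le_mul_of_nonneg_left _ e4
      linarith
    have e6 : δ ^ 2 / (4 * d ^ 2) = (δ ^ 2 / (2 * d ^ 2)) / 2 := by field_simp; norm_num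
    rw [e1, e6]
    linarith
  · apply ContinuousOn.circleIntegrable'
    apply Continuous.continuousOn
    fun_prop
  · apply ContinuousOn.circleIntegrable'
    apply Continuous.continuousOn
    refine Continuous.log (by fun_prop) (fun x => by positivity)
  · intro ζ hζ
    exact hlow ζ (by simpa using hζ)

end H13Ceg
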