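import Pool.Agent.H13.Ceg.Bar

open MeasureTheory Set Filter Topology Metric
open scoped ContDiff ENNReal NNReal

namespace H13Ceg

/-- the barrier -/
noncomputable def pb (R d : ℝ) (w : ℂ) : ℝ :=
  Real.log (R ^ 2 + d ^ 2) - Real.log (‖w‖ ^ 2 + d ^ 2)

lemma pb_nonneg {R d : ℝ} (hd : 0 < d) {w : ℂ} (hw : ‖w‖ ≤ R) : 0 ≤ pb R d w := by
  unfold pb
  have := Real.log_le_log (x := ‖w‖ ^ 2 + d ^ 2) (y := R ^ 2 + d ^ 2) (by positivity)
    (by nlinarith [norm_nonneg w])
  linarith

lemma pb_meas (R d : ℝ) : Measurable (pb R d) := by unfold pb; fun_prop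

/-- the truncated barrier -/
noncomputable def pI (r1 R d : ℝ) (w : ℂ) : ℝ≥0∞ :=
  if ‖w‖ ≤ r1 then ENNReal.ofReal (pb R d w) else 0

lemma pI_meas (r1 R d : ℝ) : Measurable (pI r1 R d) := by
  unfold pI
  exact Measurable.ite (measurableSet_le measurable_norm measurable_const)
    (ENNReal.measurable_ofReal.comp (pb_meas R d)) measurable_const

lemma pI_avg_in {r1 δ d : ℝ} (hδ : 0 < δ) (hd : 0 < d) {w : ℂ} (hw : ‖w‖ ≤ r1) {g : ℝ}
    (hg0 : 0 ≤ g)
    (hg : Real.log (‖w‖ ^ 2 + d ^ 2) + g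
      ≤ Real.circleAverage (fun ζ : ℂ => Real.log (‖w + ζ * (-δ : ℂ)‖ ^ 2 + d ^ 2)) 0 1) :
    (∫⁻ ζ, pI r1 (r1 + δ) d (w - δ * ζ) ∂νc) + ENNReal.ofReal g ≤ pI r1 (r1 + δ) d w := by
  set R := r1 + δ with hR
  set u : ℂ → ℝ := fun ζ => pb R d (w + ζ * (-δ : ℂ)) with hu
  have hin : ∀ ζ : ℂ, ‖ζ‖ = 1 → ‖w + ζ * (-δ : ℂ)‖ ≤ R := by
    intro ζ hζ
    refine (norm_add_le _ _).trans ?_
    rw [norm_mul, hζ, norm_neg, Complex.norm_real, Real.norm_eq_abs, abs_of_pos hδ]
    linarith
  have hlogc : Continuous (fun ζ : ℂ => Real.log (‖w + ζ * (-δ : ℂ)‖ ^ 2 + d ^ 2)) :=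
    Continuous.log (by fun_prop) (fun x => by positivity)
  have cl : CircleIntegrable (fun ζ : ℂ => Real.log (‖w + ζ * (-δ : ℂ)‖ ^ 2 + d ^ 2)) 0 1 :=
    hlogc.continuousOn.circleIntegrable'
  have hui : CircleIntegrable u 0 1 := (circleIntegrable_const _ _ _).sub cl
  have hum : Measurable u := (pb_meas R d).comp (by fun_prop)
  have hu0 : ∀ θ : ℝ, 0 ≤ u (circleMap 0 1 θ) := fun θ => pb_nonneg hd (hin _ (by simp))
  have h1 : ∫⁻ ζ, pI r1 R d (w - δ * ζ) ∂νc ≤ ENNReal.ofReal (Real.circleAverage u 0 1) := by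
    rw [ofReal_circleAverage hum hui hu0]
    refine lintegral_mono (fun ζ => ?_)
    have e : w - δ * ζ = w + ζ * (-δ : ℂ) := by ring
    rw [e]
    unfold pI
    split_ifs
    · exact le_rfl
    · exact zero_le
  have h2 : Real.circleAverage u 0 1 = Real.log (R ^ 2 + d ^ 2)
      - Real.circleAverage (fun ζ : ℂ => Real.log (‖w + ζ * (-δ : ℂ)‖ ^ 2 + d ^ 2)) 0 1 := by
    have h1 := Real.circleAverage_fun_sub
      (f₁ := fun _ => Real.log (R ^ 2 + d ^ 2))
      (f₂ := fun ζ : ℂ => Real.log (‖w + ζ * (-δ : ℂ)‖ ^ 2 + d ^ 2)) (c := 0) (R := 1)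
      (circleIntegrable_const _ _ _) cl
    rw [Real.circleAverage_const] at h1
    exact h1
  have h3 : 0 ≤ Real.circleAverage u 0 1 := by
    apply Real.circleAverage_nonneg_of_nonneg
    intro x hx
    exact pb_nonneg hd (hin _ (by simpa using hx))
  calc (∫⁻ ζ, pI r1 R d (w - δ * ζ) ∂νc) + ENNReal.ofReal g
      ≤ ENNReal.ofReal (Real.circleAverage u 0 1) + ENNReal.ofReal g := by gcongr
    _ = ENNReal.ofReal (Real.circleAverage u 0 1 + g) := (ENNReal.ofReal_add h3 hg0).symm
    _ ≤ ENNReal.ofReal (pb R d w) := by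
        apply ENNReal.ofReal_le_ofReal
        rw [h2]; unfold pb; linarith
    _ = pI r1 R d w := by unfold pI; rw [if_pos hw]

lemma pI_avg_ann {r1 δ d : ℝ} (hδ : 0 < δ) (hδr : δ ≤ r1 / 2) (hd : 0 < d) {w : ℂ}
    (hw : r1 < ‖w‖) :
    ∫⁻ ζ, pI r1 (r1 + δ) d (w - δ * ζ) ∂νc ≤ ENNReal.ofReal (16 * δ / r1) := by
  have hr1 : 0 < r1 := by linarith
  calc ∫⁻ ζ, pI r1 (r1 + δ) d (w - δ * ζ) ∂νc ≤ ∫⁻ ζ, ENNReal.ofReal (16 * δ / r1) ∂νc := by
        refine lintegral_mono_ae ?_
        filter_upwards [νc_ae] with ζ hζ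
        unfold pI
        split_ifs with h
        · apply ENNReal.ofReal_le_ofReal
          set w' := w - δ * ζ with hw'
          have h1 : r1 - δ ≤ ‖w'‖ := by
            have h2 : ‖(δ:ℂ) * ζ‖ = δ := by
              rw [norm_mul, hζ, mul_one, Complex.norm_real, Real.norm_eq_abs, abs_of_pos hδ]
            have := norm_sub_norm_le w (δ * ζ)
            rw [h2] at this
            linarith
          have h3 : r1 / 2 ≤ ‖w'‖ := by linarith
          have hq : 0 < ‖w'‖ ^ 2 + d ^ 2 := by positivity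
          unfold pb
          rw [← Real.log_div (by positivity) hq.ne']
          have h4 := Real.log_le_sub_one_of_pos (x := ((r1 + δ) ^ 2 + d ^ 2) / (‖w'‖ ^ 2 + d ^ 2))
            (by positivity)
          refine h4.trans ?_
          rw [div_sub_one hq.ne', div_le_div_iff₀ hq hr1]
          have h5 : (r1 / 2) ^ 2 ≤ ‖w'‖ ^ 2 := pow_le_pow_left₀ (by linarith) h3 2
          have h6 : (r1 - δ) ^ 2 ≤ ‖w'‖ ^ 2 := pow_le_pow_left₀ (by linarith) h1 2
          have h7 : (r1 + δ) ^ 2 + d ^ 2 - (‖w'‖ ^ 2 + d ^ 2) ≤ 4 * r1 * δ := by nlinarith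
          have h8 : ((r1 + δ) ^ 2 + d ^ 2 - (‖w'‖ ^ 2 + d ^ 2)) * r1 ≤ 4 * r1 * δ * r1 :=
            mul_le_mul_of_nonneg_right h7 hr1.le
          have h9 : 4 * r1 * δ * r1 ≤ 16 * δ * (‖w'‖ ^ 2 + d ^ 2) := by
            have : 4 * r1 * δ * r1 = 16 * δ * (r1 / 2) ^ 2 := by ring
            rw [this]
            apply mul_le_mul_of_nonneg_left _ (by linarith)
            nlinarith [sq_nonneg d]
          linarith
        · exact zero_le
    _ = ENNReal.ofReal (16 * δ / r1) := by
        have h1 : (νc : Measure ℂ) univ = 1 := measure_univ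
        rw [lintegral_const, h1, mul_one]

lemma pI_avg_out {r1 δ d : ℝ} (hδ : 0 < δ) {w : ℂ} (hw : r1 + δ < ‖w‖) :
    ∫⁻ ζ, pI r1 (r1 + δ) d (w - δ * ζ) ∂νc = 0 := by
  have : ∫⁻ ζ, pI r1 (r1 + δ) d (w - δ * ζ) ∂νc = ∫⁻ ζ, (0 : ℝ≥0∞) ∂νc := by
    refine lintegral_congr_ae ?_
    filter_upwards [νc_ae] with ζ hζ
    unfold pI
    rw [if_neg]
    intro h
    have h2 : ‖(δ:ℂ) * ζ‖ = δ := by
      rw [norm_mul, hζ, mul_one, Complex.norm_real, Real.norm_eq_abs, abs_of_pos hδ]
    have := norm_sub_norm_le w (δ * ζ)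
    rw [h2] at this
    linarith
  rw [this]; simp

/-- mass of the exit energies near the origin -/
theorem barrier {Nb : ℂ → ℝ≥0∞} (hNb : Measurable Nb) {r1 δ d : ℝ} (hδ : 0 < δ)
    (hδd : δ ≤ d / 20) (hδr : δ ≤ r1 / 2) (hdr : d / 2 ≤ r1)
    (hfin : ∫⁻ w in {w : ℂ | r1 < ‖w‖ ∧ ‖w‖ ≤ r1 + δ}, Nb w ≠ ⊤) (m : ℕ) :
    ENNReal.ofReal (δ ^ 2 / (4 * d ^ 2)) * ∫⁻ w in closedBall (0:ℂ) (d / 2), NN Nb r1 δ m w
      ≤ ENNReal.ofReal (16 * δ / r1) * ∫⁻ w in {w : ℂ | r1 < ‖w‖ ∧ ‖w‖ ≤ r1 + δ}, Nb w := by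
  have hd : 0 < d := by linarith
  have hr1 : 0 < r1 := by linarith
  set R := r1 + δ with hR
  set g := δ ^ 2 / (4 * d ^ 2) with hg
  have hg0 : 0 ≤ g := by positivity
  set A := {w : ℂ | r1 < ‖w‖ ∧ ‖w‖ ≤ R} with hA
  have hAm : MeasurableSet A :=
    (measurableSet_lt measurable_const measurable_norm).inter
      (measurableSet_le measurable_norm measurable_const)
  set p := pI r1 R d with hp
  have hpm : Measurable p := pI_meas r1 R d
  set B : ℂ → ℝ≥0∞ := fun w => ∫⁻ ζ, p (w - δ * ζ) ∂νc with hB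
  have hBm : Measurable B := by
    have : Measurable (Function.uncurry fun (w ζ : ℂ) => p (w - δ * ζ)) := hpm.comp (by fun_prop)
    exact this.lintegral_prod_right
  set J : ℕ → ℝ≥0∞ := fun m => ∫⁻ w, p w * NN Nb r1 δ m w with hJ
  have hJstep : ∀ m, J (m + 1) = ∫⁻ w, NN Nb r1 δ m w * B w := by
    intro m
    have hNm := NN_meas hNb r1 δ m
    calc J (m + 1) = ∫⁻ w, ∫⁻ ζ, p w * NN Nb r1 δ m (w + δ * ζ) ∂νc := by
          simp only [hJ]
          refine lintegral_congr (fun w => ?_)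
          have hNζ : Measurable (fun ζ : ℂ => NN Nb r1 δ m (w + δ * ζ)) := hNm.comp (by fun_prop)
          rw [lintegral_const_mul _ hNζ, NN_succ]
          split_ifs with h
          · have : p w = 0 := by rw [hp]; unfold pI; rw [if_neg (not_le.mpr h)]
            rw [this, zero_mul, zero_mul]
          · rfl
      _ = ∫⁻ ζ, ∫⁻ w, p w * NN Nb r1 δ m (w + δ * ζ) ∂volume ∂νc := by
          refine lintegral_lintegral_swap
            (f := fun (w ζ : ℂ) => p w * NN Nb r1 δ m (w + δ * ζ)) ?_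
          refine Measurable.aemeasurable ?_
          exact (hpm.comp measurable_fst).mul (hNm.comp (by fun_prop))
      _ = ∫⁻ ζ, ∫⁻ w, NN Nb r1 δ m w * p (w - δ * ζ) ∂volume ∂νc := by
          refine lintegral_congr (fun ζ => ?_)
          rw [← lintegral_sub_right_eq_self
            (fun w : ℂ => p w * NN Nb r1 δ m (w + δ * ζ)) (δ * ζ)]
          refine lintegral_congr (fun w => ?_)
          simp only [sub_add_cancel]
          rw [mul_comm]
      _ = ∫⁻ w, ∫⁻ ζ, NN Nb r1 δ m w * p (w - δ * ζ) ∂νc := by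
          refine lintegral_lintegral_swap
            (f := fun (ζ w : ℂ) => NN Nb r1 δ m w * p (w - δ * ζ)) ?_
          refine Measurable.aemeasurable ?_
          exact (hNm.comp measurable_snd).mul (hpm.comp (by fun_prop))
      _ = ∫⁻ w, NN Nb r1 δ m w * B w := by
          refine lintegral_congr (fun w => ?_)
          have hpζ : Measurable (fun ζ : ℂ => p (w - δ * ζ)) := hpm.comp (by fun_prop)
          rw [lintegral_const_mul _ hpζ]
  -- the pointwise inequality
  have hpt : ∀ w, B w + (closedBall (0:ℂ) (d / 2)).indicator (fun _ => ENNReal.ofReal g) w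
      ≤ p w + A.indicator (fun _ => ENNReal.ofReal (16 * δ / r1)) w := by
    intro w
    by_cases h1 : ‖w‖ ≤ r1
    · have hwA : w ∉ A := fun h => not_lt.mpr h1 h.1
      rw [indicator_of_notMem hwA, add_zero]
      by_cases h2 : w ∈ closedBall (0:ℂ) (d / 2)
      · rw [indicator_of_mem h2]
        refine pI_avg_in hδ hd h1 hg0 ?_
        exact log_gain hδ hδd (mem_closedBall_zero_iff.mp h2) (by
          rw [norm_neg, Complex.norm_real, Real.norm_eq_abs, abs_of_pos hδ])
      · rw [indicator_of_notMem h2, add_zero]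
        have := pI_avg_in hδ hd h1 (g := 0) le_rfl (by
          rw [add_zero]; exact log_add_sq_le_avg hd w _)
        rwa [ENNReal.ofReal_zero, add_zero] at this
    · have hw2 : w ∉ closedBall (0:ℂ) (d / 2) := by
        rw [mem_closedBall_zero_iff]; intro h; exact h1 (h.trans hdr)
      rw [indicator_of_notMem hw2, add_zero]
      by_cases h3 : ‖w‖ ≤ R
      · rw [indicator_of_mem (show w ∈ A from ⟨not_le.mp h1, h3⟩)]
        refine le_add_left ?_
        exact pI_avg_ann hδ hδr hd (not_le.mp h1)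
      · have : B w = 0 := pI_avg_out hδ (not_le.mp h3)
        rw [this]; exact zero_le
  set S := ENNReal.ofReal (16 * δ / r1) * ∫⁻ w in A, Nb w with hS
  have hSfin : S ≠ ⊤ := ENNReal.mul_ne_top ENNReal.ofReal_ne_top hfin
  have hmain : ∀ m, J (m + 1)
      + ENNReal.ofReal g * ∫⁻ w in closedBall (0:ℂ) (d / 2), NN Nb r1 δ m w ≤ J m + S := by
    intro m
    have hNm := NN_meas hNb r1 δ m
    calc J (m + 1) + ENNReal.ofReal g * ∫⁻ w in closedBall (0:ℂ) (d / 2), NN Nb r1 δ m w
        = ∫⁻ w, NN Nb r1 δ m w * (B w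
            + (closedBall (0:ℂ) (d / 2)).indicator (fun _ => ENNReal.ofReal g) w) := by
          have hNB : Measurable (fun w => NN Nb r1 δ m w * B w) := hNm.mul hBm
          rw [hJstep, ← lintegral_const_mul _ hNm, ← lintegral_indicator measurableSet_closedBall,
            ← lintegral_add_left hNB]
          refine lintegral_congr (fun w => ?_)
          rw [mul_add]
          congr 1
          by_cases h : w ∈ closedBall (0:ℂ) (d / 2)
          · rw [indicator_of_mem h, indicator_of_mem h, mul_comm]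
          · rw [indicator_of_notMem h, indicator_of_notMem h, mul_zero]
      _ ≤ ∫⁻ w, NN Nb r1 δ m w
            * (p w + A.indicator (fun _ => ENNReal.ofReal (16 * δ / r1)) w) :=
          lintegral_mono (fun w => mul_le_mul' le_rfl (hpt w))
      _ = J m + S := by
          have e : ∀ w, NN Nb r1 δ m w
              * (p w + A.indicator (fun _ => ENNReal.ofReal (16 * δ / r1)) w)
              = p w * NN Nb r1 δ m w
                + A.indicator (fun w => ENNReal.ofReal (16 * δ / r1) * Nb w) w := by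
            intro w
            rw [mul_add, mul_comm]
            congr 1
            by_cases h : w ∈ A
            · rw [indicator_of_mem h, indicator_of_mem h, mul_comm]
              congr 1
              cases m with
              | zero => simp only [NN]; rw [if_pos h.1]
              | succ m => rw [NN_succ, if_pos h.1]
            · rw [indicator_of_notMem h, indicator_of_notMem h, mul_zero]
          simp_rw [e]
          have hpN : Measurable (fun w => p w * NN Nb r1 δ m w) := hpm.mul hNm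
          rw [lintegral_add_left hpN, lintegral_indicator hAm, hS,
            lintegral_const_mul _ hNb]
  have hJfin : ∀ m, J m ≠ ⊤ := by
    intro m
    induction m with
    | zero =>
        have : J 0 = 0 := by
          simp only [hJ]
          have hpN : Measurable (fun w => p w * NN Nb r1 δ 0 w) := hpm.mul (NN_meas hNb r1 δ 0)
          rw [lintegral_eq_zero_iff hpN]
          refine Eventually.of_forall (fun w => ?_)
          simp only [NN, Pi.zero_apply]
          by_cases h : r1 < ‖w‖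
          · have : p w = 0 := by rw [hp]; unfold pI; rw [if_neg (not_le.mpr h)]
            rw [this, zero_mul]
          · rw [if_neg h, mul_zero]
        rw [this]; exact ENNReal.zero_ne_top
    | succ m ih =>
        have h1 : J (m + 1) ≤ J m + S := le_trans le_self_add (hmain m)
        exact ne_top_of_le_ne_top (ENNReal.add_ne_top.mpr ⟨ih, hSfin⟩) h1
  have hJmono : J m ≤ J (m + 1) := by
    simp only [hJ]
    exact lintegral_mono (fun w => mul_le_mul' le_rfl (NN_mono Nb r1 δ m w))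
  have h2 : J m + ENNReal.ofReal g * ∫⁻ w in closedBall (0:ℂ) (d / 2), NN Nb r1 δ m w
      ≤ J m + S := le_trans (by gcongr) (hmain m)
  exact (ENNReal.add_le_add_iff_left (hJfin m)).mp h2

end H13Ceg
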