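import Mathlib

open MeasureTheory Set Filter Topology Metric
open scoped ContDiff ENNReal

namespace H13Ceg

/-- The space `ℂ²`. -/
abbrev E := ℂ × ℂ

instance instHaarE : (volume : Measure E).IsAddHaarMeasure := by
  rw [Measure.volume_eq_prod]
  infer_instance

/-- directional derivative -/
noncomputable def D (v : E) (f : E → ℝ) : E → ℝ := fun x => fderiv ℝ f x v

noncomputable def e1 : E := (1, 0)
noncomputable def e2 : E := (Complex.I, 0)
noncomputable def e3 : E := (0, 1)
noncomputable def e4 : E := (0, Complex.I)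

lemma D_contDiff {v : E} {f : E → ℝ} {m n : WithTop ℕ∞} (hf : ContDiff ℝ n f) (hmn : m + 1 ≤ n) :
    ContDiff ℝ m (D v f) := by
  unfold D
  exact (hf.fderiv_right hmn).clm_apply contDiff_const

lemma D_comm {a b : E} {f : E → ℝ} (hf : ContDiff ℝ 2 f) (x : E) :
    D a (D b f) x = D b (D a f) x := by
  have hsym : IsSymmSndFDerivAt ℝ f x :=
    (hf.contDiffAt (x := x)).isSymmSndFDerivAt (by simp)
  have key : ∀ u v : E, D u (D v f) x = fderiv ℝ (fderiv ℝ f) x u v := by
    intro u v
    have hd : DifferentiableAt ℝ (fderiv ℝ f) x :=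
      ((hf.fderiv_right (m := 1) (by norm_num)).differentiable (by norm_num)) x
    have : HasFDerivAt (fun y => fderiv ℝ f y v)
        ((ContinuousLinearMap.apply ℝ ℝ v).comp (fderiv ℝ (fderiv ℝ f) x)) x :=
      (ContinuousLinearMap.apply ℝ ℝ v).hasFDerivAt.comp x hd.hasFDerivAt
    unfold D
    rw [this.fderiv]
    rfl
  rw [key, key]
  exact hsym.eq a b

lemma D_mul {v : E} {f g : E → ℝ} (hf : Differentiable ℝ f) (hg : Differentiable ℝ g) :
    D v (fun x => f x * g x) = fun x => D v f x * g x + f x * D v g x := by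
  funext x
  unfold D
  rw [fderiv_fun_mul (hf x) (hg x)]
  simp only [_root_.add_apply, _root_.smul_apply, smul_eq_mul]
  ring

lemma D_add {v : E} {f g : E → ℝ} (hf : Differentiable ℝ f) (hg : Differentiable ℝ g) :
    D v (fun x => f x + g x) = fun x => D v f x + D v g x := by
  funext x
  unfold D
  rw [fderiv_fun_add (hf x) (hg x)]
  rfl

lemma D_sub {v : E} {f g : E → ℝ} (hf : Differentiable ℝ f) (hg : Differentiable ℝ g) :
    D v (fun x => f x - g x) = fun x => D v f x - D v g x := by
  funext x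
  unfold D
  rw [fderiv_fun_sub (hf x) (hg x)]
  rfl

lemma D_congr {v : E} {f g : E → ℝ} {x : E} (h : f =ᶠ[𝓝 x] g) : D v f x = D v g x := by
  unfold D; rw [h.fderiv_eq]

lemma D_eventuallyEq {v : E} {f g : E → ℝ} {x : E} (h : f =ᶠ[𝓝 x] g) :
    D v f =ᶠ[𝓝 x] D v g := by
  filter_upwards [h.eventuallyEq_nhds] with y hy
  exact D_congr hy

lemma D_compact {v : E} {f : E → ℝ} (hf : HasCompactSupport f) : HasCompactSupport (D v f) :=
  HasCompactSupport.fderiv_apply (𝕜 := ℝ) hf v

/-- Laplacian in `z`. -/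
noncomputable def Lz (f : E → ℝ) (x : E) : ℝ := D e1 (D e1 f) x + D e2 (D e2 f) x
/-- Laplacian in `w`. -/
noncomputable def Lw (f : E → ℝ) (x : E) : ℝ := D e3 (D e3 f) x + D e4 (D e4 f) x
/-- four times the real part of the mixed complex derivative -/
noncomputable def Ma (f : E → ℝ) (x : E) : ℝ := D e1 (D e3 f) x + D e2 (D e4 f) x
/-- four times the imaginary part of the mixed complex derivative -/
noncomputable def Mb (f : E → ℝ) (x : E) : ℝ := D e1 (D e4 f) x - D e2 (D e3 f) x

/-- the mixed Monge-Ampere form -/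
noncomputable def MM (f g : E → ℝ) (x : E) : ℝ :=
  Lz f x * Lw g x + Lw f x * Lz g x - 2 * (Ma f x * Ma g x + Mb f x * Mb g x)

/-- integral of a derivative of a compactly supported function vanishes -/
lemma integral_D_eq_zero {v : E} {f : E → ℝ} (hf : ContDiff ℝ 1 f) (hc : HasCompactSupport f) :
    ∫ x, D v f x = 0 := by
  have h := integral_mul_fderiv_eq_neg_fderiv_mul_of_integrable (μ := (volume : Measure E))
    (f := fun _ : E => (1 : ℝ)) (g := f) (v := v) ?_ ?_ ?_ ?_ ?_
  · simpa [D] using h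
  · simp
  · simp only [one_mul]
    have : Continuous (D v f) := (D_contDiff (m := 0) hf (by norm_num)).continuous
    exact this.integrable_of_hasCompactSupport (D_compact hc)
  · simp only [one_mul]
    exact hf.continuous.integrable_of_hasCompactSupport hc
  · intro x _
    exact differentiableAt_const _
  · intro x _
    exact (hf.differentiable (by norm_num)) x


/-- the four components of the vector field whose divergence is
`φ MM(p,q) - p MM(φ,q)` -/
lemma div_identity {φ p q : E → ℝ} (hφ : ContDiff ℝ 2 φ) (hp : ContDiff ℝ 2 p)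
    (hq : ContDiff ℝ 3 q) (x : E) :
    φ x * MM p q x - p x * MM φ q x =
      D e1 (fun y => (φ y * D e1 p y - p y * D e1 φ y) * Lw q y
        - (φ y * D e3 p y - p y * D e3 φ y) * Ma q y
        - (φ y * D e4 p y - p y * D e4 φ y) * Mb q y) x
      + D e2 (fun y => (φ y * D e2 p y - p y * D e2 φ y) * Lw q y
        - (φ y * D e4 p y - p y * D e4 φ y) * Ma q y
        + (φ y * D e3 p y - p y * D e3 φ y) * Mb q y) x
      + D e3 (fun y => (φ y * D e3 p y - p y * D e3 φ y) * Lz q y
        - (φ y * D e1 p y - p y * D e1 φ y) * Ma q y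
        + (φ y * D e2 p y - p y * D e2 φ y) * Mb q y) x
      + D e4 (fun y => (φ y * D e4 p y - p y * D e4 φ y) * Lz q y
        - (φ y * D e2 p y - p y * D e2 φ y) * Ma q y
        - (φ y * D e1 p y - p y * D e1 φ y) * Mb q y) x := by
  have d1φ : ∀ v, ContDiff ℝ 1 (D v φ) := fun v => D_contDiff hφ (by norm_num)
  have d1p : ∀ v, ContDiff ℝ 1 (D v p) := fun v => D_contDiff hp (by norm_num)
  have d2q : ∀ v, ContDiff ℝ 2 (D v q) := fun v => D_contDiff hq (by norm_num)
  have d1q : ∀ v w, ContDiff ℝ 1 (D v (D w q)) := fun v w => D_contDiff (d2q w) (by norm_num)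
  have iφ : Differentiable ℝ φ := hφ.differentiable (by norm_num)
  have ip : Differentiable ℝ p := hp.differentiable (by norm_num)
  have iφ' : ∀ v, Differentiable ℝ (D v φ) := fun v => (d1φ v).differentiable (by norm_num)
  have ip' : ∀ v, Differentiable ℝ (D v p) := fun v => (d1p v).differentiable (by norm_num)
  have iq'' : ∀ v w, Differentiable ℝ (D v (D w q)) :=
    fun v w => (d1q v w).differentiable (by norm_num)
  have iLz : Differentiable ℝ (Lz q) := by
    unfold Lz; exact (iq'' _ _).add (iq'' _ _)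
  have iLw : Differentiable ℝ (Lw q) := by
    unfold Lw; exact (iq'' _ _).add (iq'' _ _)
  have iMa : Differentiable ℝ (Ma q) := by
    unfold Ma; exact (iq'' _ _).add (iq'' _ _)
  have iMb : Differentiable ℝ (Mb q) := by
    unfold Mb; exact (iq'' _ _).sub (iq'' _ _)
  have dLz : ∀ v, D v (Lz q) x = D v (D e1 (D e1 q)) x + D v (D e2 (D e2 q)) x := by
    intro v
    have := congrFun (D_add (v := v) (iq'' e1 e1) (iq'' e2 e2)) x
    exact this
  have dLw : ∀ v, D v (Lw q) x = D v (D e3 (D e3 q)) x + D v (D e4 (D e4 q)) x := by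
    intro v
    have := congrFun (D_add (v := v) (iq'' e3 e3) (iq'' e4 e4)) x
    exact this
  have dMa : ∀ v, D v (Ma q) x = D v (D e1 (D e3 q)) x + D v (D e2 (D e4 q)) x := by
    intro v
    have := congrFun (D_add (v := v) (iq'' e1 e3) (iq'' e2 e4)) x
    exact this
  have dMb : ∀ v, D v (Mb q) x = D v (D e1 (D e4 q)) x - D v (D e2 (D e3 q)) x := by
    intro v
    have := congrFun (D_sub (v := v) (iq'' e1 e4) (iq'' e2 e3)) x
    exact this
  -- the basic brackets
  have iW : ∀ v, Differentiable ℝ (fun y => φ y * D v p y - p y * D v φ y) := by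
    intro v
    exact (iφ.mul (ip' v)).sub (ip.mul (iφ' v))
  have dW : ∀ v u, D u (fun y => φ y * D v p y - p y * D v φ y) x
      = D u φ x * D v p x + φ x * D u (D v p) x - (D u p x * D v φ x + p x * D u (D v φ) x) := by
    intro v u
    have h0 := congrFun (D_sub (v := u) (iφ.mul (ip' v)) (ip.mul (iφ' v))) x
    have h1 := congrFun (D_mul (v := u) iφ (ip' v)) x
    have h2 := congrFun (D_mul (v := u) ip (iφ' v)) x
    rw [← h1, ← h2]
    exact h0
  have dWM : ∀ (v u : E) (m : E → ℝ), Differentiable ℝ m →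
      D u (fun y => (φ y * D v p y - p y * D v φ y) * m y) x
      = D u (fun y => φ y * D v p y - p y * D v φ y) x * m x
        + (φ x * D v p x - p x * D v φ x) * D u m x := by
    intro v u m hm
    exact congrFun (D_mul (v := u) (iW v) hm) x
  have iWM : ∀ (v : E) (m : E → ℝ), Differentiable ℝ m →
      Differentiable ℝ (fun y => (φ y * D v p y - p y * D v φ y) * m y) :=
    fun v m hm => (iW v).mul hm
  have S3 : ∀ (v : E) (A B C : E → ℝ), Differentiable ℝ A → Differentiable ℝ B →
      Differentiable ℝ C →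
      D v (fun y => A y - B y - C y) x = D v A x - D v B x - D v C x := by
    intro v A B C hA hB hC
    have h1 := congrFun (D_sub (v := v) (hA.sub hB) hC) x
    have h2 := congrFun (D_sub (v := v) hA hB) x
    have h3 : D v (A - B) x = D v A x - D v B x := h2
    have h4 : D v (fun y => A y - B y - C y) x = D v (A - B) x - D v C x := h1
    rw [h4, h3]
  have A3 : ∀ (v : E) (A B C : E → ℝ), Differentiable ℝ A → Differentiable ℝ B →
      Differentiable ℝ C →
      D v (fun y => A y - B y + C y) x = D v A x - D v B x + D v C x := by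
    intro v A B C hA hB hC
    have h1 := congrFun (D_add (v := v) (hA.sub hB) hC) x
    have h2 := congrFun (D_sub (v := v) hA hB) x
    have h3 : D v (A - B) x = D v A x - D v B x := h2
    have h4 : D v (fun y => A y - B y + C y) x = D v (A - B) x + D v C x := h1
    rw [h4, h3]
  rw [S3 e1 _ _ _ (iWM e1 _ iLw) (iWM e3 _ iMa) (iWM e4 _ iMb),
    A3 e2 _ _ _ (iWM e2 _ iLw) (iWM e4 _ iMa) (iWM e3 _ iMb),
    A3 e3 _ _ _ (iWM e3 _ iLz) (iWM e1 _ iMa) (iWM e2 _ iMb),
    S3 e4 _ _ _ (iWM e4 _ iLz) (iWM e2 _ iMa) (iWM e1 _ iMb)]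
  rw [dWM e1 e1 _ iLw, dWM e3 e1 _ iMa, dWM e4 e1 _ iMb,
    dWM e2 e2 _ iLw, dWM e4 e2 _ iMa, dWM e3 e2 _ iMb,
    dWM e3 e3 _ iLz, dWM e1 e3 _ iMa, dWM e2 e3 _ iMb,
    dWM e4 e4 _ iLz, dWM e2 e4 _ iMa, dWM e1 e4 _ iMb]
  simp only [dW, dLz, dLw, dMa, dMb]
  have hsq : ∀ a b c, D a (D b (D c q)) x = D b (D a (D c q)) x := fun a b c => D_comm (d2q c) x
  have hsq' : ∀ a b c, D a (D b (D c q)) x = D a (D c (D b q)) x := by
    intro a b c
    have : D b (D c q) = D c (D b q) := by
      funext y; exact D_comm (hq.of_le (by norm_num)) y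
    rw [this]
  have hs2 : ∀ a b, D a (D b φ) x = D b (D a φ) x := fun a b => D_comm hφ x
  have hs3 : ∀ a b, D a (D b p) x = D b (D a p) x := fun a b => D_comm hp x
  have t1 : D e2 (D e1 (D e3 q)) x = D e1 (D e2 (D e3 q)) x := hsq e2 e1 e3
  have t2 : D e2 (D e1 (D e4 q)) x = D e1 (D e2 (D e4 q)) x := hsq e2 e1 e4
  have t3 : D e3 (D e1 (D e1 q)) x = D e1 (D e1 (D e3 q)) x := (hsq e3 e1 e1).trans (hsq' e1 e3 e1)
  have t4 : D e3 (D e2 (D e2 q)) x = D e2 (D e2 (D e3 q)) x := (hsq e3 e2 e2).trans (hsq' e2 e3 e2)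
  have t5 : D e3 (D e1 (D e3 q)) x = D e1 (D e3 (D e3 q)) x := hsq e3 e1 e3
  have t6 : D e3 (D e2 (D e4 q)) x = D e2 (D e3 (D e4 q)) x := hsq e3 e2 e4
  have t7 : D e3 (D e1 (D e4 q)) x = D e1 (D e3 (D e4 q)) x := hsq e3 e1 e4
  have t8 : D e3 (D e2 (D e3 q)) x = D e2 (D e3 (D e3 q)) x := hsq e3 e2 e3
  have t9 : D e4 (D e1 (D e1 q)) x = D e1 (D e1 (D e4 q)) x := (hsq e4 e1 e1).trans (hsq' e1 e4 e1)
  have t10 : D e4 (D e2 (D e2 q)) x = D e2 (D e2 (D e4 q)) x :=
    (hsq e4 e2 e2).trans (hsq' e2 e4 e2)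
  have t11 : D e4 (D e1 (D e3 q)) x = D e1 (D e3 (D e4 q)) x :=
    (hsq e4 e1 e3).trans (hsq' e1 e4 e3)
  have t12 : D e4 (D e2 (D e4 q)) x = D e2 (D e4 (D e4 q)) x := hsq e4 e2 e4
  have t13 : D e4 (D e1 (D e4 q)) x = D e1 (D e4 (D e4 q)) x := hsq e4 e1 e4
  have t14 : D e4 (D e2 (D e3 q)) x = D e2 (D e3 (D e4 q)) x :=
    (hsq e4 e2 e3).trans (hsq' e2 e4 e3)
  rw [t1, t2, t3, t4, t5, t6, t7, t8, t9, t10, t11, t12, t13, t14]
  rw [hs2 e3 e1, hs2 e4 e1, hs2 e3 e2, hs2 e4 e2, hs3 e3 e1, hs3 e4 e1, hs3 e3 e2, hs3 e4 e2]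
  unfold MM Lz Lw Ma Mb
  ring

lemma integral_add4 {F1 F2 F3 F4 : E → ℝ} (I1 : Integrable F1) (I2 : Integrable F2)
    (I3 : Integrable F3) (I4 : Integrable F4) :
    ∫ x, (F1 x + F2 x + F3 x + F4 x) = (∫ x, F1 x) + (∫ x, F2 x) + (∫ x, F3 x) + ∫ x, F4 x := by
  have h12 : Integrable (fun x => F1 x + F2 x) := I1.add I2
  have h123 : Integrable (fun x => F1 x + F2 x + F3 x) := h12.add I3
  rw [integral_add h123 I4, integral_add h12 I3, integral_add I1 I2]

/-- symmetry of the mixed form -/
theorem integral_MM_symm {φ p q : E → ℝ} (hφ : ContDiff ℝ 2 φ) (hp : ContDiff ℝ 2 p)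
    (hpc : HasCompactSupport p) (hq : ContDiff ℝ 3 q) :
    ∫ x, φ x * MM p q x = ∫ x, p x * MM φ q x := by
  have d1φ : ∀ v, ContDiff ℝ 1 (D v φ) := fun v => D_contDiff hφ (by norm_num)
  have d1p : ∀ v, ContDiff ℝ 1 (D v p) := fun v => D_contDiff hp (by norm_num)
  have d2q : ∀ v, ContDiff ℝ 2 (D v q) := fun v => D_contDiff hq (by norm_num)
  have d1q : ∀ v w, ContDiff ℝ 1 (D v (D w q)) := fun v w => D_contDiff (d2q w) (by norm_num)
  have c1φ : ContDiff ℝ 1 φ := hφ.of_le (by norm_num)
  have c1p : ContDiff ℝ 1 p := hp.of_le (by norm_num)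
  have cLz : ContDiff ℝ 1 (Lz q) := (d1q _ _).add (d1q _ _)
  have cLw : ContDiff ℝ 1 (Lw q) := (d1q _ _).add (d1q _ _)
  have cMa : ContDiff ℝ 1 (Ma q) := (d1q _ _).add (d1q _ _)
  have cMb : ContDiff ℝ 1 (Mb q) := (d1q _ _).sub (d1q _ _)
  have cW : ∀ v, ContDiff ℝ 1 (fun y => φ y * D v p y - p y * D v φ y) := fun v =>
    (c1φ.mul (d1p v)).sub (c1p.mul (d1φ v))
  have sW : ∀ v, HasCompactSupport (fun y => φ y * D v p y - p y * D v φ y) := by
    intro v
    have h1 : HasCompactSupport (fun y => φ y * D v p y) := (D_compact (v := v) hpc).mul_left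
    have h2 : HasCompactSupport (fun y => p y * D v φ y) := hpc.mul_right
    exact h1.sub h2
  have cWM : ∀ (v : E) (m : E → ℝ), ContDiff ℝ 1 m →
      ContDiff ℝ 1 (fun y => (φ y * D v p y - p y * D v φ y) * m y) :=
    fun v m hm => (cW v).mul hm
  have sWM : ∀ (v : E) (m : E → ℝ),
      HasCompactSupport (fun y => (φ y * D v p y - p y * D v φ y) * m y) :=
    fun v m => (sW v).mul_right
  have hint : ∀ (v : E) (F : E → ℝ), ContDiff ℝ 1 F → HasCompactSupport F →
      Integrable (D v F) := by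
    intro v F hF hFc
    exact (D_contDiff (m := 0) hF (by norm_num)).continuous.integrable_of_hasCompactSupport
      (D_compact hFc)
  have hI1 : Integrable (fun x => φ x * MM p q x) := by
    apply Continuous.integrable_of_hasCompactSupport
    · unfold MM
      have g1 : Continuous (Lz p) := by
        unfold Lz
        exact ((D_contDiff (m := 0) (d1p e1) (by norm_num)).continuous).add
          ((D_contDiff (m := 0) (d1p e2) (by norm_num)).continuous)
      have g2 : Continuous (Lw p) := by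
        unfold Lw
        exact ((D_contDiff (m := 0) (d1p e3) (by norm_num)).continuous).add
          ((D_contDiff (m := 0) (d1p e4) (by norm_num)).continuous)
      have g3 : Continuous (Ma p) := by
        unfold Ma
        exact ((D_contDiff (m := 0) (d1p e3) (by norm_num)).continuous).add
          ((D_contDiff (m := 0) (d1p e4) (by norm_num)).continuous)
      have g4 : Continuous (Mb p) := by
        unfold Mb
        exact ((D_contDiff (m := 0) (d1p e4) (by norm_num)).continuous).sub
          ((D_contDiff (m := 0) (d1p e3) (by norm_num)).continuous)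
      have k1 := cLz.continuous
      have k2 := cLw.continuous
      have k3 := cMa.continuous
      have k4 := cMb.continuous
      have k5 := hφ.continuous
      fun_prop
    · have h : HasCompactSupport (MM p q) := by
        refine HasCompactSupport.intro hpc (fun x hx => ?_)
        have hz : p =ᶠ[𝓝 x] fun _ => 0 := notMem_tsupport_iff_eventuallyEq.mp hx
        have h0 : ∀ v, D v (fun _ : E => (0:ℝ)) = fun _ => 0 := by
          intro v; funext y; simp [D]
        have hz2 : ∀ a b, D a (D b p) x = 0 := by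
          intro a b
          have := D_congr (v := a) (D_eventuallyEq (v := b) hz)
          rw [this, h0, h0]
        unfold MM Lz Lw Ma Mb
        simp [hz2]
      exact h.mul_left
  have hI2 : Integrable (fun x => p x * MM φ q x) := by
    apply Continuous.integrable_of_hasCompactSupport
    · unfold MM
      have g1 : Continuous (Lz φ) := by
        unfold Lz
        exact ((D_contDiff (m := 0) (d1φ e1) (by norm_num)).continuous).add
          ((D_contDiff (m := 0) (d1φ e2) (by norm_num)).continuous)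
      have g2 : Continuous (Lw φ) := by
        unfold Lw
        exact ((D_contDiff (m := 0) (d1φ e3) (by norm_num)).continuous).add
          ((D_contDiff (m := 0) (d1φ e4) (by norm_num)).continuous)
      have g3 : Continuous (Ma φ) := by
        unfold Ma
        exact ((D_contDiff (m := 0) (d1φ e3) (by norm_num)).continuous).add
          ((D_contDiff (m := 0) (d1φ e4) (by norm_num)).continuous)
      have g4 : Continuous (Mb φ) := by
        unfold Mb
        exact ((D_contDiff (m := 0) (d1φ e4) (by norm_num)).continuous).sub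
          ((D_contDiff (m := 0) (d1φ e3) (by norm_num)).continuous)
      have k1 := cLz.continuous
      have k2 := cLw.continuous
      have k3 := cMa.continuous
      have k4 := cMb.continuous
      have k5 := hp.continuous
      fun_prop
    · exact hpc.mul_right
  have hsub : ∫ x, (φ x * MM p q x - p x * MM φ q x) = 0 := by
    simp_rw [div_identity hφ hp hq]
    have Y1 := (((cWM e1 _ cLw).sub (cWM e3 _ cMa)).sub (cWM e4 _ cMb))
    have Y2 := (((cWM e2 _ cLw).sub (cWM e4 _ cMa)).add (cWM e3 _ cMb))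
    have Y3 := (((cWM e3 _ cLz).sub (cWM e1 _ cMa)).add (cWM e2 _ cMb))
    have Y4 := (((cWM e4 _ cLz).sub (cWM e2 _ cMa)).sub (cWM e1 _ cMb))
    have Z1 := (((sWM e1 (Lw q)).sub (sWM e3 (Ma q))).sub (sWM e4 (Mb q)))
    have Z2 := (((sWM e2 (Lw q)).sub (sWM e4 (Ma q))).add (sWM e3 (Mb q)))
    have Z3 := (((sWM e3 (Lz q)).sub (sWM e1 (Ma q))).add (sWM e2 (Mb q)))
    have Z4 := (((sWM e4 (Lz q)).sub (sWM e2 (Ma q))).sub (sWM e1 (Mb q)))
    have I1 := hint e1 _ Y1 Z1
    have I2 := hint e2 _ Y2 Z2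
    have I3 := hint e3 _ Y3 Z3
    have I4 := hint e4 _ Y4 Z4
    have J1 := integral_D_eq_zero (v := e1) Y1 Z1
    have J2 := integral_D_eq_zero (v := e2) Y2 Z2
    have J3 := integral_D_eq_zero (v := e3) Y3 Z3
    have J4 := integral_D_eq_zero (v := e4) Y4 Z4
    refine (integral_add4 I1 I2 I3 I4).trans ?_
    rw [J1, J2, J3, J4]
    norm_num
  rw [integral_sub hI1 hI2] at hsub
  linarith

end H13Ceg
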