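import Pool.Agent.H13.Ceg.Lg

open MeasureTheory Set Filter Topology Metric
open scoped ContDiff ENNReal NNReal

namespace H13Ceg

/-- normalized arc length measure on the unit circle -/
noncomputable def νc : Measure ℂ :=
  ENNReal.ofReal (2 * Real.pi)⁻¹ • ((volume.restrict (Ioc 0 (2 * Real.pi))).map (circleMap 0 1))

lemma circ_meas : Measurable (circleMap 0 1) := (continuous_circleMap 0 1).measurable

instance : IsProbabilityMeasure νc := by
  refine ⟨?_⟩
  unfold νc
  rw [Measure.smul_apply, Measure.map_apply circ_meas MeasurableSet.univ, preimage_univ,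
    Measure.restrict_apply_univ, Real.volume_Ioc, smul_eq_mul, sub_zero,
    ← ENNReal.ofReal_mul (by positivity), inv_mul_cancel₀ (by positivity), ENNReal.ofReal_one]

lemma lint_νc {h : ℂ → ℝ≥0∞} (hh : Measurable h) :
    ∫⁻ ζ, h ζ ∂νc = ENNReal.ofReal (2 * Real.pi)⁻¹
      * ∫⁻ θ in Ioc 0 (2 * Real.pi), h (circleMap 0 1 θ) := by
  unfold νc
  rw [lintegral_smul_measure, lintegral_map hh circ_meas, smul_eq_mul]

lemma νc_ae : ∀ᵐ ζ ∂νc, ‖ζ‖ = 1 := by
  have hm : MeasurableSet {ζ : ℂ | ‖ζ‖ = 1} := measurableSet_eq_fun measurable_norm measurable_const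
  unfold νc
  apply Measure.ae_smul_measure
  rw [ae_map_iff circ_meas.aemeasurable hm]
  exact Eventually.of_forall fun θ => by simp

lemma ofReal_circleAverage {u : ℂ → ℝ} (hm : Measurable u) (hi : CircleIntegrable u 0 1)
    (h0 : ∀ θ : ℝ, 0 ≤ u (circleMap 0 1 θ)) :
    ENNReal.ofReal (Real.circleAverage u 0 1) = ∫⁻ ζ, ENNReal.ofReal (u ζ) ∂νc := by
  have hpi : (0:ℝ) < 2 * Real.pi := by positivity
  have hme : Measurable (fun ζ => ENNReal.ofReal (u ζ)) := ENNReal.measurable_ofReal.comp hm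
  rw [lint_νc hme, Real.circleAverage_def,
    intervalIntegral.integral_of_le hpi.le, smul_eq_mul, ENNReal.ofReal_mul (by positivity),
    ofReal_integral_eq_lintegral_ofReal]
  · have := hi
    unfold CircleIntegrable at this
    rwa [intervalIntegrable_iff_integrableOn_Ioc_of_le hpi.le] at this
  · exact Eventually.of_forall h0

/-- for nonnegative bounded measurable functions -/
lemma circleAverage_eq_toReal {u : ℂ → ℝ} (hm : Measurable u)
    (h0 : ∀ ζ, 0 ≤ u ζ) {C : ℝ} (hC : ∀ ζ, u ζ ≤ C) :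
    Real.circleAverage u 0 1 = (∫⁻ ζ, ENNReal.ofReal (u ζ) ∂νc).toReal := by
  have hi : CircleIntegrable u 0 1 := by
    have hpi : (0:ℝ) < 2 * Real.pi := by positivity
    unfold CircleIntegrable
    rw [intervalIntegrable_iff_integrableOn_Ioc_of_le hpi.le]
    refine Measure.integrableOn_of_bounded (M := C) (by
        rw [Real.volume_Ioc]; exact ENNReal.ofReal_ne_top)
      (hm.comp circ_meas).aestronglyMeasurable (Eventually.of_forall fun θ => ?_)
    rw [Real.norm_eq_abs, abs_of_nonneg (h0 _)]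
    exact hC _
  rw [← ofReal_circleAverage hm hi (fun θ => h0 _), ENNReal.toReal_ofReal]
  exact Real.circleAverage_nonneg_of_nonneg (fun x _ => h0 x)

/-- the logarithmic kernel -/
noncomputable def Kf (x : ℂ) : ℝ≥0∞ :=
  if x = 0 then ⊤ else ENNReal.ofReal (4 * Real.pi * (1 + Real.log (4 / ‖x‖)))

lemma Kf_meas : Measurable Kf := by
  unfold Kf
  refine Measurable.ite (measurableSet_singleton 0) measurable_const ?_
  exact ENNReal.measurable_ofReal.comp (by fun_prop)

/-- super-mean value property of the kernel -/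
lemma Kf_mean (α β : ℂ) (h : ∀ ζ : ℂ, ‖ζ‖ = 1 → ‖α + ζ * β‖ ≤ 2) :
    ∫⁻ ζ, Kf (α + ζ * β) ∂νc ≤ Kf α := by
  have hpi := Real.pi_pos
  by_cases hα : α = 0
  · rw [show Kf α = ⊤ by unfold Kf; rw [if_pos hα]]; exact le_top
  set u : ℂ → ℝ := fun ζ => 4 * Real.pi * (1 + Real.log 4) - 4 * Real.pi * Real.log ‖α + ζ * β‖
    with hu
  have hum : Measurable u := by rw [hu]; fun_prop
  have hlog4 : Real.log 2 ≤ Real.log 4 := Real.log_le_log (by norm_num) (by norm_num)
  have hu0 : ∀ θ : ℝ, 0 ≤ u (circleMap 0 1 θ) := by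
    intro θ
    have h1 := h (circleMap 0 1 θ) (by simp)
    have h2 : Real.log ‖α + circleMap 0 1 θ * β‖ ≤ Real.log 4 := by
      by_cases h0 : ‖α + circleMap 0 1 θ * β‖ = 0
      · rw [h0, Real.log_zero]; exact Real.log_nonneg (by norm_num)
      · have : 0 < ‖α + circleMap 0 1 θ * β‖ := lt_of_le_of_ne (norm_nonneg _) (Ne.symm h0)
        exact Real.log_le_log this (by linarith)
    simp only [hu]
    nlinarith
  have cl := ci_log α β
  have cl2 : CircleIntegrable (fun ζ : ℂ => 4 * Real.pi * Real.log ‖α + ζ * β‖) 0 1 := by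
    have := cl.const_fun_smul (a := (4 * Real.pi))
    simpa using this
  have hui : CircleIntegrable u 0 1 := (circleIntegrable_const _ _ _).sub cl2
  have havg : Real.circleAverage u 0 1 ≤ 4 * Real.pi * (1 + Real.log (4 / ‖α‖)) := by
    have h1 := Real.circleAverage_fun_sub
      (f₁ := fun _ => 4 * Real.pi * (1 + Real.log 4))
      (f₂ := fun ζ : ℂ => 4 * Real.pi * Real.log ‖α + ζ * β‖) (c := 0) (R := 1)
      (circleIntegrable_const _ _ _) cl2
    rw [Real.circleAverage_const] at h1
    have h2 := Real.circleAverage_fun_smul (𝕜 := ℝ) (a := 4 * Real.pi) (c := 0) (R := 1)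
      (f := fun ζ : ℂ => Real.log ‖α + ζ * β‖)
    simp only [smul_eq_mul] at h2
    rw [h2] at h1
    have h3 : Real.circleAverage u 0 1 = 4 * Real.pi * (1 + Real.log 4)
        - 4 * Real.pi * Real.circleAverage (fun ζ : ℂ => Real.log ‖α + ζ * β‖) 0 1 := h1
    rw [h3, Real.log_div (by norm_num) (norm_ne_zero_iff.mpr hα)]
    have h4 := log_le_avg α β hα
    nlinarith
  have hae : ∀ᵐ ζ ∂νc, Kf (α + ζ * β) = ENNReal.ofReal (u ζ) := by
    have hne : ∀ᵐ ζ ∂νc, α + ζ * β ≠ 0 := by
      unfold νc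
      apply Measure.ae_smul_measure
      rw [ae_map_iff circ_meas.aemeasurable]
      · exact ae_restrict_of_ae (circ_ne_ae α β hα)
      · have : Measurable (fun ζ : ℂ => α + ζ * β) := by fun_prop
        exact (this (measurableSet_singleton 0)).compl
    filter_upwards [hne] with ζ hζ
    unfold Kf
    rw [if_neg hζ, Real.log_div (by norm_num) (norm_ne_zero_iff.mpr hζ)]
    congr 1
    simp only [hu]; ring
  rw [lintegral_congr_ae hae, ← ofReal_circleAverage hum hui hu0]
  unfold Kf
  rw [if_neg hα]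
  exact ENNReal.ofReal_le_ofReal havg

end H13Ceg
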