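import Pool.Agent.H13.Ceg.Bar2

open MeasureTheory Set Filter Topology Metric
open scoped ContDiff ENNReal NNReal

namespace H13Ceg

/-- choice of the exit radius -/
lemma pigeon {Nb : ℂ → ℝ≥0∞} {r : ℝ} {S : ℝ≥0∞} (hr : 0 < r) {N : ℕ} (hN : 0 < N)
    (hS : ∫⁻ w in closedBall (0:ℂ) r, Nb w ≤ S) :
    ∃ r1, r / 8 ≤ r1 ∧ r1 + r / 8 / N ≤ r / 4 ∧
      ∫⁻ w in {w : ℂ | r1 < ‖w‖ ∧ ‖w‖ ≤ r1 + r / 8 / N}, Nb w ≤ S / N := by
  set δ := r / 8 / N with hδ
  have hN0 : (0:ℝ) < N := by exact_mod_cast hN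
  have hδ0 : 0 < δ := by positivity
  have hNδ : N * δ = r / 8 := by rw [hδ]; field_simp
  by_contra hcon
  push Not at hcon
  set A : ℕ → Set ℂ := fun k => {w : ℂ | r / 8 + k * δ < ‖w‖ ∧ ‖w‖ ≤ r / 8 + k * δ + δ} with hA
  have hAm : ∀ k, MeasurableSet (A k) := fun k =>
    (measurableSet_lt measurable_const measurable_norm).inter
      (measurableSet_le measurable_norm measurable_const)
  have h1 : ∀ k ∈ Finset.range N, S / N < ∫⁻ w in A k, Nb w := by
    intro k hk
    have hk1 : (k:ℝ) + 1 ≤ N := by exact_mod_cast Finset.mem_range.mp hk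
    refine hcon (r / 8 + k * δ) (by have : 0 ≤ (k:ℝ) * δ := by positivity
                                    linarith) ?_
    nlinarith
  have h2 := ENNReal.sum_lt_sum_of_nonempty (Finset.nonempty_range_iff.mpr hN.ne') h1
  have hdisj : (↑(Finset.range N) : Set ℕ).PairwiseDisjoint A := by
    intro i _ j _ hij
    rw [Function.onFun, Set.disjoint_left]
    rintro w ⟨hi1, hi2⟩ ⟨hj1, hj2⟩
    rcases lt_or_gt_of_ne hij with h | h
    · have : (i:ℝ) + 1 ≤ j := by exact_mod_cast h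
      nlinarith
    · have : (j:ℝ) + 1 ≤ i := by exact_mod_cast h
      nlinarith
  have h3 := lintegral_biUnion_finset hdisj (fun b _ => hAm b) Nb (μ := volume)
  rw [← h3] at h2
  have h4 : ∫⁻ w in ⋃ k ∈ Finset.range N, A k, Nb w ≤ S := by
    refine le_trans (lintegral_mono_set ?_) hS
    intro w hw
    obtain ⟨k, hk, hw1, hw2⟩ := mem_iUnion₂.mp hw
    have hk1 : (k:ℝ) + 1 ≤ N := by exact_mod_cast Finset.mem_range.mp hk
    rw [mem_closedBall_zero_iff]
    nlinarith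
  have h5 : ∑ _k ∈ Finset.range N, S / N = S := by
    rw [Finset.sum_const, Finset.card_range, nsmul_eq_mul]
    exact ENNReal.mul_div_cancel (by exact_mod_cast hN.ne') (ENNReal.natCast_ne_top N)
  rw [h5] at h2
  exact absurd (h2.trans_le h4) (lt_irrefl _)

/-- exit energies near the origin, with a good exit radius -/
theorem exitE {Nb : ℂ → ℝ≥0∞} (hNb : Measurable Nb) {r s0 d : ℝ} (hr : 0 < r) (hs0 : 0 ≤ s0)
    (hS : ∫⁻ w in closedBall (0:ℂ) r, Nb w ≤ ENNReal.ofReal (r ^ 2 * s0)) (hd : 0 < d)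
    (hdr : d ≤ r / 4) {N : ℕ} (hN : 2 ≤ N) (hNd : r / 8 / N ≤ d / 20) :
    ∃ r1, r / 8 ≤ r1 ∧ r1 ≤ r / 4 ∧ ∀ m,
      ∫⁻ w in closedBall (0:ℂ) (d / 2), NN Nb r1 (r / 8 / N) m w
        ≤ ENNReal.ofReal (4096 * d ^ 2 * s0) := by
  obtain ⟨r1, h1, h2, h3⟩ := pigeon hr (N := N) (by omega) hS
  set δ := r / 8 / N with hδ
  have hN0 : (2:ℝ) ≤ N := by exact_mod_cast hN
  have hNp : (0:ℝ) < N := by linarith
  have hδ0 : 0 < δ := by positivity
  have hNδ : N * δ = r / 8 := by rw [hδ]; field_simp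
  have hNi : (1:ℝ) / N = 8 * δ / r := by rw [hδ]; field_simp
  have hfin : ∫⁻ w in {w : ℂ | r1 < ‖w‖ ∧ ‖w‖ ≤ r1 + δ}, Nb w ≠ ⊤ := by
    refine ne_top_of_le_ne_top ?_ h3
    exact ENNReal.div_ne_top ENNReal.ofReal_ne_top (by exact_mod_cast (show N ≠ 0 by omega))
  refine ⟨r1, h1, by linarith, fun m => ?_⟩
  have hb := barrier hNb hδ0 hNd (r1 := r1) (by nlinarith) (by linarith) hfin m
  have h4 : ENNReal.ofReal (16 * δ / r1)
      * ∫⁻ w in {w : ℂ | r1 < ‖w‖ ∧ ‖w‖ ≤ r1 + δ}, Nb w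
      ≤ ENNReal.ofReal (1024 * δ ^ 2 * s0) := by
    calc ENNReal.ofReal (16 * δ / r1)
          * ∫⁻ w in {w : ℂ | r1 < ‖w‖ ∧ ‖w‖ ≤ r1 + δ}, Nb w
        ≤ ENNReal.ofReal (128 * δ / r) * (ENNReal.ofReal (r ^ 2 * s0) / N) := by
          refine mul_le_mul' (ENNReal.ofReal_le_ofReal ?_) h3
          rw [div_le_div_iff₀ (by linarith) hr]
          nlinarith
      _ = ENNReal.ofReal (128 * δ / r) * ENNReal.ofReal (r ^ 2 * s0 * (1 / N)) := by
          congr 1
          rw [mul_one_div, ENNReal.ofReal_div_of_pos hNp, ENNReal.ofReal_natCast]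
      _ = ENNReal.ofReal (1024 * δ ^ 2 * s0) := by
          rw [hNi, ← ENNReal.ofReal_mul (by positivity)]
          congr 1
          field_simp
          ring
  have h5 := hb.trans h4
  have hg : 0 < δ ^ 2 / (4 * d ^ 2) := by positivity
  have h6 : ENNReal.ofReal (1024 * δ ^ 2 * s0)
      = ENNReal.ofReal (δ ^ 2 / (4 * d ^ 2)) * ENNReal.ofReal (4096 * d ^ 2 * s0) := by
    rw [← ENNReal.ofReal_mul hg.le]
    congr 1
    field_simp
    ring
  rw [h6] at h5
  exact (ENNReal.mul_le_mul_iff_right (ENNReal.ofReal_pos.mpr hg).ne' ENNReal.ofReal_ne_top).mp h5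

/-- the normalised energy bound for the game -/
theorem gameE {b : E → ℝ≥0∞} (hb : Measurable b) {Nb : ℂ → ℝ≥0∞} (hNb : Measurable Nb)
    {r1 δ : ℝ} (hδ : 0 < δ) {S : Finset ℂ} (hS : S.Nonempty) {ε : ℝ} (hε : 0 ≤ ε)
    (hbd : ∀ w : ℂ, r1 < ‖w‖ → ∀ η : Measure ℂ, IsFiniteMeasure η → (∀ᵐ a ∂η, ‖a‖ < 1) →
      2 * ∫⁻ a, b (a, w) ∂η ≤ En η + Nb w + ENNReal.ofReal ε * η univ) {s0 d : ℝ} (hs0 : 0 < s0)
    (hd : 0 < d) {m : ℕ}
    (hN : ∫⁻ w in closedBall (0:ℂ) (d / 2), NN Nb r1 δ m w ≤ ENNReal.ofReal (4096 * d ^ 2 * s0)) :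
    ∫⁻ w in closedBall (0:ℂ) (d / 2), ∫⁻ a in ball (0:ℂ) 1, GG b r1 δ S m (a, w)
      ≤ ENNReal.ofReal (d ^ 2 * ((8 * Real.pi ^ 4 + 2048) * Real.sqrt s0
        + Real.pi ^ 2 / 8 * ε)) := by
  have hpi := Real.pi_pos
  set t := Real.sqrt s0 with ht
  have ht0 : 0 < t := Real.sqrt_pos.mpr hs0
  have htt : t * t = s0 := Real.mul_self_sqrt hs0.le
  set lam : Measure ℂ := (volume : Measure ℂ).restrict (ball 0 1) with hlam
  have hvol : (volume : Measure ℂ) (ball 0 1) = ENNReal.ofReal Real.pi := by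
    rw [Complex.volume_ball]
    simp only [ENNReal.ofReal_one, one_pow, one_mul]
    rw [← NNReal.coe_real_pi, ENNReal.ofReal_coe_nnreal]
  have hpt : ∀ w, ∫⁻ a in ball (0:ℂ) 1, GG b r1 δ S m (a, w)
      ≤ ENNReal.ofReal (32 * Real.pi ^ 3 * t + Real.pi / 2 * ε)
        + ENNReal.ofReal (1 / (2 * t)) * NN Nb r1 δ m w := by
    intro w
    have hf : IsFiniteMeasure (ENNReal.ofReal t • lam) := by
      refine ⟨?_⟩
      rw [Measure.smul_apply, hlam, Measure.restrict_apply_univ, smul_eq_mul, hvol]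
      exact ENNReal.mul_lt_top ENNReal.ofReal_lt_top ENNReal.ofReal_lt_top
    have hae : ∀ᵐ a ∂(ENNReal.ofReal t • lam), ‖a‖ < 1 := by
      apply Measure.ae_smul_measure
      rw [hlam]
      refine (ae_restrict_iff' measurableSet_ball).mpr (Eventually.of_forall fun a ha => ?_)
      exact mem_ball_zero_iff.mp ha
    have hD := GG_dual hb hNb hδ hS hbd m w (ENNReal.ofReal t • lam) hf hae
    have e1 : ∫⁻ a, GG b r1 δ S m (a, w) ∂(ENNReal.ofReal t • lam)
        = ENNReal.ofReal t * ∫⁻ a in ball (0:ℂ) 1, GG b r1 δ S m (a, w) := by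
      rw [lintegral_smul_measure, smul_eq_mul]
    have e2 : En (ENNReal.ofReal t • lam) ≤ ENNReal.ofReal (t ^ 2 * (64 * Real.pi ^ 3)) := by
      unfold En
      rw [lintegral_smul_measure]
      simp only [lintegral_smul_measure, smul_eq_mul]
      rw [lintegral_const_mul', ← mul_assoc, ← ENNReal.ofReal_mul ht0.le, ← sq,
        ENNReal.ofReal_mul (by positivity)]
      · exact mul_le_mul' le_rfl Kf_energy
      · exact ENNReal.ofReal_ne_top
    have e3 : (ENNReal.ofReal t • lam) univ = ENNReal.ofReal (t * Real.pi) := by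
      rw [Measure.smul_apply, hlam, Measure.restrict_apply_univ, smul_eq_mul, hvol,
        ENNReal.ofReal_mul ht0.le]
    rw [e1, e3] at hD
    set X := ∫⁻ a in ball (0:ℂ) 1, GG b r1 δ S m (a, w) with hX
    have h1 : ENNReal.ofReal (2 * t) * X
        ≤ ENNReal.ofReal (2 * t) * (ENNReal.ofReal (32 * Real.pi ^ 3 * t + Real.pi / 2 * ε)
          + ENNReal.ofReal (1 / (2 * t)) * NN Nb r1 δ m w) := by
      calc ENNReal.ofReal (2 * t) * X = 2 * (ENNReal.ofReal t * X) := by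
            rw [ENNReal.ofReal_mul (by norm_num), ENNReal.ofReal_ofNat, mul_assoc]
        _ ≤ ENNReal.ofReal (t ^ 2 * (64 * Real.pi ^ 3)) + NN Nb r1 δ m w
            + ENNReal.ofReal ε * ENNReal.ofReal (t * Real.pi) := by
            refine hD.trans ?_
            gcongr
        _ = ENNReal.ofReal (2 * t) * (ENNReal.ofReal (32 * Real.pi ^ 3 * t + Real.pi / 2 * ε)
          + ENNReal.ofReal (1 / (2 * t)) * NN Nb r1 δ m w) := by
            have e6 : ENNReal.ofReal (2 * t) * (ENNReal.ofReal (1 / (2 * t)) * NN Nb r1 δ m w)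
                = NN Nb r1 δ m w := by
              rw [← mul_assoc, ← ENNReal.ofReal_mul (by positivity)]
              have : 2 * t * (1 / (2 * t)) = 1 := by field_simp
              rw [this, ENNReal.ofReal_one, one_mul]
            have e7 : ENNReal.ofReal (2 * t)
                * ENNReal.ofReal (32 * Real.pi ^ 3 * t + Real.pi / 2 * ε)
                = ENNReal.ofReal (t ^ 2 * (64 * Real.pi ^ 3))
                  + ENNReal.ofReal ε * ENNReal.ofReal (t * Real.pi) := by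
              rw [← ENNReal.ofReal_mul (by positivity), ← ENNReal.ofReal_mul hε,
                ← ENNReal.ofReal_add (by positivity) (by positivity)]
              congr 1; ring
            rw [mul_add, e6, e7]
            ring
    exact (ENNReal.mul_le_mul_iff_right (ENNReal.ofReal_pos.mpr (by positivity)).ne'
      ENNReal.ofReal_ne_top).mp h1
  have hvd : (volume : Measure ℂ) (closedBall 0 (d / 2)) = ENNReal.ofReal (d ^ 2 / 4 * Real.pi) := by
    rw [Complex.volume_closedBall]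
    rw [ENNReal.ofReal_mul (by positivity), ← ENNReal.ofReal_pow (by positivity)]
    congr 1
    · congr 1; ring
    · rw [← NNReal.coe_real_pi, ENNReal.ofReal_coe_nnreal]
  calc ∫⁻ w in closedBall (0:ℂ) (d / 2), ∫⁻ a in ball (0:ℂ) 1, GG b r1 δ S m (a, w)
      ≤ ∫⁻ w in closedBall (0:ℂ) (d / 2),
          (ENNReal.ofReal (32 * Real.pi ^ 3 * t + Real.pi / 2 * ε)
          + ENNReal.ofReal (1 / (2 * t)) * NN Nb r1 δ m w) := lintegral_mono hpt
    _ = ENNReal.ofReal (32 * Real.pi ^ 3 * t + Real.pi / 2 * ε)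
          * ENNReal.ofReal (d ^ 2 / 4 * Real.pi)
        + ENNReal.ofReal (1 / (2 * t)) * ∫⁻ w in closedBall (0:ℂ) (d / 2), NN Nb r1 δ m w := by
        rw [lintegral_add_left measurable_const, setLIntegral_const, hvd,
          lintegral_const_mul _ (NN_meas hNb r1 δ m)]
    _ ≤ ENNReal.ofReal (32 * Real.pi ^ 3 * t + Real.pi / 2 * ε)
          * ENNReal.ofReal (d ^ 2 / 4 * Real.pi)
        + ENNReal.ofReal (1 / (2 * t)) * ENNReal.ofReal (4096 * d ^ 2 * s0) := by
        gcongr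
    _ = _ := by
        rw [← ENNReal.ofReal_mul (by positivity), ← ENNReal.ofReal_mul (by positivity),
          ← ENNReal.ofReal_add (by positivity) (by positivity)]
        congr 1
        rw [← htt]
        field_simp
        ring

end H13Ceg
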