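import Pool.Agent.H13.Ceg.Moll

open MeasureTheory Set Filter Topology Metric
open scoped ContDiff ENNReal Convolution

namespace H13Ceg

theorem le1 : (1 : WithTop ℕ∞) ≤ ((⊤ : ℕ∞) : WithTop ℕ∞) := by
  have : ((1:ℕ∞) : WithTop ℕ∞) ≤ ((⊤ : ℕ∞) : WithTop ℕ∞) := WithTop.coe_le_coe.mpr le_top
  exact this
theorem le2 : (2 : WithTop ℕ∞) ≤ ((⊤ : ℕ∞) : WithTop ℕ∞) := by
  have : ((2:ℕ∞) : WithTop ℕ∞) ≤ ((⊤ : ℕ∞) : WithTop ℕ∞) := WithTop.coe_le_coe.mpr le_top
  exact this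
theorem le3 : (3 : WithTop ℕ∞) ≤ ((⊤ : ℕ∞) : WithTop ℕ∞) := by
  have : ((3:ℕ∞) : WithTop ℕ∞) ≤ ((⊤ : ℕ∞) : WithTop ℕ∞) := WithTop.coe_le_coe.mpr le_top
  exact this

lemma DD_add {a b : E} {f g : E → ℝ} (hf : ContDiff ℝ 2 f) (hg : ContDiff ℝ 2 g) (x : E) :
    D a (D b (fun y => f y + g y)) x = D a (D b f) x + D a (D b g) x := by
  have h1 : D b (fun y => f y + g y) = fun y => D b f y + D b g y :=
    D_add (hf.differentiable (by norm_num)) (hg.differentiable (by norm_num))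
  rw [h1]
  exact congrFun (D_add ((D_contDiff (m := 1) hf (by norm_num)).differentiable (by norm_num))
    ((D_contDiff (m := 1) hg (by norm_num)).differentiable (by norm_num))) x

lemma DD_sub {a b : E} {f g : E → ℝ} (hf : ContDiff ℝ 2 f) (hg : ContDiff ℝ 2 g) (x : E) :
    D a (D b (fun y => f y - g y)) x = D a (D b f) x - D a (D b g) x := by
  have h1 : D b (fun y => f y - g y) = fun y => D b f y - D b g y :=
    D_sub (hf.differentiable (by norm_num)) (hg.differentiable (by norm_num))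
  rw [h1]
  exact congrFun (D_sub ((D_contDiff (m := 1) hf (by norm_num)).differentiable (by norm_num))
    ((D_contDiff (m := 1) hg (by norm_num)).differentiable (by norm_num))) x

lemma MM_sub_add {f g : E → ℝ} (hf : ContDiff ℝ 2 f) (hg : ContDiff ℝ 2 g) (x : E) :
    MM f f x - MM g g x = MM (fun y => f y - g y) (fun y => f y + g y) x := by
  unfold MM Lz Lw Ma Mb
  simp only [DD_add hf hg, DD_sub hf hg]
  ring

lemma DD_congr {a b : E} {f g : E → ℝ} {x : E} (h : f =ᶠ[𝓝 x] g) :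
    D a (D b f) x = D a (D b g) x := D_congr (D_eventuallyEq h)

lemma MM_congr_left {f f' g : E → ℝ} {x : E} (h : f =ᶠ[𝓝 x] f') : MM f g x = MM f' g x := by
  unfold MM Lz Lw Ma Mb
  simp only [DD_congr h]

lemma DD_const (a b : E) (c : ℝ) (x : E) : D a (D b (fun _ => c)) x = 0 := by
  have : D b (fun _ : E => c) = fun _ => 0 := by funext y; simp [D]
  rw [this]; simp [D]

lemma MM_const_left (c : ℝ) (g : E → ℝ) (x : E) : MM (fun _ => c) g x = 0 := by
  unfold MM Lz Lw Ma Mb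
  simp [DD_const]

lemma Lev_eq {f : E → ℝ} (hf : ContDiff ℝ 2 f) (x v : E) :
    Lev f x v = D v (D v f) x + D (Complex.I • v) (D (Complex.I • v) f) x := by
  unfold Lev; rw [D_D_eq hf, D_D_eq hf]

lemma Lev_add {f g : E → ℝ} (hf : ContDiff ℝ 2 f) (hg : ContDiff ℝ 2 g) (x v : E) :
    Lev (fun y => f y + g y) x v = Lev f x v + Lev g x v := by
  rw [Lev_eq (hf.add hg), Lev_eq hf, Lev_eq hg, DD_add hf hg, DD_add hf hg]; ring

/-- comparison identity -/
theorem cmp_identity {f g κ H : E → ℝ} (hf : ContDiff ℝ ∞ f) (hg : ContDiff ℝ ∞ g)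
    (hκ : ContDiff ℝ ∞ κ) (hH : ContDiff ℝ 2 H)
    (hsub : HasCompactSupport (fun y => f y - g y))
    {U : Set E} (hU : IsOpen U) (hκ1 : ∀ x ∈ U, κ x = 1) (hfg : ∀ x, f x - g x ≠ 0 → x ∈ U) :
    ∫ x, κ x * H x * (MM f f x - MM g g x)
      = ∫ x, (f x - g x) * MM H (fun y => f y + g y) x := by
  have hf2 : ContDiff ℝ 2 f := hf.of_le le2
  have hg2 : ContDiff ℝ 2 g := hg.of_le le2
  have hf3 : ContDiff ℝ 3 f := hf.of_le le3
  have hg3 : ContDiff ℝ 3 g := hg.of_le le3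
  have hκ2 : ContDiff ℝ 2 κ := hκ.of_le le2
  have h1 := integral_MM_symm (φ := fun x => κ x * H x) (p := fun y => f y - g y)
    (q := fun y => f y + g y) (hκ2.mul hH) (hf2.sub hg2) hsub (hf3.add hg3)
  simp_rw [MM_sub_add hf2 hg2]
  rw [h1]
  refine integral_congr_ae (Eventually.of_forall fun x => ?_)
  simp only []
  by_cases hx : f x - g x = 0
  · simp [hx]
  · have hxU := hfg x hx
    have : (fun x => κ x * H x) =ᶠ[𝓝 x] H := by
      filter_upwards [hU.mem_nhds hxU] with y hy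
      rw [hκ1 y hy, one_mul]
    rw [MM_congr_left this]

/-- continuous plurisubharmonic functions on the bidisc with zero boundary values -/
structure CC (f : E → ℝ) : Prop where
  cont : Continuous f
  zero : ∀ x : E, 1 ≤ ‖x‖ → f x = 0
  nonpos : ∀ x, f x ≤ 0
  sub : ∀ x v : E, (∀ ζ : ℂ, ‖ζ‖ ≤ 1 → ‖x + ζ • v‖ < 1) →
    f x ≤ Real.circleAverage (fun ζ : ℂ => f (x + ζ • v)) 0 1

lemma CC.compact {f : E → ℝ} (h : CC f) : HasCompactSupport f := by
  refine HasCompactSupport.intro (isCompact_closedBall (0 : E) 1) (fun x hx => ?_)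
  rw [mem_closedBall_zero_iff, not_le] at hx
  exact h.zero x hx.le

lemma CC.bm {f : E → ℝ} (h : CC f) : ∃ C, BM f C := by
  obtain ⟨C, hC⟩ := h.cont.bounded_above_of_compact_support h.compact
  exact ⟨C, ⟨h.cont.measurable, fun x => by rw [← Real.norm_eq_abs]; exact hC x⟩⟩

lemma CC.uc {f : E → ℝ} (h : CC f) : UniformContinuous f :=
  h.compact.uniformContinuous_of_continuous h.cont

/-- uniform approximation by mollification -/
lemma CC.moll_close {f : E → ℝ} (h : CC f) {η : ℝ} (hη : 0 < η) :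
    ∃ δ > 0, ∀ φ : ContDiffBump (0 : E), φ.rOut < δ → ∀ x, |moll φ f x - f x| ≤ η := by
  obtain ⟨C, hC⟩ := h.bm
  obtain ⟨δ, hδ, hu⟩ := Metric.uniformContinuous_iff.mp h.uc η hη
  refine ⟨δ, hδ, fun φ hφ x => moll_near φ hC (fun t ht => ?_)⟩
  have := hu (a := x - t) (b := x) (by rw [dist_eq_norm]; simpa using ht.trans hφ)
  rw [Real.dist_eq] at this
  exact this.le

lemma CC.smooth {f : E → ℝ} (h : CC f) (φ : ContDiffBump (0 : E)) : ContDiff ℝ ∞ (moll φ f) :=
  moll_contDiff φ h.cont.locallyIntegrable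

lemma CC.moll_supp {f : E → ℝ} (h : CC f) (φ : ContDiffBump (0 : E)) :
    HasCompactSupport (moll φ f) := by
  obtain ⟨C, hC⟩ := h.bm
  refine HasCompactSupport.intro (isCompact_closedBall (0 : E) (1 + φ.rOut)) (fun x hx => ?_)
  rw [mem_closedBall_zero_iff, not_le] at hx
  refine moll_eq_of φ hC (fun t ht => h.zero _ ?_)
  have := norm_sub_norm_le x t
  linarith

lemma CC.moll_sub {f : E → ℝ} (h : CC f) (φ : ContDiffBump (0 : E)) (x v : E)
    (hxv : ∀ ζ : ℂ, ‖ζ‖ ≤ 1 → x + ζ • v ∈ ball (0 : E) (1 - φ.rOut)) :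
    moll φ f x ≤ Real.circleAverage (fun ζ : ℂ => moll φ f (x + ζ • v)) 0 1 := by
  obtain ⟨C, hC⟩ := h.bm
  refine moll_submean φ hC (fun t ht => h.sub _ _ (fun ζ hζ => ?_))
  have h1 := hxv ζ hζ
  rw [mem_ball_zero_iff] at h1
  have h2 : x - t + ζ • v = (x + ζ • v) - t := by abel
  rw [h2]
  have := norm_sub_le (x + ζ • v) t
  linarith

lemma CC.lev {f : E → ℝ} (h : CC f) (φ : ContDiffBump (0 : E)) {x : E}
    (hx : ‖x‖ < 1 - φ.rOut) (v : E) : 0 ≤ Lev (moll φ f) x v :=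
  Lev_nonneg isOpen_ball ((h.smooth φ).of_le le2) (h.moll_sub φ)
    (by rw [mem_ball_zero_iff]; exact hx) v

lemma CC.c2 {f : E → ℝ} (h : CC f) (φ : ContDiffBump (0 : E)) : ContDiff ℝ 2 (moll φ f) :=
  (h.smooth φ).of_le le2

/-- mollifications of functions equal off a smaller ball -/
lemma moll_eq_off {f g : E → ℝ} (hf : CC f) (hg : CC g) {r : ℝ}
    (hfg : ∀ x, r < ‖x‖ → f x = g x) (φ : ContDiffBump (0 : E)) {x : E}
    (hx : r + φ.rOut ≤ ‖x‖) : moll φ f x - moll φ g x = 0 := by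
  obtain ⟨C, hC⟩ := hf.bm
  obtain ⟨C', hC'⟩ := hg.bm
  have h1 := moll_mono_at φ hC hC' (x := x) (fun t ht => (hfg (x - t) (by
    have := norm_sub_norm_le x t; linarith)).le)
  have h2 := moll_mono_at φ hC' hC (x := x) (fun t ht => (hfg (x - t) (by
    have := norm_sub_norm_le x t; linarith)).ge)
  linarith

/-- comparison identity for mollified functions of the class -/
theorem CC.cmp {f g κ H : E → ℝ} (hf : CC f) (hg : CC g) (hκ : ContDiff ℝ ∞ κ)
    (hH : ContDiff ℝ 2 H) {r s : ℝ} (hκ1 : ∀ x : E, ‖x‖ < s → κ x = 1)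
    (hfg : ∀ x, r < ‖x‖ → f x = g x) (φ : ContDiffBump (0 : E)) (hφ : r + φ.rOut ≤ s) :
    ∫ x, κ x * H x * (MM (moll φ f) (moll φ f) x - MM (moll φ g) (moll φ g) x)
      = ∫ x, (moll φ f x - moll φ g x) * MM H (fun y => moll φ f y + moll φ g y) x := by
  refine cmp_identity (hf.smooth φ) (hg.smooth φ) hκ hH
    ((hf.moll_supp φ).sub (hg.moll_supp φ)) (U := ball 0 s) isOpen_ball
    (fun x hx => hκ1 x (by rwa [mem_ball_zero_iff] at hx)) (fun x hx => ?_)
  rw [mem_ball_zero_iff]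
  by_contra hcon
  exact hx (moll_eq_off hf hg hfg φ (by linarith [not_lt.mp hcon]))

end H13Ceg
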