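import Pool.Agent.H13.Ceg.Pot2

open MeasureTheory Set Filter Topology Metric
open scoped ContDiff ENNReal NNReal

namespace H13Ceg

/-- effective slope -/
noncomputable def slope (δ : ℝ) (c z : ℂ) : ℂ := if ‖z‖ + ‖c‖ * δ < 1 then c else 0

lemma slope_meas (δ : ℝ) : Measurable (fun p : ℂ × ℂ => slope δ p.1 p.2) := by
  unfold slope
  refine Measurable.ite (measurableSet_lt (by fun_prop) measurable_const) measurable_fst
    measurable_const

lemma slope_meas_right (δ : ℝ) (c : ℂ) : Measurable (slope δ c) :=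
  (slope_meas δ).comp (measurable_const.prodMk measurable_id)

lemma slope_norm {δ : ℝ} (hδ : 0 < δ) {c z ζ : ℂ} (hz : ‖z‖ < 1) (hζ : ‖ζ‖ = 1) :
    ‖z + slope δ c z * δ * ζ‖ < 1 := by
  unfold slope
  split_ifs with h
  · refine (norm_add_le _ _).trans_lt ?_
    rw [norm_mul, norm_mul, hζ, mul_one, Complex.norm_real, Real.norm_eq_abs, abs_of_pos hδ]
    exact h
  · simpa using hz

/-- one step of the game -/
noncomputable def step (δ : ℝ) (g : E → ℝ≥0∞) (c : ℂ) (x : E) : ℝ≥0∞ :=
  ∫⁻ ζ, g (x.1 + slope δ c x.1 * δ * ζ, x.2 + δ * ζ) ∂νc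

/-- iterated values of the game with pay-off `b` outside `|w| ≤ r1` -/
noncomputable def GG (b : E → ℝ≥0∞) (r1 δ : ℝ) (S : Finset ℂ) : ℕ → E → ℝ≥0∞
  | 0 => fun x => if r1 < ‖x.2‖ then b x else 0
  | m + 1 => fun x => if r1 < ‖x.2‖ then b x else S.sup (fun c => step δ (GG b r1 δ S m) c x)

/-- iterated exit energies -/
noncomputable def NN (Nb : ℂ → ℝ≥0∞) (r1 δ : ℝ) : ℕ → ℂ → ℝ≥0∞
  | 0 => fun w => if r1 < ‖w‖ then Nb w else 0
  | m + 1 => fun w => if r1 < ‖w‖ then Nb w else ∫⁻ ζ, NN Nb r1 δ m (w + δ * ζ) ∂νc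

lemma GG_succ (b : E → ℝ≥0∞) (r1 δ : ℝ) (S : Finset ℂ) (m : ℕ) (x : E) :
    GG b r1 δ S (m + 1) x
      = if r1 < ‖x.2‖ then b x else S.sup (fun c => step δ (GG b r1 δ S m) c x) := rfl

lemma NN_succ (Nb : ℂ → ℝ≥0∞) (r1 δ : ℝ) (m : ℕ) (w : ℂ) :
    NN Nb r1 δ (m + 1) w
      = if r1 < ‖w‖ then Nb w else ∫⁻ ζ, NN Nb r1 δ m (w + δ * ζ) ∂νc := rfl

lemma fsup_meas {α ι : Type*} [MeasurableSpace α] (S : Finset ι) {h : ι → α → ℝ≥0∞}
    (hm : ∀ c, Measurable (h c)) : Measurable (fun a => S.sup (fun c => h c a)) := by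
  classical
  induction S using Finset.induction_on with
  | empty => simp only [Finset.sup_empty]; exact measurable_const
  | insert c S _ ih => simp only [Finset.sup_insert]; exact (hm c).sup ih

lemma step_meas {δ : ℝ} {g : E → ℝ≥0∞} (hg : Measurable g) (c : ℂ) : Measurable (step δ g c) := by
  unfold step
  have h : Measurable (Function.uncurry fun (x : E) (ζ : ℂ) =>
      g (x.1 + slope δ c x.1 * δ * ζ, x.2 + δ * ζ)) := by
    refine hg.comp ?_
    have h1 : Measurable (fun p : E × ℂ => slope δ c p.1.1) :=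
      (slope_meas_right δ c).comp (measurable_fst.comp measurable_fst)
    exact Measurable.prodMk (by fun_prop) (by fun_prop)
  exact h.lintegral_prod_right

lemma GG_meas {b : E → ℝ≥0∞} (hb : Measurable b) (r1 δ : ℝ) (S : Finset ℂ) (m : ℕ) :
    Measurable (GG b r1 δ S m) := by
  have hs : MeasurableSet {x : E | r1 < ‖x.2‖} := measurableSet_lt measurable_const (by fun_prop)
  induction m with
  | zero => exact Measurable.ite hs hb measurable_const
  | succ m ih =>
      exact Measurable.ite hs hb (fsup_meas S (fun c => step_meas ih c))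

lemma NN_meas {Nb : ℂ → ℝ≥0∞} (hb : Measurable Nb) (r1 δ : ℝ) (m : ℕ) :
    Measurable (NN Nb r1 δ m) := by
  have hs : MeasurableSet {w : ℂ | r1 < ‖w‖} := measurableSet_lt measurable_const (by fun_prop)
  induction m with
  | zero => exact Measurable.ite hs hb measurable_const
  | succ m ih =>
      refine Measurable.ite hs hb ?_
      have h : Measurable (Function.uncurry fun (w ζ : ℂ) => NN Nb r1 δ m (w + δ * ζ)) :=
        ih.comp (by fun_prop)
      exact h.lintegral_prod_right

lemma step_mono {δ : ℝ} {g g' : E → ℝ≥0∞} (h : ∀ x, g x ≤ g' x) (c : ℂ) (x : E) :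
    step δ g c x ≤ step δ g' c x := lintegral_mono (fun _ => h _)

lemma GG_mono (b : E → ℝ≥0∞) (r1 δ : ℝ) (S : Finset ℂ) (m : ℕ) (x : E) :
    GG b r1 δ S m x ≤ GG b r1 δ S (m + 1) x := by
  induction m generalizing x with
  | zero =>
      simp only [GG]
      split_ifs
      · exact le_rfl
      · exact zero_le
  | succ m ih =>
      rw [GG_succ, GG_succ]
      split_ifs
      · exact le_rfl
      · exact Finset.sup_mono_fun (fun c _ => step_mono ih c x)

lemma NN_mono (Nb : ℂ → ℝ≥0∞) (r1 δ : ℝ) (m : ℕ) (w : ℂ) :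
    NN Nb r1 δ m w ≤ NN Nb r1 δ (m + 1) w := by
  induction m generalizing w with
  | zero =>
      simp only [NN]
      split_ifs
      · exact le_rfl
      · exact zero_le
  | succ m ih =>
      rw [NN_succ, NN_succ]
      split_ifs
      · exact le_rfl
      · exact lintegral_mono (fun ζ => ih _)

/-- values are below the pay-off when the latter has the super-mean value property -/
lemma GG_le {b : E → ℝ≥0∞} {r1 δ : ℝ} (hδ : 0 < δ) {S : Finset ℂ}
    (hb : ∀ x : E, ‖x.1‖ < 1 → ‖x.2‖ ≤ r1 → ∀ c : ℂ, step δ b c x ≤ b x) (m : ℕ) (x : E)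
    (hx : ‖x.1‖ < 1) : GG b r1 δ S m x ≤ b x := by
  induction m generalizing x with
  | zero =>
      simp only [GG]
      split_ifs
      · exact le_rfl
      · exact zero_le
  | succ m ih =>
      rw [GG_succ]
      split_ifs with h
      · exact le_rfl
      · refine Finset.sup_le (fun c _ => ?_)
        refine le_trans ?_ (hb x hx (not_lt.mp h) c)
        unfold step
        refine lintegral_mono_ae ?_
        filter_upwards [νc_ae] with ζ hζ
        exact ih _ (slope_norm hδ hx hζ)

lemma exists_selector {S : Finset ℂ} (hS : S.Nonempty) {h : ℂ → ℂ → ℝ≥0∞}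
    (hm : ∀ c, Measurable (h c)) :
    ∃ s : ℂ → ℂ, Measurable s ∧ (∀ a, s a ∈ S) ∧ ∀ a, S.sup (fun c => h c a) = h (s a) a := by
  induction hS using Finset.Nonempty.cons_induction with
  | singleton c =>
      exact ⟨fun _ => c, measurable_const, fun _ => by simp, fun a => by simp⟩
  | cons c S hc hS ih =>
      obtain ⟨s, hs1, hs2, hs3⟩ := ih
      have hsup : Measurable (fun a => S.sup (fun c => h c a)) := fsup_meas S hm
      classical
      refine ⟨fun a => if h c a ≤ S.sup (fun c => h c a) then s a else c,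
        Measurable.ite (measurableSet_le (hm c) hsup) hs1 measurable_const, fun a => ?_,
        fun a => ?_⟩
      · simp only []
        split_ifs
        · exact Finset.mem_cons.mpr (Or.inr (hs2 a))
        · exact Finset.mem_cons_self _ _
      · rw [Finset.sup_cons]
        simp only []
        split_ifs with h1
        · rw [sup_eq_right.mpr h1, hs3 a]
        · rw [sup_eq_left.mpr (not_le.mp h1).le]

/-- mutual energy -/
noncomputable def En (η : Measure ℂ) : ℝ≥0∞ := ∫⁻ a, ∫⁻ a', Kf (a - a') ∂η ∂η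

/-- duality estimate -/
theorem GG_dual {b : E → ℝ≥0∞} (hb : Measurable b) {Nb : ℂ → ℝ≥0∞} (hNb : Measurable Nb)
    {r1 δ : ℝ} (hδ : 0 < δ) {S : Finset ℂ} (hS : S.Nonempty) {ε : ℝ≥0∞}
    (hbd : ∀ w : ℂ, r1 < ‖w‖ → ∀ η : Measure ℂ, IsFiniteMeasure η → (∀ᵐ a ∂η, ‖a‖ < 1) →
      2 * ∫⁻ a, b (a, w) ∂η ≤ En η + Nb w + ε * η univ) (m : ℕ) :
    ∀ w : ℂ, ∀ η : Measure ℂ, IsFiniteMeasure η → (∀ᵐ a ∂η, ‖a‖ < 1) →
      2 * ∫⁻ a, GG b r1 δ S m (a, w) ∂η ≤ En η + NN Nb r1 δ m w + ε * η univ := by
  induction m with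
  | zero =>
      intro w η hfin hη
      by_cases h : r1 < ‖w‖
      · simp only [GG, NN, if_pos h]
        exact hbd w h η hfin hη
      · simp only [GG, NN, if_neg h]
        simp
  | succ m ih =>
      intro w η hfin hη
      by_cases h : r1 < ‖w‖
      · simp only [GG, NN, if_pos h]
        exact hbd w h η hfin hη
      simp only [GG, NN, if_neg h]
      have hGm := GG_meas hb r1 δ S m
      have hNm := NN_meas hNb r1 δ m
      obtain ⟨s, hs1, hs2, hs3⟩ := exists_selector hS
        (h := fun c a => step δ (GG b r1 δ S m) c (a, w))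
        (fun c => (step_meas hGm c).comp (measurable_id.prodMk measurable_const))
      set cc : ℂ → ℂ := fun a => slope δ (s a) a with hcc
      have hccm : Measurable cc := (slope_meas δ).comp (hs1.prodMk measurable_id)
      -- the joint map
      set T : ℂ → ℂ → ℂ := fun ζ a => a + cc a * δ * ζ with hT
      have hTm : Measurable (fun p : ℂ × ℂ => T p.1 p.2) := by
        have h1 : Measurable (fun p : ℂ × ℂ => cc p.2) := hccm.comp measurable_snd
        simp only [hT]
        fun_prop
      have hTζ : ∀ ζ, Measurable (T ζ) := fun ζ =>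
        hTm.comp (measurable_const.prodMk measurable_id)
      have hTn : ∀ ζ : ℂ, ‖ζ‖ = 1 → ∀ a : ℂ, ‖a‖ < 1 → ‖T ζ a‖ < 1 := fun ζ hζ a ha =>
        slope_norm hδ ha hζ
      have e1 : ∫⁻ a, S.sup (fun c => step δ (GG b r1 δ S m) c (a, w)) ∂η
          = ∫⁻ ζ, ∫⁻ a, GG b r1 δ S m (T ζ a, w + δ * ζ) ∂η ∂νc := by
        calc ∫⁻ a, S.sup (fun c => step δ (GG b r1 δ S m) c (a, w)) ∂η
            = ∫⁻ a, ∫⁻ ζ, GG b r1 δ S m (T ζ a, w + δ * ζ) ∂νc ∂η := by
              refine lintegral_congr (fun a => ?_)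
              exact hs3 a
          _ = _ := by
              refine lintegral_lintegral_swap
                (f := fun a ζ => GG b r1 δ S m (T ζ a, w + δ * ζ)) ?_
              refine Measurable.aemeasurable ?_
              refine hGm.comp ?_
              exact (hTm.comp measurable_swap).prodMk (by fun_prop)
      rw [e1, ← lintegral_const_mul]
      swap
      · have : Measurable (Function.uncurry fun (ζ a : ℂ) => GG b r1 δ S m (T ζ a, w + δ * ζ)) := by
          refine hGm.comp ?_
          exact hTm.prodMk (by fun_prop)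
        exact this.lintegral_prod_right
      -- energy after one step
      set EE : ℂ → ℝ≥0∞ := fun ζ => ∫⁻ a, ∫⁻ a', Kf (T ζ a - T ζ a') ∂η ∂η with hEE
      have hK3 : Measurable (fun q : (ℂ × ℂ) × ℂ => Kf (T q.1.1 q.1.2 - T q.1.1 q.2)) := by
        refine Kf_meas.comp ?_
        have a1 : Measurable (fun q : (ℂ × ℂ) × ℂ => T q.1.1 q.1.2) := hTm.comp measurable_fst
        have a2 : Measurable (fun q : (ℂ × ℂ) × ℂ => T q.1.1 q.2) :=
          hTm.comp ((measurable_fst.comp measurable_fst).prodMk measurable_snd)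
        exact a1.sub a2
      have hK2 : Measurable (fun p : ℂ × ℂ => ∫⁻ a', Kf (T p.1 p.2 - T p.1 a') ∂η) :=
        Measurable.lintegral_prod_right (f := fun p : ℂ × ℂ => fun a' => Kf (T p.1 p.2 - T p.1 a'))
          hK3
      have hEEm : Measurable EE :=
        Measurable.lintegral_prod_right
          (f := fun (ζ a : ℂ) => ∫⁻ a', Kf (T ζ a - T ζ a') ∂η) hK2
      have key : ∀ᵐ ζ ∂νc, 2 * ∫⁻ a, GG b r1 δ S m (T ζ a, w + δ * ζ) ∂η
          ≤ EE ζ + NN Nb r1 δ m (w + δ * ζ) + ε * η univ := by
        filter_upwards [νc_ae] with ζ hζ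
        have hfin' : IsFiniteMeasure (η.map (T ζ)) := Measure.isFiniteMeasure_map η (T ζ)
        have hη' : ∀ᵐ a ∂(η.map (T ζ)), ‖a‖ < 1 := by
          rw [ae_map_iff (hTζ ζ).aemeasurable (measurableSet_lt measurable_norm measurable_const)]
          filter_upwards [hη] with a ha
          exact hTn ζ hζ a ha
        have := ih (w + δ * ζ) (η.map (T ζ)) hfin' hη'
        have c1 : ∫⁻ a, GG b r1 δ S m (a, w + δ * ζ) ∂(η.map (T ζ))
            = ∫⁻ a, GG b r1 δ S m (T ζ a, w + δ * ζ) ∂η :=
          lintegral_map (hGm.comp (measurable_id.prodMk measurable_const)) (hTζ ζ)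
        have c2 : En (η.map (T ζ)) = EE ζ := by
          unfold En
          rw [lintegral_map _ (hTζ ζ)]
          · simp only [hEE]
            refine lintegral_congr (fun a => ?_)
            rw [lintegral_map _ (hTζ ζ)]
            exact Kf_meas.comp (by fun_prop)
          · have : Measurable (Function.uncurry fun (a a' : ℂ) => Kf (a - a')) :=
              Kf_meas.comp (by fun_prop)
            exact this.lintegral_prod_right
        have c3 : (η.map (T ζ)) univ = η univ := by
          rw [Measure.map_apply (hTζ ζ) MeasurableSet.univ, preimage_univ]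
        rw [c1, c2, c3] at this
        exact this
      have hNζ : Measurable (fun ζ : ℂ => NN Nb r1 δ m (w + δ * ζ)) := hNm.comp (by fun_prop)
      have hEn : ∫⁻ ζ, EE ζ ∂νc ≤ En η := by
        calc ∫⁻ ζ, EE ζ ∂νc
            = ∫⁻ a, ∫⁻ ζ, ∫⁻ a', Kf (T ζ a - T ζ a') ∂η ∂νc ∂η := by
              refine lintegral_lintegral_swap
                (f := fun (ζ a : ℂ) => ∫⁻ a', Kf (T ζ a - T ζ a') ∂η) hK2.aemeasurable
          _ = ∫⁻ a, ∫⁻ a', ∫⁻ ζ, Kf (T ζ a - T ζ a') ∂νc ∂η ∂η := by
              refine lintegral_congr (fun a => ?_)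
              refine lintegral_lintegral_swap (f := fun (ζ a' : ℂ) => Kf (T ζ a - T ζ a')) ?_
              refine Measurable.aemeasurable ?_
              refine Kf_meas.comp ?_
              have a1 : Measurable (fun q : ℂ × ℂ => T q.1 a) :=
                hTm.comp (measurable_fst.prodMk measurable_const)
              exact a1.sub hTm
          _ ≤ ∫⁻ a, ∫⁻ a', Kf (a - a') ∂η ∂η := by
              refine lintegral_mono_ae ?_
              filter_upwards [hη] with a ha
              refine lintegral_mono_ae ?_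
              filter_upwards [hη] with a' ha'
              have := Kf_mean (a - a') ((cc a - cc a') * δ) (fun ζ hζ => by
                have e : a - a' + ζ * ((cc a - cc a') * δ) = T ζ a - T ζ a' := by
                  simp only [hT]; ring
                rw [e]
                have h1 := hTn ζ hζ a ha
                have h2 := hTn ζ hζ a' ha'
                have := norm_sub_le (T ζ a) (T ζ a')
                linarith)
              refine le_trans (le_of_eq ?_) this
              refine lintegral_congr (fun ζ => ?_)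
              congr 1
              simp only [hT]; ring
      calc ∫⁻ ζ, 2 * ∫⁻ a, GG b r1 δ S m (T ζ a, w + δ * ζ) ∂η ∂νc
          ≤ ∫⁻ ζ, (EE ζ + NN Nb r1 δ m (w + δ * ζ) + ε * η univ) ∂νc := lintegral_mono_ae key
        _ = (∫⁻ ζ, EE ζ ∂νc) + (∫⁻ ζ, NN Nb r1 δ m (w + δ * ζ) ∂νc) + ε * η univ := by
            have hadd : Measurable (fun ζ : ℂ => EE ζ + NN Nb r1 δ m (w + δ * ζ)) := hEEm.add hNζ
            have h1 : (νc : Measure ℂ) univ = 1 := measure_univ
            rw [lintegral_add_left hadd, lintegral_add_left hEEm, lintegral_const,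
              h1, mul_one]
        _ ≤ En η + (∫⁻ ζ, NN Nb r1 δ m (w + δ * ζ) ∂νc) + ε * η univ := by gcongr

end H13Ceg
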