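import Pool.Agent.H13.Ceg.J1

open MeasureTheory Set Filter Topology Metric
open scoped ContDiff ENNReal NNReal

namespace H13Ceg

/-- The open bidisc `𝔻 × 𝔻` in `ℂ²`. -/
def Bidisc : Set (ℂ × ℂ) := {x | ‖x.1‖ < 1 ∧ ‖x.2‖ < 1}

/-- `∂²f / ∂z ∂z̄`, where `z = x₁ + i y₁` is the first coordinate. -/
noncomputable def hessZZ (f : ℂ × ℂ → ℝ) (x : ℂ × ℂ) : ℝ :=
  (D (1, 0) (D (1, 0) f) x + D (Complex.I, 0) (D (Complex.I, 0) f) x) / 4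

/-- `∂²f / ∂w ∂w̄`, where `w = x₂ + i y₂` is the second coordinate. -/
noncomputable def hessWW (f : ℂ × ℂ → ℝ) (x : ℂ × ℂ) : ℝ :=
  (D (0, 1) (D (0, 1) f) x + D (0, Complex.I) (D (0, Complex.I) f) x) / 4

/-- `∂²f / ∂z ∂w̄`. -/
noncomputable def hessZW (f : ℂ × ℂ → ℝ) (x : ℂ × ℂ) : ℂ :=
  ((D (1, 0) (D (0, 1) f) x + D (Complex.I, 0) (D (0, Complex.I) f) x : ℝ)
    + (D (1, 0) (D (0, Complex.I) f) x - D (Complex.I, 0) (D (0, 1) f) x : ℝ) * Complex.I) / 4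

/-- The density of `(dd^c f)²` with respect to Lebesgue measure for a smooth `f`,
with `d^c = (i/4π)(∂̄ - ∂)`: it is `(2/π²) det (f_{j k̄})`. -/
noncomputable def maDensity (f : ℂ × ℂ → ℝ) (x : ℂ × ℂ) : ℝ :=
  2 / Real.pi ^ 2 * (hessZZ f x * hessWW f x - ‖hessZW f x‖ ^ 2)

/-- `m` is the (Bedford-Taylor) Monge-Ampere measure `(dd^c u)²` of `u` on the bidisc:
for every open `U ⊆ 𝔻 × 𝔻` and every sequence of smooth plurisubharmonic functions on `U`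
decreasing to `u`, their Monge-Ampere measures converge to `m` on `U`. -/
def IsMongeAmpere (u : ℂ × ℂ → ℝ) (m : Measure (ℂ × ℂ)) : Prop :=
  ∀ U : Set (ℂ × ℂ), IsOpen U → U ⊆ Bidisc →
    ∀ s : ℕ → ℂ × ℂ → ℝ, (∀ n, ContDiffOn ℝ ∞ (s n) U) → (∀ n, PSHOn U (s n)) →
      (∀ x ∈ U, Antitone fun n => s n x) →
      (∀ x ∈ U, Tendsto (fun n => s n x) atTop (𝓝 (u x))) →
      ∀ φ : ℂ × ℂ → ℝ, Continuous φ → HasCompactSupport φ → tsupport φ ⊆ U →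
        Tendsto (fun n => ∫ x, φ x * maDensity (s n) x) atTop (𝓝 (∫ x, φ x ∂m))

/-- `u ∈ 𝓔₀(𝔻 × 𝔻)` and `m = (dd^c u)²`. -/
structure InE0 (u : ℂ × ℂ → ℝ) (m : Measure (ℂ × ℂ)) : Prop where
  psh : PSHOn Bidisc u
  nonpos : ∀ x ∈ Bidisc, u x ≤ 0
  bounded : ∃ C : ℝ, ∀ x ∈ Bidisc, -C ≤ u x
  boundary : ∀ p ∈ frontier Bidisc, Tendsto u (𝓝[Bidisc] p) (𝓝 0)
  ma : IsMongeAmpere u m
  finite : m Bidisc < ⊤

/-- `u` is a negative plurisubharmonic function on the bidisc (values in `[-∞, 0]`,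
not identically `-∞`). -/
structure IsPSHNeg (u : ℂ × ℂ → EReal) : Prop where
  usc : UpperSemicontinuousOn u Bidisc
  nonpos : ∀ x ∈ Bidisc, u x ≤ 0
  ne_bot : ∃ x ∈ Bidisc, u x ≠ ⊥
  submean : ∀ x v : ℂ × ℂ, (∀ ζ : ℂ, ‖ζ‖ ≤ 1 → x + ζ • v ∈ Bidisc) →
    ∫⁻ θ in Ioc 0 (2 * Real.pi), (-u (x + circleMap 0 1 θ • v)).toENNReal
      ≤ ENNReal.ofReal (2 * Real.pi) * (-u x).toENNReal

/-- a sequence in `𝓔₀` decreasing to `u` with Monge-Ampere measures `m j` of uniformly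
bounded total mass -/
structure FSeq (u : ℂ × ℂ → EReal) (v : ℕ → ℂ × ℂ → ℝ) (m : ℕ → Measure (ℂ × ℂ)) : Prop where
  e0 : ∀ j, InE0 (v j) (m j)
  anti : ∀ x ∈ Bidisc, Antitone fun j => v j x
  lim : ∀ x ∈ Bidisc, Tendsto (fun j => ((v j x : ℝ) : EReal)) atTop (𝓝 (u x))
  mass : ∃ C : ℝ≥0, ∀ j, m j Bidisc ≤ C

/-- Cegrell's class `𝓕(𝔻 × 𝔻)`. -/
def ClassF (u : ℂ × ℂ → EReal) : Prop :=
  IsPSHNeg u ∧ ∃ v m, FSeq u v m

/-- `(dd^c u)² = μ` on the bidisc, for `u ∈ 𝓕(𝔻 × 𝔻)`: `μ` is the weak limit of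
`(dd^c v_j)²` for a sequence as in the definition of `𝓕`. -/
def HasMA (u : ℂ × ℂ → EReal) (μ : Measure (ℂ × ℂ)) : Prop :=
  ∃ v m, FSeq u v m ∧
    ∀ φ : ℂ × ℂ → ℝ, Continuous φ → HasCompactSupport φ → tsupport φ ⊆ Bidisc →
      Tendsto (fun j => ∫ x, φ x ∂(m j)) atTop (𝓝 (∫ x, φ x ∂μ))

/-- The measure `λ ⊗ δ₀`: Lebesgue measure on the unit disc times the Dirac mass at `0`. -/
noncomputable def lamDelta : Measure (ℂ × ℂ) :=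
  ((volume : Measure ℂ).restrict (ball 0 1)).prod (Measure.dirac 0)

lemma bidisc_eq : Bidisc = ball (0 : E) 1 := by
  ext x
  simp only [Bidisc, Set.mem_ofPred_eq, mem_ball_zero_iff, Prod.norm_def, max_lt_iff]

lemma mem_bidisc {x : E} : x ∈ Bidisc ↔ ‖x‖ < 1 := by
  rw [bidisc_eq, mem_ball_zero_iff]

lemma maDensity_eq (f : E → ℝ) (x : E) :
    maDensity f x = 1 / (16 * Real.pi ^ 2) * MM f f x := by
  unfold maDensity hessZZ hessWW hessZW MM Lz Lw Ma Mb e1 e2 e3 e4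
  set a := D (1, 0) (D (0, 1) f) x + D (Complex.I, 0) (D (0, Complex.I) f) x
  set b := D (1, 0) (D (0, Complex.I) f) x - D (Complex.I, 0) (D (0, 1) f) x
  have h : ‖((a : ℂ) + (b : ℂ) * Complex.I) / 4‖ ^ 2 = (a ^ 2 + b ^ 2) / 16 := by
    rw [norm_div, div_pow]
    congr 1
    · rw [Complex.sq_norm, Complex.normSq_add_mul_I]
    · norm_num
  rw [h]
  field_simp
  ring

end H13Ceg
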