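import Pool.Agent.H13.Ceg.Cmp

open MeasureTheory Set Filter Topology Metric
open scoped ContDiff ENNReal Convolution

namespace H13Ceg

lemma Lz_cont {f : E → ℝ} (hf : ContDiff ℝ 2 f) : Continuous (Lz f) := by
  have h : ∀ v, ContDiff ℝ 1 (D v f) := fun v => D_contDiff hf (by norm_num)
  exact ((D_contDiff (m := 0) (h e1) (by norm_num)).continuous).add
    ((D_contDiff (m := 0) (h e2) (by norm_num)).continuous)

lemma Lw_cont {f : E → ℝ} (hf : ContDiff ℝ 2 f) : Continuous (Lw f) := by
  have h : ∀ v, ContDiff ℝ 1 (D v f) := fun v => D_contDiff hf (by norm_num)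
  exact ((D_contDiff (m := 0) (h e3) (by norm_num)).continuous).add
    ((D_contDiff (m := 0) (h e4) (by norm_num)).continuous)

lemma Ma_cont {f : E → ℝ} (hf : ContDiff ℝ 2 f) : Continuous (Ma f) := by
  have h : ∀ v, ContDiff ℝ 1 (D v f) := fun v => D_contDiff hf (by norm_num)
  exact ((D_contDiff (m := 0) (h e3) (by norm_num)).continuous).add
    ((D_contDiff (m := 0) (h e4) (by norm_num)).continuous)

lemma Mb_cont {f : E → ℝ} (hf : ContDiff ℝ 2 f) : Continuous (Mb f) := by
  have h : ∀ v, ContDiff ℝ 1 (D v f) := fun v => D_contDiff hf (by norm_num)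
  exact ((D_contDiff (m := 0) (h e4) (by norm_num)).continuous).sub
    ((D_contDiff (m := 0) (h e3) (by norm_num)).continuous)

lemma MM_cont {f g : E → ℝ} (hf : ContDiff ℝ 2 f) (hg : ContDiff ℝ 2 g) :
    Continuous (MM f g) := by
  unfold MM
  have k1 := Lz_cont hf
  have k2 := Lw_cont hf
  have k3 := Ma_cont hf
  have k4 := Mb_cont hf
  have l1 := Lz_cont hg
  have l2 := Lw_cont hg
  have l3 := Ma_cont hg
  have l4 := Mb_cont hg
  fun_prop

lemma DD_zero_off {f : E → ℝ} {x : E} (hx : x ∉ tsupport f) (a b : E) : D a (D b f) x = 0 := by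
  have hz : f =ᶠ[𝓝 x] fun _ => 0 := notMem_tsupport_iff_eventuallyEq.mp hx
  rw [DD_congr hz, DD_const]

lemma Lz_compact {f : E → ℝ} (hc : HasCompactSupport f) : HasCompactSupport (Lz f) :=
  HasCompactSupport.intro hc (fun x hx => by simp [Lz, DD_zero_off hx])
lemma Lw_compact {f : E → ℝ} (hc : HasCompactSupport f) : HasCompactSupport (Lw f) :=
  HasCompactSupport.intro hc (fun x hx => by simp [Lw, DD_zero_off hx])
lemma Ma_compact {f : E → ℝ} (hc : HasCompactSupport f) : HasCompactSupport (Ma f) :=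
  HasCompactSupport.intro hc (fun x hx => by simp [Ma, DD_zero_off hx])
lemma Mb_compact {f : E → ℝ} (hc : HasCompactSupport f) : HasCompactSupport (Mb f) :=
  HasCompactSupport.intro hc (fun x hx => by simp [Mb, DD_zero_off hx])

lemma MM_zero_off {f g : E → ℝ} {x : E} (hx : x ∉ tsupport f) : MM f g x = 0 := by
  simp [MM, Lz, Lw, Ma, Mb, DD_zero_off hx]

/-- second order integration by parts -/
lemma integral_DD {f g : E → ℝ} (hf : ContDiff ℝ 2 f) (hg : ContDiff ℝ 2 g)
    (hc : HasCompactSupport f) (v : E) :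
    ∫ x, f x * D v (D v g) x = ∫ x, g x * D v (D v f) x := by
  have f1 : ContDiff ℝ 1 f := hf.of_le (by norm_num)
  have g1 : ContDiff ℝ 1 g := hg.of_le (by norm_num)
  have df : ContDiff ℝ 1 (D v f) := D_contDiff hf (by norm_num)
  have dg : ContDiff ℝ 1 (D v g) := D_contDiff hg (by norm_num)
  have h : ∫ x, D v (fun y => f y * D v g y - g y * D v f y) x = 0 := by
    refine integral_D_eq_zero ((f1.mul dg).sub (g1.mul df)) ?_
    exact (hc.mul_right).sub ((D_compact hc).mul_left)
  have hpt : ∀ x, D v (fun y => f y * D v g y - g y * D v f y) x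
      = f x * D v (D v g) x - g x * D v (D v f) x := by
    intro x
    have a1 : Differentiable ℝ f := f1.differentiable (by norm_num)
    have a2 : Differentiable ℝ g := g1.differentiable (by norm_num)
    have a3 : Differentiable ℝ (D v f) := df.differentiable (by norm_num)
    have a4 : Differentiable ℝ (D v g) := dg.differentiable (by norm_num)
    have h0 := congrFun (D_sub (v := v) (a1.mul a4) (a2.mul a3)) x
    have h1 := congrFun (D_mul (v := v) a1 a4) x
    have h2 := congrFun (D_mul (v := v) a2 a3) x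
    have h3 : D v (fun y => f y * D v g y - g y * D v f y) x
        = D v (fun y => f y * D v g y) x - D v (fun y => g y * D v f y) x := h0
    rw [h3, h1, h2]; ring
  simp_rw [hpt] at h
  have i1 : Integrable (fun x => f x * D v (D v g) x) := by
    have : Continuous (D v (D v g)) := (D_contDiff (m := 0) dg (by norm_num)).continuous
    exact (hf.continuous.mul this).integrable_of_hasCompactSupport hc.mul_right
  have i2 : Integrable (fun x => g x * D v (D v f) x) := by
    have : Continuous (D v (D v f)) := (D_contDiff (m := 0) df (by norm_num)).continuous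
    exact (hg.continuous.mul this).integrable_of_hasCompactSupport
      (D_compact (D_compact hc)).mul_left
  rw [integral_sub i1 i2] at h
  linarith

/-- cutoff functions -/
noncomputable def cut (a b : ℝ) (h0 : 0 < a) (h : a < b) : ContDiffBump (0 : E) := ⟨a, b, h0, h⟩

lemma exists_bound {f : E → ℝ} (hf : Continuous f) (hc : HasCompactSupport f) :
    ∃ C, 0 ≤ C ∧ ∀ x, |f x| ≤ C := by
  obtain ⟨C, hC⟩ := hf.bounded_above_of_compact_support hc
  exact ⟨C, (norm_nonneg _).trans (hC 0), hC⟩

/-- Chern-Levine-Nirenberg type stability -/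
theorem CLN {ψ : E → ℝ} (hψ : ContDiff ℝ 2 ψ) {s0 : ℝ} (hs0 : 0 < s0) (hs1 : s0 < 1)
    (hsupp : ∀ x, s0 ≤ ‖x‖ → ψ x = 0) {M : ℝ} :
    ∃ C ≥ 0, ∃ δ > 0, ∀ f g : E → ℝ, CC f → CC g → (∀ x, |f x| ≤ M) → (∀ x, |g x| ≤ M) →
      ∀ η : ℝ, 0 ≤ η → (∀ x, |f x - g x| ≤ η) → ∀ φ : ContDiffBump (0 : E), φ.rOut < δ →
      |∫ x, ψ x * (MM (moll φ f) (moll φ f) x - MM (moll φ g) (moll φ g) x)| ≤ C * η := by
  have hψc : HasCompactSupport ψ := HasCompactSupport.intro (isCompact_closedBall (0:E) s0)
    (fun x hx => hsupp x (by rw [mem_closedBall_zero_iff, not_le] at hx; exact hx.le))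
  have htsupp : tsupport ψ ⊆ closedBall (0:E) s0 := by
    refine closure_minimal (fun x hx => ?_) isClosed_closedBall
    rw [mem_closedBall_zero_iff]
    by_contra hcon
    exact hx (hsupp x (not_le.mp hcon).le)
  obtain ⟨C1, hC1, b1⟩ := exists_bound (Lz_cont hψ) (Lz_compact hψc)
  obtain ⟨C2, hC2, b2⟩ := exists_bound (Lw_cont hψ) (Lw_compact hψc)
  obtain ⟨C3, hC3, b3⟩ := exists_bound (Ma_cont hψ) (Ma_compact hψc)
  obtain ⟨C4, hC4, b4⟩ := exists_bound (Mb_cont hψ) (Mb_compact hψc)
  set C0 := C1 + C2 + C3 + C4 with hC0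
  -- outer cutoff
  set s1 := (s0 + 1) / 2 with hs1'
  have hs01 : s0 < s1 := by rw [hs1']; linarith
  have hs11 : s1 < 1 := by rw [hs1']; linarith
  let κ := cut s0 s1 hs0 hs01
  have hκ : ContDiff ℝ ∞ (κ : E → ℝ) := κ.contDiff
  have hκc : HasCompactSupport (κ : E → ℝ) := κ.hasCompactSupport
  have hκ2 : ContDiff ℝ 2 (κ : E → ℝ) := hκ.of_le le2
  let T : ℝ := ∫ x, |Lz κ x + Lw κ x|
  have hT : 0 ≤ T := integral_nonneg (fun x => abs_nonneg _)
  refine ⟨3 * C0 * (2 * |M| * T), by positivity, (1 - s1), by linarith, ?_⟩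
  intro f g hf hg hfM hgM η hη hfg φ hφ
  obtain ⟨Cf, hCf⟩ := hf.bm
  obtain ⟨Cg, hCg⟩ := hg.bm
  have hfM' : BM f M := ⟨hCf.meas, hfM⟩
  have hgM' : BM g M := ⟨hCg.meas, hgM⟩
  set F := moll φ f with hF
  set G := moll φ g with hG
  have Fi : ContDiff ℝ ∞ F := hf.smooth φ
  have Gi : ContDiff ℝ ∞ G := hg.smooth φ
  have F2 : ContDiff ℝ 2 F := Fi.of_le le2
  have G2 : ContDiff ℝ 2 G := Gi.of_le le2
  have hsym := integral_MM_symm (φ := ψ) (p := fun y => F y - G y) (q := fun y => F y + G y)
    hψ (F2.sub G2) ((hf.moll_supp φ).sub (hg.moll_supp φ)) ((Fi.add Gi).of_le le3)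
  simp_rw [MM_sub_add F2 G2]
  rw [hsym]
  have hFG : ∀ x, |F x - G x| ≤ η := by
    intro x
    have hb : BM (fun y => f y - g y) η := ⟨hCf.meas.sub hCg.meas, hfg⟩
    have := abs_moll_le φ hb x
    rwa [moll_sub' φ hfM' hgM'] at this
  have hlev : ∀ x : E, ‖x‖ < s1 → ∀ v, 0 ≤ Lev (fun y => F y + G y) x v := by
    intro x hx v
    rw [Lev_add F2 G2]
    exact add_nonneg (hf.lev φ (by linarith) v) (hg.lev φ (by linarith) v)
  have hQ2 : ContDiff ℝ 2 (fun y => F y + G y) := F2.add G2
  -- pointwise bound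
  have hpt : ∀ x, |(F x - G x) * MM ψ (fun y => F y + G y) x|
      ≤ η * (3 * C0) * (κ x * (Lz (fun y => F y + G y) x + Lw (fun y => F y + G y) x)) := by
    intro x
    by_cases hx : x ∈ tsupport ψ
    · have hx0 : ‖x‖ ≤ s0 := by simpa using htsupp hx
      have hx1 : ‖x‖ < s1 := by linarith
      have hκ1 : κ x = 1 := κ.one_of_mem_closedBall (mem_closedBall_zero_iff.mpr hx0)
      rw [hκ1, one_mul, abs_mul]
      have hm := abs_MM_le (ψ := ψ) hQ2 (hlev x hx1) (C := C0)
        ((b1 x).trans (by rw [hC0]; linarith)) ((b2 x).trans (by rw [hC0]; linarith))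
        ((b3 x).trans (by rw [hC0]; linarith)) ((b4 x).trans (by rw [hC0]; linarith))
      calc |F x - G x| * |MM ψ (fun y => F y + G y) x|
          ≤ η * (3 * C0 * (Lz (fun y => F y + G y) x + Lw (fun y => F y + G y) x)) :=
            mul_le_mul (hFG x) hm (abs_nonneg _) hη
        _ = _ := by ring
    · rw [MM_zero_off hx, mul_zero, abs_zero]
      by_cases hx1 : ‖x‖ < s1
      · have hz := Lz_nonneg hQ2 (hlev x hx1)
        have hw := Lw_nonneg hQ2 (hlev x hx1)
        have : 0 ≤ κ x := κ.nonneg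
        positivity
      · have : κ x = 0 := κ.zero_of_le_dist (by rw [dist_zero_right]; exact not_lt.mp hx1)
        rw [this]; simp
  have hint : ∫ x, κ x * (Lz (fun y => F y + G y) x + Lw (fun y => F y + G y) x)
      ≤ 2 * |M| * T := by
    have d1 := integral_DD hκ2 hQ2 hκc e1
    have d2 := integral_DD hκ2 hQ2 hκc e2
    have d3 := integral_DD hκ2 hQ2 hκc e3
    have d4 := integral_DD hκ2 hQ2 hκc e4
    have cD : ∀ (u : E → ℝ) (_ : ContDiff ℝ 2 u) (v : E), Continuous (D v (D v u)) := by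
      intro u hu v
      have h1 : ContDiff ℝ 1 (D v u) := D_contDiff hu (by norm_num)
      exact (D_contDiff (m := 0) h1 (by norm_num)).continuous
    have iA : ∀ v, Integrable (fun x => κ x * D v (D v (fun y => F y + G y)) x) := fun v =>
      (hκ2.continuous.mul (cD _ hQ2 v)).integrable_of_hasCompactSupport hκc.mul_right
    have iB : ∀ v, Integrable (fun x => (F x + G x) * D v (D v κ) x) := fun v =>
      (hQ2.continuous.mul (cD _ hκ2 v)).integrable_of_hasCompactSupport
        (D_compact (D_compact hκc)).mul_left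
    have e : ∫ x, κ x * (Lz (fun y => F y + G y) x + Lw (fun y => F y + G y) x)
        = ∫ x, (F x + G x) * (Lz κ x + Lw κ x) := by
      have l : ∀ x, κ x * (Lz (fun y => F y + G y) x + Lw (fun y => F y + G y) x)
          = κ x * D e1 (D e1 (fun y => F y + G y)) x + κ x * D e2 (D e2 (fun y => F y + G y)) x
            + κ x * D e3 (D e3 (fun y => F y + G y)) x
            + κ x * D e4 (D e4 (fun y => F y + G y)) x := by
        intro x; unfold Lz Lw; ring
      have r : ∀ x, (F x + G x) * (Lz κ x + Lw κ x)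
          = (F x + G x) * D e1 (D e1 κ) x + (F x + G x) * D e2 (D e2 κ) x
            + (F x + G x) * D e3 (D e3 κ) x + (F x + G x) * D e4 (D e4 κ) x := by
        intro x; unfold Lz Lw; ring
      simp_rw [l, r]
      rw [integral_add4 (iA e1) (iA e2) (iA e3) (iA e4),
        integral_add4 (iB e1) (iB e2) (iB e3) (iB e4), d1, d2, d3, d4]
    rw [e]
    have hab : ∀ x, (F x + G x) * (Lz κ x + Lw κ x) ≤ 2 * |M| * |Lz κ x + Lw κ x| := by
      intro x
      have h1 := abs_moll_le φ hfM' x
      have h2 := abs_moll_le φ hgM' x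
      have h3 : |F x + G x| ≤ 2 * |M| :=
        (abs_add_le _ _).trans (by linarith [le_abs_self M])
      calc (F x + G x) * (Lz κ x + Lw κ x) ≤ |(F x + G x) * (Lz κ x + Lw κ x)| := le_abs_self _
        _ = |F x + G x| * |Lz κ x + Lw κ x| := abs_mul _ _
        _ ≤ _ := mul_le_mul_of_nonneg_right h3 (abs_nonneg _)
    have cL : Continuous (fun x => Lz κ x + Lw κ x) := (Lz_cont hκ2).add (Lw_cont hκ2)
    have sL : HasCompactSupport (fun x => Lz κ x + Lw κ x) := (Lz_compact hκc).add (Lw_compact hκc)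
    calc ∫ x, (F x + G x) * (Lz κ x + Lw κ x) ≤ ∫ x, 2 * |M| * |Lz κ x + Lw κ x| := by
          refine integral_mono ?_ ?_ hab
          · exact (hQ2.continuous.mul cL).integrable_of_hasCompactSupport sL.mul_left
          · exact ((cL.integrable_of_hasCompactSupport sL).abs).const_mul _
      _ = 2 * |M| * T := by rw [integral_const_mul]
  have hκint : Integrable (fun x => κ x * (Lz (fun y => F y + G y) x
      + Lw (fun y => F y + G y) x)) :=
    (hκ2.continuous.mul ((Lz_cont hQ2).add (Lw_cont hQ2))).integrable_of_hasCompactSupport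
      hκc.mul_right
  calc |∫ x, (F x - G x) * MM ψ (fun y => F y + G y) x|
      ≤ ∫ x, |(F x - G x) * MM ψ (fun y => F y + G y) x| := abs_integral_le_integral_abs
    _ ≤ ∫ x, η * (3 * C0) * (κ x * (Lz (fun y => F y + G y) x + Lw (fun y => F y + G y) x)) := by
        refine integral_mono_of_nonneg (Eventually.of_forall fun x => abs_nonneg _)
          (hκint.const_mul _) (Eventually.of_forall hpt)
    _ = η * (3 * C0) * ∫ x, κ x * (Lz (fun y => F y + G y) x + Lw (fun y => F y + G y) x) := by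
        rw [integral_const_mul]
    _ ≤ η * (3 * C0) * (2 * |M| * T) := mul_le_mul_of_nonneg_left hint (by positivity)
    _ = 3 * C0 * (2 * |M| * T) * η := by ring

end H13Ceg
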