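import Pool.Agent.H13.Ceg.Lg

open MeasureTheory Set Filter Topology Metric
open scoped ContDiff ENNReal NNReal

namespace H13Ceg

lemma sq_compact {β : E → ℝ} (hc : HasCompactSupport β) : HasCompactSupport (fun x => β x ^ 2) := by
  refine HasCompactSupport.intro hc (fun x hx => ?_)
  simp only [image_eq_zero_of_notMem_tsupport hx]
  norm_num

lemma int_cc {F : E → ℝ} (h : Continuous F) (hc : HasCompactSupport F) : Integrable F :=
  h.integrable_of_hasCompactSupport hc

lemma ibp_one {W β : E → ℝ} (hW : ContDiff ℝ 1 W) {e : E} (hWe : ∀ x, D e W x = 0)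
    (hβ : ContDiff ℝ 2 β) (hc : HasCompactSupport β) :
    ∫ x, W x * (-β x) * D e (D e β) x = ∫ x, W x * (D e β x) ^ 2 := by
  have d1 : ContDiff ℝ 1 (D e β) := D_contDiff hβ (by norm_num)
  have hβ1 : ContDiff ℝ 1 β := hβ.of_le (by norm_num)
  have h0 := integral_D_eq_zero (v := e) (f := fun x => W x * (β x * D e β x))
    (hW.mul (hβ1.mul d1)) (hc.mul_right.mul_left)
  have e1 : D e (fun x => W x * (β x * D e β x))
      = fun x => W x * (D e β x) ^ 2 - W x * (-β x) * D e (D e β) x := by
    rw [D_mul (hW.differentiable (by norm_num)) ((hβ1.mul d1).differentiable (by norm_num))]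
    funext x
    rw [hWe, D_mul (hβ1.differentiable (by norm_num)) (d1.differentiable (by norm_num))]
    ring
  have d2 : Continuous (D e (D e β)) := (D_contDiff (m := 0) d1 (by norm_num)).continuous
  have c1 : Continuous (fun x => W x * (D e β x) ^ 2) :=
    hW.continuous.mul (d1.continuous.pow 2)
  have c2 : Continuous (fun x => W x * (-β x) * D e (D e β) x) :=
    (hW.continuous.mul hβ.continuous.neg).mul d2
  have sD : HasCompactSupport (D e β) := D_compact hc
  have s1 : HasCompactSupport (fun x => W x * (D e β x) ^ 2) := by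
    refine HasCompactSupport.mul_left ?_
    exact sD.comp_left (g := fun t : ℝ => t ^ 2) (by norm_num)
  have s2 : HasCompactSupport (fun x => W x * (-β x) * D e (D e β) x) :=
    (D_compact sD).mul_left
  rw [e1, integral_sub (c1.integrable_of_hasCompactSupport s1)
    (c2.integrable_of_hasCompactSupport s2)] at h0
  linarith

/-- squared gradient in the first variable -/
noncomputable def gz (β : E → ℝ) (x : E) : ℝ := (D e1 β x) ^ 2 + (D e2 β x) ^ 2

lemma gz_nonneg (β : E → ℝ) (x : E) : 0 ≤ gz β x := by unfold gz; positivity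

lemma gz_cont {β : E → ℝ} (hβ : ContDiff ℝ 1 β) : Continuous (gz β) := by
  unfold gz
  have := fun e : E => (D_contDiff (v := e) (m := 0) hβ (by norm_num)).continuous
  exact ((this e1).pow 2).add ((this e2).pow 2)

lemma gz_compact {β : E → ℝ} (hc : HasCompactSupport β) : HasCompactSupport (gz β) := by
  unfold gz
  have := fun e : E => (D_compact (v := e) hc)
  exact ((this e1).comp_left (g := fun t : ℝ => t ^ 2) (by norm_num)).add
    ((this e2).comp_left (g := fun t : ℝ => t ^ 2) (by norm_num))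

lemma ibp_gz {W β : E → ℝ} (hW : ContDiff ℝ 1 W) (hW1 : ∀ x, D e1 W x = 0)
    (hW2 : ∀ x, D e2 W x = 0) (hβ : ContDiff ℝ 2 β) (hc : HasCompactSupport β) :
    ∫ x, W x * (-β x) * Lz β x = ∫ x, W x * gz β x := by
  have d1 : ∀ e, ContDiff ℝ 1 (D e β) := fun e => D_contDiff hβ (by norm_num)
  have d2 : ∀ e, Continuous (D e (D e β)) := fun e =>
    (D_contDiff (m := 0) (d1 e) (by norm_num)).continuous
  have sD : ∀ e, HasCompactSupport (D e β) := fun e => D_compact hc
  have i1 : ∀ e, Integrable (fun x => W x * (-β x) * D e (D e β) x) := by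
    intro e
    apply int_cc
    · exact (hW.continuous.mul hβ.continuous.neg).mul (d2 e)
    · exact (D_compact (sD e)).mul_left
  have i2 : ∀ e, Integrable (fun x => W x * (D e β x) ^ 2) := by
    intro e
    apply int_cc
    · exact hW.continuous.mul ((d1 e).continuous.pow 2)
    · exact (sq_compact (sD e)).mul_left
  have h1 : ∫ x, W x * (-β x) * Lz β x
      = ∫ x, (W x * (-β x) * D e1 (D e1 β) x + W x * (-β x) * D e2 (D e2 β) x) := by
    congr 1; funext x; unfold Lz; ring
  have h2 := integral_add (i1 e1) (i1 e2)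
  have h3 := integral_add (i2 e1) (i2 e2)
  have h4 : ∫ x, W x * gz β x = ∫ x, (W x * (D e1 β x) ^ 2 + W x * (D e2 β x) ^ 2) := by
    congr 1; funext x; unfold gz; ring
  rw [h1, h2, h4, h3, ibp_one hW hW1 hβ hc, ibp_one hW hW2 hβ hc]

/-- lower bound for the loss of weighted mass -/
theorem energy_lower {f v H W : E → ℝ} (hf : CC f) (hv : CC v) (hfv : ∀ x, f x ≤ v x)
    (hH : ContDiff ℝ 2 H) (hW : ContDiff ℝ 1 W) (hW1 : ∀ x, D e1 W x = 0)
    (hW2 : ∀ x, D e2 W x = 0) (hW0 : ∀ x, 0 ≤ W x)
    (hMM : ∀ (q : E → ℝ) (x : E), MM H q x = W x * Lz q x) {r s s' : ℝ} (hs : 0 < s)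
    (hss' : s < s') (hfg : ∀ x, r < ‖x‖ → f x = v x) (φ : ContDiffBump (0 : E))
    (hφ : r + φ.rOut ≤ s) (hφ2 : φ.rOut ≤ 1 - s) :
    ∫ x, W x * gz (fun y => moll φ v y - moll φ f y) x
      ≤ (∫ x, cut s s' hs hss' x * (-H x) * dens φ f x)
        - ∫ x, cut s s' hs hss' x * (-H x) * dens φ v x := by
  set β : E → ℝ := fun y => moll φ v y - moll φ f y with hβ
  have cβ : ContDiff ℝ 2 β := (hv.c2 φ).sub (hf.c2 φ)
  have sβ : HasCompactSupport β := (hv.moll_supp φ).sub (hf.moll_supp φ)
  have h := hf.cmp hv (cut_smooth hs hss') hH (r := r) (s := s)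
    (fun x hx => cut_one hs hss' hx.le) hfg φ hφ
  have cc : Continuous (fun x => cut s s' hs hss' x * (-H x)) :=
    (cut_smooth hs hss').continuous.mul hH.continuous.neg
  have sc : HasCompactSupport (fun x => cut s s' hs hss' x * (-H x)) :=
    (cut_compact hs hss').mul_right
  have i1 := hf.int_dens φ cc sc
  have i2 := hv.int_dens φ cc sc
  rw [← integral_sub i1 i2]
  have e1 : ∫ x, (cut s s' hs hss' x * (-H x) * dens φ f x
      - cut s s' hs hss' x * (-H x) * dens φ v x)
      = -∫ x, cut s s' hs hss' x * H x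
        * (MM (moll φ f) (moll φ f) x - MM (moll φ v) (moll φ v) x) := by
    rw [← integral_neg]
    congr 1; funext x; unfold dens; ring
  rw [e1, h, ← integral_neg, ← ibp_gz hW hW1 hW2 cβ sβ]
  have cLz : Continuous (Lz β) := Lz_cont cβ
  have cq : ContDiff ℝ 2 (fun y => moll φ f y + moll φ v y) := (hf.c2 φ).add (hv.c2 φ)
  have i3 : Integrable (fun x => W x * (-β x) * Lz β x) :=
    ((hW.continuous.mul cβ.continuous.neg).mul cLz).integrable_of_hasCompactSupport
      (Lz_compact sβ).mul_left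
  have i4 : Integrable (fun x => -((moll φ f x - moll φ v x)
      * MM H (fun y => moll φ f y + moll φ v y) x)) := by
    have c4 : Continuous (fun x => (moll φ f x - moll φ v x)
      * MM H (fun y => moll φ f y + moll φ v y) x) :=
      ((hf.c2 φ).sub (hv.c2 φ)).continuous.mul (MM_cont hH cq)
    have s4 : HasCompactSupport (fun x => (moll φ f x - moll φ v x)
      * MM H (fun y => moll φ f y + moll φ v y) x) :=
      ((hf.moll_supp φ).sub (hv.moll_supp φ)).mul_right
    exact (c4.integrable_of_hasCompactSupport s4).neg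
  refine integral_mono i3 i4 (fun x => ?_)
  show W x * (-β x) * Lz β x ≤ -((moll φ f x - moll φ v x)
      * MM H (fun y => moll φ f y + moll φ v y) x)
  rw [hMM]
  have hL1 : Lz (fun y => moll φ f y + moll φ v y) x = Lz (moll φ f) x + Lz (moll φ v) x := by
    unfold Lz; rw [DD_add (hf.c2 φ) (hv.c2 φ), DD_add (hf.c2 φ) (hv.c2 φ)]; ring
  have hL2 : Lz β x = Lz (moll φ v) x - Lz (moll φ f) x := by
    unfold Lz; rw [DD_sub (hv.c2 φ) (hf.c2 φ), DD_sub (hv.c2 φ) (hf.c2 φ)]; ring
  have hb0 : 0 ≤ β x := by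
    obtain ⟨C, hC⟩ := hf.bm
    obtain ⟨C', hC'⟩ := hv.bm
    have := moll_mono_at φ hC hC' (x := x) (fun t ht => hfv _)
    simp only [hβ]; linarith
  have hbe : moll φ f x - moll φ v x = -β x := by simp only [hβ]; ring
  rw [hL1, hL2, hbe]
  by_cases hx : ‖x‖ < s
  · have hlz : 0 ≤ Lz (moll φ v) x := Lz_nonneg (hv.c2 φ) (hv.lev φ (by linarith))
    have := mul_nonneg (mul_nonneg (hW0 x) hb0) hlz
    nlinarith
  · have : β x = 0 := by
      have := moll_eq_off hf hv hfg φ (x := x) (by linarith [not_lt.mp hx])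
      linarith
    rw [this]; simp

/-- Poincare inequality -/
theorem poincare {β : E → ℝ} (hβ : ContDiff ℝ 1 β) (hc : HasCompactSupport β)
    (hs : ∀ x : E, 2 < ‖x‖ → β x = 0) : ∫ x, (β x) ^ 2 ≤ 16 * ∫ x, gz β x := by
  have cr : ContDiff ℝ 1 (fun x => re1 x) := re1.contDiff
  have h0 := integral_D_eq_zero (v := e1) (f := fun x => re1 x * (β x * β x))
    (cr.mul (hβ.mul hβ)) (hc.mul_right.mul_left)
  have hre : ∀ x, D e1 (fun x => re1 x) x = 1 := by
    intro x
    have : D e1 (fun x => re1 x) x = re1 e1 := by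
      unfold D; rw [re1.fderiv]
    rw [this]; simp [re1_apply, e1]
  have hd := hβ.differentiable (n := 1) (by norm_num)
  have ee : D e1 (fun x => re1 x * (β x * β x)) = fun x => β x ^ 2 + 2 * re1 x * β x * D e1 β x := by
    rw [D_mul (f := fun x => re1 x) (g := fun x => β x * β x) (cr.differentiable (by norm_num))
      (hd.mul hd)]
    funext x
    rw [hre, D_mul hd hd]
    ring
  have cD : Continuous (D e1 β) := (D_contDiff (m := 0) hβ (by norm_num)).continuous
  have i1 : Integrable (fun x => β x ^ 2) := int_cc (hβ.continuous.pow 2) (sq_compact hc)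
  have i2 : Integrable (fun x => 2 * re1 x * β x * D e1 β x) := by
    apply int_cc
    · exact ((continuous_const.mul cr.continuous).mul hβ.continuous).mul cD
    · exact (D_compact hc).mul_left
  have i3 : Integrable (gz β) := int_cc (gz_cont hβ) (gz_compact hc)
  rw [ee, integral_add i1 i2] at h0
  have key : -(∫ x, 2 * re1 x * β x * D e1 β x) ≤ ∫ x, ((1/2) * β x ^ 2 + 8 * gz β x) := by
    rw [← integral_neg]
    refine integral_mono i2.neg ((i1.const_mul (1/2)).add (i3.const_mul 8)) (fun x => ?_)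
    show -(2 * re1 x * β x * D e1 β x) ≤ (1/2) * β x ^ 2 + 8 * gz β x
    by_cases hx : 2 < ‖x‖
    · have := gz_nonneg β x
      rw [hs x hx]; simp; positivity
    · have h1 : |re1 x| ≤ 2 := by
        have : |x.1.re| ≤ ‖x.1‖ := Complex.abs_re_le_norm x.1
        exact (this.trans (norm_fst_le x)).trans (not_lt.mp hx)
      have h2 : -(2 * re1 x * β x * D e1 β x) ≤ 4 * (|β x| * |D e1 β x|) := by
        have : |2 * re1 x * β x * D e1 β x| ≤ 4 * (|β x| * |D e1 β x|) := by
          rw [abs_mul, abs_mul, abs_mul, abs_two]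
          have : 0 ≤ |β x| * |D e1 β x| := by positivity
          nlinarith
        linarith [neg_abs_le (2 * re1 x * β x * D e1 β x)]
      have h3 : 4 * (|β x| * |D e1 β x|) ≤ (1/2) * β x ^ 2 + 8 * (D e1 β x) ^ 2 := by
        nlinarith [sq_nonneg (|β x| - 4 * |D e1 β x|), sq_abs (β x), sq_abs (D e1 β x)]
      have h4 : (D e1 β x) ^ 2 ≤ gz β x := by unfold gz; nlinarith [sq_nonneg (D e2 β x)]
      linarith
  have k2 : ∫ x, ((1/2) * β x ^ 2 + 8 * gz β x)
      = (1/2) * (∫ x, β x ^ 2) + 8 * ∫ x, gz β x := by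
    rw [integral_add (i1.const_mul (1/2)) (i3.const_mul 8), integral_const_mul, integral_const_mul]
  linarith

end H13Ceg
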