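import Pool.Agent.H13.Ceg.En

open MeasureTheory Set Filter Topology Metric
open scoped ContDiff ENNReal NNReal

namespace H13Ceg

/-- the comparison function -/
noncomputable def ell (s c r : ℝ) (x : E) : ℝ := min (s * lg r x) 0 - c

lemma ell_cont {s c r : ℝ} (hr : 0 < r) : Continuous (ell s c r) := by
  unfold ell
  have := (lg_contDiff hr).continuous
  fun_prop

lemma ell_le (s c r : ℝ) (x : E) : ell s c r x ≤ -c := by
  unfold ell; linarith [min_le_right (s * lg r x) 0]

lemma ell_in {s c r : ℝ} (hs : 0 ≤ s) (hr : 0 < r) (hr1 : r ≤ 1) {x : E} (hx : ‖x‖ ≤ 1) :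
    ell s c r x = s * lg r x - c := by
  unfold ell; rw [min_eq_left]
  exact mul_nonpos_of_nonneg_of_nonpos hs (lg_nonpos hr hr1 hx)

lemma ell_sub {s c r : ℝ} (hs : 0 ≤ s) (hr : 0 < r) (hr1 : r ≤ 1) (x v : E)
    (h : ∀ ζ : ℂ, ‖ζ‖ ≤ 1 → ‖x + ζ • v‖ < 1) :
    ell s c r x ≤ Real.circleAverage (fun ζ : ℂ => ell s c r (x + ζ • v)) 0 1 := by
  have hx : ‖x‖ < 1 := by simpa using h 0 (by simp)
  have e1 : Real.circleAverage (fun ζ : ℂ => ell s c r (x + ζ • v)) 0 1
      = Real.circleAverage (fun ζ : ℂ => s * lg r (x + ζ • v) - c) 0 1 := by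
    apply Real.circleAverage_congr_sphere
    intro ζ hζ
    have hζ1 : ‖ζ‖ = 1 := by simpa using hζ
    exact ell_in hs hr hr1 (h ζ hζ1.le).le
  have ci : CircleIntegrable (fun ζ : ℂ => lg r (x + ζ • v)) 0 1 :=
    ci_cont (lg_contDiff hr).continuous x v
  have h1 := Real.circleAverage_fun_sub
    (f₁ := fun ζ : ℂ => s * lg r (x + ζ • v)) (f₂ := fun _ => c) (c := 0) (R := 1)
    (by simpa using ci.const_fun_smul (a := s)) (circleIntegrable_const _ _ _)
  rw [Real.circleAverage_const] at h1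
  have h2 := Real.circleAverage_fun_smul (𝕜 := ℝ) (a := s) (c := 0) (R := 1)
    (f := fun ζ : ℂ => lg r (x + ζ • v))
  simp only [smul_eq_mul] at h2
  rw [h2] at h1
  rw [e1, h1, ell_in hs hr hr1 hx.le]
  have := mul_le_mul_of_nonneg_left (lg_submean hr x v) hs
  linarith

lemma CC.max_ell {f : E → ℝ} (hf : CC f) {s c r : ℝ} (hs : 0 ≤ s) (hc : 0 ≤ c) (hr : 0 < r)
    (hr1 : r ≤ 1) : CC (fun x => max (f x) (ell s c r x)) :=
  hf.max_of (ell_cont hr) (ell_sub hs hr hr1) (fun x _ => (ell_le s c r x).trans (by linarith))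
    (fun x _ => (ell_le s c r x).trans (by linarith))

/-- uniform lower bound for the loss of weighted mass -/
theorem cstar {ψ : E → ℝ} (hψ : CC ψ) (hneg : ∃ x : E, ‖x‖ < 1 ∧ ψ x < 0) :
    ∃ s > 0, ∃ c > 0, ∃ η1 > 0, ∃ K > 0, ∀ r : ℝ, 0 < r → r ≤ 1 → ∀ f : E → ℝ, CC f →
      (∀ x, f x ≤ ψ x + η1) → ∀ (r0 t t' : ℝ) (ht : 0 < t) (htt' : t < t'), r0 < t → t' < 1 →
      (∀ x, r0 < ‖x‖ → -c ≤ f x) → ∃ δ > 0, ∀ φ : ContDiffBump (0 : E), φ.rOut < δ →
        K ≤ (∫ x, cut t t' ht htt' x * (-gq x) * dens φ f x)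
          - ∫ x, cut t t' ht htt' x * (-gq x) * dens φ (fun x => max (f x) (ell s c r x)) x := by
  -- choose a good point
  obtain ⟨x1, hx1, hx1n, hx12⟩ : ∃ x : E, ‖x‖ < 1 ∧ ψ x < 0 ∧ x.2 ≠ 0 := by
    obtain ⟨x0, hx0, hx0n⟩ := hneg
    have hev : ∀ᶠ y in 𝓝 x0, ‖y‖ < 1 ∧ ψ y < 0 :=
      (continuous_norm.continuousAt.eventually (gt_mem_nhds hx0)).and
        (hψ.cont.continuousAt.eventually (gt_mem_nhds hx0n))
    obtain ⟨ε, hε, hb⟩ := Metric.eventually_nhds_iff_ball.mp hev
    by_cases h : x0.2 = 0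
    · refine ⟨(x0.1, ((ε/2 : ℝ) : ℂ)), ?_, ?_, ?_⟩
      · apply (hb _ _).1
        rw [mem_ball, dist_eq_norm, Prod.norm_def]
        simp only [Prod.fst_sub, Prod.snd_sub, sub_self, norm_zero, h, sub_zero,
          Complex.norm_real, Real.norm_eq_abs]
        rw [abs_of_pos (by linarith), max_eq_right (by linarith)]; linarith
      · apply (hb _ _).2
        rw [mem_ball, dist_eq_norm, Prod.norm_def]
        simp only [Prod.fst_sub, Prod.snd_sub, sub_self, norm_zero, h, sub_zero,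
          Complex.norm_real, Real.norm_eq_abs]
        rw [abs_of_pos (by linarith), max_eq_right (by linarith)]; linarith
      · simp only [ne_eq, Complex.ofReal_eq_zero]
        linarith
    · exact ⟨x0, hx0, hx0n, h⟩
  set γ := -ψ x1 / 4 with hγ
  have hγ0 : 0 < γ := by rw [hγ]; linarith
  set A := |Real.log ‖x1.2‖ - (1/2) * Real.log 2| + 1 with hA
  have hA0 : 0 < A := by positivity
  set s := γ / A with hs
  have hs0 : 0 < s := by positivity
  -- continuity
  have hcont : ContinuousAt (fun x : E => s * (Real.log ‖x.2‖ - (1/2) * Real.log 2) - γ / 2 - ψ x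
      - γ / 2) x1 := by
    have h1 : ContinuousAt (fun x : E => Real.log ‖x.2‖) x1 :=
      ContinuousAt.log (by fun_prop) (norm_ne_zero_iff.mpr hx12)
    have h2 : ContinuousAt ψ x1 := hψ.cont.continuousAt
    fun_prop
  have hval : γ < s * (Real.log ‖x1.2‖ - (1/2) * Real.log 2) - γ / 2 - ψ x1 - γ / 2 := by
    have h1 : -γ ≤ s * (Real.log ‖x1.2‖ - (1/2) * Real.log 2) := by
      have h2 : -A ≤ Real.log ‖x1.2‖ - (1/2) * Real.log 2 := by
        rw [hA]; linarith [neg_abs_le (Real.log ‖x1.2‖ - (1/2) * Real.log 2)]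
      have h3 := mul_le_mul_of_nonneg_left h2 hs0.le
      have h4 : s * -A = -γ := by rw [hs]; field_simp
      linarith
    have h5 : ψ x1 = -4 * γ := by rw [hγ]; ring
    linarith
  have hev : ∀ᶠ y in 𝓝 x1, (‖y‖ < 1 ∧ y.2 ≠ 0) ∧
      γ < s * (Real.log ‖y.2‖ - (1/2) * Real.log 2) - γ / 2 - ψ y - γ / 2 := by
    refine ((continuous_norm.continuousAt.eventually (gt_mem_nhds hx1)).and ?_).and
      (hcont.eventually (lt_mem_nhds hval))
    exact continuous_snd.continuousAt.eventually_ne hx12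
  obtain ⟨ρ, hρ, hb⟩ := Metric.eventually_nhds_iff_ball.mp hev
  set V := (volume : Measure E).real (ball x1 (ρ / 2)) with hV
  have hV0 : 0 < V := by
    rw [hV, Measure.real]
    exact ENNReal.toReal_pos (measure_ball_pos _ _ (by linarith)).ne' measure_ball_lt_top.ne
  refine ⟨s, hs0, γ / 2, by linarith, γ / 2, by linarith, (1/4) * (γ ^ 2 * V), by positivity, ?_⟩
  intro r hr hr1 f hf hfψ r0 t t' ht htt' hr0 ht'1 hfb
  have hv : CC (fun x => max (f x) (ell s (γ / 2) r x)) :=
    hf.max_ell hs0.le (by linarith) hr hr1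
  set v : E → ℝ := fun x => max (f x) (ell s (γ / 2) r x) with hvd
  have hfv : ∀ x, f x ≤ v x := fun x => le_max_left _ _
  have hfg : ∀ x, r0 < ‖x‖ → f x = v x := by
    intro x hx
    exact (max_eq_left ((ell_le _ _ _ _).trans (hfb x hx))).symm
  refine ⟨min (min (t - r0) (1 - t)) (min 1 (ρ / 2)), by
    refine lt_min (lt_min (by linarith) (by linarith)) (lt_min one_pos (by linarith)), ?_⟩
  intro φ hφ
  have f1 : φ.rOut < t - r0 := hφ.trans_le ((min_le_left _ _).trans (min_le_left _ _))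
  have f2 : φ.rOut < 1 - t := hφ.trans_le ((min_le_left _ _).trans (min_le_right _ _))
  have f3 : φ.rOut < 1 := hφ.trans_le ((min_le_right _ _).trans (min_le_left _ _))
  have f4 : φ.rOut < ρ / 2 := hφ.trans_le ((min_le_right _ _).trans (min_le_right _ _))
  have hE := energy_lower (W := fun _ => (4:ℝ)) hf hv hfv (gq_contDiff.of_le le2) contDiff_const
    (fun x => by simp [D]) (fun x => by simp [D]) (fun _ => by norm_num) MM_gq ht htt' hfg φ
    (by linarith) (by linarith)
  set β : E → ℝ := fun y => moll φ v y - moll φ f y with hβ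
  have cβ : ContDiff ℝ 2 β := (hv.c2 φ).sub (hf.c2 φ)
  have sβ : HasCompactSupport β := (hv.moll_supp φ).sub (hf.moll_supp φ)
  have hP := poincare (β := β) (cβ.of_le (by norm_num)) sβ (fun x hx => by
    have := moll_eq_off hf hv (r := 1) (fun y hy => by
      rw [hf.zero y hy.le, hv.zero y hy.le]) φ (x := x) (by linarith)
    simp only [hβ]; linarith)
  rw [integral_const_mul] at hE
  -- lower bound of the L² norm
  obtain ⟨C, hC⟩ := hf.bm
  obtain ⟨C', hC'⟩ := hv.bm
  have hlow : ∀ x ∈ ball x1 (ρ / 2), γ ^ 2 ≤ β x ^ 2 := by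
    intro x hx
    have h1 : γ ≤ β x := by
      have h2 : β x = moll φ (fun y => v y - f y) x := (moll_sub' φ hC' hC x).symm
      rw [h2]
      refine le_moll_at φ (C := C' + C) ⟨hC'.meas.sub hC.meas, fun y => ?_⟩ (fun t' ht' => ?_)
      · show |v y - f y| ≤ C' + C
        have a1 := abs_sub (v y) (f y)
        have a2 := hC'.bd y
        have a3 := hC.bd y
        linarith
      · have hy : x - t' ∈ ball x1 ρ := by
          rw [mem_ball, dist_eq_norm] at hx ⊢
          have : x - t' - x1 = (x - x1) - t' := by abel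
          rw [this]
          have := norm_sub_le (x - x1) t'
          linarith
        obtain ⟨⟨b1, b2⟩, b3⟩ := hb _ hy
        have b4 : ell s (γ / 2) r (x - t') = s * lg r (x - t') - γ / 2 :=
          ell_in hs0.le hr hr1 b1.le
        have b5 := mul_le_mul_of_nonneg_left (le_lg' hr b2) hs0.le
        have b6 : ell s (γ / 2) r (x - t') ≤ v (x - t') := le_max_right _ _
        have b7 := hfψ (x - t')
        show γ ≤ v (x - t') - f (x - t')
        linarith
    exact pow_le_pow_left₀ hγ0.le h1 2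
  have hI : γ ^ 2 * V ≤ ∫ x, β x ^ 2 := by
    calc γ ^ 2 * V = ∫ x in ball x1 (ρ / 2), γ ^ 2 := by
          rw [setIntegral_const, smul_eq_mul, mul_comm]
      _ ≤ ∫ x in ball x1 (ρ / 2), β x ^ 2 := by
          refine setIntegral_mono_on (integrableOn_const measure_ball_lt_top.ne)
            (int_cc (cβ.continuous.pow 2) (sq_compact sβ)).integrableOn measurableSet_ball hlow
      _ ≤ ∫ x, β x ^ 2 :=
          setIntegral_le_integral (int_cc (cβ.continuous.pow 2) (sq_compact sβ))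
            (Eventually.of_forall fun x => sq_nonneg _)
  linarith

/-- the energy near the axis -/
theorem energyE {f : E → ℝ} (hf : CC f) {c2 : ℝ} (hc2 : 0 < c2) {r : ℝ} (hr : 0 < r) (hr1 : r ≤ 1)
    {M : ℝ} {r0 t t' : ℝ} (ht : 0 < t) (htt' : t < t') (hr0 : r0 < t) (ht'1 : t' < 1)
    (hfb : ∀ x, r0 < ‖x‖ → -c2 ≤ f x) {δ1 : ℝ} (hδ1 : 0 < δ1)
    (hM : ∀ φ : ContDiffBump (0 : E), φ.rOut < δ1 →
      ∫ x, cut t t' ht htt' x * (-lg r x) * dens φ f x ≤ M) :
    ∃ δ > 0, ∀ φ : ContDiffBump (0 : E), φ.rOut < δ →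
      ∫ x in {x : E | ‖x.2‖ ≤ r},
        gz (fun y => moll φ (fun z => max (f z) (-c2)) y - moll φ f y) x ≤ 2 * r ^ 2 * M := by
  have hv : CC (fun x => max (f x) (-c2)) := by
    refine hf.max_of continuous_const (fun x v _ => ?_) (fun x _ => by linarith)
      (fun x _ => by linarith)
    rw [Real.circleAverage_const]
  set v : E → ℝ := fun x => max (f x) (-c2) with hvd
  refine ⟨min δ1 (min (t - r0) (1 - t')), lt_min hδ1 (lt_min (by linarith) (by linarith)), ?_⟩
  intro φ hφ
  have f0 : φ.rOut < δ1 := hφ.trans_le (min_le_left _ _)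
  have f1 : φ.rOut < t - r0 := hφ.trans_le ((min_le_right _ _).trans (min_le_left _ _))
  have f2 : φ.rOut < 1 - t' := hφ.trans_le ((min_le_right _ _).trans (min_le_right _ _))
  set W : E → ℝ := fun x => 2 * r ^ 2 / (‖x.2‖ ^ 2 + r ^ 2) ^ 2 with hW
  have hWe : W = fun x => 2 * r ^ 2 / ((re2 x ^ 2 + im2 x ^ 2) + r ^ 2) ^ 2 := by
    funext x; rw [hW]; simp only []; rw [nsq2]
  have hWc : ContDiff ℝ 1 W := by
    rw [hWe]
    apply ContDiff.div contDiff_const
    · fun_prop
    · intro x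
      exact (pow_pos (lg_q hr x) 2).ne'
  have hWd : ∀ e : E, re2 e = 0 → im2 e = 0 → ∀ x, D e W x = 0 := by
    intro e h1 h2 x
    apply D_of_line (hWc.differentiable (by norm_num) x)
    rw [hWe]
    simp only [map_add, map_smul, smul_eq_mul, h1, h2, mul_zero, add_zero]
    exact hasDerivAt_const _ _
  have hW0 : ∀ x, 0 ≤ W x := fun x => by rw [hW]; positivity
  have hE := energy_lower (W := W) hf hv (fun x => le_max_left _ _) (lg_c2 hr) hWc
    (hWd e1 (by simp [re2_apply, e1]) (by simp [im2_apply, e1]))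
    (hWd e2 (by simp [re2_apply, e2]) (by simp [im2_apply, e2])) hW0 (MM_lg hr) ht htt'
    (r := r0) (fun x hx => (max_eq_left (hfb x hx)).symm) φ (by linarith) (by linarith)
  set β : E → ℝ := fun y => moll φ v y - moll φ f y with hβ
  have cβ : ContDiff ℝ 2 β := (hv.c2 φ).sub (hf.c2 φ)
  have sβ : HasCompactSupport β := (hv.moll_supp φ).sub (hf.moll_supp φ)
  have hM' := hM φ f0
  have hpos : 0 ≤ ∫ x, cut t t' ht htt' x * (-lg r x) * dens φ v x := by
    refine integral_nonneg (fun x => ?_)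
    simp only [Pi.zero_apply]
    by_cases hx : ‖x‖ < t'
    · exact mul_nonneg (mul_nonneg (cut_nonneg _ _ _)
        (by linarith [lg_nonpos hr hr1 (x := x) (by linarith)])) (hv.dens_nonneg φ (by linarith))
    · rw [cut_zero ht htt' (not_lt.mp hx)]; simp
  have i1 : Integrable (fun x => W x * gz β x) :=
    int_cc (hWc.continuous.mul (gz_cont (cβ.of_le (by norm_num)))) (gz_compact sβ).mul_left
  have i2 : Integrable (gz β) := int_cc (gz_cont (cβ.of_le (by norm_num))) (gz_compact sβ)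
  have hms : MeasurableSet {x : E | ‖x.2‖ ≤ r} :=
    measurableSet_le (by fun_prop) measurable_const
  have h3 : (1 / (2 * r ^ 2)) * ∫ x in {x : E | ‖x.2‖ ≤ r}, gz β x ≤ ∫ x, W x * gz β x := by
    rw [← integral_const_mul]
    calc ∫ x in {x : E | ‖x.2‖ ≤ r}, 1 / (2 * r ^ 2) * gz β x
        ≤ ∫ x in {x : E | ‖x.2‖ ≤ r}, W x * gz β x := by
          refine setIntegral_mono_on (i2.integrableOn.const_mul _) i1.integrableOn hms
            (fun x hx => ?_)
          have hx' : ‖x.2‖ ≤ r := hx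
          apply mul_le_mul_of_nonneg_right _ (gz_nonneg _ _)
          rw [hW]
          simp only []
          rw [div_le_div_iff₀ (by positivity) (by positivity)]
          have h5 : ‖x.2‖ ^ 2 + r ^ 2 ≤ 2 * r ^ 2 := by nlinarith [norm_nonneg x.2]
          have h6 : (‖x.2‖ ^ 2 + r ^ 2) ^ 2 ≤ (2 * r ^ 2) ^ 2 :=
            pow_le_pow_left₀ (by positivity) h5 2
          nlinarith
      _ ≤ ∫ x, W x * gz β x := by
          refine setIntegral_le_integral i1 (Eventually.of_forall fun x => ?_)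
          exact mul_nonneg (hW0 x) (gz_nonneg _ _)
  have h4 : (1 / (2 * r ^ 2)) * ∫ x in {x : E | ‖x.2‖ ≤ r}, gz β x ≤ M := by linarith
  rw [div_mul_eq_mul_div, one_mul, div_le_iff₀ (by positivity)] at h4
  linarith

end H13Ceg
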