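import Pool.Agent.H13.Ceg.Defs

open MeasureTheory Set Filter Topology Metric
open scoped ContDiff ENNReal NNReal

namespace H13Ceg

/-- mean value inequality on discs in the bidisc -/
def SubM (f : E → ℝ) : Prop :=
  ∀ x v : E, (∀ ζ : ℂ, ‖ζ‖ ≤ 1 → ‖x + ζ • v‖ < 1) →
    f x ≤ Real.circleAverage (fun ζ : ℂ => f (x + ζ • v)) 0 1

lemma ci_bm {u : E → ℝ} {C : ℝ} (hu : BM u C) (x v : E) :
    CircleIntegrable (fun ζ : ℂ => u (x + ζ • v)) 0 1 := by
  unfold CircleIntegrable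
  have hm : Measurable (fun θ : ℝ => u (x + circleMap 0 1 θ • v)) := by
    refine hu.meas.comp ?_
    exact (by fun_prop : Continuous (fun θ : ℝ => x + circleMap 0 1 θ • v)).measurable
  rw [intervalIntegrable_iff]
  refine Measure.integrableOn_of_bounded (M := C) ?_ hm.aestronglyMeasurable ?_
  · rw [uIoc_of_le (by positivity)]; exact measure_Ioc_lt_top.ne
  exact Eventually.of_forall (fun θ => by rw [Real.norm_eq_abs]; exact hu.bd _)

/-- data of a bounded plurisubharmonic function with zero boundary values, extended by zero -/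
structure B0 (w : E → ℝ) (C : ℝ) : Prop where
  usc : UpperSemicontinuous w
  bm : BM w C
  nonpos : ∀ x, w x ≤ 0
  zero : ∀ x : E, 1 ≤ ‖x‖ → w x = 0
  bdry : ∀ ε > 0, ∃ r < 1, ∀ x : E, r < ‖x‖ → -ε ≤ w x
  sub : SubM w

/-- competitors for the envelope -/
def Comp (G : E → ℝ) : Set (E → ℝ) :=
  {φ | (∃ C, BM φ C) ∧ SubM φ ∧ ∀ x : E, ‖x‖ < 1 → φ x ≤ G x}

/-- the envelope -/
noncomputable def Pe (G : E → ℝ) (x : E) : ℝ := sSup ((fun φ : E → ℝ => φ x) '' Comp G)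

lemma le_Pe {G φ : E → ℝ} (hφ : φ ∈ Comp G) {x : E} (hx : ‖x‖ < 1) : φ x ≤ Pe G x := by
  apply le_csSup
  · refine ⟨G x, ?_⟩
    rintro _ ⟨ψ, hψ, rfl⟩
    exact hψ.2.2 x hx
  · exact ⟨φ, hφ, rfl⟩

lemma Pe_le {G : E → ℝ} (hne : (Comp G).Nonempty) {x : E} {c : ℝ}
    (h : ∀ φ ∈ Comp G, φ x ≤ c) : Pe G x ≤ c := by
  apply csSup_le (hne.image _)
  rintro _ ⟨ψ, hψ, rfl⟩
  exact h ψ hψ

/-- precomposition with an affine self-map of the bidisc -/
lemma comp_affine {G φ : E → ℝ} {L : ℝ} (hG : ∀ x y, G x ≤ G y + L * ‖x - y‖) (hL : 0 ≤ L)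
    (hφ : φ ∈ Comp G) {t : ℝ} (ht0 : 0 < t) (ht1 : t < 1) {b : E} (hb : ‖b‖ ≤ t) :
    (fun y : E => φ ((1 - t) • y + b) - L * (2 * t)) ∈ Comp G := by
  obtain ⟨⟨C, hC⟩, hsub, hle⟩ := hφ
  have hmap : ∀ y : E, ‖y‖ < 1 → ‖(1 - t) • y + b‖ < 1 := by
    intro y hy
    calc ‖(1 - t) • y + b‖ ≤ ‖(1 - t) • y‖ + ‖b‖ := norm_add_le _ _
      _ = (1 - t) * ‖y‖ + ‖b‖ := by
          rw [norm_smul, Real.norm_eq_abs, abs_of_pos (by linarith)]
      _ < (1 - t) * 1 + t := by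
          have : (1 - t) * ‖y‖ < (1 - t) * 1 := mul_lt_mul_of_pos_left hy (by linarith)
          linarith
      _ = 1 := by ring
  refine ⟨⟨C + L * (2 * t), ⟨?_, ?_⟩⟩, ?_, ?_⟩
  · refine (hC.meas.comp ?_).sub measurable_const
    exact (by fun_prop : Continuous (fun y : E => (1 - t) • y + b)).measurable
  · intro x
    have h1 := hC.bd ((1 - t) • x + b)
    have h2 : 0 ≤ L * (2 * t) := by positivity
    rw [abs_le] at h1 ⊢
    constructor <;> linarith
  · intro x v h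
    have h1 := hsub ((1 - t) • x + b) ((1 - t) • v) (fun ζ hζ => by
      have := hmap _ (h ζ hζ)
      have e : (1 - t) • x + b + ζ • (1 - t) • v = (1 - t) • (x + ζ • v) + b := by
        rw [smul_add, smul_comm ζ (1 - t) v]; abel
      rw [e]; exact this)
    have h3 := Real.circleAverage_fun_sub (ci_bm hC ((1 - t) • x + b) ((1 - t) • v))
      (circleIntegrable_const (L * (2 * t)) 0 1)
    rw [Real.circleAverage_const] at h3
    have h4 : (fun ζ : ℂ => φ ((1 - t) • (x + ζ • v) + b) - L * (2 * t))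
        = fun ζ : ℂ => φ ((1 - t) • x + b + ζ • (1 - t) • v) - L * (2 * t) := by
      funext ζ
      congr 2
      rw [smul_add, smul_comm ζ (1 - t) v]; abel
    rw [h4, h3]
    linarith
  · intro x hx
    have h1 := hle _ (hmap x hx)
    have h2 := hG ((1 - t) • x + b) x
    have h3 : ‖(1 - t) • x + b - x‖ ≤ 2 * t := by
      have e : (1 - t) • x + b - x = b - t • x := by rw [sub_smul, one_smul]; abel
      rw [e]
      calc ‖b - t • x‖ ≤ ‖b‖ + ‖t • x‖ := norm_sub_le _ _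
        _ = ‖b‖ + t * ‖x‖ := by rw [norm_smul, Real.norm_eq_abs, abs_of_pos ht0]
        _ ≤ t + t * 1 := by gcongr
        _ = 2 * t := by ring
    have h4 : L * ‖(1 - t) • x + b - x‖ ≤ L * (2 * t) := mul_le_mul_of_nonneg_left h3 hL
    linarith

/-- local Lipschitz estimate for the envelope -/
lemma Pe_lip {G : E → ℝ} {L : ℝ} (hG : ∀ x y, G x ≤ G y + L * ‖x - y‖) (hL : 0 ≤ L)
    (hne : (Comp G).Nonempty) {t κ : ℝ} (ht0 : 0 < t) (ht1 : t < 1) {x x' : E}
    (hκ : 0 < κ) (hx : ‖x‖ ≤ 1 - κ) (hxx : ‖x' - x‖ ≤ t * κ) :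
    Pe G x' ≤ Pe G x + L * (2 * t) := by
  have hx1 : ‖x‖ < 1 := by linarith
  refine Pe_le hne (fun φ hφ => ?_)
  have hb : ‖x' - (1 - t) • x‖ ≤ t := by
    have e : x' - (1 - t) • x = (x' - x) + t • x := by rw [sub_smul, one_smul]; abel
    rw [e]
    calc ‖(x' - x) + t • x‖ ≤ ‖x' - x‖ + ‖t • x‖ := norm_add_le _ _
      _ = ‖x' - x‖ + t * ‖x‖ := by rw [norm_smul, Real.norm_eq_abs, abs_of_pos ht0]
      _ ≤ t * κ + t * (1 - κ) := by gcongr
      _ = t := by ring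
  have h := le_Pe (comp_affine hG hL hφ ht0 ht1 hb) hx1
  simp only [add_sub_cancel] at h
  linarith

/-- Lipschitz sup-convolution -/
noncomputable def Gn (w : E → ℝ) (L : ℝ) (x : E) : ℝ := ⨆ y : E, (w y - L * ‖x - y‖)

section
variable {w : E → ℝ} {C : ℝ}

lemma Gn_bdd (hw : B0 w C) {L : ℝ} (hL : 0 ≤ L) (x : E) :
    BddAbove (range fun y : E => w y - L * ‖x - y‖) := by
  refine ⟨0, ?_⟩
  rintro _ ⟨y, rfl⟩
  have := hw.nonpos y
  have : 0 ≤ L * ‖x - y‖ := by positivity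
  simp only []
  linarith

lemma le_Gn (hw : B0 w C) {L : ℝ} (hL : 0 ≤ L) (x : E) : w x ≤ Gn w L x := by
  have := le_ciSup (Gn_bdd hw hL x) x
  unfold Gn
  simpa using this

lemma Gn_nonpos (hw : B0 w C) {L : ℝ} (hL : 0 ≤ L) (x : E) : Gn w L x ≤ 0 := by
  refine ciSup_le (fun y => ?_)
  have := hw.nonpos y
  have : 0 ≤ L * ‖x - y‖ := by positivity
  linarith

lemma Gn_lip (hw : B0 w C) {L : ℝ} (hL : 0 ≤ L) (x y : E) :
    Gn w L x ≤ Gn w L y + L * ‖x - y‖ := by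
  refine ciSup_le (fun z => ?_)
  have h1 := le_ciSup (Gn_bdd hw hL y) z
  have h2 : ‖y - z‖ ≤ ‖x - z‖ + ‖x - y‖ := by
    have : y - z = (x - z) - (x - y) := by abel
    rw [this]; exact norm_sub_le _ _
  have h3 : L * ‖y - z‖ ≤ L * (‖x - z‖ + ‖x - y‖) := mul_le_mul_of_nonneg_left h2 hL
  unfold Gn
  linarith

lemma Gn_anti (hw : B0 w C) {L L' : ℝ} (hL : 0 ≤ L) (hLL : L ≤ L') (x : E) :
    Gn w L' x ≤ Gn w L x := by
  refine ciSup_le (fun z => ?_)
  have h1 := le_ciSup (Gn_bdd hw hL x) z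
  have h2 : L * ‖x - z‖ ≤ L' * ‖x - z‖ := mul_le_mul_of_nonneg_right hLL (norm_nonneg _)
  unfold Gn
  linarith

lemma Gn_tendsto (hw : B0 w C) (x : E) :
    ∀ ε > 0, ∃ N : ℕ, ∀ n : ℕ, N ≤ n → Gn w n x ≤ w x + ε := by
  intro ε hε
  have hu := hw.usc x (w x + ε) (by linarith)
  rw [Metric.eventually_nhds_iff] at hu
  obtain ⟨δ, hδ, hb⟩ := hu
  obtain ⟨N, hN⟩ := exists_nat_gt (C / δ)
  refine ⟨N, fun n hn => ?_⟩
  refine ciSup_le (fun y => ?_)
  by_cases hy : dist y x < δ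
  · have := hb hy
    have h2 : 0 ≤ (n:ℝ) * ‖x - y‖ := by positivity
    linarith
  · have h1 : δ ≤ ‖x - y‖ := by
      rw [dist_comm, dist_eq_norm, not_lt] at hy; exact hy
    have h2 : C / δ < n := hN.trans_le (by exact_mod_cast hn)
    have h3 : C < n * δ := by rwa [div_lt_iff₀ hδ] at h2
    have h4 : (n:ℝ) * δ ≤ n * ‖x - y‖ := mul_le_mul_of_nonneg_left h1 (by positivity)
    have h5 := hw.nonpos y
    have h6 := (abs_le.mp (hw.bm.bd x)).1
    linarith

lemma w_mem_comp (hw : B0 w C) {L : ℝ} (hL : 0 ≤ L) : w ∈ Comp (Gn w L) :=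
  ⟨⟨C, hw.bm⟩, hw.sub, fun x _ => le_Gn hw hL x⟩

/-- the continuous approximants -/
noncomputable def psiN (w : E → ℝ) (n : ℕ) (x : E) : ℝ := if ‖x‖ < 1 then Pe (Gn w n) x else 0

lemma w_le_psi (hw : B0 w C) (n : ℕ) (x : E) : w x ≤ psiN w n x := by
  unfold psiN
  split_ifs with h
  · exact le_Pe (w_mem_comp hw (by positivity)) h
  · exact hw.nonpos x

lemma psi_le_Gn (hw : B0 w C) (n : ℕ) (x : E) : psiN w n x ≤ Gn w n x := by
  unfold psiN
  split_ifs with h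
  · exact Pe_le ⟨w, w_mem_comp hw (by positivity)⟩ (fun φ hφ => hφ.2.2 x h)
  · rw [← hw.zero x (not_lt.mp h)]
    exact le_Gn hw (by positivity) x

lemma psi_nonpos (hw : B0 w C) (n : ℕ) (x : E) : psiN w n x ≤ 0 :=
  (psi_le_Gn hw n x).trans (Gn_nonpos hw (by positivity) x)

lemma psi_continuous (hw : B0 w C) (n : ℕ) : Continuous (psiN w n) := by
  rw [continuous_iff_continuousAt]
  intro x
  rw [Metric.continuousAt_iff]
  intro ε hε
  by_cases hx : ‖x‖ < 1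
  · -- interior
    set κ := (1 - ‖x‖) / 2 with hκ
    have hκ0 : 0 < κ := by rw [hκ]; linarith
    set L : ℝ := (n : ℝ) with hL
    have hL0 : 0 ≤ L := by positivity
    obtain ⟨t, ht0, ht1, ht2⟩ : ∃ t : ℝ, 0 < t ∧ t < 1 ∧ L * (2 * t) < ε := by
      refine ⟨min (1/2) (ε / (4 * (L + 1))), by positivity, ?_, ?_⟩
      · exact (min_le_left _ _).trans_lt (by norm_num)
      · calc L * (2 * min (1/2) (ε / (4 * (L + 1)))) ≤ L * (2 * (ε / (4 * (L + 1)))) := by
              gcongr; exact min_le_right _ _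
          _ ≤ (L + 1) * (2 * (ε / (4 * (L + 1)))) := by gcongr; linarith
          _ = ε / 2 := by field_simp; ring
          _ < ε := by linarith
    refine ⟨min κ (t * κ), by positivity, fun {y} hy => ?_⟩
    have hy1 : ‖y - x‖ < κ := by
      rw [← dist_eq_norm]; exact hy.trans_le (min_le_left _ _)
    have hy2 : ‖y - x‖ ≤ t * κ := by
      rw [← dist_eq_norm]; exact hy.le.trans (min_le_right _ _)
    have hxk : ‖x‖ ≤ 1 - κ := by rw [hκ]; linarith
    have hyk : ‖y‖ ≤ 1 - κ := by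
      have : ‖y‖ ≤ ‖y - x‖ + ‖x‖ := by
        have := norm_add_le (y - x) x; simpa using this
      have h2 : κ + ‖x‖ = 1 - κ := by rw [hκ]; ring
      linarith
    have hne : (Comp (Gn w n)).Nonempty := ⟨w, w_mem_comp hw hL0⟩
    have a1 := Pe_lip (Gn_lip hw hL0) hL0 hne ht0 ht1 hκ0 hxk hy2
    have a2 := Pe_lip (Gn_lip hw hL0) hL0 hne ht0 ht1 hκ0 hyk (x' := x)
      (by rw [norm_sub_rev]; exact hy2)
    have e1 : psiN w n y = Pe (Gn w n) y := if_pos (by linarith)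
    have e2 : psiN w n x = Pe (Gn w n) x := if_pos hx
    rw [Real.dist_eq, e1, e2, abs_lt]
    constructor <;> linarith
  · -- boundary and exterior
    have hx1 : 1 ≤ ‖x‖ := not_lt.mp hx
    obtain ⟨r, hr, hb⟩ := hw.bdry (ε / 2) (by linarith)
    refine ⟨1 - r, by linarith, fun {y} hy => ?_⟩
    have hyr : r < ‖y‖ := by
      have h1 : ‖x‖ ≤ ‖x - y‖ + ‖y‖ := by
        have := norm_add_le (x - y) y; simpa using this
      have h2 : ‖x - y‖ < 1 - r := by rw [norm_sub_rev, ← dist_eq_norm]; exact hy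
      linarith
    have e2 : psiN w n x = 0 := if_neg hx
    rw [Real.dist_eq, e2, sub_zero, abs_lt]
    constructor
    · have := w_le_psi hw n y
      have := hb y hyr
      linarith
    · have := psi_nonpos hw n y
      linarith

lemma psi_CC (hw : B0 w C) (n : ℕ) : CC (psiN w n) := by
  have hc := psi_continuous hw n
  refine ⟨hc, fun x hx => if_neg (not_lt.mpr hx), psi_nonpos hw n, fun x v h => ?_⟩
  have hx : ‖x‖ < 1 := by simpa using h 0 (by simp)
  have e1 : psiN w n x = Pe (Gn w n) x := if_pos hx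
  rw [e1]
  refine Pe_le ⟨w, w_mem_comp hw (by positivity)⟩ (fun φ hφ => ?_)
  obtain ⟨C', hC'⟩ := hφ.1
  refine (hφ.2.1 x v h).trans ?_
  refine Real.circleAverage_mono (ci_bm hC' x v) (ci_cont hc x v) (fun ζ hζ => ?_)
  have hζ1 : ‖ζ‖ ≤ 1 := by
    have : ζ ∈ sphere (0:ℂ) 1 := by simpa using hζ
    simpa using this.le
  have hlt := h ζ hζ1
  have e2 : psiN w n (x + ζ • v) = Pe (Gn w n) (x + ζ • v) := if_pos hlt
  rw [e2]
  exact le_Pe hφ hlt

lemma psi_anti (hw : B0 w C) (n : ℕ) (x : E) : psiN w (n + 1) x ≤ psiN w n x := by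
  by_cases hx : ‖x‖ < 1
  · have e1 : psiN w n x = Pe (Gn w n) x := if_pos hx
    have e2 : psiN w (n+1) x = Pe (Gn w ((n+1:ℕ):ℝ)) x := if_pos hx
    rw [e1, e2]
    refine Pe_le ⟨w, w_mem_comp hw (by positivity)⟩ (fun φ hφ => ?_)
    refine le_Pe ⟨hφ.1, hφ.2.1, fun y hy => (hφ.2.2 y hy).trans ?_⟩ hx
    exact Gn_anti hw (by positivity) (by push_cast; linarith) y
  · have e1 : psiN w n x = 0 := if_neg hx
    have e2 : psiN w (n+1) x = 0 := if_neg hx
    rw [e1, e2]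

lemma psi_tendsto (hw : B0 w C) (x : E) : Tendsto (fun n => psiN w n x) atTop (𝓝 (w x)) := by
  rw [Metric.tendsto_atTop]
  intro ε hε
  obtain ⟨N, hN⟩ := Gn_tendsto hw x (ε / 2) (by linarith)
  refine ⟨N, fun n hn => ?_⟩
  have h1 := hN n hn
  have h2 := psi_le_Gn hw n x
  have h3 := w_le_psi hw n x
  rw [Real.dist_eq, abs_lt]
  constructor <;> linarith

end

end H13Ceg
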