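import Pool.Agent.H13.Ceg.Phi

open MeasureTheory Set Filter Topology Metric
open scoped ContDiff ENNReal NNReal

namespace H13Ceg

/-- the total error as a function of `X = log (1/r) - 1` -/
lemma choose_X {s κ : ℝ} (hs : 0 < s) (hκ : 0 < κ) : ∃ X : ℝ, 2 ≤ X ∧
    Real.pi * Real.exp (-(X + 1)) ^ 2
      + 3 * (64 * ((8 * Real.pi ^ 4 + 2048) * Real.sqrt (64 * Real.pi / (s ^ 2 * X))
        + Real.pi ^ 2 / 8 * (2 * 2 / (s * X / 2)))) < κ := by
  have h1 : Tendsto (fun X : ℝ => 64 * Real.pi / (s ^ 2 * X)) atTop (𝓝 0) :=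
    (tendsto_const_nhds).div_atTop (tendsto_id.const_mul_atTop (by positivity))
  have h2 : Tendsto (fun X : ℝ => Real.sqrt (64 * Real.pi / (s ^ 2 * X))) atTop (𝓝 0) := by
    have := (Real.continuous_sqrt.tendsto 0).comp h1
    rwa [Real.sqrt_zero] at this
  have h3 : Tendsto (fun X : ℝ => 2 * 2 / (s * X / 2)) atTop (𝓝 0) := by
    refine (tendsto_const_nhds).div_atTop ?_
    have : (fun X : ℝ => s * X / 2) = fun X : ℝ => (s / 2) * X := by funext X; ring
    rw [this]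
    exact tendsto_id.const_mul_atTop (by positivity)
  have h4 : Tendsto (fun X : ℝ => Real.exp (-(X + 1))) atTop (𝓝 0) := by
    apply Real.tendsto_exp_neg_atTop_nhds_zero.comp
    exact tendsto_atTop_add_const_right atTop 1 tendsto_id
  have h5 : Tendsto (fun X : ℝ => Real.pi * Real.exp (-(X + 1)) ^ 2
      + 3 * (64 * ((8 * Real.pi ^ 4 + 2048) * Real.sqrt (64 * Real.pi / (s ^ 2 * X))
        + Real.pi ^ 2 / 8 * (2 * 2 / (s * X / 2))))) atTop
      (𝓝 (Real.pi * 0 ^ 2 + 3 * (64 * ((8 * Real.pi ^ 4 + 2048) * 0 + Real.pi ^ 2 / 8 * 0)))) :=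
    ((h4.pow 2).const_mul _).add
      ((((h2.const_mul _).add (h3.const_mul _)).const_mul 64).const_mul 3)
  have h6 : Real.pi * 0 ^ 2
      + 3 * (64 * ((8 * Real.pi ^ 4 + 2048) * 0 + Real.pi ^ 2 / 8 * 0)) = 0 := by ring
  rw [h6] at h5
  obtain ⟨X, h7, h8⟩ := ((h5.eventually (gt_mem_nhds hκ)).and (eventually_ge_atTop 2)).exists
  exact ⟨X, h8, h7⟩

lemma slice_lg (r : ℝ) :
    ∫ a in ball (0:ℂ) 1, -lg r (a, 0) = Real.pi * ((1/2) * Real.log 2 - Real.log r) := by
  have : ∀ a : ℂ, -lg r (a, 0) = (1/2) * Real.log 2 - Real.log r := by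
    intro a
    unfold lg
    simp only [norm_zero]
    have h1 : (0:ℝ) ^ 2 + r ^ 2 = r ^ 2 := by ring
    rw [h1, Real.log_pow]
    push_cast; ring
  simp only [this]
  rw [setIntegral_const, vol_disc, smul_eq_mul]

lemma slice_gq : ∫ a in ball (0:ℂ) 1, -gq (a, 0) = Real.pi := by
  have : ∀ a : ℂ, -gq (a, 0) = 1 := by
    intro a
    unfold gq
    simp
  simp only [this]
  rw [setIntegral_const, vol_disc, smul_eq_mul, mul_one]

/-- the cutoff in the second variable -/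
noncomputable def chb (r : ℝ) (hr : 0 < r) : ContDiffBump (0:ℂ) :=
  ⟨r / 2, r, by linarith, by linarith⟩

noncomputable def chi (r : ℝ) (hr : 0 < r) (x : E) : ℝ := chb r hr x.2

section
variable {r : ℝ} (hr : 0 < r)
lemma chi_smooth : ContDiff ℝ ∞ (chi r hr) := by
  unfold chi
  exact (chb r hr).contDiff.comp contDiff_snd

lemma chi_one {x : E} (hx : ‖x.2‖ ≤ r / 2) : chi r hr x = 1 :=
  (chb r hr).one_of_mem_closedBall (mem_closedBall_zero_iff.mpr hx)

lemma chi_zero {x : E} (hx : r ≤ ‖x.2‖) : chi r hr x = 0 :=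
  (chb r hr).zero_of_le_dist (by rw [dist_zero_right]; exact hx)

lemma chi_nonneg (x : E) : 0 ≤ chi r hr x := (chb r hr).nonneg
lemma chi_le_one (x : E) : chi r hr x ≤ 1 := (chb r hr).le_one
end

end H13Ceg
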