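import Pool.Agent.H13.Ceg.Fin

open MeasureTheory Set Filter Topology Metric
open scoped ContDiff ENNReal NNReal

namespace H13Ceg

lemma lg_le2 {r : ℝ} (hr : 0 < r) {y : E} (hy : ‖y.2‖ ≤ 2 * r) : lg r y ≤ Real.log r + 1 := by
  unfold lg
  have h2 : ‖y.2‖ ^ 2 + r ^ 2 ≤ (5 / 2) * (2 * r ^ 2) := by nlinarith [norm_nonneg y.2]
  have h3 := Real.log_le_log (by positivity) h2
  rw [Real.log_mul (by norm_num) (by positivity), Real.log_mul (by norm_num) (by positivity),
    Real.log_pow] at h3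
  have h4 := Real.log_le_sub_one_of_pos (show (0:ℝ) < 5 / 2 by norm_num)
  push_cast at h3
  linarith

/-- the numerical constants -/
lemma consts {s X : ℝ} (hs : 0 < s) (hX : 2 ≤ X) :
    (16 * Real.pi ^ 3 * (X + 2)) / (2 * Real.pi ^ 2 * (s * X / 2) ^ 2)
      ≤ 64 * Real.pi / (s ^ 2 * X) := by
  have hpi := Real.pi_pos
  have hX0 : 0 < X := by linarith
  rw [div_le_div_iff₀ (by positivity) (by positivity)]
  have h1 : (16 * Real.pi ^ 3 * (X + 2)) * (s ^ 2 * X)
      = (16 * Real.pi ^ 3 * s ^ 2 * X) * (X + 2) := by ring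
  have h2 : 64 * Real.pi * (2 * Real.pi ^ 2 * (s * X / 2) ^ 2)
      = (16 * Real.pi ^ 3 * s ^ 2 * X) * (2 * X) := by ring
  rw [h1, h2]
  apply mul_le_mul_of_nonneg_left (by linarith) (by positivity)

lemma mass_lg {X : ℝ} (hX : 0 ≤ X) {I : ℝ}
    (h : c0 * I ≤ Real.pi * ((1/2) * Real.log 2 - -(X + 1)) + 1) :
    I ≤ 16 * Real.pi ^ 3 * (X + 2) := by
  have hpi := Real.pi_gt_three
  have hlog := Real.log_two_lt_d9
  have h1 : Real.pi * ((1/2) * Real.log 2 - -(X + 1)) + 1 ≤ Real.pi * (X + 2) := by nlinarith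
  have h2 : c0 * I ≤ c0 * (16 * Real.pi ^ 3 * (X + 2)) := by
    have : c0 * (16 * Real.pi ^ 3 * (X + 2)) = Real.pi * (X + 2) := by
      unfold c0; field_simp
    rw [this]; linarith
  exact le_of_mul_le_mul_left h2 c0_pos

lemma sb_rOut {δ : ℝ} (hδ : 0 < δ) : (sb δ hδ).rOut < δ := by
  show δ / 2 < δ
  linarith

section
variable {v : ℕ → E → ℝ} {m : ℕ → Measure E} {M0 : ℝ}

/-- the last step: all estimates for a fixed approximant -/
theorem last_step {f : E → ℝ} (hf : CC f) {s c r K κ η Ω X : ℝ} (hs : 0 < s) (hc : 0 < c)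
    (hr : 0 < r) (hr1 : r ≤ 1 / 4) (hκ : κ = c0 * K) (hη : 0 < η) (hX : 0 < X)
    (hlog : Real.log r = -(X + 1)) {r0 t1 t1' t2 t2' : ℝ} (h1 : 0 < t1) (h11 : t1 < t1')
    (h2 : 0 < t2) (h22 : t2 < t2') (h12 : t1' ≤ t2) (hr0 : r0 < t2) (h21 : t2' < 1)
    (hfb : ∀ x, r0 < ‖x‖ → -c ≤ f x) {Φ : E → ℝ} (hΦ : Adm Φ) {ε' : ℝ} (hε' : 0 < ε')
    (hΦK : ∀ x y : E, r / 2 - ε' < ‖x.2‖ → ‖x‖ < 1 → ‖y - x‖ < ε' → f y ≤ -(2 * (s * X / 2)) →
      Φ x ≤ -1)
    (hlow : ∃ δ > 0, ∀ φ : ContDiffBump (0 : E), φ.rOut < δ →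
      K ≤ (∫ x, cut t2 t2' h2 h22 x * (-gq x) * dens φ f x)
        - ∫ x, cut t2 t2' h2 h22 x * (-gq x) * dens φ (fun x => max (f x) (ell s c r x)) x)
    (hup : ∃ δ > 0, ∀ φ : ContDiffBump (0 : E), φ.rOut < δ →
      c0 * (∫ x, cut t2 t2' h2 h22 x * (-gq x) * dens φ f x) ≤ Real.pi + η)
    (hph : ∃ δ > 0, ∀ φ : ContDiffBump (0 : E), φ.rOut < δ →
      c0 * (∫ x, cut t2 t2' h2 h22 x * (-Φ x) * dens φ f x) ≤ Ω + 2 * η)
    (hch : ∃ δ > 0, ∀ φ : ContDiffBump (0 : E), φ.rOut < δ →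
      Real.pi - 2 * η ≤ c0 * (∫ x, cut t1 t1' h1 h11 x * chi r hr x * dens φ f x)) :
    κ ≤ 9 * η + 3 * Ω + Real.pi * r ^ 2 := by
  have hpi := Real.pi_pos
  have hcp := c0_pos
  obtain ⟨δ1, hδ1, e1⟩ := hlow
  obtain ⟨δ2, hδ2, e2⟩ := hup
  obtain ⟨δ3, hδ3, e3⟩ := hph
  obtain ⟨δ4, hδ4, e4⟩ := hch
  set ε := min ε' (r / 4) with hε
  have hεp : 0 < ε := by positivity
  have hεa : ε ≤ ε' := min_le_left _ _
  have hεb : ε ≤ r / 4 := min_le_right _ _
  set δ := min (min (min δ1 δ2) (min δ3 δ4)) (min (min (t2 - r0) (1 - t2')) (ε / 2)) with hδ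
  have hδp : 0 < δ := by
    refine lt_min (lt_min (lt_min hδ1 hδ2) (lt_min hδ3 hδ4)) (lt_min (lt_min ?_ ?_) ?_)
    · linarith
    · linarith
    · linarith
  set φ := sb δ hδp with hφ
  have hφδ : φ.rOut < δ := sb_rOut hδp
  have b1 : φ.rOut < δ1 := hφδ.trans_le ((min_le_left _ _).trans ((min_le_left _ _).trans
    (min_le_left _ _)))
  have b2 : φ.rOut < δ2 := hφδ.trans_le ((min_le_left _ _).trans ((min_le_left _ _).trans
    (min_le_right _ _)))
  have b3 : φ.rOut < δ3 := hφδ.trans_le ((min_le_left _ _).trans ((min_le_right _ _).trans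
    (min_le_left _ _)))
  have b4 : φ.rOut < δ4 := hφδ.trans_le ((min_le_left _ _).trans ((min_le_right _ _).trans
    (min_le_right _ _)))
  have b5 : φ.rOut < t2 - r0 := hφδ.trans_le ((min_le_right _ _).trans ((min_le_left _ _).trans
    (min_le_left _ _)))
  have b6 : φ.rOut < 1 - t2' := hφδ.trans_le ((min_le_right _ _).trans ((min_le_left _ _).trans
    (min_le_right _ _)))
  have b7 : φ.rOut < ε / 2 := hφδ.trans_le ((min_le_right _ _).trans (min_le_right _ _))
  have f1 := e1 φ b1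
  have f2 := e2 φ b2
  have f3 := e3 φ b3
  have f4 := e4 φ b4
  have hv : CC (fun x => max (f x) (ell s c r x)) :=
    hf.max_ell hs.le hc.le hr (by linarith)
  set w : E → ℝ := fun x => max (f x) (ell s c r x) with hw
  have hfw : ∀ x, f x ≤ w x := fun x => le_max_left _ _
  have hfg : ∀ x, r0 < ‖x‖ → f x = w x := by
    intro x hx
    exact (max_eq_left ((ell_le _ _ _ _).trans (hfb x hx))).symm
  -- comparison
  have hA := astar hf hv hfw hΦ ((chi_smooth hr).of_le le2) (ρa := r / 2) (ρb := r)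
    (fun x hx => chi_one hr hx) (fun x hx => chi_zero hr hx) hεp (by
      intro x y hx1 hx2 hx3 hxy hlt
      refine hΦK x y (by linarith) hx3 (by linarith) ?_
      have h3 : f y < ell s c r y := by
        by_contra hcon
        have : w y = f y := max_eq_left (not_lt.mp hcon)
        rw [this] at hlt
        exact lt_irrefl _ hlt
      have h4 : ‖y.2‖ ≤ 2 * r := by
        have h5 : y.2 = x.2 + (y - x).2 := by simp
        rw [h5]
        have h6 := norm_add_le x.2 (y - x).2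
        have h7 : ‖(y - x).2‖ ≤ ‖y - x‖ := norm_snd_le _
        linarith
      have h8 := lg_le2 hr h4
      have h9 : ell s c r y ≤ s * lg r y - c := by
        unfold ell; linarith [min_le_left (s * lg r y) 0]
      have h10 := mul_le_mul_of_nonneg_left h8 hs.le
      rw [hlog] at h10
      have h11 : s * (-(X + 1) + 1) = -(2 * (s * X / 2)) := by ring
      linarith) h2 h22 hfg φ (by linarith) (by linarith) b7
  -- lower bound for the mass of w
  have cH : Continuous (fun x => chi r hr x * HH Φ x) :=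
    (chi_smooth hr).continuous.mul (HH_c2 hΦ.c2).continuous
  have cc2 : Continuous (cut t2 t2' h2 h22 : E → ℝ) := (cut_smooth h2 h22).continuous
  have sc2 : HasCompactSupport (cut t2 t2' h2 h22 : E → ℝ) := cut_compact h2 h22
  have iw1 := hv.int_dens φ (ψ := fun x => cut t2 t2' h2 h22 x * (chi r hr x * HH Φ x))
    (cc2.mul cH) sc2.mul_right
  have iw2 := hv.int_dens φ (ψ := fun x => cut t2 t2' h2 h22 x * (-gq x))
    (cc2.mul gq_contDiff.continuous.neg) sc2.mul_right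
  have if1 := hf.int_dens φ (ψ := fun x => cut t2 t2' h2 h22 x * (chi r hr x * HH Φ x))
    (cc2.mul cH) sc2.mul_right
  have if2 := hf.int_dens φ (ψ := fun x => cut t2 t2' h2 h22 x * (-Φ x))
    (cc2.mul hΦ.c2.continuous.neg) sc2.mul_right
  have if3 := hf.int_dens φ (ψ := fun x => cut t1 t1' h1 h11 x * chi r hr x)
    ((cut_smooth h1 h11).continuous.mul (chi_smooth hr).continuous) (cut_compact h1 h11).mul_right
  have hC : (1 - r ^ 2) * (∫ x, cut t2 t2' h2 h22 x * (chi r hr x * HH Φ x) * dens φ w x)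
      ≤ ∫ x, cut t2 t2' h2 h22 x * (-gq x) * dens φ w x := by
    rw [← integral_const_mul]
    refine integral_mono (iw1.const_mul _) iw2 (fun x => ?_)
    show (1 - r ^ 2) * (cut t2 t2' h2 h22 x * (chi r hr x * HH Φ x) * dens φ w x)
      ≤ cut t2 t2' h2 h22 x * (-gq x) * dens φ w x
    by_cases hx : ‖x‖ < t2'
    · have hd0 : 0 ≤ dens φ w x := hv.dens_nonneg φ (by linarith)
      have hx1 : ‖x‖ < 1 := by linarith
      have hc0 := cut_nonneg h2 h22 x
      have hg : (1 - r ^ 2) * (chi r hr x * HH Φ x) ≤ -gq x := by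
        have hx2 : ‖x.2‖ ≤ ‖x‖ := norm_snd_le x
        by_cases hxr : r ≤ ‖x.2‖
        · rw [chi_zero hr hxr, zero_mul, mul_zero]
          unfold gq; nlinarith [norm_nonneg x.2]
        · have hxr' := not_le.mp hxr
          have g1 : chi r hr x * HH Φ x ≤ 1 * 1 :=
            mul_le_mul (chi_le_one hr x) (HH_le (hΦ.neg x hx1)) (HH_nonneg _ _) zero_le_one
          have g2 : (1 - r ^ 2) * (chi r hr x * HH Φ x) ≤ (1 - r ^ 2) * (1 * 1) := by
            apply mul_le_mul_of_nonneg_left g1; nlinarith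
          have g3 : ‖x.2‖ ^ 2 ≤ r ^ 2 := pow_le_pow_left₀ (norm_nonneg _) hxr'.le 2
          unfold gq; linarith
      have := mul_le_mul_of_nonneg_left hg (mul_nonneg hc0 hd0)
      nlinarith
    · rw [cut_zero h2 h22 (not_lt.mp hx)]; simp
  -- lower bound for the mass of f
  have hE : (∫ x, cut t1 t1' h1 h11 x * chi r hr x * dens φ f x)
      - 3 * (∫ x, cut t2 t2' h2 h22 x * (-Φ x) * dens φ f x)
      ≤ ∫ x, cut t2 t2' h2 h22 x * (chi r hr x * HH Φ x) * dens φ f x := by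
    rw [← integral_const_mul, ← integral_sub if3 (if2.const_mul 3)]
    refine integral_mono (if3.sub (if2.const_mul 3)) if1 (fun x => ?_)
    show cut t1 t1' h1 h11 x * chi r hr x * dens φ f x
      - 3 * (cut t2 t2' h2 h22 x * (-Φ x) * dens φ f x)
      ≤ cut t2 t2' h2 h22 x * (chi r hr x * HH Φ x) * dens φ f x
    by_cases hx : ‖x‖ < t2'
    · have hd0 : 0 ≤ dens φ f x := hf.dens_nonneg φ (by linarith)
      have hx1 : ‖x‖ < 1 := by linarith
      have hc0 := cut_nonneg h2 h22 x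
      have hc1 : cut t1 t1' h1 h11 x ≤ cut t2 t2' h2 h22 x := by
        by_cases hx2 : ‖x‖ ≤ t2
        · rw [cut_one h2 h22 hx2]; exact cut_le_one _ _ _
        · rw [cut_zero h1 h11 (by linarith [not_le.mp hx2])]; exact hc0
      have hΦ0 := hΦ.neg x hx1
      have k0 := chi_nonneg hr x
      have k1 := chi_le_one hr x
      have k2 := HH_ge Φ x
      have g1 : cut t1 t1' h1 h11 x * chi r hr x - 3 * (cut t2 t2' h2 h22 x * (-Φ x))
          ≤ cut t2 t2' h2 h22 x * (chi r hr x * HH Φ x) := by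
        have g2 : cut t1 t1' h1 h11 x * chi r hr x ≤ cut t2 t2' h2 h22 x * chi r hr x :=
          mul_le_mul_of_nonneg_right hc1 k0
        have g3 : chi r hr x * (1 + 3 * Φ x) ≤ chi r hr x * HH Φ x :=
          mul_le_mul_of_nonneg_left k2 k0
        have g4 : 3 * Φ x ≤ chi r hr x * (3 * Φ x) := by nlinarith
        have g5 : chi r hr x + 3 * Φ x ≤ chi r hr x * HH Φ x := by nlinarith
        have g6 := mul_le_mul_of_nonneg_left g5 hc0
        nlinarith
      have := mul_le_mul_of_nonneg_right g1 hd0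
      nlinarith
    · rw [cut_zero h2 h22 (not_lt.mp hx), cut_zero h1 h11 (by linarith [not_lt.mp hx])]; simp
  -- conclusion
  set If := ∫ x, cut t2 t2' h2 h22 x * (chi r hr x * HH Φ x) * dens φ f x
  set Iw := ∫ x, cut t2 t2' h2 h22 x * (chi r hr x * HH Φ x) * dens φ w x
  set A1 := ∫ x, cut t1 t1' h1 h11 x * chi r hr x * dens φ f x
  set A2 := ∫ x, cut t2 t2' h2 h22 x * (-Φ x) * dens φ f x
  set Gf := ∫ x, cut t2 t2' h2 h22 x * (-gq x) * dens φ f x
  set Gw := ∫ x, cut t2 t2' h2 h22 x * (-gq x) * dens φ w x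
  have hr2 : 0 ≤ 1 - r ^ 2 := by nlinarith
  have q1 : c0 * K ≤ c0 * Gf - c0 * Gw := by
    have := mul_le_mul_of_nonneg_left f1 hcp.le
    linarith
  have q2 : (1 - r ^ 2) * (c0 * If) ≤ c0 * Gw := by
    have a1 : (1 - r ^ 2) * If ≤ (1 - r ^ 2) * Iw := mul_le_mul_of_nonneg_left hA hr2
    have a2 := mul_le_mul_of_nonneg_left (a1.trans hC) hcp.le
    nlinarith
  have q3 : Real.pi - 8 * η - 3 * Ω ≤ c0 * If := by
    have a1 := mul_le_mul_of_nonneg_left hE hcp.le
    have a2 : c0 * (A1 - 3 * A2) = c0 * A1 - 3 * (c0 * A2) := by ring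
    rw [a2] at a1
    linarith
  have q4 : (1 - r ^ 2) * (Real.pi - 8 * η - 3 * Ω) ≤ (1 - r ^ 2) * (c0 * If) :=
    mul_le_mul_of_nonneg_left q3 hr2
  have hΩ : 0 ≤ Ω + 2 * η := by
    refine le_trans ?_ f3
    apply mul_nonneg hcp.le
    refine integral_nonneg (fun x => ?_)
    simp only [Pi.zero_apply]
    by_cases hx : ‖x‖ < t2'
    · exact mul_nonneg (mul_nonneg (cut_nonneg _ _ _)
        (by linarith [hΦ.neg x (by linarith)])) (hf.dens_nonneg φ (by linarith))
    · rw [cut_zero h2 h22 (not_lt.mp hx)]; simp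
  have hr3 : 0 ≤ r ^ 2 := sq_nonneg r
  have q5 : 0 ≤ r ^ 2 * (8 * η + 3 * Ω) := by
    apply mul_nonneg hr3; linarith
  rw [hκ]
  nlinarith

end

end H13Ceg
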