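import Pool.Agent.H13.Ceg.Fin2

open MeasureTheory Set Filter Topology Metric
open scoped ContDiff ENNReal NNReal

namespace H13Ceg

section
variable {v : ℕ → E → ℝ} {m : ℕ → Measure E} {M0 : ℝ}

theorem main_contra (hd : Dat v m M0) (hM0 : 0 ≤ M0) : False := by
  have hpi := Real.pi_pos
  have hcp := c0_pos
  obtain ⟨ψ, hψ, hneg, J1, hJ1⟩ := hd.p1
  obtain ⟨s, hs, c, hc, η1, hη1, K, hK, hcs⟩ := cstar hψ hneg
  set κ := c0 * K with hκ
  have hκ0 : 0 < κ := by positivity
  obtain ⟨X, hX2, hX⟩ := choose_X hs (κ := κ / 2) (by positivity)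
  have hX0 : 0 < X := by linarith
  set r := Real.exp (-(X + 1)) with hr
  have hr0 : 0 < r := Real.exp_pos _
  have hr1 : r ≤ 1 / 4 := by
    have h1 : r ≤ Real.exp (-3) := Real.exp_le_exp.mpr (by linarith)
    have h2 : Real.exp (-3) ≤ 1 / 4 := by
      rw [Real.exp_neg, inv_le_comm₀ (Real.exp_pos _) (by norm_num)]
      have := Real.add_one_le_exp (3:ℝ)
      norm_num at this ⊢
      linarith
    linarith
  have hlog : Real.log r = -(X + 1) := Real.log_exp _
  set σ := s * X / 2 with hσ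
  have hσ0 : 0 < σ := by positivity
  set s0 := 64 * Real.pi / (s ^ 2 * X) with hs0
  have hs00 : 0 < s0 := by positivity
  set B := (8 * Real.pi ^ 4 + 2048) * Real.sqrt s0 + Real.pi ^ 2 / 8 * (2 * 2 / σ) with hB
  set η := κ / 40 with hη
  have hη0 : 0 < η := by positivity
  -- the first cutoff
  set e1 := min (1/2) (η / (2 * Real.pi)) with he1
  have he10 : 0 < e1 := by positivity
  have he11 : e1 ≤ 1 / 2 := min_le_left _ _
  have he12 : 2 * Real.pi * e1 ≤ η := by
    have : e1 ≤ η / (2 * Real.pi) := min_le_right _ _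
    rw [le_div_iff₀ (by positivity)] at this
    linarith
  set t1 := 1 - e1 with ht1
  set t1' := 1 - e1 / 2 with ht1'
  have ht10 : 0 < t1 := by rw [ht1]; linarith
  have ht11 : t1 < t1' := by rw [ht1, ht1']; linarith
  have ht12 : t1' < 1 := by rw [ht1']; linarith
  have hpt : Real.pi - η ≤ t1 ^ 2 * Real.pi := by
    have : 1 - 2 * e1 ≤ t1 ^ 2 := by rw [ht1]; nlinarith
    nlinarith
  -- the test function
  have hcc : Continuous (fun x => cut t1 t1' ht10 ht11 x * chi r hr0 x) :=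
    (cut_smooth ht10 ht11).continuous.mul (chi_smooth hr0).continuous
  have hcs' : HasCompactSupport (fun x => cut t1 t1' ht10 ht11 x * chi r hr0 x) :=
    (cut_compact ht10 ht11).mul_right
  have hchi : Real.pi - η ≤ ∫ a in ball (0:ℂ) 1, cut t1 t1' ht10 ht11 (a, 0) * chi r hr0 (a, 0) := by
    refine hpt.trans ?_
    rw [← vol_disc_r ht10.le]
    calc (volume : Measure ℂ).real (ball 0 t1) = ∫ a in ball (0:ℂ) t1, (1:ℝ) := by simp
      _ = ∫ a in ball (0:ℂ) t1, cut t1 t1' ht10 ht11 (a, 0) * chi r hr0 (a, 0) := by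
          refine setIntegral_congr_fun measurableSet_ball (fun a ha => ?_)
          show (1:ℝ) = cut t1 t1' ht10 ht11 (a, 0) * chi r hr0 (a, 0)
          rw [cut_one ht10 ht11, chi_one hr0, mul_one]
          · simp only [norm_zero]; linarith
          · rw [norm_pair]; exact (mem_ball_zero_iff.mp ha).le
      _ ≤ ∫ a in ball (0:ℂ) 1, cut t1 t1' ht10 ht11 (a, 0) * chi r hr0 (a, 0) := by
          refine setIntegral_mono_set (intOn_ball (cont_slice hcc) 1)
            (Eventually.of_forall fun a => mul_nonneg (cut_nonneg _ _ _) (chi_nonneg _ _))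
            (Eventually.of_forall (ball_subset_ball (by rw [ht1]; linarith)))
  obtain ⟨J2, hJ2⟩ := hd.p3 hcc hcs' (ρ := (t1' + 1) / 2) (by linarith)
    ((tsupport_cut_mul ht10 ht11 _).trans (closedBall_subset_ball (by linarith))) hη0
  -- choose the approximant
  set j := max J1 J2 with hj
  obtain ⟨N1, hN1⟩ := hJ1 j (le_max_left _ _) η1 hη1
  obtain ⟨N2, hN2⟩ := hJ2 j (le_max_right _ _)
  set n := max N1 N2 with hn
  obtain ⟨δ3, hδ3, h3⟩ := hN2 n (le_max_right _ _)
  have hf : CC (ps v j n) := hd.cc j n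
  have hfψ : ∀ x, ps v j n x ≤ ψ x + η1 := hN1 n (le_max_left _ _)
  have hmin : 0 < min c 1 := lt_min hc one_pos
  obtain ⟨r0, hr01, hbd⟩ := hd.bdry j hmin
  set f := ps v j n with hfdef
  have hfb : ∀ x, r0 < ‖x‖ → -c ≤ f x := fun x hx => by
    have := hbd n x hx; linarith [min_le_left c 1]
  have hfb1 : ∀ x, r0 < ‖x‖ → -1 ≤ f x := fun x hx => by
    have := hbd n x hx; linarith [min_le_right c 1]
  -- the second cutoff
  set t2 := (max (max r0 t1') 0 + 1) / 2 with ht2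
  have hmx : max (max r0 t1') 0 < 1 := max_lt (max_lt hr01 ht12) one_pos
  have g1 : r0 ≤ max (max r0 t1') 0 := (le_max_left _ _).trans (le_max_left _ _)
  have g2 : t1' ≤ max (max r0 t1') 0 := (le_max_right _ _).trans (le_max_left _ _)
  have g3 : 0 ≤ max (max r0 t1') 0 := le_max_right _ _
  set t2' := (t2 + 1) / 2 with ht2'
  have ht20 : 0 < t2 := by rw [ht2]; linarith
  have ht21 : t2 < 1 := by rw [ht2]; linarith
  have ht22 : t2 < t2' := by rw [ht2']; linarith
  have ht23 : t2' < 1 := by rw [ht2']; linarith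
  have hr0t : r0 < t2 := by rw [ht2]; linarith
  have h12 : t1' ≤ t2 := by rw [ht2]; linarith
  -- energy of f near the axis
  set M := 16 * Real.pi ^ 3 * (X + 2) with hM
  obtain ⟨δE, hδE, hE⟩ := hd.p2 hM0 (lg_adm hr0 (by linarith)) ht20 ht22 ht23 j n one_pos
  have hEM : ∀ φ : ContDiffBump (0 : E), φ.rOut < δE →
      ∫ x, cut t2 t2' ht20 ht22 x * (-lg r x) * dens φ f x ≤ M := by
    intro φ hφ
    have h4 := hE φ hφ
    rw [slice_lg, hlog] at h4
    exact mass_lg hX0.le h4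
  obtain ⟨δ4, hδ4, h4⟩ := energyE hf one_pos hr0 (by linarith) ht20 ht22 hr0t ht23 hfb1 hδE hEM
  -- the mollified truncation
  have hv2 : CC (fun x => max (f x) (-1)) := by
    refine hf.max_of continuous_const (fun x v _ => ?_) (fun x _ => by norm_num)
      (fun x _ => by norm_num)
    rw [Real.circleAverage_const]
  obtain ⟨δ5, hδ5, h5⟩ := hf.moll_close (η := 1 / 2) (by norm_num)
  obtain ⟨δ6, hδ6, h6⟩ := hv2.moll_close (η := 1 / 2) (by norm_num)
  set δ1 := min (min δ4 δ5) (min δ6 ((1 - r0) / 2)) with hδ1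
  have hδ10 : 0 < δ1 := lt_min (lt_min hδ4 hδ5) (lt_min hδ6 (by linarith))
  set φ1 := sb δ1 hδ10 with hφ1
  have hφ1δ : φ1.rOut < δ1 := sb_rOut hδ10
  have c4 : φ1.rOut < δ4 := hφ1δ.trans_le ((min_le_left _ _).trans (min_le_left _ _))
  have c5 : φ1.rOut < δ5 := hφ1δ.trans_le ((min_le_left _ _).trans (min_le_right _ _))
  have c6 : φ1.rOut < δ6 := hφ1δ.trans_le ((min_le_right _ _).trans (min_le_left _ _))
  have c7 : φ1.rOut < (1 - r0) / 2 := hφ1δ.trans_le ((min_le_right _ _).trans (min_le_right _ _))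
  set β : E → ℝ := fun y => moll φ1 (fun z => max (f z) (-1)) y - moll φ1 f y with hβ
  have hβ1 : ContDiff ℝ 1 β := ((hv2.c2 φ1).sub (hf.c2 φ1)).of_le (by norm_num)
  have hβc : HasCompactSupport β := (hv2.moll_supp φ1).sub (hf.moll_supp φ1)
  have hβ0 : ∀ x, 0 ≤ β x := by
    intro x
    obtain ⟨C, hC⟩ := hf.bm
    obtain ⟨C', hC'⟩ := hv2.bm
    have := moll_mono_at φ1 hC hC' (x := x) (fun t _ => le_max_left _ _)
    simp only [hβ]; linarith
  have hfβ : ∀ x, -f x ≤ β x + 2 := by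
    intro x
    have a1 := (abs_le.mp (h5 φ1 c5 x)).2
    have a2 := (abs_le.mp (h6 φ1 c6 x)).1
    have a3 : -1 ≤ max (f x) (-1) := le_max_right _ _
    simp only [hβ]
    linarith
  have hsupp : ∀ x : E, r0 + φ1.rOut < ‖x‖ → β x = 0 := by
    intro x hx
    exact moll_eq_off hv2 hf (r := r0) (fun y hy => max_eq_left (hfb1 y hy)) φ1 hx.le
  have hMs : M / (2 * Real.pi ^ 2 * σ ^ 2) ≤ s0 := consts hs hX2
  obtain ⟨Φ, hΦ, ⟨ε', hε', hΦK⟩, hΦint⟩ := exists_Phi hf hr0 hr1 hσ0 hs00 (e0 := 2)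
    (by norm_num) hβ1 hβc hβ0 hfβ (ρ0 := r0 + φ1.rOut) (by linarith) hsupp (h4 φ1 c4) hMs hη0
  -- conclusion
  have hlast := last_step hf (κ := κ) (η := η) (Ω := 64 * B) hs hc hr0 hr1 hκ hη0 hX0 hlog ht10
    ht11 ht20 ht22 h12 hr0t ht23 hfb hΦ hε' hΦK
    (hcs r hr0 (by linarith) f hf hfψ r0 t2 t2' ht20 ht22 hr0t ht23 hfb)
    (by
      have := hd.p2 hM0 gq_adm ht20 ht22 ht23 j n hη0
      rwa [slice_gq] at this)
    (by
      obtain ⟨δ, hδ, h⟩ := hd.p2 hM0 hΦ ht20 ht22 ht23 j n hη0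
      refine ⟨δ, hδ, fun φ hφ => (h φ hφ).trans ?_⟩
      linarith)
    (by
      refine ⟨δ3, hδ3, fun φ hφ => ?_⟩
      have a1 := (abs_le.mp (h3 φ hφ)).1
      linarith)
  have : 9 * η + 3 * (64 * B) + Real.pi * r ^ 2 < κ := by
    rw [hη]; linarith
  linarith

/-- from the hypotheses of the problem to the working data -/
theorem final_false {u : E → EReal} (h : HasMA u lamDelta) : False := by
  obtain ⟨v, m, hF, hw⟩ := h
  obtain ⟨C, hC⟩ := hF.mass
  have hd : Dat v m (C : ℝ) := by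
    refine ⟨hF.e0, fun x hx => hF.anti x (mem_bidisc.mpr hx), fun j => ?_, hw⟩
    have := ENNReal.toReal_mono ENNReal.coe_ne_top (hC j)
    simpa using this
  exact main_contra hd C.2

end

end H13Ceg
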