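import Pool.Agent.H13.Ceg.Dom

open MeasureTheory Set Filter Topology Metric
open scoped ContDiff ENNReal Convolution

namespace H13Ceg

lemma CC.sup {f g : E → ℝ} (hf : CC f) (hg : CC g) : CC (fun x => max (f x) (g x)) := by
  refine ⟨hf.cont.max hg.cont, fun x hx => by rw [hf.zero x hx, hg.zero x hx, max_self],
    fun x => max_le (hf.nonpos x) (hg.nonpos x), fun x v h => ?_⟩
  have ci : ∀ u : E → ℝ, Continuous u → CircleIntegrable (fun ζ : ℂ => u (x + ζ • v)) 0 1 := by
    intro u hu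
    apply ContinuousOn.circleIntegrable'
    exact (by fun_prop : Continuous (fun ζ : ℂ => u (x + ζ • v))).continuousOn
  refine max_le ?_ ?_
  · exact (hf.sub x v h).trans (Real.circleAverage_mono (ci f hf.cont)
      (ci _ (hf.cont.max hg.cont)) (fun ζ _ => le_max_left _ _))
  · exact (hg.sub x v h).trans (Real.circleAverage_mono (ci g hg.cont)
      (ci _ (hf.cont.max hg.cont)) (fun ζ _ => le_max_right _ _))

lemma ci_cont {u : E → ℝ} (hu : Continuous u) (x v : E) :
    CircleIntegrable (fun ζ : ℂ => u (x + ζ • v)) 0 1 := by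
  apply ContinuousOn.circleIntegrable'
  exact (by fun_prop : Continuous (fun ζ : ℂ => u (x + ζ • v))).continuousOn

/-- maximum with a continuous function having the mean value inequality and which is
smaller near the boundary -/
lemma CC.max_of {f ℓ : E → ℝ} (hf : CC f) (hℓ : Continuous ℓ)
    (hsub : ∀ x v : E, (∀ ζ : ℂ, ‖ζ‖ ≤ 1 → ‖x + ζ • v‖ < 1) →
      ℓ x ≤ Real.circleAverage (fun ζ : ℂ => ℓ (x + ζ • v)) 0 1)
    (hout : ∀ x, 1 ≤ ‖x‖ → ℓ x ≤ 0) (hneg : ∀ x, ‖x‖ < 1 → ℓ x ≤ 0) :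
    CC (fun x => max (f x) (ℓ x)) := by
  refine ⟨hf.cont.max hℓ, fun x hx => by rw [hf.zero x hx]; exact max_eq_left (hout x hx),
    fun x => max_le (hf.nonpos x) ?_, fun x v h => ?_⟩
  · by_cases hx : ‖x‖ < 1
    · exact hneg x hx
    · exact hout x (not_lt.mp hx)
  refine max_le ?_ ?_
  · exact (hf.sub x v h).trans (Real.circleAverage_mono (ci_cont hf.cont x v)
      (ci_cont (hf.cont.max hℓ) x v) (fun ζ _ => le_max_left _ _))
  · exact (hsub x v h).trans (Real.circleAverage_mono (ci_cont hℓ x v)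
      (ci_cont (hf.cont.max hℓ) x v) (fun ζ _ => le_max_right _ _))

lemma cut_one {a b : ℝ} (h0 : 0 < a) (h : a < b) {x : E} (hx : ‖x‖ ≤ a) :
    cut a b h0 h x = 1 := (cut a b h0 h).one_of_mem_closedBall (mem_closedBall_zero_iff.mpr hx)

lemma cut_zero {a b : ℝ} (h0 : 0 < a) (h : a < b) {x : E} (hx : b ≤ ‖x‖) :
    cut a b h0 h x = 0 :=
  (cut a b h0 h).zero_of_le_dist (by rw [dist_zero_right]; exact hx)

lemma cut_nonneg {a b : ℝ} (h0 : 0 < a) (h : a < b) (x : E) : 0 ≤ cut a b h0 h x :=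
  (cut a b h0 h).nonneg

lemma cut_le_one {a b : ℝ} (h0 : 0 < a) (h : a < b) (x : E) : cut a b h0 h x ≤ 1 :=
  (cut a b h0 h).le_one

lemma cut_smooth {a b : ℝ} (h0 : 0 < a) (h : a < b) : ContDiff ℝ ∞ (cut a b h0 h : E → ℝ) :=
  (cut a b h0 h).contDiff

lemma cut_compact {a b : ℝ} (h0 : 0 < a) (h : a < b) :
    HasCompactSupport (cut a b h0 h : E → ℝ) := (cut a b h0 h).hasCompactSupport

/-- the Monge-Ampere density of a mollification -/
noncomputable def dens (φ : ContDiffBump (0 : E)) (f : E → ℝ) (x : E) : ℝ :=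
  MM (moll φ f) (moll φ f) x

lemma CC.dens_nonneg {f : E → ℝ} (hf : CC f) (φ : ContDiffBump (0 : E)) {x : E}
    (hx : ‖x‖ < 1 - φ.rOut) : 0 ≤ dens φ f x :=
  MM_nonneg (hf.c2 φ) (hf.c2 φ) (hf.lev φ hx) (hf.lev φ hx)

lemma CC.dens_cont {f : E → ℝ} (hf : CC f) (φ : ContDiffBump (0 : E)) : Continuous (dens φ f) :=
  MM_cont (hf.c2 φ) (hf.c2 φ)

lemma CC.int_dens {f : E → ℝ} (hf : CC f) (φ : ContDiffBump (0 : E)) {ψ : E → ℝ}
    (hψ : Continuous ψ) (hc : HasCompactSupport ψ) : Integrable (fun x => ψ x * dens φ f x) :=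
  (hψ.mul (hf.dens_cont φ)).integrable_of_hasCompactSupport hc.mul_right

/-- Jensen type domination, general test function equal to a psh function near the
difference set -/
theorem dens_mono {f g κ H : E → ℝ} (hf : CC f) (hg : CC g) (hgf : ∀ x, g x ≤ f x)
    (hκ : ContDiff ℝ ∞ κ) (hκc : HasCompactSupport κ) (hH : ContDiff ℝ 2 H) {r s : ℝ}
    (hκ1 : ∀ x : E, ‖x‖ < s → κ x = 1)
    (hfg : ∀ x, r < ‖x‖ → g x = f x) (φ : ContDiffBump (0 : E)) (hφ : r + φ.rOut ≤ s)
    (hφ2 : φ.rOut ≤ 1 - s)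
    (hM : ∀ x : E, ‖x‖ < s → moll φ g x < moll φ f x → ∀ q : E → ℝ, ContDiff ℝ 2 q →
      (∀ v, 0 ≤ Lev q x v) → 0 ≤ MM H q x) :
    ∫ x, κ x * H x * dens φ g x ≤ ∫ x, κ x * H x * dens φ f x := by
  have h := hg.cmp hf hκ hH hκ1 hfg φ hφ
  have i1 : Integrable (fun x => κ x * H x * dens φ g x) :=
    hg.int_dens φ (hκ.continuous.mul hH.continuous) hκc.mul_right
  have i2 : Integrable (fun x => κ x * H x * dens φ f x) :=
    hf.int_dens φ (hκ.continuous.mul hH.continuous) hκc.mul_right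
  have h2 : ∫ x, (κ x * H x * dens φ g x - κ x * H x * dens φ f x) ≤ 0 := by
    have e : ∀ x, κ x * H x * dens φ g x - κ x * H x * dens φ f x
        = κ x * H x * (MM (moll φ g) (moll φ g) x - MM (moll φ f) (moll φ f) x) := by
      intro x; unfold dens; ring
    simp_rw [e]
    rw [h]
    refine integral_nonpos (fun x => ?_)
    simp only [Pi.zero_apply]
    obtain ⟨C, hC⟩ := hf.bm
    obtain ⟨C', hC'⟩ := hg.bm
    have hle : moll φ g x ≤ moll φ f x := moll_mono_at φ hC' hC (fun t _ => hgf _)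
    rcases hle.eq_or_lt with he | hlt
    · rw [he, sub_self, zero_mul]
    · have hx : ‖x‖ < s := by
        by_contra hcon
        have := moll_eq_off hg hf hfg φ (x := x) (by linarith [not_lt.mp hcon])
        linarith
      refine mul_nonpos_of_nonpos_of_nonneg (by linarith) ?_
      refine hM x hx hlt _ ((hg.c2 φ).add (hf.c2 φ)) (fun v => ?_)
      rw [Lev_add (hg.c2 φ) (hf.c2 φ)]
      exact add_nonneg (hg.lev φ (by linarith) v) (hf.lev φ (by linarith) v)
  rw [integral_sub i1 i2] at h2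
  linarith

/-- domination -/
theorem J1 {H : E → ℝ} (hH : ContDiff ℝ 2 H) (hneg : ∀ x, ‖x‖ < 1 → H x ≤ 0)
    (hlev : ∀ x, ‖x‖ < 1 → ∀ v, 0 ≤ Lev H x v) {a0 b0 : ℝ} (ha0 : 0 < a0) (hb0 : a0 < b0)
    (hb1 : b0 < 1) (M : ℝ) :
    ∃ C ≥ 0, ∀ f g : E → ℝ, CC f → CC g → (∀ x, |f x| ≤ M) → (∀ x, |g x| ≤ M) →
      ∀ ε' > 0, ∀ η2 ≥ 0, (∀ x, g x ≤ f x + η2) →
      ∀ (r s s' : ℝ) (hs : 0 < s) (hss' : s < s'), b0 ≤ s → r < s → s' < 1 →
      (∀ x, r < ‖x‖ → -ε' ≤ g x) →
      ∃ δ > 0, ∀ φ : ContDiffBump (0 : E), φ.rOut < δ →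
        ∫ x, cut a0 b0 ha0 hb0 x * (-H x) * dens φ f x
          ≤ (∫ x, cut s s' hs hss' x * (-H x) * dens φ g x) + C * max ε' η2 := by
  have hψ2 : ContDiff ℝ 2 (fun x => cut a0 b0 ha0 hb0 x * (-H x)) :=
    ((cut_smooth ha0 hb0).of_le le2).mul hH.neg
  obtain ⟨C, hC, δ1, hδ1, hCLN⟩ := CLN hψ2 (s0 := b0) (by linarith) hb1
    (fun x hx => by rw [cut_zero ha0 hb0 hx, zero_mul]) (M := M)
  refine ⟨C, hC, ?_⟩
  intro f g hf hg hfM hgM ε' hε' η2 hη2 hgf r s s' hs hss' hb0s hrs hs1 hgr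
  -- the auxiliary function
  let v : E → ℝ := fun x => max (g x) (f x - ε')
  have hv : CC v := by
    refine hg.max_of (ℓ := fun x => f x - ε') (hf.cont.sub continuous_const) ?_ ?_ ?_
    · intro x w h
      have h1 := hf.sub x w h
      have h2 : Real.circleAverage (fun ζ : ℂ => f (x + ζ • w) - ε') 0 1
          = Real.circleAverage (fun ζ : ℂ => f (x + ζ • w)) 0 1 - ε' := by
        have h3 := Real.circleAverage_fun_sub (ci_cont hf.cont x w)
          (circleIntegrable_const ε' 0 1)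
        rw [Real.circleAverage_const] at h3
        exact h3
      rw [h2]; linarith
    · intro x hx; rw [hf.zero x hx]; linarith
    · intro x _; linarith [hf.nonpos x]
  have hvM : ∀ x, |v x| ≤ M := by
    intro x
    rw [abs_le]
    constructor
    · exact (abs_le.mp (hgM x)).1.trans (le_max_left _ _)
    · exact (hv.nonpos x).trans ((abs_nonneg _).trans (hfM x))
  have hvf : ∀ x, |f x - v x| ≤ max ε' η2 := by
    intro x
    rw [abs_le]
    constructor
    · have : v x ≤ f x + max ε' η2 := max_le ((hgf x).trans (by gcongr; exact le_max_right _ _))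
        (by have := le_max_left ε' η2; linarith)
      linarith
    · have : f x - ε' ≤ v x := le_max_right _ _
      have := le_max_left ε' η2
      linarith
  refine ⟨min δ1 (min (s - r) (1 - s')), by
    refine lt_min hδ1 (lt_min (by linarith) (by linarith)), ?_⟩
  intro φ hφ
  have hφ1 : φ.rOut < δ1 := hφ.trans_le (min_le_left _ _)
  have hφ2 : φ.rOut < s - r := hφ.trans_le ((min_le_right _ _).trans (min_le_left _ _))
  have hφ3 : φ.rOut < 1 - s' := hφ.trans_le ((min_le_right _ _).trans (min_le_right _ _))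
  have A := hCLN f v hf hv hfM hvM (max ε' η2) (le_max_of_le_left hε'.le) hvf φ hφ1
  have cψ : Continuous (fun x => cut a0 b0 ha0 hb0 x * (-H x)) := hψ2.continuous
  have sψ : HasCompactSupport (fun x => cut a0 b0 ha0 hb0 x * (-H x)) :=
    (cut_compact ha0 hb0).mul_right
  have i1 := hf.int_dens φ cψ sψ
  have i2 := hv.int_dens φ cψ sψ
  have A' : (∫ x, cut a0 b0 ha0 hb0 x * (-H x) * dens φ f x)
      - ∫ x, cut a0 b0 ha0 hb0 x * (-H x) * dens φ v x ≤ C * max ε' η2 := by
    rw [← integral_sub i1 i2]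
    refine le_trans (le_of_eq ?_) ((le_abs_self _).trans A)
    congr 1; funext x; unfold dens; ring
  -- step 2: enlarge the cutoff
  have cψ' : Continuous (fun x => cut s s' hs hss' x * (-H x)) :=
    (cut_smooth hs hss').continuous.mul hH.continuous.neg
  have sψ' : HasCompactSupport (fun x => cut s s' hs hss' x * (-H x)) :=
    (cut_compact hs hss').mul_right
  have i3 := hv.int_dens φ cψ' sψ'
  have B : ∫ x, cut a0 b0 ha0 hb0 x * (-H x) * dens φ v x
      ≤ ∫ x, cut s s' hs hss' x * (-H x) * dens φ v x := by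
    refine integral_mono i2 i3 (fun x => ?_)
    simp only []
    by_cases hx : ‖x‖ < s'
    · have hd : 0 ≤ dens φ v x := hv.dens_nonneg φ (by linarith)
      have hn : 0 ≤ -H x := by linarith [hneg x (by linarith)]
      have hc : cut a0 b0 ha0 hb0 x ≤ cut s s' hs hss' x := by
        by_cases hx2 : ‖x‖ ≤ s
        · rw [cut_one hs hss' hx2]; exact cut_le_one _ _ _
        · rw [cut_zero ha0 hb0 (by linarith [not_le.mp hx2])]; exact cut_nonneg _ _ _
      gcongr
    · have h1 : cut a0 b0 ha0 hb0 x = 0 := cut_zero ha0 hb0 (by linarith [not_lt.mp hx])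
      have h2 : cut s s' hs hss' x = 0 := cut_zero hs hss' (not_lt.mp hx)
      rw [h1, h2]
  -- step 3: comparison
  have Cc := dens_mono (κ := cut s s' hs hss') (H := H) hv hg (fun x => le_max_left _ _)
    (cut_smooth hs hss') (cut_compact hs hss') hH (r := r) (s := s)
    (fun x hx => cut_one hs hss' hx.le)
    (fun x hx => by
      have h1 := hgr x hx
      have h2 := hf.nonpos x
      exact (max_eq_left (by linarith)).symm)
    φ (by linarith) (by linarith)
    (fun x hx _ q hq hql => MM_nonneg hH hq (hlev x (by linarith)) hql)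
  have e1 : ∫ x, cut s s' hs hss' x * (-H x) * dens φ v x
      = -∫ x, cut s s' hs hss' x * H x * dens φ v x := by
    rw [← integral_neg]; congr 1; funext x; ring
  have e2 : ∫ x, cut s s' hs hss' x * (-H x) * dens φ g x
      = -∫ x, cut s s' hs hss' x * H x * dens φ g x := by
    rw [← integral_neg]; congr 1; funext x; ring
  rw [e1] at B
  have fin : ∫ x, cut a0 b0 ha0 hb0 x * (-H x) * dens φ f x
      ≤ -(∫ x, cut s s' hs hss' x * H x * dens φ g x) + C * max ε' η2 := by linarith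
  exact fin.trans (le_of_eq (congrArg (· + C * max ε' η2) e2.symm))

end H13Ceg
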