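import Pool.Agent.H13.Ceg.Seq

open MeasureTheory Set Filter Topology Metric
open scoped ContDiff ENNReal NNReal

namespace H13Ceg

lemma dini {ψ : ℕ → E → ℝ} {f w : E → ℝ} (hψ : ∀ n, CC (ψ n)) (hf : CC f)
    (hanti : ∀ n x, ψ (n + 1) x ≤ ψ n x)
    (hlim : ∀ x, Tendsto (fun n => ψ n x) atTop (𝓝 (w x))) (hwf : ∀ x, w x ≤ f x)
    {η : ℝ} (hη : 0 < η) : ∃ N : ℕ, ∀ n ≥ N, ∀ x, ψ n x ≤ f x + η := by
  have hmono : ∀ a b x, a ≤ b → ψ b x ≤ ψ a x := by
    intro a b x hab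
    exact antitone_nat_of_succ_le (f := fun n => ψ n x) (fun n => hanti n x) hab
  have h1 : ∀ x : E, ∃ n : ℕ, ψ n x < f x + η := by
    intro x
    have := (hlim x).eventually (gt_mem_nhds (show w x < f x + η by linarith [hwf x]))
    exact this.exists
  choose N hN using h1
  have h2 : ∀ x ∈ closedBall (0:E) 1, {y | ψ (N x) y < f y + η} ∈ 𝓝 x := by
    intro x _
    have hopen : IsOpen {y | ψ (N x) y < f y + η} :=
      isOpen_lt (hψ _).cont (hf.cont.add continuous_const)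
    exact hopen.mem_nhds (hN x)
  obtain ⟨t, _, ht⟩ := (isCompact_closedBall (0:E) 1).elim_nhds_subcover _ h2
  refine ⟨t.sup N, fun n hn x => ?_⟩
  by_cases hx : ‖x‖ ≤ 1
  · have hx' := ht (mem_closedBall_zero_iff.mpr hx)
    obtain ⟨y, hyt, hy⟩ := mem_iUnion₂.mp hx'
    have h3 : N y ≤ n := (Finset.le_sup hyt).trans hn
    have h4 : ψ (N y) x < f x + η := hy
    exact (hmono _ _ x h3).trans h4.le
  · rw [(hψ n).zero x (by linarith [not_le.mp hx]), hf.zero x (by linarith [not_le.mp hx])]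
    linarith

/-- the working data -/
structure Dat (v : ℕ → E → ℝ) (m : ℕ → Measure E) (M0 : ℝ) : Prop where
  e0 : ∀ j, InE0 (v j) (m j)
  anti : ∀ x : E, ‖x‖ < 1 → Antitone fun j => v j x
  mass : ∀ j, (m j Bidisc).toReal ≤ M0
  weak : ∀ φ : E → ℝ, Continuous φ → HasCompactSupport φ → tsupport φ ⊆ Bidisc →
      Tendsto (fun j => ∫ x, φ x ∂(m j)) atTop (𝓝 (∫ x, φ x ∂lamDelta))

/-- the continuous approximants -/
noncomputable def ps (v : ℕ → E → ℝ) (j n : ℕ) : E → ℝ := psiN (ext0 (v j)) n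

section
variable {v : ℕ → E → ℝ} {m : ℕ → Measure E} {M0 : ℝ}

lemma Dat.b0 (h : Dat v m M0) (j : ℕ) : ∃ C, B0 (ext0 (v j)) C := (h.e0 j).toB0

lemma Dat.cc (h : Dat v m M0) (j n : ℕ) : CC (ps v j n) := by
  obtain ⟨C, hC⟩ := h.b0 j
  exact psi_CC hC n

lemma Dat.ps_anti (h : Dat v m M0) (j n : ℕ) (x : E) : ps v j (n + 1) x ≤ ps v j n x := by
  obtain ⟨C, hC⟩ := h.b0 j
  exact psi_anti hC n x

lemma Dat.ps_lim (h : Dat v m M0) (j : ℕ) (x : E) :
    Tendsto (fun n => ps v j n x) atTop (𝓝 (ext0 (v j) x)) := by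
  obtain ⟨C, hC⟩ := h.b0 j
  exact psi_tendsto hC x

lemma Dat.ext_le (h : Dat v m M0) (j n : ℕ) (x : E) : ext0 (v j) x ≤ ps v j n x := by
  obtain ⟨C, hC⟩ := h.b0 j
  exact w_le_psi hC n x

lemma Dat.ext_anti (h : Dat v m M0) {j k : ℕ} (hjk : j ≤ k) (x : E) :
    ext0 (v k) x ≤ ext0 (v j) x := by
  unfold ext0; split_ifs with hx
  · exact h.anti x hx hjk
  · exact le_rfl

lemma Dat.bound (h : Dat v m M0) (j : ℕ) : ∃ C, ∀ n x, |ps v j n x| ≤ C := by
  obtain ⟨C, hC⟩ := h.b0 j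
  refine ⟨C, fun n x => ?_⟩
  rw [abs_le]
  refine ⟨(abs_le.mp (hC.bm.bd x)).1.trans (h.ext_le j n x), ?_⟩
  exact ((h.cc j n).nonpos x).trans hC.bm.nonneg

lemma Dat.bdry (h : Dat v m M0) (j : ℕ) {ε : ℝ} (hε : 0 < ε) :
    ∃ r < 1, ∀ n, ∀ x : E, r < ‖x‖ → -ε ≤ ps v j n x := by
  obtain ⟨C, hC⟩ := h.b0 j
  obtain ⟨r, hr, hb⟩ := hC.bdry ε hε
  exact ⟨r, hr, fun n x hx => (hb x hx).trans (h.ext_le j n x)⟩

lemma Dat.conv (hd : Dat v m M0) (j : ℕ) {h : E → ℝ} (hc : Continuous h)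
    (hcs : HasCompactSupport h) {ρ : ℝ} (hρ : ρ < 1) (hsupp : tsupport h ⊆ ball 0 ρ)
    {η : ℝ} (hη : 0 < η) :
    ∃ N : ℕ, ∀ n ≥ N, ∃ δ > 0, ∀ φ : ContDiffBump (0 : E), φ.rOut < δ →
      |c0 * (∫ x, h x * dens φ (ps v j n) x) - ∫ x, h x ∂(m j)| ≤ η := by
  refine ma_conv (hd.e0 j).ma (fun n => hd.cc j n) (fun n x => hd.ps_anti j n x) ?_ hc hcs hρ
    hsupp hη
  intro x hx
  have := hd.ps_lim j x
  have e : ext0 (v j) x = v j x := if_pos hx
  rwa [e] at this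

lemma tsupport_cut_mul {a b : ℝ} (h0 : 0 < a) (h : a < b) (g : E → ℝ) :
    tsupport (fun x => cut a b h0 h x * g x) ⊆ closedBall (0:E) b := by
  refine closure_minimal (fun x hx => ?_) isClosed_closedBall
  rw [mem_closedBall_zero_iff]
  by_contra hcon
  exact hx (by
    show cut a b h0 h x * g x = 0
    rw [cut_zero h0 h (not_le.mp hcon).le, zero_mul])

/-- admissible test functions -/
structure Adm (H : E → ℝ) : Prop where
  c2 : ContDiff ℝ 2 H
  neg : ∀ x : E, ‖x‖ < 1 → H x ≤ 0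
  lev : ∀ x : E, ‖x‖ < 1 → ∀ u, 0 ≤ Lev H x u

lemma Adm.bound {H : E → ℝ} (h : Adm H) : ∃ B ≥ 0, ∀ x : E, ‖x‖ ≤ 1 → |H x| ≤ B := by
  obtain ⟨B, hB⟩ := (isCompact_closedBall (0:E) 1).exists_bound_of_continuousOn
    h.c2.continuous.continuousOn
  refine ⟨B, (norm_nonneg _).trans (hB 0 (by simp)), fun x hx => ?_⟩
  rw [← Real.norm_eq_abs]
  exact hB x (mem_closedBall_zero_iff.mpr hx)

lemma Adm.intOn {H : E → ℝ} (h : Adm H) {ν : Measure E} (hν : ν Bidisc < ⊤) :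
    IntegrableOn (fun x => -H x) Bidisc ν := by
  obtain ⟨B, _, hB⟩ := h.bound
  refine Measure.integrableOn_of_bounded (M := B) hν.ne
    h.c2.continuous.neg.aestronglyMeasurable ?_
  have hm : MeasurableSet Bidisc := by rw [bidisc_eq]; exact measurableSet_ball
  refine (ae_restrict_iff' hm).mpr (Eventually.of_forall fun x hx => ?_)
  rw [norm_neg, Real.norm_eq_abs]
  exact hB x (mem_bidisc.mp hx).le

lemma measBid : MeasurableSet Bidisc := by rw [bidisc_eq]; exact measurableSet_ball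

lemma cut_int_le {H : E → ℝ} (h : Adm H) {ν : Measure E} (hν : ν Bidisc < ⊤) {a b : ℝ}
    (h0 : 0 < a) (hab : a < b) (hb : b < 1) :
    ∫ x, cut a b h0 hab x * (-H x) ∂ν ≤ ∫ x in Bidisc, -H x ∂ν := by
  have e : ∫ x, cut a b h0 hab x * (-H x) ∂ν = ∫ x in Bidisc, cut a b h0 hab x * (-H x) ∂ν := by
    rw [setIntegral_eq_integral_of_forall_compl_eq_zero]
    intro x hx
    rw [mem_bidisc, not_lt] at hx
    rw [cut_zero h0 hab (by linarith), zero_mul]
  rw [e]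
  refine setIntegral_mono_on ?_ (h.intOn hν) measBid (fun x hx => ?_)
  · obtain ⟨B, hB0, hB⟩ := h.bound
    refine Measure.integrableOn_of_bounded (M := B) hν.ne
      (((cut_smooth h0 hab).continuous.mul h.c2.continuous.neg).aestronglyMeasurable) ?_
    refine (ae_restrict_iff' measBid).mpr (Eventually.of_forall fun x hx => ?_)
    rw [norm_mul, norm_neg, Real.norm_eq_abs, Real.norm_eq_abs, abs_of_nonneg (cut_nonneg _ _ _)]
    calc cut a b h0 hab x * |H x| ≤ 1 * B :=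
          mul_le_mul (cut_le_one _ _ _) (hB x (mem_bidisc.mp hx).le) (abs_nonneg _) zero_le_one
      _ = B := one_mul B
  · have h1 : 0 ≤ -H x := by linarith [h.neg x (mem_bidisc.mp hx)]
    calc cut a b h0 hab x * (-H x) ≤ 1 * (-H x) :=
          mul_le_mul_of_nonneg_right (cut_le_one _ _ _) h1
      _ = -H x := one_mul _

/-- first form of the domination -/
theorem Dat.dom1 (hd : Dat v m M0) {H : E → ℝ} (hH : Adm H) {a0 b0 : ℝ} (ha0 : 0 < a0)
    (hab : a0 < b0) (hb1 : b0 < 1) {j k : ℕ} (hjk : j ≤ k) (n : ℕ) {η : ℝ} (hη : 0 < η) :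
    ∃ δ > 0, ∀ φ : ContDiffBump (0 : E), φ.rOut < δ →
      c0 * (∫ x, cut a0 b0 ha0 hab x * (-H x) * dens φ (ps v j n) x)
        ≤ (∫ x in Bidisc, -H x ∂(m k)) + η := by
  obtain ⟨Cj, hCj⟩ := hd.bound j
  obtain ⟨Ck, hCk⟩ := hd.bound k
  obtain ⟨C, hC, hJ⟩ := J1 hH.c2 hH.neg hH.lev ha0 hab hb1 (max Cj Ck)
  have hcp := c0_pos
  set ε' := η / (2 * (c0 * (C + 1))) with hε'
  have hε'0 : 0 < ε' := by positivity
  obtain ⟨r0, hr0, hr0'⟩ := hd.bdry k hε'0
  set s := (max (max r0 b0) 0 + 1) / 2 with hs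
  set s' := (s + 1) / 2 with hs'
  have hmx : max (max r0 b0) 0 < 1 := max_lt (max_lt hr0 hb1) one_pos
  have hs0 : 0 < s := by rw [hs]; linarith [le_max_right (max r0 b0) (0:ℝ)]
  have hs1 : s < 1 := by rw [hs]; linarith
  have hss' : s < s' := by rw [hs']; linarith
  have hs'1 : s' < 1 := by rw [hs']; linarith
  have hb0s : b0 ≤ s := by
    have h1 : b0 ≤ max (max r0 b0) 0 := (le_max_right _ _).trans (le_max_left _ _)
    rw [hs]; linarith
  have hr0s : r0 < s := by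
    have h1 : r0 ≤ max (max r0 b0) 0 := (le_max_left _ _).trans (le_max_left _ _)
    rw [hs]; linarith
  -- Dini
  obtain ⟨N1, hN1⟩ := dini (fun n' => hd.cc k n') (hd.cc j n) (fun n' x => hd.ps_anti k n' x)
    (fun x => hd.ps_lim k x) (fun x => (hd.ext_anti hjk x).trans (hd.ext_le j n x)) hε'0
  -- convergence
  obtain ⟨N2, hN2⟩ := hd.conv k (h := fun x => cut s s' hs0 hss' x * (-H x))
    ((cut_smooth hs0 hss').continuous.mul hH.c2.continuous.neg)
    ((cut_compact hs0 hss').mul_right) (ρ := (s' + 1) / 2) (by linarith)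
    ((tsupport_cut_mul hs0 hss' _).trans (closedBall_subset_ball (by linarith)))
    (η := η / 2) (by linarith)
  set n' := max N1 N2 with hn'
  obtain ⟨δ1, hδ1, h1⟩ := hN2 n' (le_max_right _ _)
  obtain ⟨δ2, hδ2, h2⟩ := hJ (ps v j n) (ps v k n') (hd.cc j n) (hd.cc k n')
    (fun x => (hCj n x).trans (le_max_left _ _)) (fun x => (hCk n' x).trans (le_max_right _ _))
    ε' hε'0 ε' hε'0.le (fun x => hN1 n' (le_max_left _ _) x) r0 s s' hs0 hss' hb0s hr0s hs'1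
    (fun x hx => hr0' n' x hx)
  refine ⟨min δ1 δ2, lt_min hδ1 hδ2, fun φ hφ => ?_⟩
  have a1 := h1 φ (hφ.trans_le (min_le_left _ _))
  have a2 := h2 φ (hφ.trans_le (min_le_right _ _))
  rw [max_self] at a2
  have a3 := (abs_le.mp a1).2
  have a4 := cut_int_le hH (hd.e0 k).finite hs0 hss' hs'1
  have a5 := mul_le_mul_of_nonneg_left a2 hcp.le
  have a6 : c0 * (C * ε') ≤ η / 2 := by
    rw [hε']
    have : c0 * (C * (η / (2 * (c0 * (C + 1))))) = (η / 2) * (C / (C + 1)) := by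
      field_simp
    rw [this]
    have h3 : C / (C + 1) ≤ 1 := by rw [div_le_one (by linarith)]; linarith
    calc η / 2 * (C / (C + 1)) ≤ η / 2 * 1 := by gcongr
      _ = η / 2 := mul_one _
  have a7 : c0 * ((∫ x, cut s s' hs0 hss' x * (-H x) * dens φ (ps v k n') x) + C * ε')
      = c0 * (∫ x, cut s s' hs0 hss' x * (-H x) * dens φ (ps v k n') x) + c0 * (C * ε') := by
    ring
  rw [a7] at a5
  linarith

/-- domination between the measures -/
theorem Dat.dom2 (hd : Dat v m M0) {H : E → ℝ} (hH : Adm H) {a0 b0 : ℝ} (ha0 : 0 < a0)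
    (hab : a0 < b0) (hb1 : b0 < 1) {j k : ℕ} (hjk : j ≤ k) :
    ∫ x, cut a0 b0 ha0 hab x * (-H x) ∂(m j) ≤ ∫ x in Bidisc, -H x ∂(m k) := by
  refine le_of_forall_pos_le_add (fun η hη => ?_)
  obtain ⟨N, hN⟩ := hd.conv j (h := fun x => cut a0 b0 ha0 hab x * (-H x))
    ((cut_smooth ha0 hab).continuous.mul hH.c2.continuous.neg)
    ((cut_compact ha0 hab).mul_right) (ρ := (b0 + 1) / 2) (by linarith)
    ((tsupport_cut_mul ha0 hab _).trans (closedBall_subset_ball (by linarith)))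
    (η := η / 2) (by linarith)
  obtain ⟨δ1, hδ1, h1⟩ := hN N le_rfl
  obtain ⟨δ2, hδ2, h2⟩ := hd.dom1 hH ha0 hab hb1 hjk N (η := η / 2) (by linarith)
  have hmin : 0 < min δ1 δ2 := lt_min hδ1 hδ2
  let φ : ContDiffBump (0 : E) := ⟨min δ1 δ2 / 4, min δ1 δ2 / 2, by positivity, by linarith⟩
  have hφ : φ.rOut < min δ1 δ2 := by
    show min δ1 δ2 / 2 < min δ1 δ2
    linarith
  have a1 := (abs_le.mp (h1 φ (hφ.trans_le (min_le_left _ _)))).1
  have a2 := h2 φ (hφ.trans_le (min_le_right _ _))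
  linarith

end

end H13Ceg
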