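import Pool.Agent.H13.Ceg.Jens

open MeasureTheory Set Filter Topology Metric
open scoped ContDiff ENNReal NNReal

namespace H13Ceg

lemma pow_norm_le_avg (a b : ℂ) (n : ℕ) :
    ‖a‖ ^ n ≤ Real.circleAverage (fun ζ : ℂ => ‖a + ζ * b‖ ^ n) 0 1 := by
  have hd : Differentiable ℂ (fun ζ : ℂ => (a + ζ * b) ^ n) := by fun_prop
  have h1 : Real.circleAverage (fun ζ : ℂ => (a + ζ * b) ^ n) 0 1 = a ^ n := by
    have := DiffContOnCl.circleAverage (c := (0:ℂ)) (R := 1)
      (f := fun ζ : ℂ => (a + ζ * b) ^ n) hd.diffContOnCl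
    rw [this]; simp
  have hc : Continuous (fun θ : ℝ => (a + circleMap 0 1 θ * b) ^ n) := by fun_prop
  have hpi : (0:ℝ) < 2 * Real.pi := by positivity
  calc ‖a‖ ^ n = ‖a ^ n‖ := (norm_pow a n).symm
    _ = ‖Real.circleAverage (fun ζ : ℂ => (a + ζ * b) ^ n) 0 1‖ := by rw [h1]
    _ = (2 * Real.pi)⁻¹ * ‖∫ θ in (0:ℝ)..(2 * Real.pi), (a + circleMap 0 1 θ * b) ^ n‖ := by
        rw [Real.circleAverage_def, norm_smul, Real.norm_eq_abs, abs_of_pos (by positivity)]
    _ ≤ (2 * Real.pi)⁻¹ * ∫ θ in (0:ℝ)..(2 * Real.pi), ‖(a + circleMap 0 1 θ * b) ^ n‖ := by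
        gcongr
        exact intervalIntegral.norm_integral_le_integral_norm hpi.le
    _ = Real.circleAverage (fun ζ : ℂ => ‖a + ζ * b‖ ^ n) 0 1 := by
        rw [Real.circleAverage_def, smul_eq_mul]
        congr 1
        simp only [norm_pow]

lemma norm_pow_submean (x v : E) (n : ℕ) :
    ‖x‖ ^ n ≤ Real.circleAverage (fun ζ : ℂ => ‖x + ζ • v‖ ^ n) 0 1 := by
  have hc : Continuous (fun y : E => ‖y‖ ^ n) := by fun_prop
  have ci := ci_cont hc x v
  rcases le_total ‖x.1‖ ‖x.2‖ with h | h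
  · have e : ‖x‖ = ‖x.2‖ := by rw [Prod.norm_def, max_eq_right h]
    rw [e]
    refine (pow_norm_le_avg x.2 v.2 n).trans ?_
    refine Real.circleAverage_mono ?_ ci (fun ζ _ => ?_)
    · apply ContinuousOn.circleIntegrable'
      exact (by fun_prop : Continuous (fun ζ : ℂ => ‖x.2 + ζ * v.2‖ ^ n)).continuousOn
    · have : ‖(x + ζ • v).2‖ ≤ ‖x + ζ • v‖ := norm_snd_le _
      simp only [Prod.snd_add, Prod.smul_snd, smul_eq_mul] at this
      exact pow_le_pow_left₀ (norm_nonneg _) this n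
  · have e : ‖x‖ = ‖x.1‖ := by rw [Prod.norm_def, max_eq_left h]
    rw [e]
    refine (pow_norm_le_avg x.1 v.1 n).trans ?_
    refine Real.circleAverage_mono ?_ ci (fun ζ _ => ?_)
    · apply ContinuousOn.circleIntegrable'
      exact (by fun_prop : Continuous (fun ζ : ℂ => ‖x.1 + ζ * v.1‖ ^ n)).continuousOn
    · have : ‖(x + ζ • v).1‖ ≤ ‖x + ζ • v‖ := norm_fst_le _
      simp only [Prod.fst_add, Prod.smul_fst, smul_eq_mul] at this
      exact pow_le_pow_left₀ (norm_nonneg _) this n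

/-- a small bump -/
noncomputable def sb (δ : ℝ) (hδ : 0 < δ) : ContDiffBump (0 : E) :=
  ⟨δ / 4, δ / 2, by linarith, by linarith⟩

/-- test functions approximating the indicator of the bidisc -/
lemma exists_test {b0 ε1 : ℝ} (hb0 : 0 < b0) (hb1 : b0 < 1) (hε : 0 < ε1) :
    ∃ H : E → ℝ, Adm H ∧ (∀ x : E, ‖x‖ < 1 → -H x ≤ 1 + ε1) ∧
      (∀ x : E, ‖x‖ ≤ b0 → 1 - ε1 ≤ -H x) ∧
      ∃ a' > 0, a' < 1 ∧ ∀ x : E, a' ≤ ‖x‖ → ‖x‖ < 1 → -H x ≤ ε1 := by
  obtain ⟨n, hn⟩ := exists_pow_lt_of_lt_one hε hb1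
  -- the bounded function
  let h : E → ℝ := fun x => if ‖x‖ < 2 then ‖x‖ ^ n - 1 else 0
  have hBM : BM h (2 ^ n + 1) := by
    refine ⟨?_, fun x => ?_⟩
    · refine Measurable.ite (measurableSet_lt measurable_norm measurable_const) ?_
        measurable_const
      exact ((by fun_prop : Continuous (fun x : E => ‖x‖ ^ n - 1))).measurable
    · simp only [h]
      split_ifs with hx
      · have h1 : ‖x‖ ^ n ≤ 2 ^ n := pow_le_pow_left₀ (norm_nonneg _) hx.le n
        have h2 : 0 ≤ ‖x‖ ^ n := by positivity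
        rw [abs_le]; constructor <;> linarith [show (0:ℝ) ≤ 2 ^ n by positivity]
      · rw [abs_zero]; positivity
  have huc : ∃ δ > 0, δ < 1 ∧ ∀ x t : E, ‖x‖ ≤ 1 → ‖t‖ < δ →
      |h (x - t) - h x| ≤ ε1 / 4 := by
    have hcont : Continuous (fun x : E => ‖x‖ ^ n - 1) := by fun_prop
    have := (isCompact_closedBall (0:E) 2).uniformContinuousOn_of_continuous hcont.continuousOn
    rw [Metric.uniformContinuousOn_iff] at this
    obtain ⟨δ, hδ, hd⟩ := this (ε1 / 4) (by linarith)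
    refine ⟨min δ (1/2), by positivity, by
      exact (min_le_right _ _).trans_lt (by norm_num), fun x t hx ht => ?_⟩
    have ht1 : ‖t‖ < δ := ht.trans_le (min_le_left _ _)
    have ht2 : ‖t‖ < 1/2 := ht.trans_le (min_le_right _ _)
    have hxt : ‖x - t‖ < 2 := by
      have := norm_sub_le x t; linarith
    have e1 : h (x - t) = ‖x - t‖ ^ n - 1 := if_pos hxt
    have e2 : h x = ‖x‖ ^ n - 1 := if_pos (by linarith)
    rw [e1, e2, ← Real.dist_eq]
    refine (hd (x - t) (mem_closedBall_zero_iff.mpr hxt.le) x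
      (mem_closedBall_zero_iff.mpr (by linarith)) ?_).le
    rw [dist_eq_norm]; simpa using ht1
  obtain ⟨δ, hδ, hδ1, hd⟩ := huc
  set φ := sb δ hδ with hφ
  have hφr : φ.rOut = δ / 2 := rfl
  have hclose : ∀ x : E, ‖x‖ ≤ 1 → |moll φ h x - h x| ≤ ε1 / 4 := by
    intro x hx
    exact moll_near φ hBM (fun t ht => hd x t hx (by rw [hφr] at ht; linarith))
  have hx2 : ∀ x : E, ‖x‖ < 2 → h x = ‖x‖ ^ n - 1 := fun x hx => if_pos hx
  have hc2 : ContDiff ℝ 2 (moll φ h) := (moll_contDiff φ hBM.locInt).of_le le2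
  let H : E → ℝ := fun x => moll φ h x + (-(ε1 / 4))
  have hlevm : ∀ x : E, ‖x‖ < 1 → ∀ u, 0 ≤ Lev (moll φ h) x u := by
    intro x hx u
    refine Lev_nonneg isOpen_ball hc2 (fun y w hyw => ?_) (mem_ball_zero_iff.mpr hx) u
    refine moll_submean φ hBM (fun t ht => ?_)
    have hyt : ∀ ζ : ℂ, ‖ζ‖ ≤ 1 → ‖y - t + ζ • w‖ < 2 := by
      intro ζ hζ
      have h1 := mem_ball_zero_iff.mp (hyw ζ hζ)
      have h2 : y - t + ζ • w = (y + ζ • w) - t := by abel
      rw [h2]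
      have := norm_sub_le (y + ζ • w) t
      rw [hφr] at ht
      linarith
    have e1 : h (y - t) = ‖y - t‖ ^ n - 1 := hx2 _ (by simpa using hyt 0 (by simp))
    rw [e1]
    have h3 := Real.circleAverage_fun_sub
      (ci_cont (u := fun y : E => ‖y‖ ^ n) (by fun_prop) (y - t) w)
      (circleIntegrable_const (1:ℝ) 0 1)
    rw [Real.circleAverage_const] at h3
    have h4 : Real.circleAverage (fun ζ : ℂ => h (y - t + ζ • w)) 0 1
        = Real.circleAverage (fun ζ : ℂ => ‖y - t + ζ • w‖ ^ n - 1) 0 1 := by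
      apply Real.circleAverage_congr_sphere
      intro ζ hζ
      have hζ1 : ‖ζ‖ = 1 := by simpa using hζ
      exact hx2 _ (hyt ζ hζ1.le)
    rw [h4, h3]
    have := norm_pow_submean (y - t) w n
    linarith
  have hlevH : ∀ x : E, ∀ u, Lev H x u = Lev (moll φ h) x u := by
    intro x u
    have hc2H : ContDiff ℝ 2 H := hc2.add contDiff_const
    rw [Lev_eq hc2H, Lev_eq hc2]
    simp only [H, D_add_const]
  have hb0n : b0 ^ n < ε1 := hn
  -- choose a'
  have ha' : ∃ a' > 0, a' < 1 ∧ 1 - ε1 / 4 < a' ^ n := by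
    have hcont : Continuous (fun t : ℝ => t ^ n) := by fun_prop
    have ht : Tendsto (fun t : ℝ => t ^ n) (𝓝[<] 1) (𝓝 (1 ^ n)) :=
      (hcont.tendsto 1).mono_left nhdsWithin_le_nhds
    have hev1 : ∀ᶠ t in 𝓝[<] (1:ℝ), 1 - ε1 / 4 < t ^ n :=
      ht.eventually (lt_mem_nhds (by simp; linarith))
    have hev2 : ∀ᶠ t in 𝓝[<] (1:ℝ), 0 < t ∧ t < 1 := by
      filter_upwards [self_mem_nhdsWithin, nhdsWithin_le_nhds (lt_mem_nhds (zero_lt_one' ℝ))]
        with t h1 h2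
      exact ⟨h2, h1⟩
    obtain ⟨t, h1, h2, h3⟩ := (hev1.and hev2).exists
    exact ⟨t, h2, h3, h1⟩
  obtain ⟨a', ha0, ha1, ha2⟩ := ha'
  refine ⟨H, ⟨hc2.add contDiff_const, ?_, fun x hx u => by rw [hlevH]; exact hlevm x hx u⟩,
    ?_, ?_, a', ha0, ha1, ?_⟩
  · intro x hx
    have h1 := (abs_le.mp (hclose x hx.le)).2
    rw [hx2 x (by linarith)] at h1
    have h2 : ‖x‖ ^ n ≤ 1 := pow_le_one₀ (norm_nonneg _) hx.le
    simp only [H]; linarith
  · intro x hx
    have h1 := (abs_le.mp (hclose x hx.le)).1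
    rw [hx2 x (by linarith)] at h1
    have h2 : 0 ≤ ‖x‖ ^ n := by positivity
    simp only [H]; linarith
  · intro x hx
    have h1 := (abs_le.mp (hclose x (by linarith))).2
    rw [hx2 x (by linarith)] at h1
    have h2 : ‖x‖ ^ n ≤ b0 ^ n := pow_le_pow_left₀ (norm_nonneg _) hx n
    simp only [H]; linarith
  · intro x hx hx1
    have h1 := (abs_le.mp (hclose x hx1.le)).1
    rw [hx2 x (by linarith)] at h1
    have h2 : a' ^ n ≤ ‖x‖ ^ n := pow_le_pow_left₀ ha0.le hx n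
    simp only [H]; linarith

end H13Ceg
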