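import Pool.Agent.H13.Ceg.Jens2

open MeasureTheory Set Filter Topology Metric
open scoped ContDiff ENNReal NNReal

namespace H13Ceg

lemma integral_lam {φ : E → ℝ} (hφ : Continuous φ) :
    ∫ x, φ x ∂lamDelta = ∫ a in ball (0:ℂ) 1, φ (a, 0) := by
  unfold lamDelta
  rw [Measure.prod_dirac, integral_map]
  · exact (measurable_id.prodMk measurable_const).aemeasurable
  · exact hφ.aestronglyMeasurable

lemma vol_disc : (volume : Measure ℂ).real (ball 0 1) = Real.pi := by
  rw [Measure.real, Complex.volume_ball]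
  simp

lemma vol_disc_r {r : ℝ} (hr : 0 ≤ r) : (volume : Measure ℂ).real (ball 0 r) = r ^ 2 * Real.pi := by
  rw [Measure.real, Complex.volume_ball]
  simp [ENNReal.toReal_mul, ENNReal.toReal_pow, ENNReal.toReal_ofReal hr]

lemma intOn_ball {g : ℂ → ℝ} (hg : Continuous g) (r : ℝ) : IntegrableOn g (ball 0 r) :=
  (hg.continuousOn.integrableOn_compact (isCompact_closedBall (0:ℂ) r)).mono_set
    ball_subset_closedBall

lemma norm_pair (a : ℂ) : ‖((a, 0) : E)‖ = ‖a‖ := by
  rw [Prod.norm_def]; simp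

section
variable {v : ℕ → E → ℝ} {m : ℕ → Measure E} {M0 : ℝ}

lemma Dat.weak_cut (hd : Dat v m M0) {a b : ℝ} (h0 : 0 < a) (hab : a < b) (hb : b < 1)
    {g : E → ℝ} (hg : Continuous g) :
    Tendsto (fun j => ∫ x, cut a b h0 hab x * g x ∂(m j)) atTop
      (𝓝 (∫ a' in ball (0:ℂ) 1, cut a b h0 hab (a', 0) * g (a', 0))) := by
  have hc : Continuous (fun x => cut a b h0 hab x * g x) :=
    (cut_smooth h0 hab).continuous.mul hg
  have := hd.weak (fun x => cut a b h0 hab x * g x) hc ((cut_compact h0 hab).mul_right) (by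
    rw [bidisc_eq]
    exact (tsupport_cut_mul h0 hab g).trans (closedBall_subset_ball hb))
  rwa [integral_lam hc] at this

/-- `∫ -H ≤ ∫ cut (-H) + sup (outside)` -/
lemma split_int {H : E → ℝ} (hH : Adm H) {ν : Measure E} (hν : ν Bidisc < ⊤) {a b : ℝ}
    (h0 : 0 < a) (hab : a < b) (hb : b < 1) {B : ℝ} (hB : 0 ≤ B)
    (hout : ∀ x : E, a ≤ ‖x‖ → ‖x‖ < 1 → -H x ≤ B) :
    ∫ x in Bidisc, -H x ∂ν ≤ (∫ x, cut a b h0 hab x * (-H x) ∂ν)
      + B * ((ν Bidisc).toReal - ∫ x, cut a b h0 hab x ∂ν) := by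
  have cH : Continuous (fun x => -H x) := hH.c2.continuous.neg
  have ccut : Continuous (cut a b h0 hab : E → ℝ) := (cut_smooth h0 hab).continuous
  have e1 : ∫ x, cut a b h0 hab x * (-H x) ∂ν = ∫ x in Bidisc, cut a b h0 hab x * (-H x) ∂ν := by
    rw [setIntegral_eq_integral_of_forall_compl_eq_zero]
    intro x hx
    rw [mem_bidisc, not_lt] at hx
    rw [cut_zero h0 hab (by linarith), zero_mul]
  have e2 : ∫ x, cut a b h0 hab x ∂ν = ∫ x in Bidisc, cut a b h0 hab x ∂ν := by
    rw [setIntegral_eq_integral_of_forall_compl_eq_zero]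
    intro x hx
    rw [mem_bidisc, not_lt] at hx
    rw [cut_zero h0 hab (by linarith)]
  have e3 : (ν Bidisc).toReal = ∫ x in Bidisc, (1:ℝ) ∂ν := by simp [Measure.real]
  have hfin : ν Bidisc ≠ ⊤ := hν.ne
  have bddI : ∀ (g : E → ℝ), Continuous g → (∃ K, ∀ x : E, ‖x‖ < 1 → |g x| ≤ K) →
      IntegrableOn g Bidisc ν := by
    rintro g hg ⟨K, hK⟩
    refine Measure.integrableOn_of_bounded (M := K) hfin hg.aestronglyMeasurable ?_
    refine (ae_restrict_iff' measBid).mpr (Eventually.of_forall fun x hx => ?_)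
    rw [Real.norm_eq_abs]; exact hK x (mem_bidisc.mp hx)
  obtain ⟨K, hK0, hK⟩ := hH.bound
  have iH := hH.intOn hν
  have i1 : IntegrableOn (fun x => cut a b h0 hab x * (-H x)) Bidisc ν := by
    refine bddI _ (ccut.mul cH) ⟨K, fun x hx => ?_⟩
    rw [abs_mul, abs_neg, abs_of_nonneg (cut_nonneg _ _ _)]
    calc cut a b h0 hab x * |H x| ≤ 1 * K :=
          mul_le_mul (cut_le_one _ _ _) (hK x hx.le) (abs_nonneg _) zero_le_one
      _ = K := one_mul K
  have i2 : IntegrableOn (fun x => (cut a b h0 hab x : ℝ)) Bidisc ν := by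
    refine bddI _ ccut ⟨1, fun x _ => ?_⟩
    rw [abs_of_nonneg (cut_nonneg _ _ _)]; exact cut_le_one _ _ _
  have i3 : IntegrableOn (fun _ : E => (1:ℝ)) Bidisc ν :=
    bddI _ continuous_const ⟨1, fun x _ => by simp⟩
  have i32 : IntegrableOn (fun x => B * ((1:ℝ) - cut a b h0 hab x)) Bidisc ν :=
    (i3.sub i2).const_mul B
  have e4 : B * ((∫ x in Bidisc, (1:ℝ) ∂ν) - ∫ x in Bidisc, (cut a b h0 hab x : ℝ) ∂ν)
      = ∫ x in Bidisc, B * ((1:ℝ) - cut a b h0 hab x) ∂ν := by
    rw [← integral_sub i3 i2, ← integral_const_mul]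
  rw [e1, e2, e3, e4, ← integral_add i1 i32]
  refine setIntegral_mono_on iH (i1.add i32) measBid (fun x hx => ?_)
  have hx1 := mem_bidisc.mp hx
  by_cases hxa : ‖x‖ ≤ a
  · rw [cut_one h0 hab hxa]; simp
  · have h1 := hout x (by linarith [not_le.mp hxa]) hx1
    have h2 := cut_nonneg h0 hab x
    have h3 := cut_le_one h0 hab x
    have h4 : (1 - cut a b h0 hab x) * (-H x) ≤ (1 - cut a b h0 hab x) * B :=
      mul_le_mul_of_nonneg_left h1 (by linarith)
    nlinarith

/-- total mass at most `π` -/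
theorem Dat.mass_le (hd : Dat v m M0) (hM0 : 0 ≤ M0) (j : ℕ) :
    ((m j) Bidisc).toReal ≤ Real.pi := by
  -- first with cutoffs
  have key : ∀ (a0 b0 : ℝ) (ha0 : 0 < a0) (hab : a0 < b0), b0 < 1 →
      ∫ x, cut a0 b0 ha0 hab x ∂(m j) ≤ Real.pi := by
    intro a0 b0 ha0 hab hb0
    have hb0p : 0 < b0 := ha0.trans hab
    have hcint : 0 ≤ ∫ x, cut a0 b0 ha0 hab x ∂(m j) :=
      integral_nonneg (fun x => cut_nonneg _ _ _)
    have hmj : ∫ x, cut a0 b0 ha0 hab x ∂(m j) ≤ M0 := by
      have hfin := (hd.e0 j).finite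
      have e2 : ∫ x, cut a0 b0 ha0 hab x ∂(m j)
          = ∫ x in Bidisc, cut a0 b0 ha0 hab x ∂(m j) := by
        rw [setIntegral_eq_integral_of_forall_compl_eq_zero]
        intro x hx
        rw [mem_bidisc, not_lt] at hx
        rw [cut_zero ha0 hab (by linarith)]
      rw [e2]
      calc ∫ x in Bidisc, cut a0 b0 ha0 hab x ∂(m j) ≤ ∫ x in Bidisc, (1:ℝ) ∂(m j) := by
            refine setIntegral_mono_on ?_ ?_ measBid (fun x _ => cut_le_one _ _ _)
            · refine Measure.integrableOn_of_bounded (M := 1) hfin.ne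
                (cut_smooth ha0 hab).continuous.aestronglyMeasurable
                (Eventually.of_forall fun x => ?_)
              rw [Real.norm_eq_abs, abs_of_nonneg (cut_nonneg _ _ _)]; exact cut_le_one _ _ _
            · refine Measure.integrableOn_of_bounded (M := 1) hfin.ne
                aestronglyMeasurable_const (Eventually.of_forall fun x => by simp)
        _ = ((m j) Bidisc).toReal := by simp [Measure.real]
        _ ≤ M0 := hd.mass j
    refine le_of_forall_pos_le_add (fun η hη => ?_)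
    set ε1 := η / (2 * M0 + Real.pi + 1) with hε1
    have hden : 0 < 2 * M0 + Real.pi + 1 := by positivity
    have hε0 : 0 < ε1 := by positivity
    obtain ⟨H, hH, hH1, hH2, a', ha', ha'1, hH3⟩ := exists_test hb0p hb0 hε0
    have ha'b : a' < (a' + 1) / 2 := by linarith
    have hb' : (a' + 1) / 2 < 1 := by linarith
    -- upper bound for every k
    have up : ∀ k ≥ j, ∫ x, cut a0 b0 ha0 hab x * (-H x) ∂(m j)
        ≤ (∫ x, cut a' ((a'+1)/2) ha' ha'b x * (-H x) ∂(m k)) + ε1 * M0 := by
      intro k hk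
      have h1 := hd.dom2 hH ha0 hab hb0 hk
      have h2 := split_int hH (hd.e0 k).finite ha' ha'b hb' hε0.le hH3
      have h3 : 0 ≤ ∫ x, cut a' ((a'+1)/2) ha' ha'b x ∂(m k) :=
        integral_nonneg (fun x => cut_nonneg _ _ _)
      have h4 : ε1 * (((m k) Bidisc).toReal - ∫ x, cut a' ((a'+1)/2) ha' ha'b x ∂(m k))
          ≤ ε1 * M0 := by
        apply mul_le_mul_of_nonneg_left _ hε0.le
        linarith [hd.mass k]
      linarith
    have lim := hd.weak_cut ha' ha'b hb' (g := fun x => -H x) hH.c2.continuous.neg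
    have h5 : ∫ x, cut a0 b0 ha0 hab x * (-H x) ∂(m j)
        ≤ (∫ a in ball (0:ℂ) 1, cut a' ((a'+1)/2) ha' ha'b (a, 0) * (-H (a, 0)))
          + ε1 * M0 := by
      refine ge_of_tendsto (lim.add_const (ε1 * M0)) ?_
      filter_upwards [eventually_ge_atTop j] with k hk
      exact up k hk
    have h6 : ∫ a in ball (0:ℂ) 1, cut a' ((a'+1)/2) ha' ha'b (a, 0) * (-H (a, 0))
        ≤ (1 + ε1) * Real.pi := by
      have hcont : Continuous (fun a : ℂ => cut a' ((a'+1)/2) ha' ha'b ((a, 0) : E)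
          * (-H ((a, 0) : E))) := by
        have c1 := (cut_smooth ha' ha'b).continuous
        have c2 := hH.c2.continuous
        fun_prop
      calc ∫ a in ball (0:ℂ) 1, cut a' ((a'+1)/2) ha' ha'b (a, 0) * (-H (a, 0))
          ≤ ∫ a in ball (0:ℂ) 1, (1 + ε1) := by
            refine setIntegral_mono_on (intOn_ball hcont 1) (integrableOn_const
              (by rw [Complex.volume_ball]; exact ENNReal.mul_ne_top (by simp) (by simp)))
              measurableSet_ball (fun a ha => ?_)
            have ha1 : ‖((a, 0) : E)‖ < 1 := by rw [norm_pair]; exact mem_ball_zero_iff.mp ha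
            have g1 := hH1 _ ha1
            have g2 : 0 ≤ -H ((a, 0) : E) := by linarith [hH.neg _ ha1]
            calc cut a' ((a'+1)/2) ha' ha'b ((a, 0) : E) * (-H ((a, 0) : E))
                ≤ 1 * (-H ((a, 0) : E)) :=
                  mul_le_mul_of_nonneg_right (cut_le_one _ _ _) g2
              _ ≤ 1 + ε1 := by linarith
        _ = (1 + ε1) * Real.pi := by
            rw [setIntegral_const, vol_disc, smul_eq_mul]; ring
    have h7 : (1 - ε1) * ∫ x, cut a0 b0 ha0 hab x ∂(m j)
        ≤ ∫ x, cut a0 b0 ha0 hab x * (-H x) ∂(m j) := by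
      rw [← integral_const_mul]
      have hfin := (hd.e0 j).finite
      obtain ⟨K, hK0, hK⟩ := hH.bound
      have supp0 : ∀ (g : E → ℝ), Continuous g → (∃ K, ∀ x : E, ‖x‖ < 1 → |g x| ≤ K) →
          (∀ x : E, 1 ≤ ‖x‖ → g x = 0) → Integrable g (m j) := by
        rintro g hg ⟨K, hK⟩ hz
        have : IntegrableOn g Bidisc (m j) := by
          refine Measure.integrableOn_of_bounded (M := K) hfin.ne hg.aestronglyMeasurable ?_
          refine (ae_restrict_iff' measBid).mpr (Eventually.of_forall fun x hx => ?_)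
          rw [Real.norm_eq_abs]; exact hK x (mem_bidisc.mp hx)
        rwa [integrableOn_iff_integrable_of_support_subset] at this
        intro x hx
        rw [mem_bidisc]
        by_contra hcon
        exact hx (hz x (not_lt.mp hcon))
      refine integral_mono ?_ ?_ (fun x => ?_)
      · refine supp0 _ (continuous_const.mul (cut_smooth ha0 hab).continuous)
          ⟨|1 - ε1|, fun x _ => ?_⟩ (fun x hx => by
            rw [cut_zero ha0 hab (by linarith), mul_zero])
        rw [abs_mul, abs_of_nonneg (cut_nonneg _ _ x)]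
        exact mul_le_of_le_one_right (abs_nonneg _) (cut_le_one _ _ _)
      · refine supp0 _ ((cut_smooth ha0 hab).continuous.mul hH.c2.continuous.neg)
          ⟨K, fun x hx => ?_⟩ (fun x hx => by
            rw [cut_zero ha0 hab (by linarith), zero_mul])
        rw [abs_mul, abs_neg, abs_of_nonneg (cut_nonneg _ _ x)]
        calc cut a0 b0 ha0 hab x * |H x| ≤ 1 * K :=
              mul_le_mul (cut_le_one _ _ _) (hK x hx.le) (abs_nonneg _) zero_le_one
          _ = K := one_mul K
      · simp only []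
        by_cases hx : ‖x‖ ≤ b0
        · have := hH2 x hx
          have h8 := cut_nonneg ha0 hab x
          nlinarith
        · rw [cut_zero ha0 hab (not_le.mp hx).le]; simp
    have h9 : ε1 * (2 * M0 + Real.pi + 1) = η := by rw [hε1]; field_simp
    nlinarith
  -- exhaustion
  have hfin := (hd.e0 j).finite
  refine le_of_forall_pos_le_add (fun η hη => ?_)
  -- measure of closed balls tends to the measure of the bidisc
  have hunion : Bidisc = ⋃ n : ℕ, closedBall (0:E) (1 - 1 / ((n:ℝ) + 2)) := by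
    ext x
    rw [mem_bidisc, mem_iUnion]
    constructor
    · intro hx
      obtain ⟨n, hn⟩ := exists_nat_one_div_lt (show (0:ℝ) < 1 - ‖x‖ by linarith)
      refine ⟨n, ?_⟩
      rw [mem_closedBall_zero_iff]
      have : (1:ℝ) / ((n:ℝ) + 2) ≤ 1 / ((n:ℝ) + 1) := by
        apply one_div_le_one_div_of_le <;> linarith [show (0:ℝ) ≤ n by positivity]
      linarith
    · rintro ⟨n, hn⟩
      rw [mem_closedBall_zero_iff] at hn
      have : (0:ℝ) < 1 / ((n:ℝ) + 2) := by positivity
      linarith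
  have hmono : Monotone (fun n : ℕ => closedBall (0:E) (1 - 1 / ((n:ℝ) + 2))) := by
    intro a b hab
    apply closedBall_subset_closedBall
    have : (1:ℝ) / ((b:ℝ) + 2) ≤ 1 / ((a:ℝ) + 2) := by
      apply one_div_le_one_div_of_le
      · positivity
      · have : (a:ℝ) ≤ b := by exact_mod_cast hab
        linarith
    linarith
  have hlim : Tendsto (fun n : ℕ => (m j) (closedBall (0:E) (1 - 1 / ((n:ℝ) + 2)))) atTop
      (𝓝 ((m j) Bidisc)) := by
    rw [hunion]
    exact tendsto_measure_iUnion_atTop hmono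
  have hlim2 := (ENNReal.tendsto_toReal hfin.ne).comp hlim
  refine le_of_tendsto' hlim2 (fun n => ?_)
  have ha : (0:ℝ) < 1 - 1 / ((n:ℝ) + 2) := by
    have : (1:ℝ) / ((n:ℝ) + 2) ≤ 1 / 2 := by
      apply one_div_le_one_div_of_le <;> linarith [show (0:ℝ) ≤ n by positivity]
    linarith
  have hp : (0:ℝ) < 1 / ((n:ℝ) + 2) := by positivity
  have hab : 1 - 1 / ((n:ℝ) + 2) < 1 - 1 / (2 * ((n:ℝ) + 2)) := by
    have : (1:ℝ) / (2 * ((n:ℝ) + 2)) = (1 / ((n:ℝ) + 2)) / 2 := by field_simp
    rw [this]; linarith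
  have hb : 1 - 1 / (2 * ((n:ℝ) + 2)) < 1 := by
    have : (0:ℝ) < 1 / (2 * ((n:ℝ) + 2)) := by positivity
    linarith
  have h1 := key _ _ ha hab hb
  have hsub : closedBall (0:E) (1 - 1 / ((n:ℝ) + 2)) ⊆ Bidisc := by
    rw [hunion]; exact subset_iUnion (fun n : ℕ => closedBall (0:E) (1 - 1 / ((n:ℝ) + 2))) n
  have h2 : ((m j) (closedBall (0:E) (1 - 1 / ((n:ℝ) + 2)))).toReal
      ≤ ∫ x, cut _ _ ha hab x ∂(m j) := by
    have e2 : ∫ x, cut _ _ ha hab x ∂(m j) = ∫ x in Bidisc, cut _ _ ha hab x ∂(m j) := by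
      rw [setIntegral_eq_integral_of_forall_compl_eq_zero]
      intro x hx
      rw [mem_bidisc, not_lt] at hx
      rw [cut_zero ha hab (by linarith)]
    rw [e2]
    have hint : IntegrableOn (fun x => (cut _ _ ha hab x : ℝ)) Bidisc (m j) := by
      refine Measure.integrableOn_of_bounded (M := 1) hfin.ne
        (cut_smooth ha hab).continuous.aestronglyMeasurable (Eventually.of_forall fun x => ?_)
      rw [Real.norm_eq_abs, abs_of_nonneg (cut_nonneg _ _ _)]; exact cut_le_one _ _ _
    calc ((m j) (closedBall (0:E) (1 - 1 / ((n:ℝ) + 2)))).toReal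
        = ∫ x in closedBall (0:E) (1 - 1 / ((n:ℝ) + 2)), (1:ℝ) ∂(m j) := by simp [Measure.real]
      _ = ∫ x in closedBall (0:E) (1 - 1 / ((n:ℝ) + 2)), cut _ _ ha hab x ∂(m j) := by
          refine setIntegral_congr_fun measurableSet_closedBall (fun x hx => ?_)
          exact (cut_one ha hab (mem_closedBall_zero_iff.mp hx)).symm
      _ ≤ ∫ x in Bidisc, cut _ _ ha hab x ∂(m j) :=
          setIntegral_mono_set hint (Eventually.of_forall fun x => cut_nonneg _ _ _)
            (Eventually.of_forall hsub)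
  simp only [Function.comp]
  linarith

end

end H13Ceg
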