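import Pool.Agent.H13.Ceg.Jens3

open MeasureTheory Set Filter Topology Metric
open scoped ContDiff ENNReal NNReal

namespace H13Ceg

lemma cont_slice {g : E → ℝ} (hg : Continuous g) : Continuous (fun a : ℂ => g (a, 0)) :=
  hg.comp (by fun_prop)

section
variable {v : ℕ → E → ℝ} {m : ℕ → Measure E} {M0 : ℝ}

lemma Dat.tail (hd : Dat v m M0) (hM0 : 0 ≤ M0) {H : E → ℝ} (hH : Adm H) {η : ℝ} (hη : 0 < η) :
    ∃ K, ∀ k ≥ K, ∫ x in Bidisc, -H x ∂(m k) ≤ (∫ a in ball (0:ℂ) 1, -H (a, 0)) + η := by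
  obtain ⟨B, hB0, hB⟩ := hH.bound
  have hpi := Real.pi_pos
  set e := min (1/2) (η / (8 * Real.pi * (B + 1))) with he
  have he0 : 0 < e := by positivity
  have he1 : e ≤ 1/2 := min_le_left _ _
  have he2 : e ≤ η / (8 * Real.pi * (B + 1)) := min_le_right _ _
  have ha' : (0:ℝ) < 1 - e := by linarith
  have hab : 1 - e < 1 - e / 2 := by linarith
  have hb : 1 - e / 2 < 1 := by linarith
  have w1 := hd.weak_cut ha' hab hb (g := fun x => -H x) hH.c2.continuous.neg
  have w2 := hd.weak_cut ha' hab hb (g := fun _ => (1:ℝ)) continuous_const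
  have w3 := w1.add (((tendsto_const_nhds (x := Real.pi)).sub w2).const_mul B)
  have cH : Continuous (fun a : ℂ => -H ((a, 0) : E)) := cont_slice hH.c2.continuous.neg
  have cc : Continuous (fun a : ℂ => cut (1 - e) (1 - e / 2) ha' hab ((a, 0) : E)) :=
    cont_slice (cut_smooth ha' hab).continuous
  have b1 : ∫ a in ball (0:ℂ) 1, cut (1 - e) (1 - e / 2) ha' hab (a, 0) * (-H (a, 0))
      ≤ ∫ a in ball (0:ℂ) 1, -H (a, 0) := by
    refine setIntegral_mono_on (intOn_ball (cc.mul cH) 1) (intOn_ball cH 1) measurableSet_ball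
      (fun a ha => ?_)
    have ha1 : ‖((a, 0) : E)‖ < 1 := by rw [norm_pair]; exact mem_ball_zero_iff.mp ha
    have g2 : 0 ≤ -H ((a, 0) : E) := by linarith [hH.neg _ ha1]
    calc cut (1 - e) (1 - e / 2) ha' hab ((a, 0) : E) * (-H ((a, 0) : E))
        ≤ 1 * (-H ((a, 0) : E)) := mul_le_mul_of_nonneg_right (cut_le_one _ _ _) g2
      _ = -H ((a, 0) : E) := one_mul _
  have b2 : (1 - e) ^ 2 * Real.pi
      ≤ ∫ a in ball (0:ℂ) 1, cut (1 - e) (1 - e / 2) ha' hab (a, 0) * 1 := by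
    rw [← vol_disc_r ha'.le]
    calc (volume : Measure ℂ).real (ball 0 (1 - e)) = ∫ a in ball (0:ℂ) (1 - e), (1:ℝ) := by simp
      _ = ∫ a in ball (0:ℂ) (1 - e), cut (1 - e) (1 - e / 2) ha' hab (a, 0) * 1 := by
          refine setIntegral_congr_fun measurableSet_ball (fun a ha => ?_)
          simp only [mul_one]
          rw [cut_one ha' hab]
          rw [norm_pair]; exact (mem_ball_zero_iff.mp ha).le
      _ ≤ ∫ a in ball (0:ℂ) 1, cut (1 - e) (1 - e / 2) ha' hab (a, 0) * 1 := by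
          refine setIntegral_mono_set (intOn_ball (cc.mul continuous_const) 1)
            (Eventually.of_forall fun a => ?_)
            (Eventually.of_forall (ball_subset_ball (by linarith)))
          simp only [mul_one]; exact cut_nonneg _ _ _
  have b3 : B * (Real.pi - (1 - e) ^ 2 * Real.pi) ≤ η / 4 := by
    have h1 : B * (Real.pi - (1 - e) ^ 2 * Real.pi) ≤ B * (Real.pi * (2 * e)) := by
      apply mul_le_mul_of_nonneg_left _ hB0
      nlinarith [mul_pos hpi he0, sq_nonneg e]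
    have h2 : e * (8 * Real.pi * (B + 1)) ≤ η := by
      rwa [le_div_iff₀ (by positivity)] at he2
    have h3 : 0 ≤ e * Real.pi := by positivity
    nlinarith
  have ev := w3.eventually (gt_mem_nhds (show _ < (∫ a in ball (0:ℂ) 1, -H (a, 0)) + η by
    have : B * (Real.pi - ∫ a in ball (0:ℂ) 1, cut (1 - e) (1 - e / 2) ha' hab (a, 0) * 1)
        ≤ B * (Real.pi - (1 - e) ^ 2 * Real.pi) := by
      apply mul_le_mul_of_nonneg_left _ hB0; linarith
    linarith))
  obtain ⟨K, hK⟩ := eventually_atTop.mp ev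
  refine ⟨K, fun k hk => ?_⟩
  have h1 := split_int hH (hd.e0 k).finite ha' hab hb (B := B) hB0 (fun x _ hx => by
    have := (abs_le.mp (hB x hx.le)).1; linarith)
  have h2 := hd.mass_le hM0 k
  have h3 := hK k hk
  simp only [mul_one] at h3
  have h4 : B * (((m k) Bidisc).toReal - ∫ x, cut (1 - e) (1 - e / 2) ha' hab x ∂(m k))
      ≤ B * (Real.pi - ∫ x, cut (1 - e) (1 - e / 2) ha' hab x ∂(m k)) := by
    apply mul_le_mul_of_nonneg_left _ hB0; linarith
  linarith

/-- upper bound -/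
theorem Dat.p2 (hd : Dat v m M0) (hM0 : 0 ≤ M0) {H : E → ℝ} (hH : Adm H) {a0 b0 : ℝ}
    (ha0 : 0 < a0) (hab : a0 < b0) (hb1 : b0 < 1) (j n : ℕ) {η : ℝ} (hη : 0 < η) :
    ∃ δ > 0, ∀ φ : ContDiffBump (0 : E), φ.rOut < δ →
      c0 * (∫ x, cut a0 b0 ha0 hab x * (-H x) * dens φ (ps v j n) x)
        ≤ (∫ a in ball (0:ℂ) 1, -H (a, 0)) + η := by
  obtain ⟨K, hK⟩ := hd.tail hM0 hH (η := η / 2) (by linarith)
  obtain ⟨δ, hδ, h⟩ := hd.dom1 hH ha0 hab hb1 (le_max_left j K) n (η := η / 2) (by linarith)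
  refine ⟨δ, hδ, fun φ hφ => ?_⟩
  have h1 := h φ hφ
  have h2 := hK _ (le_max_right j K)
  linarith

/-- convergence for a fixed test function -/
theorem Dat.p3 (hd : Dat v m M0) {h : E → ℝ} (hc : Continuous h)
    (hcs : HasCompactSupport h) {ρ : ℝ} (hρ : ρ < 1) (hsupp : tsupport h ⊆ ball 0 ρ)
    {η : ℝ} (hη : 0 < η) :
    ∃ J : ℕ, ∀ j ≥ J, ∃ N : ℕ, ∀ n ≥ N, ∃ δ > 0, ∀ φ : ContDiffBump (0 : E), φ.rOut < δ →
      |c0 * (∫ x, h x * dens φ (ps v j n) x) - ∫ a in ball (0:ℂ) 1, h (a, 0)| ≤ η := by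
  have hw := hd.weak h hc hcs (by
    rw [bidisc_eq]; exact hsupp.trans (ball_subset_ball hρ.le))
  rw [integral_lam hc] at hw
  obtain ⟨J, hJ⟩ := Metric.tendsto_atTop.mp hw (η / 2) (by linarith)
  refine ⟨J, fun j hj => ?_⟩
  obtain ⟨N, hN⟩ := hd.conv j hc hcs hρ hsupp (η := η / 2) (by linarith)
  refine ⟨N, fun n hn => ?_⟩
  obtain ⟨δ, hδ, h1⟩ := hN n hn
  refine ⟨δ, hδ, fun φ hφ => ?_⟩
  have a1 := h1 φ hφ
  have a2 := hJ j hj
  rw [Real.dist_eq] at a2
  have a3 := abs_sub_le (c0 * (∫ x, h x * dens φ (ps v j n) x)) (∫ x, h x ∂(m j))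
    (∫ a in ball (0:ℂ) 1, h (a, 0))
  linarith

/-- a nonzero continuous majorant -/
theorem Dat.p1 (hd : Dat v m M0) : ∃ ψ : E → ℝ, CC ψ ∧ (∃ x : E, ‖x‖ < 1 ∧ ψ x < 0) ∧
    ∃ J : ℕ, ∀ j ≥ J, ∀ η > 0, ∃ N : ℕ, ∀ n ≥ N, ∀ x, ps v j n x ≤ ψ x + η := by
  have h0 : (0:ℝ) < 1/4 := by norm_num
  have h1 : (1/4:ℝ) < 1/2 := by norm_num
  have hpi := Real.pi_pos
  have cc : Continuous (fun a : ℂ => cut (1/4) (1/2) h0 h1 ((a, 0) : E)) :=
    cont_slice (cut_smooth h0 h1).continuous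
  have hpos : Real.pi / 16 ≤ ∫ a in ball (0:ℂ) 1, cut (1/4) (1/2) h0 h1 (a, 0) := by
    have e : Real.pi / 16 = (volume : Measure ℂ).real (ball 0 (1/4)) := by
      rw [vol_disc_r (by norm_num)]; ring
    rw [e]
    calc (volume : Measure ℂ).real (ball 0 (1/4)) = ∫ a in ball (0:ℂ) (1/4), (1:ℝ) := by simp
      _ = ∫ a in ball (0:ℂ) (1/4), cut (1/4) (1/2) h0 h1 (a, 0) := by
          refine setIntegral_congr_fun measurableSet_ball (fun a ha => ?_)
          show (1:ℝ) = _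
          rw [cut_one h0 h1]
          rw [norm_pair]; exact (mem_ball_zero_iff.mp ha).le
      _ ≤ ∫ a in ball (0:ℂ) 1, cut (1/4) (1/2) h0 h1 (a, 0) := by
          refine setIntegral_mono_set (intOn_ball cc 1)
            (Eventually.of_forall fun a => cut_nonneg _ _ _)
            (Eventually.of_forall (ball_subset_ball (by norm_num)))
  obtain ⟨J, hJ⟩ := hd.p3 (h := cut (1/4) (1/2) h0 h1) (cut_smooth h0 h1).continuous
    (cut_compact h0 h1) (ρ := 3/4) (by norm_num) (by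
      have := tsupport_cut_mul h0 h1 (fun _ => (1:ℝ))
      simp only [mul_one] at this
      exact this.trans (closedBall_subset_ball (by norm_num))) (η := Real.pi / 32) (by positivity)
  obtain ⟨N, hN⟩ := hJ J le_rfl
  obtain ⟨δ, hδ, h⟩ := hN N le_rfl
  refine ⟨ps v J N, hd.cc J N, ?_, J, fun j hj η hη => ?_⟩
  · by_contra hcon
    push Not at hcon
    have hz : ps v J N = fun _ => 0 := by
      funext x
      by_cases hx : ‖x‖ < 1
      · exact le_antisymm ((hd.cc J N).nonpos x) (hcon x hx)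
      · exact (hd.cc J N).zero x (not_lt.mp hx)
    have hφ := h (sb δ hδ) (by show δ / 2 < δ; linarith)
    have hd0 : ∀ x, dens (sb δ hδ) (ps v J N) x = 0 := by
      intro x
      unfold dens
      have : moll (sb δ hδ) (ps v J N) = fun _ => 0 := by
        rw [hz]; funext y
        exact moll_eq_of (C := 0) (sb δ hδ) ⟨measurable_const, fun x => by simp⟩ (fun t _ => rfl)
      rw [this]
      exact MM_const_left 0 _ x
    simp only [hd0, mul_zero, integral_zero] at hφ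
    have := (abs_le.mp hφ).1
    linarith
  · obtain ⟨N', hN'⟩ := dini (fun n' => hd.cc j n') (hd.cc J N) (fun n' x => hd.ps_anti j n' x)
      (fun x => hd.ps_lim j x) (fun x => (hd.ext_anti hj x).trans (hd.ext_le J N x)) hη
    exact ⟨N', hN'⟩

end

end H13Ceg
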