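import Pool.Agent.H13.Ceg.Calc

open MeasureTheory Set Filter Topology Metric
open scoped ContDiff ENNReal

namespace H13Ceg

lemma D_D_eq {a b : E} {f : E → ℝ} (hf : ContDiff ℝ 2 f) (x : E) :
    D a (D b f) x = fderiv ℝ (fderiv ℝ f) x a b := by
  have hd : DifferentiableAt ℝ (fderiv ℝ f) x :=
    ((hf.fderiv_right (m := 1) (by norm_num)).differentiable (by norm_num)) x
  have : HasFDerivAt (fun y => fderiv ℝ f y b)
      ((ContinuousLinearMap.apply ℝ ℝ b).comp (fderiv ℝ (fderiv ℝ f) x)) x :=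
    (ContinuousLinearMap.apply ℝ ℝ b).hasFDerivAt.comp x hd.hasFDerivAt
  unfold D
  rw [this.fderiv]
  rfl

/-- the Levi form -/
noncomputable def Lev (f : E → ℝ) (x v : E) : ℝ :=
  fderiv ℝ (fderiv ℝ f) x v v +
    fderiv ℝ (fderiv ℝ f) x (Complex.I • v) (Complex.I • v)

lemma taylor2 {f : E → ℝ} (hf : ContDiff ℝ 2 f) (x : E) {κ δ : ℝ} (hκ0 : 0 ≤ κ)
    (hκ : ∀ h : E, ‖h‖ ≤ δ → ‖fderiv ℝ f (x + h) - fderiv ℝ f x
      - fderiv ℝ (fderiv ℝ f) x h‖ ≤ κ * ‖h‖) (h : E) (hh : ‖h‖ ≤ δ) :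
    |f (x + h) - f x - fderiv ℝ f x h - (1/2) * fderiv ℝ (fderiv ℝ f) x h h| ≤ κ * ‖h‖ ^ 2 := by
  set L := fderiv ℝ f x with hL
  set B := fderiv ℝ (fderiv ℝ f) x with hB
  have hsym : ∀ a b, B a b = B b a := by
    have hs : IsSymmSndFDerivAt ℝ f x := (hf.contDiffAt (x := x)).isSymmSndFDerivAt (by simp)
    intro a b
    exact hs.eq a b
  let r : E → ℝ := fun k => f (x + k) - f x - L k - (1/2) * B k k
  have hr : ∀ k ∈ closedBall (0 : E) ‖h‖,
      HasFDerivWithinAt r (fderiv ℝ f (x + k) - L - B k) (closedBall (0:E) ‖h‖) k := by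
    intro k _
    have h1 : HasFDerivAt (fun k => f (x + k)) (fderiv ℝ f (x + k)) k := by
      have h10 : HasFDerivAt f (fderiv ℝ f (x + k)) (x + k) :=
        ((hf.differentiable (by norm_num)) (x + k)).hasFDerivAt
      have h11 : HasFDerivAt (fun k : E => x + k) (ContinuousLinearMap.id ℝ E) k :=
        (hasFDerivAt_id k).const_add x
      exact (h10.comp k h11).congr_fderiv (ContinuousLinearMap.comp_id _)
    have h2 : HasFDerivAt (fun k => L k) L k := L.hasFDerivAt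
    have h3 : HasFDerivAt (fun k => B k k) (B.flip k + B k) k := by
      have hb : HasFDerivAt (fun k => B k) B k := B.hasFDerivAt
      have := hb.clm_apply (hasFDerivAt_id k)
      refine this.congr_fderiv ?_
      ext v <;> simp [add_comm]
    have h4 := ((h1.sub_const (f x)).sub h2).sub (h3.const_mul (1/2))
    refine (h4.congr_fderiv ?_).hasFDerivWithinAt
    apply ContinuousLinearMap.ext
    intro v
    simp only [_root_.sub_apply, _root_.smul_apply, _root_.add_apply,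
      ContinuousLinearMap.flip_apply, smul_eq_mul]
    rw [hsym v k]
    ring
  have hbound : ∀ k ∈ closedBall (0 : E) ‖h‖, ‖fderiv ℝ f (x + k) - L - B k‖ ≤ κ * ‖h‖ := by
    intro k hk
    rw [mem_closedBall_zero_iff] at hk
    refine (hκ k (hk.trans hh)).trans ?_
    exact mul_le_mul_of_nonneg_left hk hκ0
  have hmv := (convex_closedBall (0 : E) ‖h‖).norm_image_sub_le_of_norm_hasFDerivWithin_le
    hr hbound (mem_closedBall_self (norm_nonneg h)) (mem_closedBall_zero_iff.mpr le_rfl)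
  have hr0 : r 0 = 0 := by simp [r]
  rw [hr0, sub_zero, sub_zero] at hmv
  rw [Real.norm_eq_abs] at hmv
  calc |f (x + h) - f x - L h - (1/2) * B h h| = |r h| := rfl
    _ ≤ κ * ‖h‖ * ‖h‖ := hmv
    _ = κ * ‖h‖ ^ 2 := by ring

lemma circ_smul (θ : ℝ) (v : E) :
    circleMap 0 1 θ • v = Real.cos θ • v + Real.sin θ • (Complex.I • v) := by
  have : circleMap 0 1 θ = (Real.cos θ : ℂ) + (Real.sin θ : ℂ) * Complex.I := by
    simp [circleMap, Complex.exp_mul_I]
  rw [this, add_smul, mul_smul]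
  simp [Prod.smul_def]

lemma norm_circ_smul (θ : ℝ) (v : E) : ‖circleMap 0 1 θ • v‖ = ‖v‖ := by
  rw [norm_smul]; simp

/-- circle average of a function near its second Taylor polynomial -/
lemma circleAverage_taylor {f : E → ℝ} (hf : ContDiff ℝ 2 f) (x : E) {κ δ : ℝ} (hκ0 : 0 ≤ κ)
    (hκ : ∀ h : E, ‖h‖ ≤ δ → ‖fderiv ℝ f (x + h) - fderiv ℝ f x
      - fderiv ℝ (fderiv ℝ f) x h‖ ≤ κ * ‖h‖) (v : E) (hv : ‖v‖ ≤ δ) :
    |Real.circleAverage (fun ζ : ℂ => f (x + ζ • v)) 0 1 - f x - (1/4) * Lev f x v|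
      ≤ κ * ‖v‖ ^ 2 := by
  set L := fderiv ℝ f x with hL
  set B := fderiv ℝ (fderiv ℝ f) x with hB
  have hcont : Continuous (fun θ : ℝ => f (x + circleMap 0 1 θ • v)) := by
    have := hf.continuous
    fun_prop
  have e0 : Real.circleAverage (fun ζ : ℂ => f (x + ζ • v)) 0 1
      = (2 * Real.pi)⁻¹ * ∫ θ in (0:ℝ)..(2 * Real.pi), f (x + circleMap 0 1 θ • v) := by
    rw [Real.circleAverage_def]; rfl
  -- the quadratic model
  let Q : ℝ → ℝ := fun θ => f x + L (circleMap 0 1 θ • v)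
    + (1/2) * B (circleMap 0 1 θ • v) (circleMap 0 1 θ • v)
  have hQe : ∀ θ, Q θ = f x + (Real.cos θ * L v + Real.sin θ * L (Complex.I • v))
      + (1/2) * (Real.cos θ ^ 2 * B v v
        + Real.cos θ * Real.sin θ * (B v (Complex.I • v) + B (Complex.I • v) v)
        + Real.sin θ ^ 2 * B (Complex.I • v) (Complex.I • v)) := by
    intro θ
    simp only [Q]
    rw [circ_smul]
    simp only [map_add, map_smul, _root_.add_apply, _root_.smul_apply, smul_eq_mul]
    ring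
  have hQc : Continuous Q := by
    have : Q = fun θ => f x + (Real.cos θ * L v + Real.sin θ * L (Complex.I • v))
      + (1/2) * (Real.cos θ ^ 2 * B v v
        + Real.cos θ * Real.sin θ * (B v (Complex.I • v) + B (Complex.I • v) v)
        + Real.sin θ ^ 2 * B (Complex.I • v) (Complex.I • v)) := funext hQe
    rw [this]
    fun_prop
  have hQi : ∫ θ in (0:ℝ)..(2 * Real.pi), Q θ
      = 2 * Real.pi * (f x + (1/4) * Lev f x v) := by
    have i1 : ∫ θ in (0:ℝ)..(2 * Real.pi), Real.cos θ = 0 := by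
      rw [integral_cos]; simp
    have i2 : ∫ θ in (0:ℝ)..(2 * Real.pi), Real.sin θ = 0 := by
      rw [integral_sin]; simp
    have i3 : ∫ θ in (0:ℝ)..(2 * Real.pi), Real.cos θ ^ 2 = Real.pi := by
      rw [integral_cos_sq]; simp
    have i4 : ∫ θ in (0:ℝ)..(2 * Real.pi), Real.sin θ ^ 2 = Real.pi := by
      rw [integral_sin_sq]; simp
    have i5 : ∫ θ in (0:ℝ)..(2 * Real.pi), Real.cos θ * Real.sin θ = 0 := by
      have : ∫ θ in (0:ℝ)..(2 * Real.pi), Real.sin θ * Real.cos θ = 0 := by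
        rw [integral_sin_mul_cos₁]; simp
      rw [← this]
      congr 1
      ext θ; ring
    have c1 : IntervalIntegrable (fun θ => Real.cos θ) volume 0 (2 * Real.pi) :=
      Real.continuous_cos.intervalIntegrable _ _
    have c2 : IntervalIntegrable (fun θ => Real.sin θ) volume 0 (2 * Real.pi) :=
      Real.continuous_sin.intervalIntegrable _ _
    have c3 : IntervalIntegrable (fun θ => Real.cos θ ^ 2) volume 0 (2 * Real.pi) :=
      (Real.continuous_cos.pow 2).intervalIntegrable _ _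
    have c4 : IntervalIntegrable (fun θ => Real.sin θ ^ 2) volume 0 (2 * Real.pi) :=
      (Real.continuous_sin.pow 2).intervalIntegrable _ _
    have c5 : IntervalIntegrable (fun θ => Real.cos θ * Real.sin θ) volume 0 (2 * Real.pi) :=
      (Real.continuous_cos.mul Real.continuous_sin).intervalIntegrable _ _
    have hfe : ∀ θ, Q θ = (f x) + (L v) * Real.cos θ + (L (Complex.I • v)) * Real.sin θ
        + ((1/2) * B v v) * Real.cos θ ^ 2
        + ((1/2) * (B v (Complex.I • v) + B (Complex.I • v) v)) * (Real.cos θ * Real.sin θ)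
        + ((1/2) * B (Complex.I • v) (Complex.I • v)) * Real.sin θ ^ 2 := by
      intro θ; rw [hQe]; ring
    simp_rw [hfe]
    have k0 : IntervalIntegrable (fun _ : ℝ => f x) volume 0 (2 * Real.pi) :=
      intervalIntegrable_const
    have k1 := c1.const_mul (L v)
    have k2 := c2.const_mul (L (Complex.I • v))
    have k3 := c3.const_mul ((1/2) * B v v)
    have k5 := c5.const_mul ((1/2) * (B v (Complex.I • v) + B (Complex.I • v) v))
    have k4 := c4.const_mul ((1/2) * B (Complex.I • v) (Complex.I • v))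
    rw [intervalIntegral.integral_add ((((k0.add k1).add k2).add k3).add k5) k4,
      intervalIntegral.integral_add (((k0.add k1).add k2).add k3) k5,
      intervalIntegral.integral_add ((k0.add k1).add k2) k3,
      intervalIntegral.integral_add (k0.add k1) k2,
      intervalIntegral.integral_add k0 k1]
    simp only [intervalIntegral.integral_const_mul, intervalIntegral.integral_const]
    rw [i1, i2, i3, i4, i5]
    simp only [smul_eq_mul, Lev]
    ring
  have hpi : 0 < Real.pi := Real.pi_pos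
  have hdiff : |∫ θ in (0:ℝ)..(2 * Real.pi), (f (x + circleMap 0 1 θ • v) - Q θ)|
      ≤ κ * ‖v‖ ^ 2 * (2 * Real.pi) := by
    have hb : ∀ θ ∈ Set.uIoc (0:ℝ) (2 * Real.pi), ‖f (x + circleMap 0 1 θ • v) - Q θ‖ ≤ κ * ‖v‖ ^ 2 := by
      intro θ _
      have h1 := taylor2 hf x hκ0 hκ (circleMap 0 1 θ • v) (by rw [norm_circ_smul]; exact hv)
      rw [norm_circ_smul] at h1
      rw [Real.norm_eq_abs]
      have : f (x + circleMap 0 1 θ • v) - Q θ = f (x + circleMap 0 1 θ • v) - f x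
          - fderiv ℝ f x (circleMap 0 1 θ • v)
          - (1/2) * fderiv ℝ (fderiv ℝ f) x (circleMap 0 1 θ • v) (circleMap 0 1 θ • v) := by
        simp only [Q]; ring
      rw [this]; exact h1
    have := intervalIntegral.norm_integral_le_of_norm_le_const hb
    rw [Real.norm_eq_abs, sub_zero, abs_of_pos (by positivity : (0:ℝ) < 2 * Real.pi)] at this
    exact this
  rw [intervalIntegral.integral_sub (hcont.intervalIntegrable _ _) (hQc.intervalIntegrable _ _),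
    hQi] at hdiff
  rw [e0]
  set J := ∫ θ in (0:ℝ)..(2 * Real.pi), f (x + circleMap 0 1 θ • v)
  have hrew : (2 * Real.pi)⁻¹ * J - f x - (1/4) * Lev f x v
      = (2 * Real.pi)⁻¹ * (J - 2 * Real.pi * (f x + (1/4) * Lev f x v)) := by
    field_simp
    ring
  rw [hrew, abs_mul, abs_of_pos (by positivity : (0:ℝ) < (2 * Real.pi)⁻¹)]
  calc (2 * Real.pi)⁻¹ * |J - 2 * Real.pi * (f x + (1/4) * Lev f x v)|
      ≤ (2 * Real.pi)⁻¹ * (κ * ‖v‖ ^ 2 * (2 * Real.pi)) :=
        mul_le_mul_of_nonneg_left hdiff (by positivity)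
    _ = κ * ‖v‖ ^ 2 := by field_simp


lemma Lev_smul {f : E → ℝ} (x v : E) (t : ℝ) : Lev f x (t • v) = t ^ 2 * Lev f x v := by
  unfold Lev
  rw [smul_comm Complex.I t v]
  simp only [map_smul, _root_.smul_apply, smul_eq_mul]
  ring

lemma Lev_nonneg_of_submean {f : E → ℝ} (hf : ContDiff ℝ 2 f) (x v : E)
    (h : ∃ δ > 0, ∀ t : ℝ, 0 < t → t < δ →
      f x ≤ Real.circleAverage (fun ζ : ℂ => f (x + ζ • (t • v))) 0 1) :
    0 ≤ Lev f x v := by
  obtain ⟨δ0, hδ0, hsub⟩ := h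
  by_contra hneg
  push Not at hneg
  set A := -Lev f x v with hA
  have hApos : 0 < A := by linarith
  -- choose ε
  set ε := A / (8 * (‖v‖ ^ 2 + 1)) with hε
  have hv1 : 0 < ‖v‖ ^ 2 + 1 := by positivity
  have hεpos : 0 < ε := by positivity
  have hd : HasFDerivAt (fderiv ℝ f) (fderiv ℝ (fderiv ℝ f) x) x :=
    (((hf.fderiv_right (m := 1) (by norm_num)).differentiable (by norm_num)) x).hasFDerivAt
  have hlo := hd.isLittleO
  have hev := hlo.def hεpos
  rw [Metric.eventually_nhds_iff_ball] at hev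
  obtain ⟨δ1, hδ1, hb⟩ := hev
  have hκ : ∀ h : E, ‖h‖ ≤ δ1 / 2 → ‖fderiv ℝ f (x + h) - fderiv ℝ f x
      - fderiv ℝ (fderiv ℝ f) x h‖ ≤ ε * ‖h‖ := by
    intro h hh
    have := hb (x + h) (by
      rw [mem_ball, dist_eq_norm, add_sub_cancel_left]; linarith)
    simpa using this
  obtain ⟨t, ht0, ht1, ht2⟩ : ∃ t : ℝ, 0 < t ∧ t < δ0 ∧ t * ‖v‖ ≤ δ1 / 2 := by
    refine ⟨min (δ0 / 2) (δ1 / (2 * (‖v‖ + 1))), by positivity, ?_, ?_⟩
    · exact (min_le_left _ _).trans_lt (by linarith)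
    · calc min (δ0 / 2) (δ1 / (2 * (‖v‖ + 1))) * ‖v‖ ≤ δ1 / (2 * (‖v‖ + 1)) * ‖v‖ :=
            mul_le_mul_of_nonneg_right (min_le_right _ _) (norm_nonneg _)
        _ ≤ δ1 / (2 * (‖v‖ + 1)) * (‖v‖ + 1) := by gcongr; linarith
        _ = δ1 / 2 := by field_simp
  have htv : ‖t • v‖ = t * ‖v‖ := by rw [norm_smul, Real.norm_eq_abs, abs_of_pos ht0]
  have key := circleAverage_taylor hf x hεpos.le hκ (t • v) (by rw [htv]; exact ht2)
  have hs := hsub t ht0 ht1
  rw [Lev_smul, htv] at key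
  have k2 := (abs_le.mp key).2
  have : 0 ≤ (1/4) * (t ^ 2 * Lev f x v) + ε * (t * ‖v‖) ^ 2 := by linarith
  have h3 : 0 ≤ t ^ 2 * (-(A / 4) + ε * ‖v‖ ^ 2) := by
    have : (1/4) * (t ^ 2 * Lev f x v) + ε * (t * ‖v‖) ^ 2 = t ^ 2 * (-(A / 4) + ε * ‖v‖ ^ 2) := by
      rw [hA]; ring
    linarith
  have h4 : ε * ‖v‖ ^ 2 ≤ A / 8 := by
    rw [hε, div_mul_eq_mul_div, div_le_iff₀ (by positivity)]
    nlinarith [sq_nonneg ‖v‖]
  have h5 : t ^ 2 * (-(A / 4) + ε * ‖v‖ ^ 2) < 0 :=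
    mul_neg_of_pos_of_neg (by positivity) (by linarith)
  linarith

/-- real-valued plurisubharmonic functions -/
def PSHOn (U : Set E) (u : E → ℝ) : Prop :=
  UpperSemicontinuousOn u U ∧
    ∀ x v : E, (∀ ζ : ℂ, ‖ζ‖ ≤ 1 → x + ζ • v ∈ U) →
      u x ≤ Real.circleAverage (fun ζ : ℂ => u (x + ζ • v)) 0 1

lemma Lev_nonneg {U : Set E} (hU : IsOpen U) {f : E → ℝ} (hf : ContDiff ℝ 2 f)
    (hp : ∀ x v : E, (∀ ζ : ℂ, ‖ζ‖ ≤ 1 → x + ζ • v ∈ U) →
      f x ≤ Real.circleAverage (fun ζ : ℂ => f (x + ζ • v)) 0 1) {x : E} (hx : x ∈ U) (v : E) :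
    0 ≤ Lev f x v := by
  apply Lev_nonneg_of_submean hf
  obtain ⟨δ, hδ, hb⟩ := Metric.isOpen_iff.mp hU x hx
  refine ⟨δ / (‖v‖ + 1), by positivity, fun t ht0 ht1 => ?_⟩
  apply hp
  intro ζ hζ
  apply hb
  rw [mem_ball, dist_eq_norm, add_sub_cancel_left, norm_smul, norm_smul, Real.norm_eq_abs,
    abs_of_pos ht0]
  have h1 : t * (‖v‖ + 1) < δ := by rwa [lt_div_iff₀ (by positivity)] at ht1
  calc ‖ζ‖ * (t * ‖v‖) ≤ 1 * (t * ‖v‖) := by gcongr
    _ ≤ t * (‖v‖ + 1) := by nlinarith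
    _ < δ := h1

lemma Lev_formula {f : E → ℝ} (hf : ContDiff ℝ 2 f) (x : E) (s u1 u2 : ℝ) :
    Lev f x (s • e1 + u1 • e3 + u2 • e4) =
      s ^ 2 * Lz f x + (u1 ^ 2 + u2 ^ 2) * Lw f x + 2 * s * (u1 * Ma f x + u2 * Mb f x) := by
  have hI : Complex.I • (s • e1 + u1 • e3 + u2 • e4) = s • e2 + u1 • e4 - u2 • e3 := by
    simp only [e1, e2, e3, e4, smul_add, Prod.smul_mk, smul_eq_mul, Prod.mk_add_mk,
      Prod.mk_sub_mk, Complex.real_smul, mul_zero, mul_one, add_zero, zero_add, sub_zero]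
    apply Prod.ext
    · simp only []; ring
    · simp only []
      have := Complex.I_mul_I
      linear_combination (u2 : ℂ) * this
  set B := fderiv ℝ (fderiv ℝ f) x with hB
  have hsym : ∀ a b, B a b = B b a := by
    have hs : IsSymmSndFDerivAt ℝ f x := (hf.contDiffAt (x := x)).isSymmSndFDerivAt (by simp)
    intro a b
    exact hs.eq a b
  unfold Lev Lz Lw Ma Mb
  rw [hI]
  simp only [D_D_eq hf, ← hB]
  simp only [map_add, map_sub, map_smul, _root_.add_apply, _root_.sub_apply, _root_.smul_apply,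
    smul_eq_mul]
  rw [hsym e3 e1, hsym e4 e1, hsym e4 e3, hsym e4 e2, hsym e3 e2]
  ring

lemma Lz_nonneg {f : E → ℝ} (hf : ContDiff ℝ 2 f) {x : E} (h : ∀ v, 0 ≤ Lev f x v) :
    0 ≤ Lz f x := by
  have := h ((1:ℝ) • e1 + (0:ℝ) • e3 + (0:ℝ) • e4)
  rw [Lev_formula hf] at this
  linarith

lemma Lw_nonneg {f : E → ℝ} (hf : ContDiff ℝ 2 f) {x : E} (h : ∀ v, 0 ≤ Lev f x v) :
    0 ≤ Lw f x := by
  have := h ((0:ℝ) • e1 + (1:ℝ) • e3 + (0:ℝ) • e4)
  rw [Lev_formula hf] at this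
  linarith

lemma Mab_le {f : E → ℝ} (hf : ContDiff ℝ 2 f) {x : E} (h : ∀ v, 0 ≤ Lev f x v) :
    Ma f x ^ 2 + Mb f x ^ 2 ≤ Lz f x * Lw f x := by
  have hz := Lz_nonneg hf h
  have hw := Lw_nonneg hf h
  rcases hw.eq_or_lt with hw0 | hwpos
  · -- `Lw = 0`
    by_contra hcon
    push Not at hcon
    rw [← hw0, mul_zero] at hcon
    set m := Ma f x ^ 2 + Mb f x ^ 2 with hm
    have := h ((1:ℝ) • e1 + (-((Lz f x + 1) / m) * Ma f x) • e3
      + (-((Lz f x + 1) / m) * Mb f x) • e4)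
    rw [Lev_formula hf, ← hw0] at this
    have h2 : (1:ℝ) ^ 2 * Lz f x + ((-((Lz f x + 1) / m) * Ma f x) ^ 2
        + (-((Lz f x + 1) / m) * Mb f x) ^ 2) * 0
        + 2 * 1 * (-((Lz f x + 1) / m) * Ma f x * Ma f x + -((Lz f x + 1) / m) * Mb f x * Mb f x)
        = Lz f x - 2 * (((Lz f x + 1) / m) * m) := by
      rw [hm]; ring
    rw [h2, div_mul_cancel₀ _ hcon.ne'] at this
    linarith
  · have := h ((Lw f x) • e1 + (-Ma f x) • e3 + (-Mb f x) • e4)
    rw [Lev_formula hf] at this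
    have h2 : Lw f x ^ 2 * Lz f x + ((-Ma f x) ^ 2 + (-Mb f x) ^ 2) * Lw f x
        + 2 * Lw f x * (-Ma f x * Ma f x + -Mb f x * Mb f x)
        = Lw f x * (Lz f x * Lw f x - (Ma f x ^ 2 + Mb f x ^ 2)) := by ring
    rw [h2] at this
    have h3 := nonneg_of_mul_nonneg_right this hwpos
    linarith

lemma MM_nonneg {f g : E → ℝ} (hf : ContDiff ℝ 2 f) (hg : ContDiff ℝ 2 g) {x : E}
    (h : ∀ v, 0 ≤ Lev f x v) (h' : ∀ v, 0 ≤ Lev g x v) : 0 ≤ MM f g x := by
  have hz := Lz_nonneg hf h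
  have hw := Lw_nonneg hf h
  have hz' := Lz_nonneg hg h'
  have hw' := Lw_nonneg hg h'
  have hm := Mab_le hf h
  have hm' := Mab_le hg h'
  unfold MM
  set a := Ma f x
  set b := Mb f x
  set a' := Ma g x
  set b' := Mb g x
  set Z := Lz f x
  set W := Lw f x
  set Z' := Lz g x
  set W' := Lw g x
  have h1 : (a * a' + b * b') ^ 2 ≤ (a ^ 2 + b ^ 2) * (a' ^ 2 + b' ^ 2) := by
    nlinarith [sq_nonneg (a * b' - b * a')]
  have h2 : (a ^ 2 + b ^ 2) * (a' ^ 2 + b' ^ 2) ≤ (Z * W) * (Z' * W') :=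
    mul_le_mul hm hm' (by positivity) (by positivity)
  have h3 : (2 * (a * a' + b * b')) ^ 2 ≤ (Z * W' + W * Z') ^ 2 := by
    nlinarith [sq_nonneg (Z * W' - W * Z')]
  have h4 : 2 * (a * a' + b * b') ≤ Z * W' + W * Z' := by
    have := abs_le_of_sq_le_sq' h3 (by positivity)
    exact this.2
  linarith

lemma abs_MM_le {ψ q : E → ℝ} (hq : ContDiff ℝ 2 q) {x : E}
    (h : ∀ v, 0 ≤ Lev q x v) {C : ℝ} (h1 : |Lz ψ x| ≤ C) (h2 : |Lw ψ x| ≤ C)
    (h3 : |Ma ψ x| ≤ C) (h4 : |Mb ψ x| ≤ C) :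
    |MM ψ q x| ≤ 3 * C * (Lz q x + Lw q x) := by
  have hz := Lz_nonneg hq h
  have hw := Lw_nonneg hq h
  have hm := Mab_le hq h
  unfold MM
  set a := Ma q x
  set b := Mb q x
  set Z := Lz q x
  set W := Lw q x
  have hC : 0 ≤ C := (abs_nonneg _).trans h1
  have hab : |a| + |b| ≤ Z + W := by
    have : (|a| + |b|) ^ 2 ≤ (Z + W) ^ 2 := by
      have e1 : (|a| + |b|) ^ 2 ≤ 2 * (a ^ 2 + b ^ 2) := by
        nlinarith [sq_nonneg (|a| - |b|), sq_abs a, sq_abs b]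
      nlinarith [sq_nonneg (Z - W)]
    exact abs_le_of_sq_le_sq' this (by positivity) |>.2
  have t1 : |Lz ψ x * W| ≤ C * W := by
    rw [abs_mul, abs_of_nonneg hw]; gcongr
  have t2 : |Lw ψ x * Z| ≤ C * Z := by
    rw [abs_mul, abs_of_nonneg hz]; gcongr
  have t3 : |Ma ψ x * a| ≤ C * |a| := by
    rw [abs_mul]; gcongr
  have t4 : |Mb ψ x * b| ≤ C * |b| := by
    rw [abs_mul]; gcongr
  have t5 : |Lz ψ x * W + Lw ψ x * Z - 2 * (Ma ψ x * a + Mb ψ x * b)|
      ≤ |Lz ψ x * W| + |Lw ψ x * Z| + 2 * (|Ma ψ x * a| + |Mb ψ x * b|) := by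
    rw [abs_le]
    constructor
    · linarith [neg_abs_le (Lz ψ x * W), neg_abs_le (Lw ψ x * Z), le_abs_self (Ma ψ x * a),
        le_abs_self (Mb ψ x * b)]
    · linarith [le_abs_self (Lz ψ x * W), le_abs_self (Lw ψ x * Z), neg_abs_le (Ma ψ x * a),
        neg_abs_le (Mb ψ x * b)]
  have : C * (|a| + |b|) ≤ C * (Z + W) := by gcongr
  nlinarith

end H13Ceg
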