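import Pool.Agent.H13.Ceg.Jens4

open MeasureTheory Set Filter Topology Metric
open scoped ContDiff ENNReal NNReal

namespace H13Ceg

/-- the circle meets a point only for a null set of angles -/
lemma circ_ne_ae (z w : ℂ) (hz : z ≠ 0) : ∀ᵐ θ : ℝ, z + circleMap 0 1 θ * w ≠ 0 := by
  have hc : Set.Countable {θ : ℝ | z + circleMap 0 1 θ * w = 0} := by
    by_cases hne : ∃ θ0 : ℝ, z + circleMap 0 1 θ0 * w = 0
    · obtain ⟨θ0, h0⟩ := hne
      have hw : w ≠ 0 := by
        intro h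
        rw [h, mul_zero, add_zero] at h0
        exact hz h0
      refine (Set.countable_range (fun n : ℤ => θ0 + n * (2 * Real.pi))).mono ?_
      intro θ hθ
      have hθ' : z + circleMap 0 1 θ * w = 0 := hθ
      have h1 : circleMap 0 1 θ * w = circleMap 0 1 θ0 * w := by
        linear_combination hθ' - h0
      have h2 := mul_right_cancel₀ hw h1
      simp only [circleMap, zero_add, Complex.ofReal_one, one_mul] at h2
      obtain ⟨n, hn⟩ := Complex.exp_eq_exp_iff_exists_int.1 h2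
      refine ⟨n, ?_⟩
      have h3 : ((θ : ℂ)) = θ0 + n * (2 * Real.pi) := by
        have : (θ : ℂ) * Complex.I = (θ0 + n * (2 * Real.pi)) * Complex.I := by
          rw [hn]; ring
        exact mul_right_cancel₀ Complex.I_ne_zero this
      have h4 : ((θ : ℝ) : ℂ) = ((θ0 + n * (2 * Real.pi) : ℝ) : ℂ) := by
        rw [h3]; push_cast; ring
      exact (Complex.ofReal_injective h4).symm
    · have : {θ : ℝ | z + circleMap 0 1 θ * w = 0} = ∅ := by
        ext θ
        simp only [Set.mem_ofPred_eq, Set.mem_empty_iff_false, iff_false]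
        exact fun h => hne ⟨θ, h⟩
      rw [this]
      exact Set.countable_empty
  filter_upwards [hc.ae_notMem volume] with θ hθ
  exact hθ

lemma ci_log (z w : ℂ) : CircleIntegrable (fun ζ : ℂ => Real.log ‖z + ζ * w‖) 0 1 :=
  MeromorphicOn.circleIntegrable_log_norm (f := fun x : ℂ => z + x * w) (c := 0) (R := 1)
    (fun _ _ => by fun_prop)

/-- sub-mean value property of `log |·|` on affine discs -/
lemma log_le_avg (z w : ℂ) (hz : z ≠ 0) :
    Real.log ‖z‖ ≤ Real.circleAverage (fun ζ : ℂ => Real.log ‖z + ζ * w‖) 0 1 := by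
  by_cases hw : w = 0
  · simp only [hw, mul_zero, add_zero]
    rw [Real.circleAverage_const]
  have h1 : Real.circleAverage (fun ζ : ℂ => Real.log ‖z + ζ * w‖) 0 1 =
      Real.circleAverage (fun ζ : ℂ => Real.log ‖w‖ + Real.log ‖ζ + z / w‖) 0 1 := by
    rw [Real.circleAverage_def, Real.circleAverage_def]
    congr 1
    apply intervalIntegral.integral_congr_ae
    filter_upwards [circ_ne_ae z w hz] with θ hθ _
    have h2 : z + circleMap 0 1 θ * w = w * (circleMap 0 1 θ + z / w) := by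
      field_simp
      ring
    rw [h2, norm_mul, Real.log_mul (norm_ne_zero_iff.2 hw)]
    rw [norm_ne_zero_iff]
    intro h3
    apply hθ
    rw [h2, h3, mul_zero]
  have h2 := circleAverage_log_norm_add_const_eq_posLog (a := z / w)
  have hi : CircleIntegrable (fun ζ : ℂ => Real.log ‖ζ + z / w‖) 0 1 := by
    have := ci_log (z / w) 1
    simpa [add_comm] using this
  rw [h1, Real.circleAverage_fun_add (circleIntegrable_const _ _ _) hi, Real.circleAverage_const]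
  have h2' : Real.circleAverage (fun ζ : ℂ => Real.log ‖ζ + z / w‖) 0 1
      = Real.posLog ‖z / w‖ := h2
  rw [h2']
  have h4 : Real.log ‖z / w‖ ≤ Real.posLog ‖z / w‖ := le_max_right _ _
  rw [norm_div, Real.log_div (norm_ne_zero_iff.2 hz) (norm_ne_zero_iff.2 hw)] at h4
  rw [← norm_div] at h4
  linarith

lemma log_add_one_le_avg (a b : ℂ) :
    Real.log (‖a‖ ^ 2 + 1) ≤ Real.circleAverage (fun ζ : ℂ => Real.log (‖a + ζ * b‖ ^ 2 + 1)) 0 1 := by
  set N : ℝ := Real.sqrt (‖a‖ ^ 2 + 1) with hN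
  have hN2 : N ^ 2 = ‖a‖ ^ 2 + 1 := Real.sq_sqrt (by positivity)
  have hNpos : 0 < N := Real.sqrt_pos.mpr (by positivity)
  set c : ℂ := (starRingEnd ℂ a) * b / N with hc
  have key : ∀ ζ : ℂ, 2 * Real.log ‖(N:ℂ) + ζ * c‖ ≤ Real.log (‖a + ζ * b‖ ^ 2 + 1) := by
    intro ζ
    by_cases h0 : ((N:ℂ) + ζ * c) = 0
    · rw [h0, norm_zero, Real.log_zero, mul_zero]
      apply Real.log_nonneg
      nlinarith [sq_nonneg ‖a + ζ * b‖]
    · have h1 : 2 * Real.log ‖(N:ℂ) + ζ * c‖ = Real.log (‖(N:ℂ) + ζ * c‖ ^ 2) := by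
        rw [Real.log_pow]; norm_num
      rw [h1]
      apply Real.log_le_log (by positivity)
      have hNc : (N:ℂ) ≠ 0 := by exact_mod_cast hNpos.ne'
      have h2 : (N:ℂ) * ((N:ℂ) + ζ * c) = (starRingEnd ℂ a) * (a + ζ * b) + 1 := by
        rw [hc]
        have e1 : (N:ℂ) * ((N:ℂ) + ζ * ((starRingEnd ℂ a) * b / N))
            = (N:ℂ) ^ 2 + ζ * ((starRingEnd ℂ a) * b) := by
          field_simp
        rw [e1]
        have e2 : (N:ℂ) ^ 2 = (starRingEnd ℂ a) * a + 1 := by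
          have := Complex.normSq_eq_conj_mul_self (z := a)
          rw [← this, Complex.normSq_eq_norm_sq]
          exact_mod_cast hN2
        rw [e2]; ring
      have h3 : N * ‖(N:ℂ) + ζ * c‖ ≤ ‖a‖ * ‖a + ζ * b‖ + 1 := by
        have : ‖(N:ℂ) * ((N:ℂ) + ζ * c)‖ ≤ ‖a‖ * ‖a + ζ * b‖ + 1 := by
          rw [h2]
          refine (norm_add_le _ _).trans ?_
          rw [norm_mul, Complex.norm_conj, norm_one]
        rwa [norm_mul, Complex.norm_real, Real.norm_eq_abs, abs_of_pos hNpos] at this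
      have h4 : (N * ‖(N:ℂ) + ζ * c‖) ^ 2 ≤ (‖a‖ * ‖a + ζ * b‖ + 1) ^ 2 :=
        pow_le_pow_left₀ (by positivity) h3 2
      have h5 : (‖a‖ * ‖a + ζ * b‖ + 1) ^ 2 ≤ (‖a‖ ^ 2 + 1) * (‖a + ζ * b‖ ^ 2 + 1) := by
        nlinarith [sq_nonneg (‖a‖ - ‖a + ζ * b‖)]
      rw [mul_pow, hN2] at h4
      have h6 : 0 < ‖a‖ ^ 2 + 1 := by positivity
      exact le_of_mul_le_mul_left (h4.trans h5) h6
  have hN0 : (N:ℂ) ≠ 0 := by exact_mod_cast hNpos.ne'
  have h1 := log_le_avg (N:ℂ) c hN0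
  have h2 : Real.log (‖a‖ ^ 2 + 1) = 2 * Real.log ‖(N:ℂ)‖ := by
    rw [Complex.norm_real, Real.norm_eq_abs, abs_of_pos hNpos, ← hN2, Real.log_pow]; norm_num
  rw [h2]
  calc 2 * Real.log ‖(N:ℂ)‖ ≤ 2 * Real.circleAverage (fun ζ : ℂ => Real.log ‖(N:ℂ) + ζ * c‖) 0 1 := by
        linarith
    _ = Real.circleAverage (fun ζ : ℂ => 2 * Real.log ‖(N:ℂ) + ζ * c‖) 0 1 := by
        have := Real.circleAverage_fun_smul (𝕜 := ℝ) (a := (2:ℝ)) (c := 0) (R := 1)
          (f := fun ζ : ℂ => Real.log ‖(N:ℂ) + ζ * c‖)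
        simp only [smul_eq_mul] at this
        rw [this]
    _ ≤ _ := by
        refine Real.circleAverage_mono ?_ ?_ (fun ζ _ => key ζ)
        · have := (ci_log (N:ℂ) c).const_fun_smul (a := (2:ℝ))
          simpa using this
        · apply ContinuousOn.circleIntegrable'
          apply Continuous.continuousOn
          refine Continuous.log (by fun_prop) (fun x => by positivity)

/-- sub-mean value property of `log(|·|² + ρ²)` -/
lemma log_add_sq_le_avg {ρ : ℝ} (hρ : 0 < ρ) (a b : ℂ) :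
    Real.log (‖a‖ ^ 2 + ρ ^ 2)
      ≤ Real.circleAverage (fun ζ : ℂ => Real.log (‖a + ζ * b‖ ^ 2 + ρ ^ 2)) 0 1 := by
  have h := log_add_one_le_avg (a / ρ) (b / ρ)
  have e : ∀ y : ℂ, Real.log (‖y‖ ^ 2 + ρ ^ 2) = Real.log (ρ ^ 2) + Real.log (‖y / ρ‖ ^ 2 + 1) := by
    intro y
    rw [← Real.log_mul (by positivity) (by positivity)]
    congr 1
    rw [norm_div, Complex.norm_real, Real.norm_eq_abs, abs_of_pos hρ]
    field_simp
  have e2 : ∀ ζ : ℂ, Real.log (‖a + ζ * b‖ ^ 2 + ρ ^ 2)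
      = Real.log (ρ ^ 2) + Real.log (‖a / ρ + ζ * (b / ρ)‖ ^ 2 + 1) := by
    intro ζ
    rw [e]
    congr 5
    ring
  simp_rw [e2]
  rw [e, Real.circleAverage_fun_add (circleIntegrable_const _ _ _), Real.circleAverage_const]
  · linarith
  · apply ContinuousOn.circleIntegrable'
    apply Continuous.continuousOn
    refine Continuous.log (by fun_prop) (fun x => by positivity)

/-! ### explicit functions -/

noncomputable def re2 : E →L[ℝ] ℝ := Complex.reCLM.comp (ContinuousLinearMap.snd ℝ ℂ ℂ)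
noncomputable def im2 : E →L[ℝ] ℝ := Complex.imCLM.comp (ContinuousLinearMap.snd ℝ ℂ ℂ)
noncomputable def re1 : E →L[ℝ] ℝ := Complex.reCLM.comp (ContinuousLinearMap.fst ℝ ℂ ℂ)
noncomputable def im1 : E →L[ℝ] ℝ := Complex.imCLM.comp (ContinuousLinearMap.fst ℝ ℂ ℂ)

lemma re2_apply (x : E) : re2 x = x.2.re := rfl
lemma im2_apply (x : E) : im2 x = x.2.im := rfl
lemma re1_apply (x : E) : re1 x = x.1.re := rfl
lemma im1_apply (x : E) : im1 x = x.1.im := rfl

lemma nsq2 (x : E) : ‖x.2‖ ^ 2 = re2 x ^ 2 + im2 x ^ 2 := by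
  rw [Complex.sq_norm, Complex.normSq_apply, re2_apply, im2_apply]; ring

lemma nsq1 (x : E) : ‖x.1‖ ^ 2 = re1 x ^ 2 + im1 x ^ 2 := by
  rw [Complex.sq_norm, Complex.normSq_apply, re1_apply, im1_apply]; ring

lemma D_of_line {F : E → ℝ} {x a : E} {c : ℝ} (hF : DifferentiableAt ℝ F x)
    (h : HasDerivAt (fun s : ℝ => F (x + s • a)) c 0) : D a F x = c := by
  unfold D
  rw [← hF.lineDeriv_eq_fderiv]
  exact h.deriv

lemma D_clm_sq (L : E →L[ℝ] ℝ) (b : E) : D b (fun x => L x ^ 2) = fun x => 2 * L x * L b := by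
  funext x
  apply D_of_line (by fun_prop)
  have h1 : HasDerivAt (fun s : ℝ => L x + s * L b) (L b) 0 := by
    simpa using ((hasDerivAt_id (0:ℝ)).mul_const (L b)).const_add (L x)
  have h2 := h1.pow 2
  simp only [map_add, map_smul, smul_eq_mul]
  refine h2.congr_deriv ?_
  simp

lemma DD_clm_sq (L : E →L[ℝ] ℝ) (a b x : E) : D a (D b (fun x => L x ^ 2)) x = 2 * L a * L b := by
  rw [D_clm_sq]
  apply D_of_line (by fun_prop)
  have h1 : HasDerivAt (fun s : ℝ => 2 * (L x + s * L a) * L b) (2 * L a * L b) 0 := by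
    have := ((((hasDerivAt_id (0:ℝ)).mul_const (L a)).const_add (L x)).const_mul 2).mul_const (L b)
    simpa using this
  simpa only [map_add, map_smul, smul_eq_mul] using h1

/-- `½ log (|w|² + r²) - ½ log 2` -/
noncomputable def lg (r : ℝ) (x : E) : ℝ :=
  (1/2) * Real.log (‖x.2‖ ^ 2 + r ^ 2) - (1/2) * Real.log 2

lemma lg_eq (r : ℝ) : lg r = fun x => (1/2) * Real.log (re2 x ^ 2 + im2 x ^ 2 + r ^ 2)
    - (1/2) * Real.log 2 := by
  funext x; unfold lg; rw [nsq2]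

section
variable {r : ℝ} (hr : 0 < r)
include hr

lemma lg_q (x : E) : 0 < re2 x ^ 2 + im2 x ^ 2 + r ^ 2 := by positivity

lemma lg_contDiff : ContDiff ℝ ∞ (lg r) := by
  rw [lg_eq]
  apply ContDiff.sub _ contDiff_const
  apply ContDiff.mul contDiff_const
  apply ContDiff.log
  · fun_prop
  · intro x; exact (lg_q hr x).ne'

lemma D_lg (b : E) : D b (lg r) = fun x =>
    (re2 x * re2 b + im2 x * im2 b) / (re2 x ^ 2 + im2 x ^ 2 + r ^ 2) := by
  funext x
  apply D_of_line ((lg_contDiff hr).differentiable (by simp) x)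
  rw [lg_eq]
  simp only [map_add, map_smul, smul_eq_mul]
  have h1 : HasDerivAt (fun s : ℝ => re2 x + s * re2 b) (re2 b) 0 := by
    simpa using ((hasDerivAt_id (0:ℝ)).mul_const (re2 b)).const_add (re2 x)
  have h2 : HasDerivAt (fun s : ℝ => im2 x + s * im2 b) (im2 b) 0 := by
    simpa using ((hasDerivAt_id (0:ℝ)).mul_const (im2 b)).const_add (im2 x)
  have h3 := ((h1.pow 2).add (h2.pow 2)).add_const (r ^ 2)
  have h4 := ((h3.log (by
    simp only [zero_mul, add_zero, Pi.add_apply, Pi.pow_apply]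
    exact (lg_q hr x).ne')).const_mul (1/2)).sub_const ((1/2) * Real.log 2)
  refine h4.congr_deriv ?_
  have := lg_q hr x
  simp only [zero_mul, add_zero, Pi.add_apply, Pi.pow_apply]
  field_simp
  push_cast
  ring

lemma DD_lg (a b x : E) : D a (D b (lg r)) x =
    (re2 a * re2 b + im2 a * im2 b) / (re2 x ^ 2 + im2 x ^ 2 + r ^ 2)
    - 2 * (re2 x * re2 b + im2 x * im2 b) * (re2 x * re2 a + im2 x * im2 a)
      / (re2 x ^ 2 + im2 x ^ 2 + r ^ 2) ^ 2 := by
  have hd : DifferentiableAt ℝ (D b (lg r)) x :=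
    (D_contDiff (m := 1) (n := ∞) (lg_contDiff hr) (by norm_num; exact le2)).differentiable
      (by norm_num) x
  apply D_of_line hd
  rw [D_lg hr]
  simp only [map_add, map_smul, smul_eq_mul]
  have h1 : HasDerivAt (fun s : ℝ => re2 x + s * re2 a) (re2 a) 0 := by
    simpa using ((hasDerivAt_id (0:ℝ)).mul_const (re2 a)).const_add (re2 x)
  have h2 : HasDerivAt (fun s : ℝ => im2 x + s * im2 a) (im2 a) 0 := by
    simpa using ((hasDerivAt_id (0:ℝ)).mul_const (im2 a)).const_add (im2 x)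
  have h3 := ((h1.pow 2).add (h2.pow 2)).add_const (r ^ 2)
  have h4 := (h1.mul_const (re2 b)).add (h2.mul_const (im2 b))
  have h5 := h4.div h3 (by
    simp only [zero_mul, add_zero, Pi.add_apply, Pi.pow_apply]
    exact (lg_q hr x).ne')
  refine h5.congr_deriv ?_
  have := lg_q hr x
  simp only [zero_mul, add_zero, Pi.add_apply, Pi.pow_apply]
  field_simp
  push_cast
  ring

lemma lg_c2 : ContDiff ℝ 2 (lg r) := (lg_contDiff hr).of_le le2

lemma MM_lg (q : E → ℝ) (x : E) :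
    MM (lg r) q x = 2 * r ^ 2 / (‖x.2‖ ^ 2 + r ^ 2) ^ 2 * Lz q x := by
  unfold MM
  have h1 : Lz (lg r) x = 0 := by
    unfold Lz; rw [DD_lg hr, DD_lg hr]; simp [re2_apply, im2_apply, e1, e2]
  have h2 : Ma (lg r) x = 0 := by
    unfold Ma; rw [DD_lg hr, DD_lg hr]; simp [re2_apply, im2_apply, e1, e2, e3, e4]
  have h3 : Mb (lg r) x = 0 := by
    unfold Mb; rw [DD_lg hr, DD_lg hr]; simp [re2_apply, im2_apply, e1, e2, e3, e4]
  have h4 : Lw (lg r) x = 2 * r ^ 2 / (‖x.2‖ ^ 2 + r ^ 2) ^ 2 := by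
    unfold Lw; rw [DD_lg hr, DD_lg hr, nsq2]
    have := lg_q hr x
    have a1 : re2 e3 = 1 := by simp [re2_apply, e3]
    have a2 : im2 e3 = 0 := by simp [im2_apply, e3]
    have a3 : re2 e4 = 0 := by simp [re2_apply, e4]
    have a4 : im2 e4 = 1 := by simp [im2_apply, e4]
    rw [a1, a2, a3, a4]
    field_simp
    ring
  rw [h1, h2, h3, h4]
  ring

lemma lev_lg (x v : E) : 0 ≤ Lev (lg r) x v := by
  rw [Lev_eq (lg_c2 hr), DD_lg hr, DD_lg hr]
  have hq := lg_q hr x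
  have a1 : re2 (Complex.I • v) = -im2 v := by simp [re2_apply, im2_apply]
  have a2 : im2 (Complex.I • v) = re2 v := by simp [re2_apply, im2_apply]
  rw [a1, a2]
  set q := re2 x ^ 2 + im2 x ^ 2 + r ^ 2 with hqd
  have e : (re2 v * re2 v + im2 v * im2 v) / q
      - 2 * (re2 x * re2 v + im2 x * im2 v) * (re2 x * re2 v + im2 x * im2 v) / q ^ 2
      + ((-im2 v * -im2 v + re2 v * re2 v) / q
        - 2 * (re2 x * -im2 v + im2 x * re2 v) * (re2 x * -im2 v + im2 x * re2 v) / q ^ 2)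
      = 2 * r ^ 2 * (re2 v ^ 2 + im2 v ^ 2) / q ^ 2 := by
    field_simp
    rw [hqd]
    ring
  rw [e]
  positivity

lemma lg_submean (x v : E) :
    lg r x ≤ Real.circleAverage (fun ζ : ℂ => lg r (x + ζ • v)) 0 1 := by
  have h := log_add_sq_le_avg hr x.2 v.2
  have ci : CircleIntegrable (fun ζ : ℂ => Real.log (‖x.2 + ζ * v.2‖ ^ 2 + r ^ 2)) 0 1 := by
    apply ContinuousOn.circleIntegrable'
    apply Continuous.continuousOn
    refine Continuous.log (by fun_prop) (fun x => by positivity)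
  have e : Real.circleAverage (fun ζ : ℂ => lg r (x + ζ • v)) 0 1
      = (1/2) * Real.circleAverage (fun ζ : ℂ => Real.log (‖x.2 + ζ * v.2‖ ^ 2 + r ^ 2)) 0 1
        - (1/2) * Real.log 2 := by
    have h1 := Real.circleAverage_fun_sub
      (f₁ := fun ζ : ℂ => (1/2) * Real.log (‖x.2 + ζ * v.2‖ ^ 2 + r ^ 2))
      (f₂ := fun _ => (1/2) * Real.log 2) (c := 0) (R := 1)
      (by simpa using ci.const_fun_smul (a := (1/2:ℝ))) (circleIntegrable_const _ _ _)
    rw [Real.circleAverage_const] at h1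
    have h2 := Real.circleAverage_fun_smul (𝕜 := ℝ) (a := (1/2:ℝ)) (c := 0) (R := 1)
      (f := fun ζ : ℂ => Real.log (‖x.2 + ζ * v.2‖ ^ 2 + r ^ 2))
    simp only [smul_eq_mul] at h2
    rw [h2] at h1
    exact h1
  rw [e]
  unfold lg
  linarith

lemma lg_nonpos (hr1 : r ≤ 1) {x : E} (hx : ‖x‖ ≤ 1) : lg r x ≤ 0 := by
  unfold lg
  have h1 : ‖x.2‖ ≤ 1 := (norm_snd_le x).trans hx
  have h2 : ‖x.2‖ ^ 2 + r ^ 2 ≤ 2 := by nlinarith [norm_nonneg x.2]
  have h3 := Real.log_le_log (by positivity) h2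
  linarith

lemma lg_adm (hr1 : r ≤ 1) : Adm (lg r) :=
  ⟨lg_c2 hr, fun x hx => lg_nonpos hr hr1 hx.le, fun x _ u => lev_lg hr x u⟩

/-- upper bound close to the axis -/
lemma lg_le {x : E} (hx : ‖x.2‖ ≤ r) : lg r x ≤ Real.log r := by
  unfold lg
  have h2 : ‖x.2‖ ^ 2 + r ^ 2 ≤ 2 * r ^ 2 := by nlinarith [norm_nonneg x.2]
  have h3 := Real.log_le_log (by positivity) h2
  rw [Real.log_mul (by norm_num) (by positivity), Real.log_pow] at h3
  push_cast at h3
  linarith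

lemma le_lg (x : E) : Real.log r - (1/2) * Real.log 2 ≤ lg r x := by
  unfold lg
  have h3 := Real.log_le_log (x := r ^ 2) (y := ‖x.2‖ ^ 2 + r ^ 2) (by positivity)
    (by nlinarith [norm_nonneg x.2])
  rw [Real.log_pow] at h3
  push_cast at h3
  linarith

lemma le_lg' {x : E} (hx : x.2 ≠ 0) : Real.log ‖x.2‖ - (1/2) * Real.log 2 ≤ lg r x := by
  unfold lg
  have hp : 0 < ‖x.2‖ := norm_pos_iff.mpr hx
  have h3 := Real.log_le_log (x := ‖x.2‖ ^ 2) (y := ‖x.2‖ ^ 2 + r ^ 2) (by positivity)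
    (by nlinarith)
  rw [Real.log_pow] at h3
  push_cast at h3
  linarith

end

/-- `|w|² - 1` -/
noncomputable def gq (x : E) : ℝ := ‖x.2‖ ^ 2 - 1

lemma gq_eq : gq = fun x => (re2 x ^ 2 + im2 x ^ 2) + (-1) := by
  funext x; unfold gq; rw [nsq2]; ring

lemma gq_contDiff : ContDiff ℝ ∞ gq := by rw [gq_eq]; fun_prop

lemma DD_gq (a b x : E) : D a (D b gq) x = 2 * (re2 a * re2 b + im2 a * im2 b) := by
  have h1 : D b gq = D b (fun x => re2 x ^ 2 + im2 x ^ 2) := by rw [gq_eq, D_add_const]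
  rw [h1, DD_add (by fun_prop) (by fun_prop), DD_clm_sq, DD_clm_sq]
  ring

lemma MM_gq (q : E → ℝ) (x : E) : MM gq q x = 4 * Lz q x := by
  unfold MM
  have h1 : Lz gq x = 0 := by
    unfold Lz; rw [DD_gq, DD_gq]; simp [re2_apply, im2_apply, e1, e2]
  have h2 : Ma gq x = 0 := by
    unfold Ma; rw [DD_gq, DD_gq]; simp [re2_apply, im2_apply, e1, e2, e3, e4]
  have h3 : Mb gq x = 0 := by
    unfold Mb; rw [DD_gq, DD_gq]; simp [re2_apply, im2_apply, e1, e2, e3, e4]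
  have h4 : Lw gq x = 4 := by
    unfold Lw; rw [DD_gq, DD_gq]; simp [re2_apply, im2_apply, e3, e4]; norm_num
  rw [h1, h2, h3, h4]; ring

lemma gq_adm : Adm gq := by
  refine ⟨gq_contDiff.of_le le2, fun x hx => ?_, fun x _ v => ?_⟩
  · unfold gq
    have h1 : ‖x.2‖ < 1 := (norm_snd_le x).trans_lt hx
    nlinarith [norm_nonneg x.2]
  · rw [Lev_eq (gq_contDiff.of_le le2), DD_gq, DD_gq]
    nlinarith [sq_nonneg (re2 v), sq_nonneg (im2 v), sq_nonneg (re2 (Complex.I • v)),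
      sq_nonneg (im2 (Complex.I • v))]

/-- `|z|² + |w|² - 2` -/
noncomputable def qq (x : E) : ℝ := ‖x.1‖ ^ 2 + ‖x.2‖ ^ 2 - 2

lemma qq_eq : qq = fun x => ((re1 x ^ 2 + im1 x ^ 2) + (re2 x ^ 2 + im2 x ^ 2)) + (-2) := by
  funext x; unfold qq; rw [nsq1, nsq2]; ring

lemma qq_contDiff : ContDiff ℝ ∞ qq := by rw [qq_eq]; fun_prop

lemma DD_qq (a b x : E) : D a (D b qq) x = 2 * (re1 a * re1 b + im1 a * im1 b)
    + 2 * (re2 a * re2 b + im2 a * im2 b) := by
  have h1 : D b qq = D b (fun x => (re1 x ^ 2 + im1 x ^ 2) + (re2 x ^ 2 + im2 x ^ 2)) := by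
    rw [qq_eq, D_add_const]
  rw [h1, DD_add (f := fun x => re1 x ^ 2 + im1 x ^ 2) (g := fun x => re2 x ^ 2 + im2 x ^ 2)
    (by fun_prop) (by fun_prop), DD_add (by fun_prop) (by fun_prop),
    DD_add (by fun_prop) (by fun_prop), DD_clm_sq, DD_clm_sq, DD_clm_sq, DD_clm_sq]
  ring

lemma qq_lev (x v : E) : 4 * ‖v‖ ^ 2 ≤ Lev qq x v := by
  rw [Lev_eq (qq_contDiff.of_le le2), DD_qq, DD_qq]
  have a1 : re2 (Complex.I • v) = -im2 v := by simp [re2_apply, im2_apply]
  have a2 : im2 (Complex.I • v) = re2 v := by simp [re2_apply, im2_apply]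
  have a3 : re1 (Complex.I • v) = -im1 v := by simp [re1_apply, im1_apply]
  have a4 : im1 (Complex.I • v) = re1 v := by simp [re1_apply, im1_apply]
  rw [a1, a2, a3, a4]
  have e1 := nsq1 v
  have e2 := nsq2 v
  have h : ‖v‖ ^ 2 ≤ ‖v.1‖ ^ 2 + ‖v.2‖ ^ 2 := by
    rw [Prod.norm_def]
    rcases max_choice ‖v.1‖ ‖v.2‖ with h | h <;> rw [h]
    · nlinarith [sq_nonneg ‖v.2‖]
    · nlinarith [sq_nonneg ‖v.1‖]
  nlinarith

lemma qq_bounds {x : E} (hx : ‖x‖ ≤ 1) : -2 ≤ qq x ∧ qq x ≤ 0 := by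
  unfold qq
  have h1 : ‖x.2‖ ≤ 1 := (norm_snd_le x).trans hx
  have h2 : ‖x.1‖ ≤ 1 := (norm_fst_le x).trans hx
  constructor <;> nlinarith [norm_nonneg x.2, norm_nonneg x.1]

end H13Ceg
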