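import Pool.Agent.H13.Ceg.Cmb
import Pool.Agent.H13.Ceg.Ast

open MeasureTheory Set Filter Topology Metric
open scoped ContDiff ENNReal NNReal

namespace H13Ceg

/-- value of the game -/
noncomputable def GI (b : E → ℝ≥0∞) (r1 δ : ℝ) (S : Finset ℂ) (x : E) : ℝ≥0∞ :=
  ⨆ m, GG b r1 δ S m x

lemma GI_meas {b : E → ℝ≥0∞} (hb : Measurable b) (r1 δ : ℝ) (S : Finset ℂ) :
    Measurable (GI b r1 δ S) := Measurable.iSup (fun m => GG_meas hb r1 δ S m)

lemma GG_monotone (b : E → ℝ≥0∞) (r1 δ : ℝ) (S : Finset ℂ) :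
    Monotone (fun m => GG b r1 δ S m) :=
  monotone_nat_of_le_succ (fun m x => GG_mono b r1 δ S m x)

lemma GI_out {b : E → ℝ≥0∞} {r1 δ : ℝ} {S : Finset ℂ} {x : E} (hx : r1 < ‖x.2‖) :
    GI b r1 δ S x = b x := by
  unfold GI
  have : ∀ m, GG b r1 δ S m x = b x := by
    intro m
    cases m with
    | zero => simp only [GG]; rw [if_pos hx]
    | succ m => rw [GG_succ, if_pos hx]
  simp only [this, iSup_const]

lemma GI_le {b : E → ℝ≥0∞} {r1 δ : ℝ} (hδ : 0 < δ) {S : Finset ℂ}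
    (hb : ∀ x : E, ‖x.1‖ < 1 → ‖x.2‖ ≤ r1 → ∀ c : ℂ, step δ b c x ≤ b x) {x : E}
    (hx : ‖x.1‖ < 1) : GI b r1 δ S x ≤ b x :=
  iSup_le (fun m => GG_le hδ hb m x hx)

lemma step_le_one {g : E → ℝ≥0∞} (hg : ∀ x, g x ≤ 1) (δ : ℝ) (c : ℂ) (x : E) :
    step δ g c x ≤ 1 := by
  unfold step
  calc _ ≤ ∫⁻ _, 1 ∂νc := lintegral_mono (fun _ => hg _)
    _ = 1 := by
        have h1 : (νc : Measure ℂ) univ = 1 := measure_univ
        rw [lintegral_const, h1, mul_one]

lemma GI_le_one {b : E → ℝ≥0∞} (hb : ∀ x, b x ≤ 1) (r1 δ : ℝ) (S : Finset ℂ) (x : E) :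
    GI b r1 δ S x ≤ 1 := by
  refine iSup_le (fun m => ?_)
  induction m generalizing x with
  | zero => simp only [GG]; split_ifs; exacts [hb x, zero_le]
  | succ m ih =>
      rw [GG_succ]
      split_ifs
      · exact hb x
      · exact Finset.sup_le (fun c _ => step_le_one ih δ c x)

lemma GI_super {b : E → ℝ≥0∞} (hb : Measurable b) {r1 δ : ℝ} {S : Finset ℂ} {x : E}
    (hx : ‖x.2‖ ≤ r1) {c : ℂ} (hc : c ∈ S) : step δ (GI b r1 δ S) c x ≤ GI b r1 δ S x := by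
  have h1 : step δ (GI b r1 δ S) c x = ⨆ m, step δ (GG b r1 δ S m) c x := by
    unfold step GI
    rw [lintegral_iSup]
    · intro m
      exact (GG_meas hb r1 δ S m).comp (by fun_prop)
    · intro m m' hm ζ
      exact GG_monotone b r1 δ S hm _
  rw [h1]
  refine iSup_le (fun m => ?_)
  refine le_trans ?_ (le_iSup (fun m => GG b r1 δ S m x) (m + 1))
  rw [GG_succ, if_neg (not_lt.mpr hx)]
  exact Finset.le_sup (f := fun c => step δ (GG b r1 δ S m) c x) hc

lemma GI_super' {b : E → ℝ≥0∞} (hbm : Measurable b) {r1 δ : ℝ} (hδ : 0 < δ) {S : Finset ℂ}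
    (hb : ∀ x : E, ‖x.1‖ < 1 → ‖x.2‖ + δ < 1 → ∀ c : ℂ, step δ b c x ≤ b x)
    {x : E} (hx : ‖x.1‖ < 1) (hx2 : ‖x.2‖ + δ < 1) {c : ℂ} (hc : c ∈ S) :
    step δ (GI b r1 δ S) c x ≤ GI b r1 δ S x := by
  by_cases h : ‖x.2‖ ≤ r1
  · exact GI_super hbm h hc
  · rw [GI_out (not_le.mp h)]
    refine le_trans ?_ (hb x hx hx2 c)
    unfold step
    refine lintegral_mono_ae ?_
    filter_upwards [νc_ae] with ζ hζ
    exact GI_le hδ (fun y hy hy2 c => hb y hy (by linarith) c) (slope_norm hδ hx hζ)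

theorem gameGI {b : E → ℝ≥0∞} (hb : Measurable b) {r1 δ : ℝ} {S : Finset ℂ} {K : Set ℂ}
    {B : ℝ≥0∞}
    (h : ∀ m, ∫⁻ w in K, ∫⁻ a in ball (0:ℂ) 1, GG b r1 δ S m (a, w) ≤ B) :
    ∫⁻ w in K, ∫⁻ a in ball (0:ℂ) 1, GI b r1 δ S (a, w) ≤ B := by
  have e1 : ∀ w, ∫⁻ a in ball (0:ℂ) 1, GI b r1 δ S (a, w)
      = ⨆ m, ∫⁻ a in ball (0:ℂ) 1, GG b r1 δ S m (a, w) := by
    intro w
    unfold GI
    rw [lintegral_iSup]
    · intro m
      exact (GG_meas hb r1 δ S m).comp (by fun_prop)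
    · intro m m' hm a
      exact GG_monotone b r1 δ S hm _
  simp_rw [e1]
  rw [lintegral_iSup]
  · exact iSup_le h
  · intro m
    have : Measurable (Function.uncurry fun (w a : ℂ) => GG b r1 δ S m (a, w)) :=
      (GG_meas hb r1 δ S m).comp measurable_swap
    exact this.lintegral_prod_right
  · intro m m' hm w
    exact lintegral_mono (fun a => GG_monotone b r1 δ S hm _)

/-! ### the pay-off coming from a function of the class -/

/-- the truncated function -/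
noncomputable def uf (σ : ℝ) (f : E → ℝ) (x : E) : ℝ := -(max (f x / σ) (-1))

noncomputable def bf (σ : ℝ) (f : E → ℝ) (x : E) : ℝ≥0∞ := ENNReal.ofReal (uf σ f x)

section
variable {f : E → ℝ} (hf : CC f) {σ : ℝ} (hσ : 0 < σ)
include hf hσ

lemma uf_cont : Continuous (uf σ f) := by
  unfold uf
  have := hf.cont
  fun_prop

lemma uf_nonneg (x : E) : 0 ≤ uf σ f x := by
  unfold uf
  have h1 : f x / σ ≤ 0 := div_nonpos_of_nonpos_of_nonneg (hf.nonpos x) hσ.le
  have : max (f x / σ) (-1) ≤ 0 := max_le h1 (by norm_num)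
  linarith

omit hf hσ in
lemma uf_le_one (x : E) : uf σ f x ≤ 1 := by
  unfold uf
  have := le_max_right (f x / σ) (-1)
  linarith

lemma bf_meas : Measurable (bf σ f) := ENNReal.measurable_ofReal.comp (uf_cont hf hσ).measurable

omit hf hσ in
lemma bf_le_one (x : E) : bf σ f x ≤ 1 := by
  unfold bf
  rw [← ENNReal.ofReal_one]
  exact ENNReal.ofReal_le_ofReal (uf_le_one x)

lemma uf_super (x v : E) (h : ∀ ζ : ℂ, ‖ζ‖ ≤ 1 → ‖x + ζ • v‖ < 1) :
    Real.circleAverage (fun ζ : ℂ => uf σ f (x + ζ • v)) 0 1 ≤ uf σ f x := by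
  have ci : CircleIntegrable (fun ζ : ℂ => uf σ f (x + ζ • v)) 0 1 :=
    ci_cont (uf_cont hf hσ) x v
  have cm : Continuous (fun y => max (f y / σ) (-1)) := by
    have := hf.cont
    fun_prop
  have ci2 : CircleIntegrable (fun ζ : ℂ => max (f (x + ζ • v) / σ) (-1)) 0 1 :=
    ci_cont cm x v
  have e1 : Real.circleAverage (fun ζ : ℂ => uf σ f (x + ζ • v)) 0 1
      = -Real.circleAverage (fun ζ : ℂ => max (f (x + ζ • v) / σ) (-1)) 0 1 := by
    have := Real.circleAverage_fun_smul (𝕜 := ℝ) (a := (-1:ℝ)) (c := 0) (R := 1)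
      (f := fun ζ : ℂ => max (f (x + ζ • v) / σ) (-1))
    simp only [smul_eq_mul, neg_mul, one_mul] at this
    exact this
  rw [e1]
  unfold uf
  apply neg_le_neg
  refine max_le ?_ ?_
  · have h1 := hf.sub x v h
    have cf : CircleIntegrable (fun ζ : ℂ => f (x + ζ • v) / σ) 0 1 :=
      ci_cont (hf.cont.div_const σ) x v
    have h2 : Real.circleAverage (fun ζ : ℂ => f (x + ζ • v) / σ) 0 1
        = Real.circleAverage (fun ζ : ℂ => f (x + ζ • v)) 0 1 / σ := by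
      have := Real.circleAverage_fun_smul (𝕜 := ℝ) (a := σ⁻¹) (c := 0) (R := 1)
        (f := fun ζ : ℂ => f (x + ζ • v))
      simp only [smul_eq_mul] at this
      rw [div_eq_inv_mul, ← this]
      congr 1
      funext ζ
      rw [div_eq_inv_mul]
    calc f x / σ ≤ Real.circleAverage (fun ζ : ℂ => f (x + ζ • v)) 0 1 / σ := by gcongr
      _ = Real.circleAverage (fun ζ : ℂ => f (x + ζ • v) / σ) 0 1 := h2.symm
      _ ≤ _ := Real.circleAverage_mono cf ci2 (fun ζ _ => le_max_left _ _)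
  · calc (-1:ℝ) = Real.circleAverage (fun _ : ℂ => (-1:ℝ)) 0 1 :=
          (Real.circleAverage_const _ _ _).symm
      _ ≤ _ := Real.circleAverage_mono (circleIntegrable_const _ _ _) ci2
          (fun ζ _ => le_max_right _ _)

lemma bf_super {δ : ℝ} (hδ : 0 < δ) {x : E} (hx : ‖x.1‖ < 1) (hx2 : ‖x.2‖ + δ < 1) (c : ℂ) :
    step δ (bf σ f) c x ≤ bf σ f x := by
  set c' := slope δ c x.1 with hc'
  have hc1 : ‖x.1‖ + ‖c'‖ * δ < 1 := by
    rw [hc']; unfold slope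
    split_ifs with h
    · exact h
    · simpa using hx
  set v : E := (c' * δ, (δ:ℂ)) with hv
  have hin : ∀ ζ : ℂ, ‖ζ‖ ≤ 1 → ‖x + ζ • v‖ < 1 := by
    intro ζ hζ
    rw [Prod.norm_def]
    simp only [Prod.fst_add, Prod.snd_add, Prod.smul_fst, Prod.smul_snd, hv, smul_eq_mul]
    refine max_lt ?_ ?_
    · refine (norm_add_le _ _).trans_lt ?_
      rw [norm_mul, norm_mul, Complex.norm_real, Real.norm_eq_abs, abs_of_pos hδ]
      have : ‖ζ‖ * (‖c'‖ * δ) ≤ 1 * (‖c'‖ * δ) := by gcongr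
      linarith
    · refine (norm_add_le _ _).trans_lt ?_
      rw [norm_mul, Complex.norm_real, Real.norm_eq_abs, abs_of_pos hδ]
      have : ‖ζ‖ * δ ≤ 1 * δ := by gcongr
      linarith
  have hs := uf_super hf hσ x v hin
  have e : step δ (bf σ f) c x = ∫⁻ ζ, ENNReal.ofReal (uf σ f (x + ζ • v)) ∂νc := by
    unfold step bf
    refine lintegral_congr (fun ζ => ?_)
    congr 2
    apply Prod.ext
    · simp only [Prod.fst_add, Prod.smul_fst, hv, smul_eq_mul, hc']; ring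
    · simp only [Prod.snd_add, Prod.smul_snd, hv, smul_eq_mul]; ring
  have hm : Measurable (fun ζ : ℂ => uf σ f (x + ζ • v)) :=
    (uf_cont hf hσ).measurable.comp (by fun_prop)
  rw [e, ← ofReal_circleAverage hm
    (ci_cont (uf_cont hf hσ) x v) (fun θ => uf_nonneg hf hσ _)]
  exact ENNReal.ofReal_le_ofReal hs

end

end H13Ceg
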