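import Pool.Agent.H13.Ceg.Levi

open MeasureTheory Set Filter Topology Metric
open scoped ContDiff ENNReal Convolution

namespace H13Ceg

/-- bounded measurable functions -/
structure BM (f : E → ℝ) (C : ℝ) : Prop where
  meas : Measurable f
  bd : ∀ x, |f x| ≤ C

lemma BM.locInt {f : E → ℝ} {C : ℝ} (h : BM f C) : LocallyIntegrable f volume := by
  rw [locallyIntegrable_iff]
  intro K hK
  refine Measure.integrableOn_of_bounded (M := C) hK.measure_lt_top.ne
    h.meas.aestronglyMeasurable ?_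
  exact Eventually.of_forall (fun x => by rw [Real.norm_eq_abs]; exact h.bd x)

lemma BM.nonneg {f : E → ℝ} {C : ℝ} (h : BM f C) : 0 ≤ C := (abs_nonneg _).trans (h.bd 0)

/-- convolution with a kernel -/
noncomputable def cv (f k : E → ℝ) : E → ℝ := fun x => ∫ t, f t * k (x - t)

lemma cv_eq (f k : E → ℝ) : cv f k = f ⋆[ContinuousLinearMap.lsmul ℝ ℝ, volume] k := by
  funext x; rfl

lemma cv_swap (f k : E → ℝ) (x : E) : cv f k x = ∫ t, f (x - t) * k t := by
  rw [cv_eq, convolution_lsmul_swap]; rfl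

lemma cv_contDiff {f k : E → ℝ} (hf : LocallyIntegrable f volume) (hk : ContDiff ℝ ∞ k)
    (hkc : HasCompactSupport k) : ContDiff ℝ ∞ (cv f k) := by
  rw [cv_eq]
  exact hkc.contDiff_convolution_right _ hf hk

lemma D_cv {f k : E → ℝ} (hf : LocallyIntegrable f volume) (hk : ContDiff ℝ 1 k)
    (hkc : HasCompactSupport k) (v : E) : D v (cv f k) = cv f (D v k) := by
  funext x
  have h := hkc.hasFDerivAt_convolution_right (ContinuousLinearMap.lsmul ℝ ℝ) hf hk x
  unfold D
  rw [cv_eq, h.fderiv]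
  have hint : ConvolutionExistsAt f (fderiv ℝ k) x
      ((ContinuousLinearMap.lsmul ℝ ℝ).precompR E) volume :=
    (hkc.fderiv ℝ).convolutionExists_right _ hf (hk.continuous_fderiv (by norm_num)) x
  rw [convolution_def]
  have hi : Integrable (fun t => ((ContinuousLinearMap.lsmul ℝ ℝ).precompR E (f t))
      (fderiv ℝ k (x - t))) volume := hint
  rw [ContinuousLinearMap.integral_apply hi]
  rfl

/-- the kernel -/
noncomputable def kr (φ : ContDiffBump (0 : E)) : E → ℝ := φ.normed volume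

lemma kr_nonneg (φ : ContDiffBump (0 : E)) (x : E) : 0 ≤ kr φ x := φ.nonneg_normed x
lemma kr_contDiff (φ : ContDiffBump (0 : E)) : ContDiff ℝ ∞ (kr φ) := φ.contDiff_normed
lemma kr_compact (φ : ContDiffBump (0 : E)) : HasCompactSupport (kr φ) :=
  φ.hasCompactSupport_normed
lemma kr_integral (φ : ContDiffBump (0 : E)) : ∫ x, kr φ x = 1 := φ.integral_normed
lemma kr_integrable (φ : ContDiffBump (0 : E)) : Integrable (kr φ) := φ.integrable_normed
lemma kr_zero (φ : ContDiffBump (0 : E)) {x : E} (h : φ.rOut ≤ ‖x‖) : kr φ x = 0 := by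
  have : x ∉ Function.support (kr φ) := by
    unfold kr
    rw [φ.support_normed_eq, mem_ball_zero_iff]
    exact not_lt.mpr h
  simpa using this

noncomputable def moll (φ : ContDiffBump (0 : E)) (f : E → ℝ) : E → ℝ := cv f (kr φ)

lemma moll_eq (φ : ContDiffBump (0 : E)) (f : E → ℝ) (x : E) :
    moll φ f x = ∫ t, f (x - t) * kr φ t := cv_swap f _ x

lemma moll_contDiff (φ : ContDiffBump (0 : E)) {f : E → ℝ} (hf : LocallyIntegrable f volume) :
    ContDiff ℝ ∞ (moll φ f) := cv_contDiff hf (kr_contDiff φ) (kr_compact φ)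

lemma BM.int_shift {f : E → ℝ} {C : ℝ} (h : BM f C) (φ : ContDiffBump (0 : E)) (x : E) :
    Integrable (fun t => f (x - t) * kr φ t) := by
  refine (kr_integrable φ).bdd_mul (c := C) ?_ ?_
  · exact (h.meas.comp (measurable_const.sub measurable_id)).aestronglyMeasurable
  · exact Eventually.of_forall (fun t => by rw [Real.norm_eq_abs]; exact h.bd _)

lemma moll_const (φ : ContDiffBump (0 : E)) (c : ℝ) (x : E) : moll φ (fun _ => c) x = c := by
  rw [moll_eq, integral_const_mul, kr_integral, mul_one]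

lemma moll_mono_at (φ : ContDiffBump (0 : E)) {f g : E → ℝ} {C C' : ℝ} (hf : BM f C)
    (hg : BM g C') {x : E} (h : ∀ t, ‖t‖ < φ.rOut → f (x - t) ≤ g (x - t)) :
    moll φ f x ≤ moll φ g x := by
  rw [moll_eq, moll_eq]
  refine integral_mono (hf.int_shift φ x) (hg.int_shift φ x) (fun t => ?_)
  simp only []
  by_cases ht : ‖t‖ < φ.rOut
  · exact mul_le_mul_of_nonneg_right (h t ht) (kr_nonneg φ t)
  · rw [kr_zero φ (not_lt.mp ht)]; simp

lemma BM.const (c : ℝ) : BM (fun _ => c) |c| := ⟨measurable_const, fun _ => le_rfl⟩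

lemma moll_le_at (φ : ContDiffBump (0 : E)) {f : E → ℝ} {C : ℝ} (hf : BM f C) {x : E} {c : ℝ}
    (h : ∀ t, ‖t‖ < φ.rOut → f (x - t) ≤ c) : moll φ f x ≤ c := by
  have := moll_mono_at φ hf (BM.const c) (x := x) h
  rwa [moll_const] at this

lemma le_moll_at (φ : ContDiffBump (0 : E)) {f : E → ℝ} {C : ℝ} (hf : BM f C) {x : E} {c : ℝ}
    (h : ∀ t, ‖t‖ < φ.rOut → c ≤ f (x - t)) : c ≤ moll φ f x := by
  have := moll_mono_at φ (BM.const c) hf (x := x) h
  rwa [moll_const] at this

lemma abs_moll_le (φ : ContDiffBump (0 : E)) {f : E → ℝ} {C : ℝ} (hf : BM f C) (x : E) :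
    |moll φ f x| ≤ C := by
  rw [abs_le]
  exact ⟨le_moll_at φ hf (fun t _ => (abs_le.mp (hf.bd _)).1),
    moll_le_at φ hf (fun t _ => (abs_le.mp (hf.bd _)).2)⟩

lemma moll_eq_of (φ : ContDiffBump (0 : E)) {f : E → ℝ} {C : ℝ} (hf : BM f C) {x : E} {c : ℝ}
    (h : ∀ t, ‖t‖ < φ.rOut → f (x - t) = c) : moll φ f x = c :=
  le_antisymm (moll_le_at φ hf (fun t ht => (h t ht).le))
    (le_moll_at φ hf (fun t ht => (h t ht).ge))

lemma moll_sub' (φ : ContDiffBump (0 : E)) {f g : E → ℝ} {C C' : ℝ} (hf : BM f C)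
    (hg : BM g C') (x : E) : moll φ (fun y => f y - g y) x = moll φ f x - moll φ g x := by
  rw [moll_eq, moll_eq, moll_eq, ← integral_sub (hf.int_shift φ x) (hg.int_shift φ x)]
  congr 1
  funext t; ring

lemma moll_near (φ : ContDiffBump (0 : E)) {f : E → ℝ} {C : ℝ} (hf : BM f C) {x : E} {η : ℝ}
    (h : ∀ t, ‖t‖ < φ.rOut → |f (x - t) - f x| ≤ η) : |moll φ f x - f x| ≤ η := by
  rw [abs_le]
  constructor
  · have := le_moll_at φ hf (x := x) (c := f x - η) (fun t ht => by
      have := (abs_le.mp (h t ht)).1; linarith)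
    linarith
  · have := moll_le_at φ hf (x := x) (c := f x + η) (fun t ht => by
      have := (abs_le.mp (h t ht)).2; linarith)
    linarith

/-- the mean value inequality passes to mollifications -/
lemma moll_submean (φ : ContDiffBump (0 : E)) {f : E → ℝ} {C : ℝ} (hf : BM f C) {x v : E}
    (h : ∀ t, ‖t‖ < φ.rOut →
      f (x - t) ≤ Real.circleAverage (fun ζ : ℂ => f (x - t + ζ • v)) 0 1) :
    moll φ f x ≤ Real.circleAverage (fun ζ : ℂ => moll φ f (x + ζ • v)) 0 1 := by
  have hpi : (0:ℝ) < 2 * Real.pi := by positivity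
  -- the joint function
  let F : ℝ → E → ℝ := fun θ t => f (x + circleMap 0 1 θ • v - t) * kr φ t
  have hFm : Measurable (Function.uncurry F) := by
    have h1 : Measurable (fun p : ℝ × E => x + circleMap 0 1 p.1 • v - p.2) := by
      have : Continuous (fun p : ℝ × E => x + circleMap 0 1 p.1 • v - p.2) := by fun_prop
      exact this.measurable
    have h2 : Measurable (fun p : ℝ × E => kr φ p.2) :=
      (kr_contDiff φ).continuous.measurable.comp measurable_snd
    exact (hf.meas.comp h1).mul h2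
  have hFint : Integrable (Function.uncurry F)
      ((volume.restrict (Ioc 0 (2 * Real.pi))).prod (volume : Measure E)) := by
    have hk : Integrable (fun p : ℝ × E => (1:ℝ) * kr φ p.2)
        ((volume.restrict (Ioc 0 (2 * Real.pi))).prod (volume : Measure E)) :=
      Integrable.mul_prod (f := fun _ : ℝ => (1:ℝ)) (g := kr φ) (integrable_const _)
        (kr_integrable φ)
    refine (hk.const_mul C).mono' hFm.aestronglyMeasurable (Eventually.of_forall ?_)
    rintro ⟨θ, t⟩
    simp only [Function.uncurry, F, Real.norm_eq_abs, abs_mul, abs_of_nonneg (kr_nonneg φ t)]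
    rw [one_mul]
    exact mul_le_mul_of_nonneg_right (hf.bd _) (kr_nonneg φ t)
  have e1 : Real.circleAverage (fun ζ : ℂ => moll φ f (x + ζ • v)) 0 1
      = (2 * Real.pi)⁻¹ * ∫ θ in Ioc 0 (2 * Real.pi), ∫ t, F θ t := by
    rw [Real.circleAverage_def, intervalIntegral.integral_of_le hpi.le]
    simp only [smul_eq_mul, moll_eq]
    rfl
  have e2 : ∫ θ in Ioc 0 (2 * Real.pi), ∫ t, F θ t
      = ∫ t, ∫ θ in Ioc 0 (2 * Real.pi), F θ t := integral_integral_swap hFint
  rw [e1, e2, ← integral_const_mul, moll_eq]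
  refine integral_mono (hf.int_shift φ x) (hFint.swap.integral_prod_left.const_mul _) ?_
  intro t
  simp only []
  by_cases ht : ‖t‖ < φ.rOut
  · have h1 := h t ht
    have e3 : Real.circleAverage (fun ζ : ℂ => f (x - t + ζ • v)) 0 1
        = (2 * Real.pi)⁻¹ * ∫ θ in Ioc 0 (2 * Real.pi), f (x - t + circleMap 0 1 θ • v) := by
      rw [Real.circleAverage_def, intervalIntegral.integral_of_le hpi.le]
      rfl
    have e4 : ∫ θ in Ioc 0 (2 * Real.pi), F θ t
        = (∫ θ in Ioc 0 (2 * Real.pi), f (x - t + circleMap 0 1 θ • v)) * kr φ t := by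
      rw [← integral_mul_const]
      refine integral_congr_ae (Eventually.of_forall fun θ => ?_)
      simp only [F]
      congr 2
      abel
    rw [e4, ← mul_assoc, ← e3]
    exact mul_le_mul_of_nonneg_right h1 (kr_nonneg φ t)
  · have hz : kr φ t = 0 := kr_zero φ (not_lt.mp ht)
    simp [F, hz]

end H13Ceg
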