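import Pool.Agent.H13.Ceg.Lim

open MeasureTheory Set Filter Topology Metric
open scoped ContDiff ENNReal NNReal

namespace H13Ceg

/-- energy of a slice -/
noncomputable def Nbf (σ : ℝ) (β : E → ℝ) (w : ℂ) : ℝ≥0∞ :=
  ENNReal.ofReal (1 / (4 * Real.pi ^ 2)) * ∫⁻ a, ENNReal.ofReal (gz β (a, w) / σ ^ 2)

section
variable {β : E → ℝ} (hβ : ContDiff ℝ 1 β) (hc : HasCompactSupport β) {σ : ℝ} (hσ : 0 < σ)

include hβ in
lemma Nbf_int_meas (σ : ℝ) : Measurable (fun p : ℂ × ℂ => ENNReal.ofReal (gz β (p.2, p.1) / σ ^ 2)) := by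
  refine ENNReal.measurable_ofReal.comp ?_
  have h1 : Continuous (fun p : ℂ × ℂ => gz β (p.2, p.1)) :=
    (gz_cont hβ).comp (by fun_prop)
  exact (h1.div_const _).measurable

include hβ in
lemma Nbf_meas (σ : ℝ) : Measurable (Nbf σ β) := by
  unfold Nbf
  apply Measurable.const_mul
  exact Measurable.lintegral_prod_right (f := fun (w a : ℂ) => ENNReal.ofReal (gz β (a, w) / σ ^ 2))
    (Nbf_int_meas hβ σ)

include hβ hc hσ in
lemma Nbf_total {r M : ℝ} (_hr : 0 < r)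
    (hM : ∫ x in {x : E | ‖x.2‖ ≤ r}, gz β x ≤ 2 * r ^ 2 * M) :
    ∫⁻ w in closedBall (0:ℂ) r, Nbf σ β w
      ≤ ENNReal.ofReal (r ^ 2 * (M / (2 * Real.pi ^ 2 * σ ^ 2))) := by
  have hpi := Real.pi_pos
  unfold Nbf
  have hm := Measurable.lintegral_prod_right
    (f := fun (w a : ℂ) => ENNReal.ofReal (gz β (a, w) / σ ^ 2)) (Nbf_int_meas hβ σ)
    (ν := (volume : Measure ℂ))
  rw [lintegral_const_mul _ hm]
  have hset : {x : E | ‖x.2‖ ≤ r} = (univ : Set ℂ) ×ˢ closedBall (0:ℂ) r := by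
    ext x; simp
  have hmeas : Measurable (fun x : E => ENNReal.ofReal (gz β x / σ ^ 2)) :=
    ENNReal.measurable_ofReal.comp ((gz_cont hβ).div_const _).measurable
  have e1 : ∫⁻ w in closedBall (0:ℂ) r, ∫⁻ a, ENNReal.ofReal (gz β (a, w) / σ ^ 2)
      = ∫⁻ x in {x : E | ‖x.2‖ ≤ r}, ENNReal.ofReal (gz β x / σ ^ 2) := by
    rw [hset, Measure.volume_eq_prod, ← Measure.prod_restrict, Measure.restrict_univ,
      lintegral_prod_symm _ hmeas.aemeasurable]
  have hi : Integrable (fun x => gz β x / σ ^ 2) :=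
    (int_cc (gz_cont hβ) (gz_compact hc)).div_const _
  rw [e1, ← ofReal_integral_eq_lintegral_ofReal hi.integrableOn
    (Eventually.of_forall fun x => div_nonneg (gz_nonneg β x) (sq_nonneg σ)),
    ← ENNReal.ofReal_mul (by positivity)]
  apply ENNReal.ofReal_le_ofReal
  rw [integral_div]
  calc 1 / (4 * Real.pi ^ 2) * ((∫ x in {x : E | ‖x.2‖ ≤ r}, gz β x) / σ ^ 2)
      ≤ 1 / (4 * Real.pi ^ 2) * ((2 * r ^ 2 * M) / σ ^ 2) := by gcongr
    _ = r ^ 2 * (M / (2 * Real.pi ^ 2 * σ ^ 2)) := by field_simp; ring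

include hβ hc hσ in
/-- the pay-off satisfies the energy inequality on slices -/
lemma pay_bound {f : E → ℝ} {e : ℝ} (he : 0 ≤ e) (hβ0 : ∀ x, 0 ≤ β x)
    (hfβ : ∀ x, -f x ≤ β x + e) {ρ : ℝ} (hρ : ρ < 1) (hsupp : ∀ x : E, ρ < ‖x‖ → β x = 0)
    (w : ℂ) (η : Measure ℂ) (hfin : IsFiniteMeasure η) (hη : ∀ᵐ a ∂η, ‖a‖ < 1) :
    2 * ∫⁻ a, bf σ f (a, w) ∂η ≤ En η + Nbf σ β w + ENNReal.ofReal (2 * e / σ) * η univ := by
  have hpi := Real.pi_pos
  -- the slice
  set s : ℂ → ℝ := fun a => β (a, w) / σ with hs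
  have hlin : ∀ a : ℂ, HasFDerivAt (fun a : ℂ => ((a, w) : E))
      (ContinuousLinearMap.inl ℝ ℂ ℂ) a := by
    intro a
    exact (hasFDerivAt_id a).prodMk (hasFDerivAt_const w a)
  have hd := hβ.differentiable (n := 1) (by norm_num)
  have hsd : ∀ a u : ℂ, fderiv ℝ s a u = (u.re * D e1 β (a, w) + u.im * D e2 β (a, w)) / σ := by
    intro a u
    have h1 : HasFDerivAt s (σ⁻¹ • (fderiv ℝ β (a, w)).comp (ContinuousLinearMap.inl ℝ ℂ ℂ)) a := by
      have := ((hd (a, w)).hasFDerivAt.comp a (hlin a)).const_mul σ⁻¹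
      refine this.congr_of_eventuallyEq (Eventually.of_forall fun a => ?_)
      simp only [hs, Function.comp]
      rw [div_eq_inv_mul]
    rw [h1.fderiv]
    have h2 : ((u, 0) : E) = u.re • e1 + u.im • e2 := by
      simp only [e1, e2, Prod.smul_mk, Prod.mk_add_mk, Complex.real_smul, mul_zero, add_zero,
        mul_one, Complex.re_add_im]
    have h3 : (σ⁻¹ • (fderiv ℝ β (a, w)).comp (ContinuousLinearMap.inl ℝ ℂ ℂ)) u
        = σ⁻¹ * fderiv ℝ β (a, w) (u, 0) := rfl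
    rw [h3, h2, map_add, map_smul, map_smul, smul_eq_mul, smul_eq_mul]
    unfold D
    ring
  have hs1 : ContDiff ℝ 1 s := by
    have : ContDiff ℝ 1 (fun a : ℂ => β (a, w)) := hβ.comp (by fun_prop)
    exact this.div_const σ
  have hs2 : HasCompactSupport s := by
    refine HasCompactSupport.intro (isCompact_closedBall (0:ℂ) ρ) (fun a ha => ?_)
    rw [mem_closedBall_zero_iff, not_le] at ha
    simp only [hs]
    rw [hsupp (a, w) (ha.trans_le (norm_fst_le (a, w))), zero_div]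
  set G : ℂ → ℝ≥0∞ := fun a => ENNReal.ofReal (Real.sqrt (gz β (a, w)) / σ) with hG
  have hgc : Continuous (fun a : ℂ => gz β (a, w)) := (gz_cont hβ).comp (by fun_prop)
  have hGm : Measurable G :=
    ENNReal.measurable_ofReal.comp ((hgc.sqrt.div_const σ).measurable)
  have hGb : ∀ x u : ℂ, ‖u‖ = 1 → ‖fderiv ℝ s x u‖ₑ ≤ G x := by
    intro x u hu
    rw [hsd, Real.enorm_eq_ofReal_abs]
    apply ENNReal.ofReal_le_ofReal
    rw [abs_div, abs_of_pos hσ]
    gcongr
    apply Real.abs_le_sqrt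
    have h1 : u.re ^ 2 + u.im ^ 2 = 1 := by
      have := Complex.sq_norm u
      rw [hu, Complex.normSq_apply] at this
      nlinarith
    unfold gz
    nlinarith [sq_nonneg (u.re * D e2 β (x, w) - u.im * D e1 β (x, w))]
  have hzero : ∀ x : ℂ, 1 ≤ ‖x‖ → gz β (x, w) = 0 := by
    intro x hx
    have h1 : ρ < ‖((x, w) : E)‖ := by
      have := norm_fst_le ((x, w) : E)
      simp only [] at this
      linarith
    have hev : β =ᶠ[𝓝 ((x, w) : E)] fun _ => 0 := by
      filter_upwards [continuous_norm.continuousAt.eventually (lt_mem_nhds h1)] with y hy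
      exact hsupp y hy
    unfold gz
    rw [D_congr hev, D_congr hev]
    simp [D]
  have hG0 : ∀ x : ℂ, 1 ≤ ‖x‖ → G x = 0 := by
    intro x hx
    simp only [hG]
    rw [hzero x hx]; simp
  have hCS := CS hs1 hs2 hGm hGb hG0 hη
  have eG : ∫⁻ x, G x ^ 2 = ∫⁻ a, ENNReal.ofReal (gz β (a, w) / σ ^ 2) := by
    refine lintegral_congr (fun a => ?_)
    simp only [hG]
    rw [← ENNReal.ofReal_pow (by positivity), div_pow, Real.sq_sqrt (gz_nonneg _ _)]
  rw [eG] at hCS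
  -- pointwise bound of the pay-off
  have hpt : ∀ a, bf σ f (a, w) ≤ ‖s a‖ₑ + ENNReal.ofReal (e / σ) := by
    intro a
    unfold bf uf
    rw [Real.enorm_eq_ofReal_abs, ← ENNReal.ofReal_add (abs_nonneg _) (by positivity)]
    apply ENNReal.ofReal_le_ofReal
    have h1 : -(max (f (a, w) / σ) (-1)) ≤ -f (a, w) / σ := by
      rw [neg_div]
      exact neg_le_neg (le_max_left _ _)
    have h2 : -f (a, w) / σ ≤ (β (a, w) + e) / σ := by
      gcongr; exact hfβ _
    have h3 : s a ≤ |s a| := le_abs_self _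
    have h4 : (β (a, w) + e) / σ = s a + e / σ := by simp only [hs]; ring
    linarith
  have hsm : Measurable (fun a => ‖s a‖ₑ) := hs1.continuous.measurable.enorm
  calc 2 * ∫⁻ a, bf σ f (a, w) ∂η
      ≤ 2 * ∫⁻ a, (‖s a‖ₑ + ENNReal.ofReal (e / σ)) ∂η := by
        gcongr with a; exact hpt a
    _ = 2 * (∫⁻ a, ‖s a‖ₑ ∂η) + ENNReal.ofReal (2 * e / σ) * η univ := by
        rw [lintegral_add_left hsm, lintegral_const, mul_add, ← mul_assoc]
        congr 2
        rw [show (2:ℝ≥0∞) = ENNReal.ofReal 2 by simp, ← ENNReal.ofReal_mul (by norm_num)]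
        congr 1; ring
    _ ≤ En η + Nbf σ β w + ENNReal.ofReal (2 * e / σ) * η univ := by
        gcongr
        exact hCS

end

end H13Ceg
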