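import Pool.Agent.H13.Ceg.Ave

open MeasureTheory Set Filter Topology Metric
open scoped ContDiff ENNReal NNReal

namespace H13Ceg

/-- existence of a plurisubharmonic function, close to zero on the axis in the mean, and at
most `-1` where `f` is very negative in an annulus -/
theorem exists_Phi {f : E → ℝ} (hf : CC f) {r σ s0 e0 M : ℝ} (hr0 : 0 < r) (hr1 : r ≤ 1 / 4)
    (hσ : 0 < σ) (hs0 : 0 < s0) (he0 : 0 ≤ e0) {β : E → ℝ} (hβ : ContDiff ℝ 1 β)
    (hc : HasCompactSupport β) (hβ0 : ∀ x, 0 ≤ β x) (hfβ : ∀ x, -f x ≤ β x + e0) {ρ0 : ℝ}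
    (hρ0 : ρ0 < 1) (hsupp : ∀ x : E, ρ0 < ‖x‖ → β x = 0)
    (hM : ∫ x in {x : E | ‖x.2‖ ≤ r}, gz β x ≤ 2 * r ^ 2 * M)
    (hMs : M / (2 * Real.pi ^ 2 * σ ^ 2) ≤ s0) {ε : ℝ} (hε : 0 < ε) :
    ∃ Φ : E → ℝ, Adm Φ ∧ (∃ ε' > 0, ∀ x y : E, r / 2 - ε' < ‖x.2‖ → ‖x‖ < 1 →
        ‖y - x‖ < ε' → f y ≤ -(2 * σ) → Φ x ≤ -1) ∧
      ∫ a in ball (0:ℂ) 1, -Φ (a, 0)
        ≤ 64 * ((8 * Real.pi ^ 4 + 2048) * Real.sqrt s0 + Real.pi ^ 2 / 8 * (2 * e0 / σ)) + ε := by
  have hpi := Real.pi_pos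
  -- modulus of continuity
  obtain ⟨δf, hδf, huc⟩ := Metric.uniformContinuous_iff.mp hf.uc σ hσ
  set e := min (r / 100) (min (δf / 4) (1 / 10)) with he
  have he1 : 0 < e := by positivity
  have he2 : e ≤ r / 100 := min_le_left _ _
  have he3 : e ≤ δf / 4 := (min_le_right _ _).trans (min_le_left _ _)
  have he4 : e ≤ 1 / 10 := (min_le_right _ _).trans (min_le_right _ _)
  set ρ := 1 - e with hρ
  have hρ9 : 9 / 10 ≤ ρ := by rw [hρ]; linarith
  have hρp : 0 < ρ := by linarith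
  have hρe : ρ + e / 2 < 1 := by rw [hρ]; linarith
  set φ := sb e he1 with hφ
  have hφr : φ.rOut = e / 2 := rfl
  set εn := ε / 8 with hεn
  have hεn0 : 0 < εn := by positivity
  obtain ⟨S, hS0, δ0, hδ0, hnet⟩ := net (kr_contDiff φ) (kr_compact φ) hεn0
  obtain ⟨L, hL0, hL⟩ : ∃ L > 0, ∀ c ∈ S, ‖c‖ + 1 ≤ L := by
    refine ⟨1 + ∑ c ∈ S, ‖c‖, by positivity, fun c hc => ?_⟩
    have := Finset.single_le_sum (f := fun c : ℂ => ‖c‖) (fun i _ => norm_nonneg _) hc
    linarith
  -- the step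
  obtain ⟨N, hN2, hNd0, hNe, hNL⟩ : ∃ N : ℕ, 2 ≤ N ∧ r / 8 / N < δ0 ∧ r / 8 / N ≤ e / 20 ∧
      r / 8 / N * L < e / 2 := by
    have hm : 0 < min δ0 (min (e / 20) (e / (4 * L))) := by positivity
    obtain ⟨N, hN⟩ := exists_nat_gt (r / 8 / min δ0 (min (e / 20) (e / (4 * L))))
    refine ⟨N + 2, by omega, ?_, ?_, ?_⟩
    all_goals
      have hNN : (0:ℝ) < ((N + 2 : ℕ) : ℝ) := by positivity
      have h1 : r / 8 / ((N + 2 : ℕ) : ℝ) < min δ0 (min (e / 20) (e / (4 * L))) := by
        rw [div_lt_iff₀ hNN]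
        rw [div_lt_iff₀ hm] at hN
        push_cast
        nlinarith
    · exact h1.trans_le (min_le_left _ _)
    · exact (h1.trans_le ((min_le_right _ _).trans (min_le_left _ _))).le
    · have h2 := h1.trans_le ((min_le_right _ _).trans (min_le_right _ _))
      have h3 : r / 8 / ((N + 2 : ℕ) : ℝ) * L < e / (4 * L) * L := by gcongr
      have h4 : e / (4 * L) * L = e / 4 := by field_simp
      linarith
  set δ := r / 8 / N with hδ
  have hNp : (0:ℝ) < N := by exact_mod_cast (show 0 < N by omega)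
  have hδp : 0 < δ := by positivity
  -- the energy
  have hNbm := Nbf_meas (σ := σ) hβ
  have hS : ∫⁻ w in closedBall (0:ℂ) r, Nbf σ β w ≤ ENNReal.ofReal (r ^ 2 * s0) := by
    refine (Nbf_total hβ hc hσ hr0 hM).trans (ENNReal.ofReal_le_ofReal ?_)
    gcongr
  obtain ⟨r1, hr1a, hr1b, hexit⟩ := exitE hNbm hr0 hs0.le hS he1 (by linarith) hN2 hNe
  have hbm := bf_meas hf hσ
  have hSne : S.Nonempty := ⟨0, hS0⟩
  have h2e : 0 ≤ 2 * e0 / σ := by positivity
  set B := (8 * Real.pi ^ 4 + 2048) * Real.sqrt s0 + Real.pi ^ 2 / 8 * (2 * e0 / σ) with hB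
  have hB0 : 0 ≤ B := by positivity
  have hgame : ∀ m, ∫⁻ w in closedBall (0:ℂ) (e / 2), ∫⁻ a in ball (0:ℂ) 1,
      GG (bf σ f) r1 δ S m (a, w) ≤ ENNReal.ofReal (e ^ 2 * B) := fun m =>
    gameE hbm hNbm hδp hSne h2e
      (fun w _ η hfin hη => pay_bound hβ hc hσ he0 hβ0 hfβ hρ0 hsupp w η hfin hη) hs0 he1
      (hexit m)
  have hGI := gameGI hbm hgame
  set g := GI (bf σ f) r1 δ S with hg
  have hgm : Measurable g := GI_meas hbm r1 δ S
  have hg1 : ∀ x, g x ≤ 1 := GI_le_one bf_le_one r1 δ S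
  have hBM := hr_BM hgm hg1
  -- the mollified function
  set F := moll φ (hr g) with hF
  have hFs : ContDiff ℝ ∞ F := moll_contDiff φ hBM.locInt
  have hF2 : ContDiff ℝ 2 F := hFs.of_le le2
  have hF0 : ∀ y, F y ≤ 0 := fun y => moll_le_at φ hBM (fun t _ => by
    unfold hr; linarith [ENNReal.toReal_nonneg (a := g (y - t))])
  have hFlev : ∀ y : E, ‖y‖ < ρ → ∀ v : E, -(εn * ‖v‖ ^ 2) ≤ Lev F y v := by
    intro y hy
    refine hnet δ hδp hNd0 (hr g) hBM y (fun c hcS => ?_)
    refine moll_submean φ hBM (fun t ht => ?_)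
    have ht' : ‖t‖ < e / 2 := by rwa [hφr] at ht
    have hyt : ‖y - t‖ < ρ + e / 2 := by
      have := norm_sub_le y t; linarith
    have hδc : (‖c‖ + 1) * δ < e / 2 := by
      have := mul_le_mul_of_nonneg_right (hL c hcS) hδp.le
      nlinarith
    have a1 : ‖(y - t).1‖ ≤ ‖y - t‖ := norm_fst_le _
    have a2 : ‖(y - t).2‖ ≤ ‖y - t‖ := norm_snd_le _
    have a3 : 0 ≤ ‖c‖ * δ := by positivity
    refine hr_sub hgm hg1 (by rw [hρ] at hyt; nlinarith) ?_
    refine GI_super' hbm hδp (fun x hx hx2 c => bf_super hf hσ hδp hx hx2 c) ?_ ?_ hcS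
    · rw [hρ] at hyt; linarith
    · rw [hρ] at hyt; nlinarith
  -- the final function
  refine ⟨fun x => F (ρ • x) + εn * qq x, ⟨?_, ?_, ?_⟩, ⟨e / 4, by positivity, ?_⟩, ?_⟩
  · exact (hF2.comp (contDiff_const_smul ρ)).add (contDiff_const.mul (qq_contDiff.of_le le2))
  · intro x hx
    have h1 := hF0 (ρ • x)
    have h2 := (qq_bounds hx.le).2
    have h3 : εn * qq x ≤ 0 := mul_nonpos_of_nonneg_of_nonpos hεn0.le h2
    linarith
  · intro x hx v
    have c1 : ContDiff ℝ 2 (fun x : E => F (ρ • x)) := hF2.comp (contDiff_const_smul ρ)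
    have c2 : ContDiff ℝ 2 (fun x : E => εn * qq x) := contDiff_const.mul (qq_contDiff.of_le le2)
    have h1 : Lev (fun x => εn * qq x) x v = εn * Lev qq x v := by
      have d1 : Differentiable ℝ qq := qq_contDiff.differentiable (by simp)
      have key : ∀ u, D u (D u (fun x => εn * qq x)) x = εn * D u (D u qq) x := by
        intro u
        have e1 : ∀ {G : E → ℝ}, Differentiable ℝ G →
            D u (fun x => εn * G x) = fun x => εn * D u G x := by
          intro G hG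
          rw [D_mul (f := fun _ => εn) (g := G) (differentiable_const _) hG]
          funext z
          simp [D]
        rw [e1 d1, e1 ((D_contDiff (m := 1) (qq_contDiff.of_le le2)
          (by norm_num)).differentiable (by norm_num))]
      rw [Lev_eq c2, Lev_eq (qq_contDiff.of_le le2), key, key]; ring
    rw [Lev_add c1 c2, Lev_dil hF2, h1]
    have h2 := hFlev (ρ • x) (by
      rw [norm_smul, Real.norm_eq_abs, abs_of_pos hρp]
      have : ρ * ‖x‖ < ρ * 1 := by gcongr
      linarith) v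
    have h3 := qq_lev x v
    have h4 : ρ ^ 2 ≤ 1 := by nlinarith
    have h5 : 0 ≤ εn * ‖v‖ ^ 2 := by positivity
    have h6 := mul_le_mul_of_nonneg_left h2 (sq_nonneg ρ)
    have h7 := mul_le_mul_of_nonneg_left h3 hεn0.le
    nlinarith
  · intro x y hx2 hx hyx hfy
    have hx2' : ‖x.2‖ ≤ ‖x‖ := norm_snd_le x
    have hFx : F (ρ • x) ≤ -1 := by
      refine moll_le_at φ hBM (fun t ht => ?_)
      have ht' : ‖t‖ < e / 2 := by rwa [hφr] at ht
      have ht2 : ‖t.2‖ ≤ ‖t‖ := norm_snd_le t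
      have hsec : r1 < ‖(ρ • x - t).2‖ := by
        have h1 : (ρ • x - t).2 = ρ • x.2 - t.2 := rfl
        have h2 := norm_sub_norm_le (ρ • x.2) t.2
        rw [norm_smul, Real.norm_eq_abs, abs_of_pos hρp] at h2
        rw [h1]
        have h3 : ρ * (r / 2 - e / 4) ≤ ρ * ‖x.2‖ := by gcongr
        nlinarith
      have hgv : g (ρ • x - t) = 1 := by
        rw [hg, GI_out hsec]
        unfold bf uf
        have h1 : ‖(ρ • x - t) - y‖ < δf := by
          have h2 : (ρ • x - t) - y = -((1 - ρ) • x) - t - (y - x) := by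
            rw [sub_smul (1:ℝ) ρ x, one_smul]; abel
          rw [h2]
          have h3 := norm_sub_le (-((1 - ρ) • x) - t) (y - x)
          have h4 := norm_sub_le (-((1 - ρ) • x)) t
          rw [norm_neg, norm_smul, Real.norm_eq_abs, abs_of_pos (by rw [hρ]; linarith)] at h4
          have h5 : (1 - ρ) * ‖x‖ ≤ e * 1 := by
            have : 1 - ρ = e := by rw [hρ]; ring
            rw [this]; gcongr
          linarith
        have h2 := huc (a := ρ • x - t) (b := y) (by rwa [dist_eq_norm])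
        rw [Real.dist_eq] at h2
        have h3 := (abs_lt.mp h2).2
        have h4 : f (ρ • x - t) / σ ≤ -1 := by
          rw [div_le_iff₀ hσ]; linarith
        rw [max_eq_right h4]
        simp
      unfold hr
      rw [hgv]; simp
    have h3 := (qq_bounds hx.le).2
    have h4 : εn * qq x ≤ 0 := mul_nonpos_of_nonneg_of_nonpos hεn0.le h3
    simp only []
    linarith
  · have hFc : Continuous F := hFs.continuous
    have c1 : Continuous (fun a : ℂ => -F (ρ • ((a, 0) : E))) := (hFc.comp (by fun_prop)).neg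
    have c2 : Continuous (fun a : ℂ => -(εn * qq ((a, 0) : E))) :=
      ((continuous_const.mul (qq_contDiff.continuous.comp (by fun_prop)))).neg
    have hib := int_bound hgm hg1 he1 hρ9 hρe hB0 hGI
    have hvol : (volume : Measure ℂ) (ball 0 1) ≠ ⊤ := measure_ball_lt_top.ne
    calc ∫ a in ball (0:ℂ) 1, -(F (ρ • ((a, 0) : E)) + εn * qq ((a, 0) : E))
        = (∫ a in ball (0:ℂ) 1, -F (ρ • ((a, 0) : E)))
          + ∫ a in ball (0:ℂ) 1, -(εn * qq ((a, 0) : E)) := by
          rw [← integral_add (intOn_ball c1 1) (intOn_ball c2 1)]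
          congr 1; funext a; ring
      _ ≤ 64 * B + ∫ a in ball (0:ℂ) 1, (2 * εn) := by
          refine add_le_add hib ?_
          refine setIntegral_mono_on (intOn_ball c2 1) (integrableOn_const hvol)
            measurableSet_ball (fun a ha => ?_)
          have h1 : ‖((a, 0) : E)‖ ≤ 1 := by
            rw [norm_pair]; exact (mem_ball_zero_iff.mp ha).le
          have h2 := (qq_bounds h1).1
          nlinarith
      _ ≤ 64 * B + ε := by
          rw [setIntegral_const, vol_disc, smul_eq_mul, hεn]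
          have := Real.pi_lt_four
          nlinarith

end H13Ceg
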