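import Pool.Agent.H13.Ceg.Circ

open MeasureTheory Set Filter Topology Metric
open scoped ContDiff ENNReal NNReal

namespace H13Ceg

/-- unit vectors -/
noncomputable def uv (θ : ℝ) : ℂ := (Real.cos θ : ℂ) + (Real.sin θ : ℂ) * Complex.I

lemma uv_norm (θ : ℝ) : ‖uv θ‖ = 1 := by
  unfold uv
  rw [Complex.ofReal_cos, Complex.ofReal_sin, Complex.cos_add_sin_I, Complex.norm_exp_ofReal_mul_I]

lemma uv_cont : Continuous uv := by unfold uv; fun_prop

/-- polar coordinates -/
lemma polar {F : ℂ → ℝ≥0∞} (hF : Measurable F) :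
    ∫⁻ y, F y = ∫⁻ θ in Ioo (-Real.pi) Real.pi, ∫⁻ ρ in Ioi (0:ℝ),
      ENNReal.ofReal ρ * F (ρ * uv θ) := by
  rw [← Complex.lintegral_comp_polarCoord_symm F]
  have ht : polarCoord.target = Ioi (0:ℝ) ×ˢ Ioo (-Real.pi) Real.pi := rfl
  rw [ht, Measure.volume_eq_prod, ← Measure.prod_restrict, lintegral_prod_symm]
  · simp only [Complex.polarCoord_symm_apply, smul_eq_mul]
    rfl
  · refine Measurable.aemeasurable ?_
    simp only [Complex.polarCoord_symm_apply, smul_eq_mul]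
    refine (ENNReal.measurable_ofReal.comp measurable_fst).mul (hF.comp ?_)
    fun_prop

lemma int_max_inv {d : ℝ} (hd : 0 < d) (hd4 : d ≤ 4) :
    ∫⁻ ρ in Ioo (0:ℝ) 2, ENNReal.ofReal ((max ρ (d / 2))⁻¹)
      ≤ ENNReal.ofReal (1 + Real.log (4 / d)) := by
  have hlog : 0 ≤ Real.log (4 / d) := Real.log_nonneg (by rw [le_div_iff₀ hd]; linarith)
  have hsub : Ioo (0:ℝ) 2 ⊆ Ioc 0 (d / 2) ∪ Ioc (d / 2) 2 := by
    intro x hx
    by_cases h : x ≤ d / 2
    · exact Or.inl ⟨hx.1, h⟩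
    · exact Or.inr ⟨not_le.mp h, hx.2.le⟩
  calc ∫⁻ ρ in Ioo (0:ℝ) 2, ENNReal.ofReal ((max ρ (d / 2))⁻¹)
      ≤ ∫⁻ ρ in Ioc 0 (d / 2) ∪ Ioc (d / 2) 2, ENNReal.ofReal ((max ρ (d / 2))⁻¹) :=
        lintegral_mono_set hsub
    _ ≤ (∫⁻ ρ in Ioc 0 (d / 2), ENNReal.ofReal ((max ρ (d / 2))⁻¹))
        + ∫⁻ ρ in Ioc (d / 2) 2, ENNReal.ofReal ((max ρ (d / 2))⁻¹) :=
        lintegral_union_le _ _ _
    _ ≤ ENNReal.ofReal 1 + ENNReal.ofReal (Real.log (4 / d)) := by
        gcongr
        · calc ∫⁻ ρ in Ioc 0 (d / 2), ENNReal.ofReal ((max ρ (d / 2))⁻¹)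
              ≤ ∫⁻ ρ in Ioc 0 (d / 2), ENNReal.ofReal ((d / 2)⁻¹) := by
                refine lintegral_mono (fun ρ => ENNReal.ofReal_le_ofReal ?_)
                exact inv_anti₀ (by linarith) (le_max_right _ _)
            _ = ENNReal.ofReal 1 := by
                rw [setLIntegral_const, Real.volume_Ioc, sub_zero, ← ENNReal.ofReal_mul
                  (by positivity), inv_mul_cancel₀ (by positivity)]
        · have hle : d / 2 ≤ 2 := by linarith
          calc ∫⁻ ρ in Ioc (d / 2) 2, ENNReal.ofReal ((max ρ (d / 2))⁻¹)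
              = ∫⁻ ρ in Ioc (d / 2) 2, ENNReal.ofReal (ρ⁻¹) := by
                refine setLIntegral_congr_fun measurableSet_Ioc (fun ρ hρ => ?_)
                rw [max_eq_left hρ.1.le]
            _ = ENNReal.ofReal (∫ ρ in Ioc (d / 2) 2, ρ⁻¹) := by
                rw [ofReal_integral_eq_lintegral_ofReal]
                · have := intervalIntegral.intervalIntegrable_inv (a := d / 2) (b := 2)
                    (f := fun x : ℝ => x) (μ := volume) (fun x hx => by
                      rw [uIcc_of_le hle] at hx; have := hx.1; intro h0; rw [h0] at this; linarith)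
                    continuousOn_id
                  rwa [intervalIntegrable_iff_integrableOn_Ioc_of_le hle] at this
                · refine (ae_restrict_iff' measurableSet_Ioc).mpr (Eventually.of_forall ?_)
                  intro ρ hρ
                  have := hρ.1
                  simp only [Pi.zero_apply]
                  exact inv_nonneg.mpr (by linarith)
            _ ≤ ENNReal.ofReal (Real.log (4 / d)) := by
                apply ENNReal.ofReal_le_ofReal
                rw [← intervalIntegral.integral_of_le hle, integral_inv_of_pos (by linarith)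
                  (by norm_num)]
                apply le_of_eq; congr 1; field_simp; norm_num
    _ = ENNReal.ofReal (1 + Real.log (4 / d)) := (ENNReal.ofReal_add zero_le_one hlog).symm

/-- the two radial integrals -/
lemma radial {h : ℝ → ℝ} (hm : Measurable h) :
    ∫⁻ y in ball (0:ℂ) 2, ENNReal.ofReal (‖y‖⁻¹ * h ‖y‖)
      = ENNReal.ofReal (2 * Real.pi) * ∫⁻ ρ in Ioo (0:ℝ) 2, ENNReal.ofReal (h ρ) := by
  have hmeas : Measurable (fun y : ℂ => ENNReal.ofReal (‖y‖⁻¹ * h ‖y‖)) :=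
    ENNReal.measurable_ofReal.comp (measurable_norm.inv.mul (hm.comp measurable_norm))
  rw [← lintegral_indicator measurableSet_ball, polar (hmeas.indicator measurableSet_ball)]
  have e : ∀ θ : ℝ, ∫⁻ ρ in Ioi (0:ℝ), ENNReal.ofReal ρ * (ball (0:ℂ) 2).indicator
      (fun y : ℂ => ENNReal.ofReal (‖y‖⁻¹ * h ‖y‖)) (ρ * uv θ)
      = ∫⁻ ρ in Ioo (0:ℝ) 2, ENNReal.ofReal (h ρ) := by
    intro θ
    rw [← lintegral_indicator measurableSet_Ioi, ← lintegral_indicator measurableSet_Ioo]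
    congr 1
    funext ρ
    by_cases h0 : 0 < ρ
    · rw [indicator_of_mem (mem_Ioi.mpr h0)]
      have hn : ‖(ρ:ℂ) * uv θ‖ = ρ := by
        rw [norm_mul, uv_norm, mul_one, Complex.norm_real, Real.norm_eq_abs, abs_of_pos h0]
      by_cases h2 : ρ < 2
      · rw [indicator_of_mem (mem_ball_zero_iff.mpr (by rw [hn]; exact h2)),
          indicator_of_mem (show ρ ∈ Ioo (0:ℝ) 2 from ⟨h0, h2⟩), hn,
          ← ENNReal.ofReal_mul h0.le, ← mul_assoc, mul_inv_cancel₀ h0.ne', one_mul]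
      · rw [indicator_of_notMem (by rw [mem_ball_zero_iff, hn]; exact h2), mul_zero,
          indicator_of_notMem (fun h => h2 h.2)]
    · rw [indicator_of_notMem (show ρ ∉ Ioi (0:ℝ) from h0),
        indicator_of_notMem (show ρ ∉ Ioo (0:ℝ) 2 from fun h => h0 h.1)]
  simp only [e]
  rw [setLIntegral_const, Real.volume_Ioo, mul_comm]
  congr 2; ring

lemma split_inv {p q d : ℝ} (hp : 0 ≤ p) (hq : 0 ≤ q) (hd : 0 < d) (h : d ≤ p + q) :
    p⁻¹ * q⁻¹ ≤ p⁻¹ * (max p (d / 2))⁻¹ + q⁻¹ * (max q (d / 2))⁻¹ := by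
  have h1 : 0 ≤ p⁻¹ * (max p (d / 2))⁻¹ := by positivity
  have h2 : 0 ≤ q⁻¹ * (max q (d / 2))⁻¹ := by positivity
  rcases le_total p q with hpq | hpq
  · have : max p (d / 2) ≤ q := max_le hpq (by linarith)
    have h3 : q⁻¹ ≤ (max p (d / 2))⁻¹ := inv_anti₀ (lt_max_of_lt_right (by linarith)) this
    have : p⁻¹ * q⁻¹ ≤ p⁻¹ * (max p (d / 2))⁻¹ := mul_le_mul_of_nonneg_left h3 (by positivity)
    linarith
  · have : max q (d / 2) ≤ p := max_le hpq (by linarith)
    have h3 : p⁻¹ ≤ (max q (d / 2))⁻¹ := inv_anti₀ (lt_max_of_lt_right (by linarith)) this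
    have : p⁻¹ * q⁻¹ ≤ (max q (d / 2))⁻¹ * q⁻¹ := mul_le_mul_of_nonneg_right h3 (by positivity)
    linarith

lemma shift_ball {F : ℂ → ℝ≥0∞} (_ : Measurable F) {a : ℂ} (ha : ‖a‖ < 1) :
    ∫⁻ x in ball (0:ℂ) 1, F (x - a) ≤ ∫⁻ y in ball (0:ℂ) 2, F y := by
  rw [← lintegral_indicator measurableSet_ball, ← lintegral_indicator measurableSet_ball,
    ← lintegral_sub_right_eq_self ((ball (0:ℂ) 2).indicator F) a]
  refine lintegral_mono (fun x => ?_)
  by_cases hx : x ∈ ball (0:ℂ) 1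
  · rw [indicator_of_mem hx, indicator_of_mem]
    rw [mem_ball_zero_iff] at hx ⊢
    have := norm_sub_le x a
    linarith
  · rw [indicator_of_notMem hx]; exact zero_le

/-- the interaction of two Riesz kernels is bounded by the logarithmic kernel -/
lemma riesz_le {a a' : ℂ} (ha : ‖a‖ < 1) (ha' : ‖a'‖ < 1) :
    ∫⁻ x in ball (0:ℂ) 1, ENNReal.ofReal ‖x - a‖⁻¹ * ENNReal.ofReal ‖x - a'‖⁻¹ ≤ Kf (a - a') := by
  by_cases h0 : a - a' = 0
  · rw [show Kf (a - a') = ⊤ by unfold Kf; rw [if_pos h0]]; exact le_top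
  have hd : 0 < ‖a - a'‖ := norm_pos_iff.mpr h0
  have hd2 : ‖a - a'‖ < 2 := by have := norm_sub_le a a'; linarith
  set d := ‖a - a'‖ with hdd
  set F : ℂ → ℝ≥0∞ := fun y => ENNReal.ofReal (‖y‖⁻¹ * (max ‖y‖ (d / 2))⁻¹) with hF
  have hFm : Measurable F := by rw [hF]; fun_prop
  have hlog : 0 ≤ Real.log (4 / d) := Real.log_nonneg (by rw [le_div_iff₀ hd]; linarith)
  have hR : ∫⁻ y in ball (0:ℂ) 2, F y ≤ ENNReal.ofReal (2 * Real.pi * (1 + Real.log (4 / d))) := by
    have := radial (h := fun ρ => (max ρ (d / 2))⁻¹) (by fun_prop)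
    rw [hF, this]
    refine (mul_le_mul' le_rfl (int_max_inv hd (by linarith))).trans_eq ?_
    rw [← ENNReal.ofReal_mul (by positivity)]
  calc ∫⁻ x in ball (0:ℂ) 1, ENNReal.ofReal ‖x - a‖⁻¹ * ENNReal.ofReal ‖x - a'‖⁻¹
      ≤ ∫⁻ x in ball (0:ℂ) 1, (F (x - a) + F (x - a')) := by
        refine lintegral_mono (fun x => ?_)
        simp only [hF]
        rw [← ENNReal.ofReal_mul (by positivity), ← ENNReal.ofReal_add (by positivity)
          (by positivity)]
        apply ENNReal.ofReal_le_ofReal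
        apply split_inv (norm_nonneg _) (norm_nonneg _) hd
        have : a - a' = (x - a') - (x - a) := by abel
        rw [hdd, this]
        have := norm_sub_le (x - a') (x - a)
        linarith
    _ = (∫⁻ x in ball (0:ℂ) 1, F (x - a)) + ∫⁻ x in ball (0:ℂ) 1, F (x - a') :=
        lintegral_add_left (hFm.comp (measurable_id.sub_const a)) _
    _ ≤ ENNReal.ofReal (2 * Real.pi * (1 + Real.log (4 / d)))
        + ENNReal.ofReal (2 * Real.pi * (1 + Real.log (4 / d))) :=
        add_le_add ((shift_ball hFm ha).trans hR) ((shift_ball hFm ha').trans hR)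
    _ = Kf (a - a') := by
        unfold Kf
        rw [if_neg h0, ← ENNReal.ofReal_add (by positivity) (by positivity)]
        congr 1; ring

lemma Kf_ball : ∫⁻ y in ball (0:ℂ) 2, Kf y ≤ ENNReal.ofReal (64 * Real.pi ^ 2) := by
  have hpi := Real.pi_pos
  calc ∫⁻ y in ball (0:ℂ) 2, Kf y
      ≤ ∫⁻ y in ball (0:ℂ) 2, ENNReal.ofReal (‖y‖⁻¹ * (16 * Real.pi)) := by
        refine lintegral_mono_ae ?_
        have h0 : ∀ᵐ y : ℂ, y ≠ 0 := by
          have : (volume : Measure ℂ) {0} = 0 := measure_singleton 0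
          exact compl_mem_ae_iff.mpr this
        filter_upwards [ae_restrict_of_ae h0] with y hy
        unfold Kf
        rw [if_neg hy]
        apply ENNReal.ofReal_le_ofReal
        have hn : 0 < ‖y‖ := norm_pos_iff.mpr hy
        have h1 := Real.log_le_sub_one_of_pos (show 0 < 4 / ‖y‖ by positivity)
        have h2 : 1 + Real.log (4 / ‖y‖) ≤ 4 * ‖y‖⁻¹ := by
          rw [div_eq_mul_inv] at h1 ⊢; linarith
        calc 4 * Real.pi * (1 + Real.log (4 / ‖y‖)) ≤ 4 * Real.pi * (4 * ‖y‖⁻¹) :=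
              mul_le_mul_of_nonneg_left h2 (by positivity)
          _ = ‖y‖⁻¹ * (16 * Real.pi) := by ring
    _ = ENNReal.ofReal (2 * Real.pi) * ∫⁻ ρ in Ioo (0:ℝ) 2, ENNReal.ofReal (16 * Real.pi) :=
        radial (h := fun _ => 16 * Real.pi) measurable_const
    _ = ENNReal.ofReal (64 * Real.pi ^ 2) := by
        rw [setLIntegral_const, Real.volume_Ioo, ← ENNReal.ofReal_mul (by positivity),
          ← ENNReal.ofReal_mul (by positivity)]
        congr 1; ring

lemma Kf_symm (x : ℂ) : Kf (-x) = Kf x := by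
  unfold Kf; simp

lemma Kf_energy : ∫⁻ a in ball (0:ℂ) 1, ∫⁻ a' in ball (0:ℂ) 1, Kf (a - a')
    ≤ ENNReal.ofReal (64 * Real.pi ^ 3) := by
  calc ∫⁻ a in ball (0:ℂ) 1, ∫⁻ a' in ball (0:ℂ) 1, Kf (a - a')
      ≤ ∫⁻ a in ball (0:ℂ) 1, ENNReal.ofReal (64 * Real.pi ^ 2) := by
        refine setLIntegral_mono measurable_const (fun a ha => ?_)
        rw [mem_ball_zero_iff] at ha
        calc ∫⁻ a' in ball (0:ℂ) 1, Kf (a - a') = ∫⁻ a' in ball (0:ℂ) 1, Kf (a' - a) := by
              congr 1; funext a'; rw [← Kf_symm]; congr 1; ring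
          _ ≤ ∫⁻ y in ball (0:ℂ) 2, Kf y := shift_ball Kf_meas ha
          _ ≤ _ := Kf_ball
    _ = ENNReal.ofReal (64 * Real.pi ^ 3) := by
        rw [setLIntegral_const, Complex.volume_ball]
        simp only [ENNReal.ofReal_one, one_pow, one_mul]
        rw [show ((NNReal.pi : ℝ≥0) : ℝ≥0∞) = ENNReal.ofReal Real.pi by
          rw [← NNReal.coe_real_pi, ENNReal.ofReal_coe_nnreal], ← ENNReal.ofReal_mul
          (by positivity)]
        congr 1; ring

end H13Ceg
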