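import Pool.Agent.H13.Ceg.Pot

open MeasureTheory Set Filter Topology Metric
open scoped ContDiff ENNReal NNReal

namespace H13Ceg

lemma two_mul_le_sq (a b : ℝ≥0∞) : 2 * a * b ≤ a ^ 2 + b ^ 2 := by
  by_cases ha : a = ⊤
  · simp [ha]
  by_cases hb : b = ⊤
  · simp [hb]
  lift a to ℝ≥0 using ha
  lift b to ℝ≥0 using hb
  norm_cast
  rw [← NNReal.coe_le_coe]
  push_cast
  nlinarith [sq_nonneg ((a:ℝ) - b)]

/-- pointwise bound by the Riesz potential of the gradient -/
lemma riesz_repr {β : ℂ → ℝ} (hβ : ContDiff ℝ 1 β) (hc : HasCompactSupport β) {G : ℂ → ℝ≥0∞}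
    (hG : Measurable G) (hGb : ∀ x u : ℂ, ‖u‖ = 1 → ‖fderiv ℝ β x u‖ₑ ≤ G x) (a : ℂ) :
    ENNReal.ofReal (2 * Real.pi) * ‖β a‖ₑ ≤ ∫⁻ x, G x * ENNReal.ofReal ‖x - a‖⁻¹ := by
  have hpi := Real.pi_pos
  have key : ∀ θ : ℝ, ‖β a‖ₑ ≤ ∫⁻ ρ in Ioi (0:ℝ), G (ρ * uv θ + a) := by
    intro θ
    set u := uv θ with hu
    have hun : ‖u‖ = 1 := uv_norm θ
    set f : ℝ → ℝ := fun s => β (a - s * u) with hf
    have hlin : ∀ s : ℝ, HasDerivAt (fun s : ℝ => a - (s:ℂ) * u) (-u) s := by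
      intro s
      have := ((Complex.ofRealCLM.hasDerivAt (x := s)).mul_const u).const_sub a
      simpa using this
    have hfd : ∀ s : ℝ, HasDerivAt f (fderiv ℝ β (a - (s:ℂ) * u) (-u)) s := by
      intro s
      exact ((hβ.differentiable (by norm_num)) _).hasFDerivAt.comp_hasDerivAt s (hlin s)
    have hf1 : ContDiff ℝ 1 f := by
      refine hβ.comp ?_
      have : (fun s : ℝ => a - (s:ℂ) * u) = fun s : ℝ => a - (Complex.ofRealCLM s) * u := rfl
      rw [this]
      fun_prop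
    have hfc : HasCompactSupport f := by
      obtain ⟨R, hR⟩ := hc.isCompact.isBounded.exists_norm_le
      refine HasCompactSupport.intro (isCompact_Icc (a := -(R + ‖a‖ + 1)) (b := R + ‖a‖ + 1))
        (fun s hs => ?_)
      by_contra hne
      have h1 := hR _ (subset_tsupport β hne)
      have h2 : |s| ≤ R + ‖a‖ := by
        have h3 : ‖(s:ℂ) * u‖ = |s| := by
          rw [norm_mul, hun, mul_one, Complex.norm_real, Real.norm_eq_abs]
        have h4 : (s:ℂ) * u = a - (a - s * u) := by ring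
        rw [← h3, h4]
        have := norm_sub_le a (a - s * u)
        linarith
      apply hs
      have := abs_le.mp h2
      constructor <;> linarith [this.1, this.2]
    have h1 := HasCompactSupport.enorm_le_lintegral_Ici_deriv hf1 hfc 0
    have h2 : f 0 = β a := by simp [hf]
    rw [h2] at h1
    refine h1.trans ?_
    calc ∫⁻ y in Iic (0:ℝ), ‖deriv f y‖ₑ ≤ ∫⁻ y in Iic (0:ℝ), G (a - y * u) := by
          refine lintegral_mono (fun y => ?_)
          rw [(hfd y).deriv, map_neg, enorm_neg]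
          exact hGb _ _ hun
      _ = ∫⁻ ρ in Ici (0:ℝ), G (ρ * u + a) := by
          rw [← lintegral_indicator measurableSet_Iic, ← lintegral_indicator measurableSet_Ici,
            ← lintegral_neg_eq_self ((Iic (0:ℝ)).indicator fun y => G (a - y * u))]
          congr 1
          funext ρ
          by_cases h : 0 ≤ ρ
          · rw [indicator_of_mem (show -ρ ∈ Iic (0:ℝ) by simpa using h),
              indicator_of_mem (show ρ ∈ Ici (0:ℝ) from h)]
            congr 1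
            push_cast; ring
          · rw [indicator_of_notMem (show -ρ ∉ Iic (0:ℝ) by simpa using h),
              indicator_of_notMem (show ρ ∉ Ici (0:ℝ) from h)]
      _ = ∫⁻ ρ in Ioi (0:ℝ), G (ρ * u + a) := setLIntegral_congr Ioi_ae_eq_Ici.symm
  have hm : Measurable (fun y : ℂ => G (y + a) * ENNReal.ofReal ‖y‖⁻¹) :=
    (hG.comp (measurable_id.add_const a)).mul
      (ENNReal.measurable_ofReal.comp measurable_norm.inv)
  calc ENNReal.ofReal (2 * Real.pi) * ‖β a‖ₑ = ∫⁻ θ in Ioo (-Real.pi) Real.pi, ‖β a‖ₑ := by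
        rw [setLIntegral_const, Real.volume_Ioo, mul_comm]
        congr 2; ring
    _ ≤ ∫⁻ θ in Ioo (-Real.pi) Real.pi, ∫⁻ ρ in Ioi (0:ℝ), G (ρ * uv θ + a) :=
        lintegral_mono key
    _ = ∫⁻ θ in Ioo (-Real.pi) Real.pi, ∫⁻ ρ in Ioi (0:ℝ),
          ENNReal.ofReal ρ * (fun y : ℂ => G (y + a) * ENNReal.ofReal ‖y‖⁻¹) (ρ * uv θ) := by
        refine lintegral_congr (fun θ => ?_)
        refine setLIntegral_congr_fun measurableSet_Ioi (fun ρ hρ => ?_)
        have hρ0 : 0 < ρ := hρ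
        have hn : ‖(ρ:ℂ) * uv θ‖ = ρ := by
          rw [norm_mul, uv_norm, mul_one, Complex.norm_real, Real.norm_eq_abs, abs_of_pos hρ0]
        simp only []
        rw [hn, mul_comm (G _), ← mul_assoc, ← ENNReal.ofReal_mul hρ0.le,
          mul_inv_cancel₀ hρ0.ne', ENNReal.ofReal_one, one_mul]
    _ = ∫⁻ y, G (y + a) * ENNReal.ofReal ‖y‖⁻¹ := (polar hm).symm
    _ = ∫⁻ x, G x * ENNReal.ofReal ‖x - a‖⁻¹ := by
        rw [← lintegral_sub_right_eq_self (fun y : ℂ => G (y + a) * ENNReal.ofReal ‖y‖⁻¹) a]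
        simp

/-- energy inequality -/
theorem CS {β : ℂ → ℝ} (hβ : ContDiff ℝ 1 β) (hc : HasCompactSupport β) {G : ℂ → ℝ≥0∞}
    (hG : Measurable G) (hGb : ∀ x u : ℂ, ‖u‖ = 1 → ‖fderiv ℝ β x u‖ₑ ≤ G x)
    (hG0 : ∀ x : ℂ, 1 ≤ ‖x‖ → G x = 0) {η : Measure ℂ} [IsFiniteMeasure η]
    (hη : ∀ᵐ a ∂η, ‖a‖ < 1) :
    2 * ∫⁻ a, ‖β a‖ₑ ∂η ≤ (∫⁻ a, ∫⁻ a', Kf (a - a') ∂η ∂η)
      + ENNReal.ofReal (1 / (4 * Real.pi ^ 2)) * ∫⁻ x, G x ^ 2 := by
  have hpi := Real.pi_pos
  set k : ℂ → ℂ → ℝ≥0∞ := fun x a => ENNReal.ofReal ‖x - a‖⁻¹ with hk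
  have hkm : Measurable (Function.uncurry k) := by
    have : Measurable (fun p : ℂ × ℂ => ENNReal.ofReal ‖p.1 - p.2‖⁻¹) := by fun_prop
    exact this
  have hkx : ∀ a, Measurable (fun x => k x a) := fun a => hkm.comp (measurable_id.prodMk measurable_const)
  have hka : ∀ x, Measurable (fun a => k x a) := fun x => hkm.comp (measurable_const.prodMk measurable_id)
  set P : ℂ → ℝ≥0∞ := fun x => ∫⁻ a, k x a ∂η with hP
  have hPm : Measurable P := Measurable.lintegral_prod_right hkm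
  set c := ENNReal.ofReal (2 * Real.pi) with hc0
  have hc1 : c ≠ 0 := by rw [hc0]; simp; exact hpi
  have hc2 : c ≠ ⊤ := ENNReal.ofReal_ne_top
  have step1 : c * ∫⁻ a, ‖β a‖ₑ ∂η ≤ ∫⁻ x, G x * P x := by
    calc c * ∫⁻ a, ‖β a‖ₑ ∂η = ∫⁻ a, c * ‖β a‖ₑ ∂η := by
          rw [lintegral_const_mul]; exact hβ.continuous.measurable.enorm
      _ ≤ ∫⁻ a, ∫⁻ x, G x * k x a ∂volume ∂η := lintegral_mono (riesz_repr hβ hc hG hGb)
      _ = ∫⁻ x, ∫⁻ a, G x * k x a ∂η ∂volume := by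
          refine lintegral_lintegral_swap (f := fun a x => G x * k x a) ?_
          refine Measurable.aemeasurable ?_
          exact (hG.comp measurable_snd).mul (hkm.comp measurable_swap)
      _ = ∫⁻ x, G x * P x := by
          congr 1; funext x; rw [lintegral_const_mul _ (hka x)]
  have step2 : ∫⁻ x in ball (0:ℂ) 1, P x ^ 2 ≤ ∫⁻ a, ∫⁻ a', Kf (a - a') ∂η ∂η := by
    calc ∫⁻ x in ball (0:ℂ) 1, P x ^ 2
        = ∫⁻ x in ball (0:ℂ) 1, ∫⁻ a, ∫⁻ a', k x a * k x a' ∂η ∂η := by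
          congr 1; funext x
          rw [sq]
          simp only [hP]
          rw [← lintegral_mul_const _ (hka x)]
          congr 1; funext a
          rw [lintegral_const_mul _ (hka x)]
      _ = ∫⁻ a, ∫⁻ x in ball (0:ℂ) 1, ∫⁻ a', k x a * k x a' ∂η ∂volume ∂η := by
          refine lintegral_lintegral_swap (f := fun x a => ∫⁻ a', k x a * k x a' ∂η) ?_
          refine Measurable.aemeasurable ?_
          have h3 : Measurable (fun q : (ℂ × ℂ) × ℂ => k q.1.1 q.1.2 * k q.1.1 q.2) :=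
            (hkm.comp measurable_fst).mul
              (hkm.comp ((measurable_fst.comp measurable_fst).prodMk measurable_snd))
          exact Measurable.lintegral_prod_right (f := fun p : ℂ × ℂ => fun a' => k p.1 p.2 * k p.1 a') h3
      _ = ∫⁻ a, ∫⁻ a', ∫⁻ x in ball (0:ℂ) 1, k x a * k x a' ∂volume ∂η ∂η := by
          congr 1; funext a
          refine lintegral_lintegral_swap (f := fun x a' => k x a * k x a') ?_
          refine Measurable.aemeasurable ?_
          exact ((hkx a).comp measurable_fst).mul hkm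
      _ ≤ ∫⁻ a, ∫⁻ a', Kf (a - a') ∂η ∂η := by
          refine lintegral_mono_ae ?_
          filter_upwards [hη] with a ha
          refine lintegral_mono_ae ?_
          filter_upwards [hη] with a' ha'
          exact riesz_le ha ha'
  have step3 : ∫⁻ x, G x * P x = ∫⁻ x in ball (0:ℂ) 1, G x * P x := by
    rw [← lintegral_indicator measurableSet_ball]
    congr 1; funext x
    by_cases hx : x ∈ ball (0:ℂ) 1
    · rw [indicator_of_mem hx]
    · rw [indicator_of_notMem hx, hG0 x (by rw [mem_ball_zero_iff] at hx; linarith), zero_mul]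
  have step4 : 2 * ∫⁻ a, ‖β a‖ₑ ∂η ≤ 2 * (c⁻¹ * ∫⁻ x in ball (0:ℂ) 1, G x * P x) := by
    gcongr
    rw [← step3]
    calc ∫⁻ a, ‖β a‖ₑ ∂η = c⁻¹ * (c * ∫⁻ a, ‖β a‖ₑ ∂η) := by
          rw [← mul_assoc, ENNReal.inv_mul_cancel hc1 hc2, one_mul]
      _ ≤ c⁻¹ * ∫⁻ x, G x * P x := by gcongr
  refine step4.trans ?_
  have hGP : Measurable (fun x => G x * P x) := hG.mul hPm
  calc 2 * (c⁻¹ * ∫⁻ x in ball (0:ℂ) 1, G x * P x)
      = ∫⁻ x in ball (0:ℂ) 1, 2 * (c⁻¹ * G x) * P x := by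
        rw [← lintegral_const_mul _ hGP, ← lintegral_const_mul _ (hGP.const_mul _)]
        congr 1; funext x; ring
    _ ≤ ∫⁻ x in ball (0:ℂ) 1, ((c⁻¹ * G x) ^ 2 + P x ^ 2) :=
        lintegral_mono (fun x => two_mul_le_sq _ _)
    _ = (∫⁻ x in ball (0:ℂ) 1, (c⁻¹ * G x) ^ 2) + ∫⁻ x in ball (0:ℂ) 1, P x ^ 2 :=
        lintegral_add_right _ (hPm.pow_const 2)
    _ ≤ ENNReal.ofReal (1 / (4 * Real.pi ^ 2)) * (∫⁻ x, G x ^ 2)
        + ∫⁻ a, ∫⁻ a', Kf (a - a') ∂η ∂η := by
        refine add_le_add ?_ step2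
        have e : ∀ x, (c⁻¹ * G x) ^ 2 = ENNReal.ofReal (1 / (4 * Real.pi ^ 2)) * G x ^ 2 := by
          intro x
          rw [mul_pow]
          congr 1
          rw [hc0, ← ENNReal.ofReal_inv_of_pos (by positivity), ← ENNReal.ofReal_pow
            (by positivity)]
          congr 1
          field_simp
          ring
        simp_rw [e]
        rw [lintegral_const_mul _ (hG.pow_const 2)]
        gcongr
        exact Measure.restrict_le_self
    _ = _ := add_comm _ _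

end H13Ceg
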