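import Pool.Agent.H13.Ceg.Env

open MeasureTheory Set Filter Topology Metric
open scoped ContDiff ENNReal NNReal

namespace H13Ceg

/-- the normalising constant -/
noncomputable def c0 : ℝ := 1 / (16 * Real.pi ^ 2)

lemma c0_pos : 0 < c0 := by unfold c0; positivity

/-- extension by zero -/
noncomputable def ext0 (u : E → ℝ) (x : E) : ℝ := if ‖x‖ < 1 then u x else 0

lemma InE0.toB0 {u : E → ℝ} {m : Measure E} (h : InE0 u m) : ∃ C, B0 (ext0 u) C := by
  obtain ⟨C, hC⟩ := h.bounded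
  have hnon : ∀ x, ext0 u x ≤ 0 := by
    intro x; unfold ext0; split_ifs with hx
    · exact h.nonpos x (mem_bidisc.mpr hx)
    · exact le_rfl
  have husc : UpperSemicontinuous (ext0 u) := by
    intro x
    by_cases hx : ‖x‖ < 1
    · have hxB : x ∈ Bidisc := mem_bidisc.mpr hx
      have h1 := h.psh.1 x hxB
      have hopen : IsOpen Bidisc := by rw [bidisc_eq]; exact isOpen_ball
      have h2 : UpperSemicontinuousAt u x := by
        intro y hy
        have := h1 y hy
        rwa [hopen.nhdsWithin_eq hxB] at this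
      intro y hy
      have hy' : u x < y := by simpa [ext0, hx] using hy
      filter_upwards [h2 y hy', hopen.mem_nhds hxB] with z hz hzB
      have : ext0 u z = u z := if_pos (mem_bidisc.mp hzB)
      rw [this]; exact hz
    · intro y hy
      have hy' : 0 < y := by simpa [ext0, hx] using hy
      exact Eventually.of_forall (fun z => (hnon z).trans_lt hy')
  have hbd : ∀ x, |ext0 u x| ≤ |C| := by
    intro x
    rw [abs_le]
    refine ⟨?_, (hnon x).trans (abs_nonneg _)⟩
    unfold ext0; split_ifs with hx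
    · have := hC x (mem_bidisc.mpr hx)
      have := le_abs_self C
      linarith
    · have := abs_nonneg C; linarith
  refine ⟨|C|, ⟨husc, ⟨husc.measurable, hbd⟩, hnon, fun x hx => if_neg (not_lt.mpr hx), ?_, ?_⟩⟩
  · -- uniform boundary behaviour
    intro ε hε
    have hfr : frontier Bidisc = sphere (0 : E) 1 := by
      rw [bidisc_eq, frontier_ball _ one_ne_zero]
    -- local neighbourhoods
    have hloc : ∀ p ∈ sphere (0 : E) 1, ∃ V : Set E, IsOpen V ∧ p ∈ V ∧
        ∀ x ∈ V, ‖x‖ < 1 → -ε ≤ u x := by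
      intro p hp
      have ht := h.boundary p (by rw [hfr]; exact hp)
      have hev : ∀ᶠ x in 𝓝[Bidisc] p, u x ∈ Ioi (-ε) := ht (Ioi_mem_nhds (by linarith))
      rw [eventually_nhdsWithin_iff] at hev
      obtain ⟨V, hV1, hV2, hV3⟩ := _root_.eventually_nhds_iff.mp hev
      exact ⟨V, hV2, hV3, fun x hx hx1 => (hV1 x hx (mem_bidisc.mpr hx1)).le⟩
    choose! V hVo hpV hV using hloc
    have hcov : sphere (0 : E) 1 ⊆ ⋃ p ∈ sphere (0:E) 1, V p := by
      intro p hp
      exact mem_iUnion₂.mpr ⟨p, hp, hpV p hp⟩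
    obtain ⟨δ, hδ, hthick⟩ := (isCompact_sphere (0 : E) 1).exists_thickening_subset_open
      (isOpen_biUnion fun p hp => hVo p hp) hcov
    refine ⟨max (1 - δ) (1/2), max_lt (by linarith) (by norm_num), fun x hx => ?_⟩
    unfold ext0; split_ifs with hx1
    · have hx2 : 1 - δ < ‖x‖ := (le_max_left _ _).trans_lt hx
      have hx3 : (1:ℝ)/2 < ‖x‖ := (le_max_right _ _).trans_lt hx
      have hxpos : 0 < ‖x‖ := by linarith
      have hmem : x ∈ thickening δ (sphere (0 : E) 1) := by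
        rw [mem_thickening_iff]
        refine ⟨(‖x‖⁻¹ : ℝ) • x, ?_, ?_⟩
        · rw [mem_sphere_zero_iff_norm, norm_smul, norm_inv, norm_norm,
            inv_mul_cancel₀ hxpos.ne']
        · rw [dist_eq_norm]
          have e : x - (‖x‖⁻¹ : ℝ) • x = (1 - ‖x‖⁻¹ : ℝ) • x := by rw [sub_smul, one_smul]
          rw [e, norm_smul, Real.norm_eq_abs]
          have h1 : 1 - ‖x‖⁻¹ < 0 := by
            have : 1 < ‖x‖⁻¹ := (one_lt_inv₀ hxpos).mpr hx1
            linarith
          rw [abs_of_neg h1]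
          have : -(1 - ‖x‖⁻¹) * ‖x‖ = 1 - ‖x‖ := by
            field_simp; ring
          rw [this]; linarith
      have := hthick hmem
      obtain ⟨p, hp, hxp⟩ := mem_iUnion₂.mp this
      exact hV p hp x hxp hx1
    · linarith
  · intro x v hd
    have hx : ‖x‖ < 1 := by simpa using hd 0 (by simp)
    have e1 : ext0 u x = u x := if_pos hx
    rw [e1]
    have h1 := h.psh.2 x v (fun ζ hζ => mem_bidisc.mpr (hd ζ hζ))
    refine h1.trans (le_of_eq ?_)
    apply Real.circleAverage_congr_sphere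
    intro ζ hζ
    have hζ1 : ‖ζ‖ ≤ 1 := by
      have : ‖ζ‖ = 1 := by simpa using hζ
      exact this.le
    have e2 : ext0 u (x + ζ • v) = u (x + ζ • v) := if_pos (hd ζ hζ1)
    simp only []
    rw [e2]

lemma D_add_const {v : E} {f : E → ℝ} (c : ℝ) : D v (fun x => f x + c) = D v f := by
  funext x; unfold D; rw [fderiv_add_const]

lemma MM_add_const (f : E → ℝ) (c : ℝ) (x : E) :
    MM (fun y => f y + c) (fun y => f y + c) x = MM f f x := by
  unfold MM Lz Lw Ma Mb; simp only [D_add_const]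

/-- convergence of the Monge-Ampere densities along mollified continuous approximants -/
theorem ma_conv {u : E → ℝ} {m : Measure E} (hma : IsMongeAmpere u m) {ψ : ℕ → E → ℝ}
    (hψ : ∀ n, CC (ψ n)) (hanti : ∀ n x, ψ (n + 1) x ≤ ψ n x)
    (hlim : ∀ x, ‖x‖ < 1 → Tendsto (fun n => ψ n x) atTop (𝓝 (u x))) {h : E → ℝ}
    (hc : Continuous h) (hcs : HasCompactSupport h) {ρ : ℝ} (hρ : ρ < 1)
    (hsupp : tsupport h ⊆ ball 0 ρ) {η : ℝ} (hη : 0 < η) :
    ∃ N : ℕ, ∀ n ≥ N, ∃ δ > 0, ∀ φ : ContDiffBump (0 : E), φ.rOut < δ →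
      |c0 * (∫ x, h x * dens φ (ψ n) x) - ∫ x, h x ∂m| ≤ η := by
  by_contra hcon
  push Not at hcon
  have hfreq : ∃ᶠ n in atTop, ∀ δ > 0, ∃ φ : ContDiffBump (0 : E), φ.rOut < δ ∧
      η < |c0 * (∫ x, h x * dens φ (ψ n) x) - ∫ x, h x ∂m| := by
    rw [frequently_atTop]
    intro N
    obtain ⟨n, hn, h'⟩ := hcon N
    exact ⟨n, hn, h'⟩
  obtain ⟨k, hk, hk2⟩ := extraction_of_frequently_atTop hfreq
  -- closeness thresholds
  have hclose : ∀ i : ℕ, ∃ φ : ContDiffBump (0 : E), φ.rOut < 1 - ρ ∧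
      (∀ x, |moll φ (ψ (k i)) x - ψ (k i) x| ≤ (1/2) ^ (i + 2)) ∧
      η < |c0 * (∫ x, h x * dens φ (ψ (k i)) x) - ∫ x, h x ∂m| := by
    intro i
    obtain ⟨δ, hδ, hd⟩ := (hψ (k i)).moll_close (η := (1/2) ^ (i + 2)) (by positivity)
    obtain ⟨φ, hφ, hφ2⟩ := hk2 i (min δ (1 - ρ)) (lt_min hδ (by linarith))
    exact ⟨φ, hφ.trans_le (min_le_right _ _), hd φ (hφ.trans_le (min_le_left _ _)), hφ2⟩
  choose φ hφ1 hφ2 hφ3 using hclose
  have hmono : ∀ a b x, a ≤ b → ψ b x ≤ ψ a x := by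
    intro a b x hab
    exact antitone_nat_of_succ_le (f := fun n => ψ n x) (fun n => hanti n x) hab
  let s : ℕ → E → ℝ := fun i x => moll (φ i) (ψ (k i)) x + (1/2) ^ i
  have hlimit := hma (ball 0 ρ) isOpen_ball
    (by rw [bidisc_eq]; exact ball_subset_ball hρ.le) s ?_ ?_ ?_ ?_ h hc hcs hsupp
  · -- contradiction
    have hd : ∀ i, ∫ x, h x * maDensity (s i) x = c0 * ∫ x, h x * dens (φ i) (ψ (k i)) x := by
      intro i
      rw [← integral_const_mul]
      congr 1; funext x
      rw [maDensity_eq]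
      have : MM (s i) (s i) x = dens (φ i) (ψ (k i)) x := MM_add_const _ _ x
      rw [this]; unfold c0; ring
    simp_rw [hd] at hlimit
    rw [Metric.tendsto_atTop] at hlimit
    obtain ⟨N, hN⟩ := hlimit η hη
    have h1 := hN N le_rfl
    rw [Real.dist_eq] at h1
    linarith [hφ3 N]
  · intro i
    exact (((hψ (k i)).smooth (φ i)).add contDiff_const).contDiffOn
  · intro i
    refine ⟨?_, ?_⟩
    · exact (((hψ (k i)).smooth (φ i)).continuous.add continuous_const).upperSemicontinuous.upperSemicontinuousOn _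
    · intro x v hxv
      have h1 := (hψ (k i)).moll_sub (φ i) x v (fun ζ hζ =>
        ball_subset_ball (by linarith [hφ1 i]) (hxv ζ hζ))
      have h3 := Real.circleAverage_fun_add (ci_cont ((hψ (k i)).smooth (φ i)).continuous x v)
        (circleIntegrable_const ((1/2:ℝ) ^ i) 0 1)
      rw [Real.circleAverage_const] at h3
      change moll (φ i) (ψ (k i)) x + (1/2) ^ i ≤
        Real.circleAverage (fun ζ : ℂ => moll (φ i) (ψ (k i)) (x + ζ • v) + (1/2) ^ i) 0 1
      rw [h3]; linarith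
  · intro x _
    refine antitone_nat_of_succ_le (fun i => ?_)
    have a1 := (abs_le.mp (hφ2 (i + 1) x)).2
    have a2 := (abs_le.mp (hφ2 i x)).1
    have a3 : ψ (k (i + 1)) x ≤ ψ (k i) x := hmono _ _ x (hk.monotone (Nat.le_succ i))
    simp only [s]
    have p0 : (0:ℝ) < (1/2) ^ i := by positivity
    have p1 : ((1/2:ℝ)) ^ (i + 1) = (1/2) ^ i / 2 := by rw [pow_succ]; ring
    have p2 : ((1/2:ℝ)) ^ (i + 2) = (1/2) ^ i / 4 := by rw [pow_add]; ring
    have p3 : ((1/2:ℝ)) ^ (i + 1 + 2) = (1/2) ^ i / 8 := by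
      rw [show i + 1 + 2 = i + 3 by ring, pow_add]; ring
    rw [p3] at a1
    rw [p2] at a2
    rw [p1]
    linarith
  · intro x hx
    rw [mem_ball_zero_iff] at hx
    have h1 : Tendsto (fun i => ψ (k i) x) atTop (𝓝 (u x)) :=
      (hlim x (by linarith)).comp hk.tendsto_atTop
    have h2 : Tendsto (fun i : ℕ => ((1/2:ℝ)) ^ i) atTop (𝓝 0) :=
      tendsto_pow_atTop_nhds_zero_of_lt_one (by norm_num) (by norm_num)
    have h3 : Tendsto (fun i => moll (φ i) (ψ (k i)) x - ψ (k i) x) atTop (𝓝 0) := by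
      refine squeeze_zero_norm (fun i => ?_) ((h2.comp (tendsto_add_atTop_nat 2)))
      rw [Real.norm_eq_abs]
      exact hφ2 i x
    have h4 := (h3.add h1).add h2
    simp only [zero_add, add_zero, sub_add_cancel] at h4
    exact h4

end H13Ceg
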